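import Pool.Agent.Helper49.DL.Explore

/-!
Block DL2-RF: reflection symmetry of the interface.

`rf ω i = !(ω (bar i))` (Deloc.lean) preserves `confs (box N M) (eta 0)` and the weights (`avg_rf`).
Paper proofs. `rfb` maps the bond `{i, j}` to `{bar i, bar j}`: the horizontal bond at `(x, y)` to the
horizontal bond at `(x, 1 - y)` and the vertical bond at `(x, y)` to the vertical bond at `(x, -y)`.
It is an involution, `Broken (rf ω) (rfb b) ↔ Broken ω b`, and it maps the sides of the plaquette
`(x, y)` to the sides of the plaquette `(x, -y)`, so it preserves `Touch`; it fixes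
`((N + 1, 0), false)`. Hence `interface_rf`. `col_odd`: the number of interface edges in a column is odd
(`gg_low` for `(x, -M)`, together with `ig_unbroken` for `y < -M`... only `y ∈ [-M, M]` matter).
`side_half`: with `a = ∑_{1 ≤ y ≤ M} ig ((x,y),false) = gg (x, 1)`, `b = ∑_{-M ≤ y ≤ -1} ig ((x,y),false)`,
`c = ig ((x,0),false)` in `ZMod 2`: `a + b + c = 1` (`col_odd`), `rf` exchanges `a` and `b`
(`interface_rf`), so `P (a = 1) = P (b = 1)`, and `|P (a = 1) + P (b = 1) - 1| ≤ P (c = 1)`.
-/

open Finset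
open scoped Classical

namespace Pool.Agent.Helper49.DL

/-- Reflection of bonds. -/
def rfb (b : Bond) : Bond := if b.2 then ((b.1.1, 1 - b.1.2), true) else ((b.1.1, -b.1.2), false)

private lemma rfb_rfb4 (b : Bond) : rfb (rfb b) = b := by
  obtain ⟨⟨x, y⟩, c⟩ := b
  cases c <;> simp [rfb]

private lemma broken_rf4 {ω : Cfg} {b : Bond} : Broken (rf ω) (rfb b) ↔ Broken ω b := by
  obtain ⟨⟨x, y⟩, c⟩ := b
  unfold Broken bend rfb rf bar
  cases c
  · have h1 : (1 : ℤ) - -y = y + 1 := by ring
    have h2 : (1 : ℤ) - (-y + 1) = y := by ring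
    simp only [Bool.false_eq_true, if_false, e2, Prod.mk_add_mk, add_zero, h1, h2, ne_eq]
    cases ω (x, y) <;> cases ω (x, y + 1) <;> simp
  · have h1 : (1 : ℤ) - (1 - y) = y := by ring
    have h2 : (1 : ℤ) - (1 - y + 0) = y := by ring
    simp only [if_true, e1, Prod.mk_add_mk, add_zero, h1, ne_eq]
    cases ω (x, y) <;> cases ω (x + 1, y) <;> simp

private lemma side_rfb4 {p : Site} {a : Bond} (h : Side p a) : Side (p.1, -p.2) (rfb a) := by
  obtain ⟨x, y⟩ := p
  rcases h with rfl | rfl | rfl | rfl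
  · refine Or.inr (Or.inr (Or.inr ?_))
    simp only [rfb, if_true, e2, Prod.mk_add_mk, add_zero]
    congr 2
    ring
  · exact Or.inr (Or.inl rfl)
  · refine Or.inr (Or.inr (Or.inl ?_))
    simp [rfb, e1]
  · refine Or.inl ?_
    simp only [rfb, if_true, e2, Prod.mk_add_mk, add_zero]
    congr 2
    ring

private lemma interface_rf4 {N : ℤ} {ω : Cfg} {b : Bond} (h : Interface N ω b) :
    Interface N (rf ω) (rfb b) := by
  refine ⟨broken_rf4.2 h.1, ?_⟩
  have h1 : rfb ((N + 1, 0), false) = ((N + 1, 0), false) := by simp [rfb]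
  rw [← h1]
  refine Relation.ReflTransGen.lift rfb ?_ _ _ h.2
  rintro a c ⟨ha, hc, p, hpa, hpc⟩
  exact ⟨broken_rf4.2 ha, broken_rf4.2 hc, _, side_rfb4 hpa, side_rfb4 hpc⟩

theorem interface_rf {N : ℤ} {ω : Cfg} {b : Bond} :
    Interface N (rf ω) (rfb b) ↔ Interface N ω b := by
  constructor
  · intro h
    have h1 := interface_rf4 h
    rwa [rf_rf, rfb_rfb4] at h1
  · exact interface_rf4

section

variable {N M : ℤ}

theorem col_odd {ω : Cfg} (h : ω ∈ confs (box N M) (eta 0)) (hN : 0 ≤ N) (hM : 1 ≤ M) (x : ℤ) :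
    ∑ y ∈ Finset.Icc (-M) M, ig N ω ((x, y), false) = 1 := by
  have h1 := gg_low h hN hM (i := (x, -M)) (by rw [mem_box]; simp only; omega)
    (by simp only; omega)
  exact h1

/-- The event that the interface meets the column `x` at height at most `-K`. -/
def Beneath (N : ℤ) (x K : ℤ) (ω : Cfg) : Prop := ∃ y, y ≤ -K ∧ Interface N ω ((x, y), false)

theorem beneath_eq (hM : 1 ≤ M) (β J : ℝ) (x K : ℤ) :
    avg β (kap J) (box N M) (eta 0) (fun ω => if Beneath N x K ω then 1 else 0) =
      avg β (kap J) (box N M) (eta 0) (fun ω => if Above N x K ω then 1 else 0) := by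
  rw [← avg_rf hM β J (fun ω => if Above N x K ω then 1 else 0)]
  refine avg_congr fun ω _ => ?_
  have key : Beneath N x K ω ↔ Above N x K (rf ω) := by
    constructor
    · rintro ⟨y, hy, h⟩
      exact ⟨-y, by omega, by simpa [rfb] using interface_rf4 h⟩
    · rintro ⟨y, hy, h⟩
      refine ⟨-y, by omega, ?_⟩
      have h1 := interface_rf4 h
      rw [rf_rf] at h1
      simpa [rfb] using h1
  by_cases h : Beneath N x K ω
  · rw [if_pos h, if_pos (key.1 h)]
  · rw [if_neg h, if_neg (fun h' => h (key.2 h'))]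

theorem side_half (hN : 0 ≤ N) (hM : 1 ≤ M) (β J : ℝ) (x : ℤ) :
    |avg β (kap J) (box N M) (eta 0) (fun ω => if gg N M ω (x, 1) = 1 then 1 else 0) - 1 / 2| ≤
      avg β (kap J) (box N M) (eta 0) (fun ω => if Interface N ω ((x, 0), false) then 1 else 0) := by
  set A : Cfg → ℝ := fun ω => if gg N M ω (x, 1) = 1 then 1 else 0 with hA
  set C : Cfg → ℝ := fun ω => if Interface N ω ((x, 0), false) then 1 else 0 with hC
  -- the pointwise inequality
  have hpt : ∀ ω ∈ confs (box N M) (eta 0), |A ω + A (rf ω) - 1| ≤ C ω := by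
    intro ω hω
    have hcol := col_odd hω hN hM x
    have hb : gg N M (rf ω) (x, 1) = ∑ y ∈ Finset.Icc (-M) (-1), ig N ω ((x, y), false) := by
      unfold gg
      refine Finset.sum_bij' (fun y _ => -y) (fun y _ => -y) ?_ ?_ ?_ ?_ ?_
      · intro y hy
        rw [Finset.mem_Icc] at hy ⊢
        simp only at hy
        omega
      · intro y hy
        rw [Finset.mem_Icc] at hy ⊢
        simp only
        omega
      · intro y _
        exact neg_neg y
      · intro y _
        exact neg_neg y
      · intro y _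
        have h1 : Interface N (rf ω) ((x, y), false) ↔ Interface N ω ((x, -y), false) := by
          have h2 : rfb ((x, -y), false) = ((x, y), false) := by simp [rfb]
          rw [← h2]
          exact interface_rf
        unfold ig
        by_cases h3 : Interface N ω ((x, -y), false)
        · rw [if_pos h3, if_pos (h1.2 h3)]
        · rw [if_neg h3, if_neg (fun h' => h3 (h1.1 h'))]
    have hsplit : ∑ y ∈ Finset.Icc (-M) M, ig N ω ((x, y), false) =
        (∑ y ∈ Finset.Icc (-M) (-1), ig N ω ((x, y), false)) +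
          (ig N ω ((x, 0), false) + gg N M ω (x, 1)) := by
      have h1 : Finset.Icc (-M) M = Finset.Icc (-M) (-1) ∪ (insert 0 (Finset.Icc 1 M)) := by
        ext z
        simp only [Finset.mem_Icc, Finset.mem_union, Finset.mem_insert]
        omega
      rw [h1, Finset.sum_union, Finset.sum_insert]
      · rfl
      · simp
      · rw [Finset.disjoint_left]
        intro z hz hz'
        simp only [Finset.mem_Icc, Finset.mem_insert] at hz hz'
        omega
    rw [hsplit, ← hb] at hcol
    have hv : ∀ (P : Prop) [Decidable P], (0 : ℝ) ≤ (if P then (1 : ℝ) else 0) ∧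
        (if P then (1 : ℝ) else 0) ≤ 1 := by
      intro P _
      split_ifs <;> norm_num
    by_cases hI : Interface N ω ((x, 0), false)
    · have hc1 : C ω = 1 := if_pos hI
      rw [hc1, abs_le]
      have h1 := hv (gg N M ω (x, 1) = 1)
      have h2 := hv (gg N M (rf ω) (x, 1) = 1)
      have h3 : A ω = if gg N M ω (x, 1) = 1 then 1 else 0 := rfl
      have h4 : A (rf ω) = if gg N M (rf ω) (x, 1) = 1 then 1 else 0 := rfl
      rw [h3, h4]
      constructor <;> linarith [h1.1, h1.2, h2.1, h2.2]
    · have hc0 : C ω = 0 := if_neg hI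
      have hi0 : ig N ω ((x, 0), false) = 0 := if_neg hI
      rw [hi0, zero_add] at hcol
      rw [hc0]
      have h3 : A ω = if gg N M ω (x, 1) = 1 then 1 else 0 := rfl
      have h4 : A (rf ω) = if gg N M (rf ω) (x, 1) = 1 then 1 else 0 := rfl
      rw [h3, h4]
      have h5 : ∀ u v : ZMod 2, u + v = 1 → (u = 1 ∧ v ≠ 1) ∨ (u ≠ 1 ∧ v = 1) := by decide
      rcases h5 _ _ hcol with ⟨h6, h7⟩ | ⟨h6, h7⟩
      · rw [if_neg h7, if_pos h6]
        norm_num
      · rw [if_pos h7, if_neg h6]
        norm_num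
  -- integrate
  have hrf := avg_rf (N := N) hM β J A
  have h1 : avg β (kap J) (box N M) (eta 0) (fun ω => A ω + A (rf ω) - 1) =
      2 * avg β (kap J) (box N M) (eta 0) A - 1 := by
    rw [avg_sub, avg_add, hrf, avg_const]
    ring
  have h2 : avg β (kap J) (box N M) (eta 0) (fun ω => A ω + A (rf ω) - 1) ≤
      avg β (kap J) (box N M) (eta 0) C :=
    avg_mono fun ω hω => (le_abs_self _).trans (hpt ω hω)
  have h3 : avg β (kap J) (box N M) (eta 0) (fun ω => (-1) * C ω) ≤
      avg β (kap J) (box N M) (eta 0) (fun ω => A ω + A (rf ω) - 1) :=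
    avg_mono fun ω hω => by
      have := (abs_le.1 (hpt ω hω)).1
      linarith
  rw [avg_smul] at h3
  rw [h1] at h2 h3
  have h4 : 0 ≤ avg β (kap J) (box N M) (eta 0) C :=
    avg_nonneg fun ω hω => (abs_nonneg _).trans (hpt ω hω)
  rw [abs_le]
  constructor <;> linarith

end

end Pool.Agent.Helper49.DL
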