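import Pool.Agent.Helper49.DL.Explore

/-!
Lower bound for the probability that the interface passes above a given height, in terms of the
magnetization profile of the homogeneous model.
-/

open Finset
open scoped Classical

namespace Pool.Agent.Helper49.DL

section

variable {β J : ℝ}

lemma Zg_kap_congr {κ κ' : Site → ℝ} {Λ : Finset Site} (h : ∀ i ∈ vb Λ, κ i = κ' i) (η : Cfg)
    (F : Cfg → ℝ) : Zg β κ Λ η F = Zg β κ' Λ η F := by
  unfold Zg
  refine Finset.sum_congr rfl fun ω _ => ?_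
  have : en κ Λ ω = en κ' Λ ω := by
    unfold en
    congr 1
    exact Finset.sum_congr rfl fun i hi => by rw [h i hi]
  unfold wg
  rw [this]

lemma avg_kap_congr {κ κ' : Site → ℝ} {Λ : Finset Site} (h : ∀ i ∈ vb Λ, κ i = κ' i) (η : Cfg)
    (F : Cfg → ℝ) : avg β κ Λ η F = avg β κ' Λ η F := by
  unfold avg; rw [Zg_kap_congr h, Zg_kap_congr h]

/-- Magnetization at the centre of a box. -/
noncomputable def ar (β : ℝ) (r : ℕ) : ℝ := avg β (kap 1) (box r r) tt (fun ω => sp (ω (0, 0)))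

lemma mag_le_ar (β : ℝ) (r : ℕ) : mag β ≤ ar β r := ciInf_le (mag_bdd β) r

lemma ar_le_one (β : ℝ) (r : ℕ) : ar β r ≤ 1 := by
  refine (avg_mono (G := fun _ => 1) fun ω _ => ?_).trans (le_of_eq (avg_const 1))
  cases ω (0, 0) <;> simp <;> norm_num

lemma exists_ar {δ : ℝ} (hδ : 0 < δ) : ∃ r : ℕ, 1 ≤ r ∧ ar β r ≤ mag β + δ := by
  obtain ⟨n, hn⟩ := exists_lt_of_ciInf_lt (show mag β < mag β + δ by linarith)
  rcases Nat.eq_zero_or_pos n with rfl | h
  · refine ⟨1, le_rfl, (ar_le_one β 1).trans ?_⟩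
    have h0 : ((0 : ℤ), (0 : ℤ)) ∉ box ((0 : ℕ) : ℤ) ((0 : ℕ) : ℤ) := by
      rw [mem_box]; simp
    have : avg β (kap 1) (box ((0 : ℕ) : ℤ) ((0 : ℕ) : ℤ)) tt (fun ω => sp (ω (0, 0))) = 1 := by
      rw [← avg_const (β := β) (κ := kap 1) (Λ := box ((0 : ℕ) : ℤ) ((0 : ℕ) : ℤ)) (η := tt) 1]
      refine avg_congr fun ω hω => ?_
      rw [mem_confs] at hω
      rw [hω _ h0]; rfl
    rw [this] at hn
    exact hn.le
  · exact ⟨n, h, hn.le⟩

lemma mem_ball {v : Site} {r : ℕ} {i : Site} : i ∈ tr v (box r r) ↔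
    (v.1 - r ≤ i.1 ∧ i.1 ≤ v.1 + r) ∧ (v.2 - r + 1 ≤ i.2 ∧ i.2 ≤ v.2 + r) := by
  rw [mem_tr, mem_box]
  simp only [Prod.fst_sub, Prod.snd_sub]
  omega

/-- One-point function at the centre of a ball away from the defect line. -/
lemma avg_ball {v : Site} {r : ℕ} (hv : (r : ℤ) + 1 ≤ v.2) :
    avg β (kap J) (tr v (box r r)) tt (fun ω => sp (ω v)) = ar β r := by
  have h : ∀ i ∈ vb (tr v (box (r : ℤ) r)), kap J i = kap 1 i := by
    intro i hi
    rw [mem_vb, mem_ball, mem_ball] at hi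
    unfold kap
    have : i.2 ≠ 0 := by
      rcases hi with hi | hi
      · omega
      · simp only [e2, Prod.snd_add] at hi; omega
    rw [if_neg this, if_neg this]
  rw [avg_kap_congr h]
  have := avg_tr (β := β) (κ := kap 1) (Λ := box (r : ℤ) r) (η := tt) v (fun ω => sp (ω v))
  rw [shift_tt, kap_one_shift] at this
  rw [this]
  unfold ar
  congr 1
  funext ω
  simp only [shift, sub_self]
  rfl

/-- Two-point bound. -/
lemma two_point (hβ : 0 ≤ β) (hJ : 1 ≤ J) {Λ : Finset Site} (η : Cfg) {v w : Site} {r : ℕ}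
    (hr : 1 ≤ r) (hv : (r : ℤ) + 1 ≤ v.2) (hw : (r : ℤ) + 1 ≤ w.2)
    (hvw : v.2 + 2 * r + 1 ≤ w.2) (hΛv : tr v (box r r) ⊆ Λ) (hΛw : tr w (box r r) ⊆ Λ) :
    avg β (kap J) Λ η (fun ω => sp (ω v) * sp (ω w)) ≤ ar β r ^ 2 := by
  have hJ0 : 0 ≤ J := by linarith
  set Λv := tr v (box (r : ℤ) r) with hΛv'
  set Λw := tr w (box (r : ℤ) r) with hΛw'
  have hvin : v ∈ Λv := by rw [mem_ball]; omega
  have hwin : w ∈ Λw := by rw [mem_ball]; omega
  have hne : v ≠ w := by rintro rfl; omega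
  have hch : ch {v, w} = fun ω => sp (ω v) * sp (ω w) := by
    funext ω; unfold ch; rw [Finset.prod_pair hne]
  have hsub : ({v, w} : Finset Site) ⊆ Λv ∪ Λw := by
    intro i hi
    simp only [Finset.mem_insert, Finset.mem_singleton] at hi
    rcases hi with rfl | rfl
    · exact Finset.mem_union_left _ hvin
    · exact Finset.mem_union_right _ hwin
  have h1 := avg_dom_mono hβ (kap_nonneg hJ0) (Finset.union_subset hΛv hΛw) η hsub
  have h2 := (abs_le.1 h1).2
  rw [hch] at h2
  refine h2.trans ?_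
  -- factorise
  have hvw' : v ∉ Λw := by rw [mem_ball]; omega
  have hd := dlr (β := β) (κ := kap J) (Λ := Λv ∪ Λw) (Λ' := Λw) (η := tt)
    Finset.subset_union_right (fun ω => sp (ω v)) (fun ω => sp (ω w)) (by
      intro ω ξ hξ
      rw [mem_confs] at hξ
      rw [hξ v hvw'])
  have hcond : ∀ ω ∈ confs (Λv ∪ Λw) tt, avg β (kap J) Λw ω (fun ω => sp (ω w)) = ar β r := by
    intro ω hω
    rw [← avg_ball (β := β) (J := J) hw]
    refine avg_sameBdry (fun i hi hadj => ?_) (fun ω ω' h => by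
      have := h w hwin
      simp only [this])
    rw [mem_confs] at hω
    refine (hω i ?_).symm
    rw [Finset.mem_union]
    rintro (h | h)
    · rw [mem_ball] at h
      rcases hadj with h' | h' | h' | h' <;> rw [mem_ball] at h' <;>
        simp only [e1, e2, Prod.fst_add, Prod.snd_add, Prod.fst_sub, Prod.snd_sub] at h' <;> omega
    · exact hi h
  have hfac : avg β (kap J) (Λv ∪ Λw) tt (fun ω => sp (ω v) * sp (ω w)) =
      ar β r * avg β (kap J) (Λv ∪ Λw) tt (fun ω => sp (ω v)) := by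
    unfold avg at hd ⊢
    rw [hd]
    have : Zg β (kap J) (Λv ∪ Λw) tt (fun ω => sp (ω v) *
        (Zg β (kap J) Λw ω (fun ω => sp (ω w)) / Zg β (kap J) Λw ω (fun _ => 1))) =
        Zg β (kap J) (Λv ∪ Λw) tt (fun ω => ar β r * sp (ω v)) := by
      refine Zg_congr fun ω hω => ?_
      have := hcond ω hω
      unfold avg at this
      rw [this]; ring
    rw [this, Zg_smul]
    ring
  rw [hfac]
  have har : 0 ≤ ar β r := (mag_nonneg hβ).trans (mag_le_ar β r)
  have h3 := avg_dom_mono hβ (kap_nonneg hJ0) (Finset.subset_union_left (s₁ := Λv) (s₂ := Λw)) tt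
    (Finset.singleton_subset_iff.2 hvin)
  rw [ch_singleton, avg_ball hv] at h3
  have h4 := (abs_le.1 h3).2
  rw [sq]
  exact mul_le_mul_of_nonneg_left h4 har

end

section

variable {N M : ℤ} {β J : ℝ}

/-- Average of the spins in a vertical segment. -/
noncomputable def seg (x K : ℤ) (L : ℕ) (ω : Cfg) : ℝ :=
  (L : ℝ)⁻¹ * ∑ k ∈ Finset.range L, sp (ω (x, K + k))

/-- Second moment of the segment average. -/
lemma seg_sq (hβ : 0 ≤ β) (hJ : 1 ≤ J) {r L : ℕ} (hr : 1 ≤ r) (hL : 1 ≤ L) {x K : ℤ}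
    (hK : (r : ℤ) + 1 ≤ K) (hKM : K + L + r ≤ M) (hx : |x| + r ≤ N) :
    avg β (kap J) (box N M) (eta 0) (fun ω => seg x K L ω ^ 2) ≤
      ar β r ^ 2 + (4 * r + 1) / L := by
  have hLpos : (0 : ℝ) < L := by exact_mod_cast hL
  have hx1 := abs_le.1 (le_refl |x|)
  have hball : ∀ k : ℕ, k < L → tr (x, K + k) (box (r : ℤ) r) ⊆ box N M := by
    intro k hk i hi
    rw [mem_ball] at hi
    rw [mem_box]
    simp only at hi
    omega
  have hpair : ∀ k l : ℕ, k < L → l < L →
      avg β (kap J) (box N M) (eta 0) (fun ω => sp (ω (x, K + k)) * sp (ω (x, K + l))) ≤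
        ar β r ^ 2 + if (k ≤ l + 2 * r ∧ l ≤ k + 2 * r) then 1 else 0 := by
    intro k l hk hl
    by_cases h : k ≤ l + 2 * r ∧ l ≤ k + 2 * r
    · rw [if_pos h]
      have h1 : avg β (kap J) (box N M) (eta 0) (fun ω => sp (ω (x, K + k)) * sp (ω (x, K + l))) ≤
          1 := by
        refine (avg_mono (G := fun _ => 1) fun ω _ => ?_).trans (le_of_eq (avg_const 1))
        cases ω (x, K + k) <;> cases ω (x, K + l) <;> simp <;> norm_num
      have := sq_nonneg (ar β r)
      linarith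
    · rw [if_neg h, add_zero]
      rw [not_and_or] at h
      rcases h with h | h
      · have h2 := two_point (Λ := box N M) hβ hJ (eta 0) (v := (x, K + l)) (w := (x, K + k)) hr
          (by simp only; omega) (by simp only; omega) (by simp only; omega) (hball l hl)
          (hball k hk)
        refine le_trans (le_of_eq ?_) h2
        congr 1; funext ω; ring
      · exact two_point (Λ := box N M) hβ hJ (eta 0) (v := (x, K + k)) (w := (x, K + l)) hr
          (by simp only; omega) (by simp only; omega) (by simp only; omega) (hball k hk)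
          (hball l hl)
  have e1' : (fun ω => seg x K L ω ^ 2) = fun ω => ((L : ℝ)⁻¹ ^ 2) *
      ∑ k ∈ Finset.range L, ∑ l ∈ Finset.range L, sp (ω (x, K + k)) * sp (ω (x, K + l)) := by
    funext ω
    unfold seg
    rw [mul_pow, sq (∑ k ∈ Finset.range L, _), Finset.sum_mul_sum]
  rw [e1', avg_smul, avg_sum]
  have e2' : ∑ k ∈ Finset.range L, avg β (kap J) (box N M) (eta 0)
      (fun ω => ∑ l ∈ Finset.range L, sp (ω (x, K + k)) * sp (ω (x, K + l))) ≤
      ∑ _k ∈ Finset.range L, ((L : ℝ) * ar β r ^ 2 + (4 * r + 1)) := by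
    refine Finset.sum_le_sum fun k hk => ?_
    rw [Finset.mem_range] at hk
    rw [avg_sum]
    refine (Finset.sum_le_sum fun l hl => hpair k l hk (Finset.mem_range.1 hl)).trans ?_
    rw [Finset.sum_add_distrib, Finset.sum_const, Finset.card_range, nsmul_eq_mul]
    have hc : ∑ l ∈ Finset.range L, (if (k ≤ l + 2 * r ∧ l ≤ k + 2 * r) then (1 : ℝ) else 0) ≤
        4 * r + 1 := by
      rw [Finset.sum_ite, Finset.sum_const_zero, add_zero, Finset.sum_const, nsmul_eq_mul, mul_one]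
      have : ((Finset.range L).filter (fun l => k ≤ l + 2 * r ∧ l ≤ k + 2 * r)).card ≤ 4 * r + 1 := by
        have hsub : (Finset.range L).filter (fun l => k ≤ l + 2 * r ∧ l ≤ k + 2 * r) ⊆
            Finset.Icc (k - 2 * r) (k + 2 * r) := by
          intro l hl
          rw [Finset.mem_filter] at hl
          rw [Finset.mem_Icc]
          omega
        refine (Finset.card_le_card hsub).trans ?_
        rw [Nat.card_Icc]
        omega
      exact_mod_cast this
    linarith
  refine (mul_le_mul_of_nonneg_left e2' (by positivity)).trans (le_of_eq ?_)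
  rw [Finset.sum_const, Finset.card_range, nsmul_eq_mul]
  field_simp

lemma seg_abs_le {a : ℝ} (ha : 0 < a) (x K : ℤ) (L : ℕ) (ω : Cfg) :
    |seg x K L ω| ≤ (2 * a)⁻¹ * (seg x K L ω ^ 2 + a ^ 2) := by
  rw [inv_mul_eq_div, le_div_iff₀ (by positivity), ← sq_abs (seg x K L ω)]
  nlinarith [sq_nonneg (|seg x K L ω| - a)]

/-- Exploration: no site of the segment is star-connected to the lower boundary. -/
lemma no_low (hβ : 0 ≤ β) (hJ : 1 ≤ J) {x K : ℤ} {L : ℕ} (hL : 1 ≤ L)
    (hA : ∀ k : ℕ, k < L → ((x, K + k) : Site) ∈ box N M) :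
    mag β * avg β (kap J) (box N M) (eta 0)
        (fun ω => if ∀ k : ℕ, k < L → ¬ Low N M ω (x, K + k) then 1 else 0) ≤
      avg β (kap J) (box N M) (eta 0)
        (fun ω => (if ∀ k : ℕ, k < L → ¬ Low N M ω (x, K + k) then 1 else 0) * seg x K L ω) := by
  set Z := Zg β (kap J) (box N M) (eta 0) with hZ
  have hLpos : (0 : ℝ) < L := by exact_mod_cast hL
  set U : Cfg → ℝ := fun ω => if ∀ k : ℕ, k < L → ¬ Low N M ω (x, K + k) then 1 else 0 with hU
  set 𝓑 := (box N M).powerset.filter (fun B => ∀ k : ℕ, k < L → ((x, K + k) : Site) ∉ B) with h𝓑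
  have hsum : ∀ (G : Cfg → ℝ) (ω : Cfg), ∑ B ∈ 𝓑, (if Bs N M ω = B then (1 : ℝ) else 0) * G ω =
      U ω * G ω := by
    intro G ω
    rw [← Finset.sum_mul, Finset.sum_ite_eq]
    congr 1
    have hiff : Bs N M ω ∈ 𝓑 ↔ ∀ k : ℕ, k < L → ¬ Low N M ω (x, K + k) := by
      rw [h𝓑, Finset.mem_filter]
      constructor
      · rintro ⟨_, h2⟩ k hk hl
        exact h2 k hk (Finset.mem_filter.2 ⟨hA k hk, hl⟩)
      · intro h
        exact ⟨Finset.mem_powerset.2 (Finset.filter_subset _ _),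
          fun k hk h2 => h k hk (Finset.mem_filter.1 h2).2⟩
    simp only [hU, hiff]
  have hone : ∀ k : ℕ, k < L → mag β * Z U ≤ Z (fun ω => U ω * sp (ω (x, K + k))) := by
    intro k hk
    have e1' : Z U = ∑ B ∈ 𝓑, Z (fun ω => if Bs N M ω = B then 1 else 0) := by
      rw [hZ, ← Zg_sum]
      refine Zg_congr fun ω _ => ?_
      have := hsum (fun _ => 1) ω
      simp only [mul_one] at this
      exact this.symm
    have e2' : Z (fun ω => U ω * sp (ω (x, K + k))) =
        ∑ B ∈ 𝓑, Z (fun ω => (if Bs N M ω = B then 1 else 0) * sp (ω (x, K + k))) := by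
      rw [hZ, ← Zg_sum]
      refine Zg_congr fun ω _ => ?_
      exact (hsum (fun ω => sp (ω (x, K + k))) ω).symm
    rw [e1', e2', Finset.mul_sum]
    refine Finset.sum_le_sum fun B hB => cond_lower hβ hJ (hA k hk) ?_
    exact (Finset.mem_filter.1 hB).2 k hk
  have htot : (L : ℝ) * (mag β * Z U) ≤ (L : ℝ) * Z (fun ω => U ω * seg x K L ω) := by
    have e1' : (L : ℝ) * Z (fun ω => U ω * seg x K L ω) =
        ∑ k ∈ Finset.range L, Z (fun ω => U ω * sp (ω (x, K + k))) := by
      rw [hZ, ← Zg_smul, ← Zg_sum]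
      refine Zg_congr fun ω _ => ?_
      unfold seg
      rw [← Finset.mul_sum]
      field_simp
    rw [e1']
    have : (L : ℝ) * (mag β * Z U) = ∑ _k ∈ Finset.range L, mag β * Z U := by
      rw [Finset.sum_const, Finset.card_range, nsmul_eq_mul]
    rw [this]
    exact Finset.sum_le_sum fun k hk => hone k (Finset.mem_range.1 hk)
  have h := le_of_mul_le_mul_left htot hLpos
  have hz : 0 < Z (fun _ => 1) := Zg_one_pos
  change mag β * (Z U / Z (fun _ => 1)) ≤ Z (fun ω => U ω * seg x K L ω) / Z (fun _ => 1)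
  rw [mul_div_assoc']
  exact div_le_div_of_nonneg_right h hz.le

/-- Main finite volume inequality. -/
theorem above_finite (hβ : 0 ≤ β) (hm : 0 < mag β) (hJ : 1 ≤ J) {r L : ℕ} (hr : 1 ≤ r)
    (hL : 1 ≤ L) {x K : ℤ} (hK : (r : ℤ) + 1 ≤ K) (hKM : K + L + r ≤ M) (hx : |x| + r ≤ N) :
    1 - (2 * mag β)⁻¹ * (ar β r + (4 * r + 1) / (2 * ar β r * L) +
        avg β (kap J) (box N M) (eta 0) (seg x K L)) ≤
      avg β (kap J) (box N M) (eta 0) (fun ω => if Above N x K ω then 1 else 0) := by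
  have hx1 := abs_le.1 (le_refl |x|)
  have hLpos : (0 : ℝ) < L := by exact_mod_cast hL
  have har : 0 < ar β r := hm.trans_le (mag_le_ar β r)
  have hA : ∀ k : ℕ, k < L → ((x, K + k) : Site) ∈ box N M := by
    intro k hk; rw [mem_box]; simp only; omega
  have hM1 : 1 ≤ M := by omega
  have hN0 : 0 ≤ N := by have := abs_nonneg x; omega
  set E := avg β (kap J) (box N M) (eta 0) with hE
  set U : Cfg → ℝ := fun ω => if ∀ k : ℕ, k < L → ¬ Low N M ω (x, K + k) then 1 else 0 with hU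
  have h1 := no_low hβ hJ hL hA
  have h2 : E (fun ω => U ω * seg x K L ω) ≤
      E (fun ω => (2 : ℝ)⁻¹ * ((2 * ar β r)⁻¹ * (seg x K L ω ^ 2 + ar β r ^ 2) + seg x K L ω)) := by
    refine avg_mono fun ω _ => ?_
    have h3 := seg_abs_le har x K L ω
    have h4 := le_abs_self (seg x K L ω)
    have h5 := neg_abs_le (seg x K L ω)
    simp only [hU]
    split_ifs
    · linarith
    · linarith
  have h3 : E (fun ω => (2 : ℝ)⁻¹ * ((2 * ar β r)⁻¹ * (seg x K L ω ^ 2 + ar β r ^ 2) +
      seg x K L ω)) = 2⁻¹ * ((2 * ar β r)⁻¹ * (E (fun ω => seg x K L ω ^ 2) + ar β r ^ 2) +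
        E (seg x K L)) := by
    rw [hE, avg_smul, avg_add (fun ω => (2 * ar β r)⁻¹ * (seg x K L ω ^ 2 + ar β r ^ 2))
      (seg x K L), avg_smul, avg_add (fun ω => seg x K L ω ^ 2) (fun _ => ar β r ^ 2), avg_const]
  have h4 := seg_sq hβ hJ hr hL hK hKM hx
  have h5 : (2 * ar β r)⁻¹ * (E (fun ω => seg x K L ω ^ 2) + ar β r ^ 2) ≤
      ar β r + (4 * r + 1) / (2 * ar β r * L) := by
    have h6 : (2 * ar β r)⁻¹ * (E (fun ω => seg x K L ω ^ 2) + ar β r ^ 2) ≤
        (2 * ar β r)⁻¹ * (ar β r ^ 2 + (4 * r + 1) / L + ar β r ^ 2) :=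
      mul_le_mul_of_nonneg_left (by linarith) (by positivity)
    refine h6.trans (le_of_eq ?_)
    field_simp
    ring
  have hPU : E U ≤ (2 * mag β)⁻¹ * (ar β r + (4 * r + 1) / (2 * ar β r * L) + E (seg x K L)) := by
    have h6 : mag β * E U ≤ 2⁻¹ * (ar β r + (4 * r + 1) / (2 * ar β r * L) + E (seg x K L)) := by
      refine h1.trans (h2.trans ?_)
      rw [h3]
      linarith
    rw [mul_inv, mul_assoc, mul_comm (2 : ℝ)⁻¹, mul_assoc, ← div_eq_inv_mul, le_div_iff₀ hm]
    rw [mul_comm (E U)]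
    linarith
  have h7 : 1 - E U ≤ E (fun ω => if Above N x K ω then 1 else 0) := by
    have h8 : 1 - E U = E (fun ω => 1 - U ω) := by
      have := avg_sub (β := β) (κ := kap J) (Λ := box N M) (η := eta 0) (fun _ => 1) U
      rw [avg_const] at this
      exact this.symm
    rw [h8]
    refine avg_mono fun ω hω => ?_
    simp only [hU]
    by_cases hu : ∀ k : ℕ, k < L → ¬ Low N M ω (x, K + k)
    · rw [if_pos hu]; split_ifs <;> norm_num
    · rw [if_neg hu]
      push Not at hu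
      obtain ⟨k, hk, hl⟩ := hu
      obtain ⟨y, hy1, hy2⟩ := low_below hω hN0 hM1 hl
      have hAb : Above N x K ω := ⟨y, by simp only at hy1; omega, hy2⟩
      rw [if_pos hAb]; norm_num
  linarith

lemma seg_avg (κ : Site → ℝ) (Λ : Finset Site) (η : Cfg) (x K : ℤ) (L : ℕ) :
    avg β κ Λ η (seg x K L) =
      (L : ℝ)⁻¹ * ∑ k ∈ Finset.range L, avg β κ Λ η (fun ω => sp (ω (x, K + k))) := by
  have : seg x K L = fun ω => (L : ℝ)⁻¹ * ∑ k ∈ Finset.range L, sp (ω (x, K + k)) := rfl
  rw [this, avg_smul, avg_sum]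

/-- Comparison with the homogeneous model: for `J ≥ 1` the interface passes above `K` in the column
`x` with probability at least `1/2 - (profile of the homogeneous model at height K) / (2 m)`, up to
an error which is small uniformly in the box, the column and the height. -/
theorem above_compare (hβ : 0 ≤ β) (hm : 0 < mag β) {t : ℝ} (ht : 0 < t) :
    ∃ r L : ℕ, 1 ≤ L ∧ ∀ J : ℝ, 1 ≤ J → ∀ N M x K : ℤ, (r : ℤ) ≤ K → K + L + r ≤ M → |x| + r ≤ N →
      1 / 2 - (2 * mag β)⁻¹ * avg β (kap 1) (box N M) (eta 0) (seg x K L) - t ≤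
        avg β (kap J) (box N M) (eta 0) (fun ω => if Above N x K ω then 1 else 0) := by
  obtain ⟨r, hr, har⟩ := exists_ar (β := β) (δ := mag β * t) (by positivity)
  have harm := mag_le_ar β r
  obtain ⟨L, hL⟩ := exists_nat_gt ((4 * r + 1) / (2 * mag β * (mag β * t)))
  have hLpos : (0 : ℝ) < L := lt_of_le_of_lt (by positivity) hL
  have hL1 : 1 ≤ L := by exact_mod_cast hLpos
  refine ⟨r + 1, L, hL1, fun J hJ N M x K hK hKM hx => ?_⟩
  push_cast at hK hKM hx
  have h := above_finite (J := J) hβ hm hJ hr hL1 (x := x) (K := K) (N := N) (M := M)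
    hK (by omega) (by omega)
  refine le_trans ?_ h
  have h1 : (4 * (r : ℝ) + 1) / (2 * ar β r * L) ≤ mag β * t := by
    have hpos : 0 < 2 * ar β r * L := by
      have : 0 < ar β r := hm.trans_le harm
      positivity
    rw [div_le_iff₀ hpos]
    rw [div_lt_iff₀ (by positivity)] at hL
    have h2 : mag β * t * (2 * mag β * L) ≤ mag β * t * (2 * ar β r * L) := by
      gcongr
    nlinarith
  have h2 : avg β (kap J) (box N M) (eta 0) (seg x K L) ≤
      avg β (kap 1) (box N M) (eta 0) (seg x K L) := by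
    rw [seg_avg, seg_avg]
    refine mul_le_mul_of_nonneg_left (Finset.sum_le_sum fun k hk => ?_) (by positivity)
    rw [Finset.mem_range] at hk
    have hM1 : 1 ≤ M := by omega
    rw [avg_sp_eq hM1, avg_sp_eq hM1]
    refine J_mono hM1 hβ hJ ?_
    have hx1 := abs_le.1 (le_refl |x|)
    rw [mem_ubox]
    simp only
    omega
  have h3 : (2 * mag β)⁻¹ * (ar β r + (4 * r + 1) / (2 * ar β r * L) +
      avg β (kap J) (box N M) (eta 0) (seg x K L)) ≤
      (2 * mag β)⁻¹ * (mag β + mag β * t + mag β * t +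
        avg β (kap 1) (box N M) (eta 0) (seg x K L)) := by
    refine mul_le_mul_of_nonneg_left ?_ (by positivity)
    linarith
  have h4 : (2 * mag β)⁻¹ * (mag β + mag β * t + mag β * t +
        avg β (kap 1) (box N M) (eta 0) (seg x K L)) =
      1 / 2 + t + (2 * mag β)⁻¹ * avg β (kap 1) (box N M) (eta 0) (seg x K L) := by
    field_simp
    ring
  linarith

/-- For `J ≥ 1` the interface passes above any fixed height with probability at least `1/2 - o(1)`. -/
theorem above_half (hβ : 0 ≤ β) (hm : 0 < mag β) (hJ : 1 ≤ J) (x K : ℤ) {t : ℝ} (ht : 0 < t) :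
    ∃ n₀ : ℤ, ∀ N M : ℤ, n₀ ≤ N → n₀ ≤ M →
      1 / 2 - t ≤ avg β (kap J) (box N M) (eta 0) (fun ω => if Above N x K ω then 1 else 0) := by
  obtain ⟨r, L, hL1, h⟩ := above_compare hβ hm (t := t / 2) (by linarith)
  set K' : ℤ := max K (max r 1) with hK'
  have hK1 : K ≤ K' := le_max_left _ _
  have hK2 : (r : ℤ) ≤ K' := (le_max_left _ _).trans (le_max_right _ _)
  have hK3 : (1 : ℤ) ≤ K' := (le_max_right _ _).trans (le_max_right _ _)
  have hpos : 0 < mag β * t := by positivity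
  have hex : ∀ k : ℕ, ∃ n₀ : ℤ, ∀ N M : ℤ, n₀ ≤ N → n₀ ≤ M →
      avg β (kap 1) (box N M) (eta 0) (yv (x, K' + k)) ≤ mag β * t := fun k =>
    avg_y_tendsto hβ le_rfl (x, K' + k) (by simp only; omega) hpos
  choose n hn using hex
  refine ⟨|x| + |K'| + r + L + 1 + ∑ k ∈ Finset.range L, |n k|, fun N M hN hM => ?_⟩
  have hs : ∀ k ∈ Finset.range L, |n k| ≤ ∑ k ∈ Finset.range L, |n k| := fun k hk =>
    Finset.single_le_sum (f := fun k => |n k|) (fun _ _ => abs_nonneg _) hk
  have hs0 : 0 ≤ ∑ k ∈ Finset.range L, |n k| := Finset.sum_nonneg fun _ _ => abs_nonneg _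
  have hx0 := abs_nonneg x
  have hK0 := le_abs_self K'
  have h1 := h J hJ N M x K' hK2 (by omega) (by omega)
  have hM1 : 1 ≤ M := by omega
  have h2 : avg β (kap 1) (box N M) (eta 0) (seg x K' L) ≤ mag β * t := by
    rw [seg_avg]
    have hLpos : (0 : ℝ) < L := by exact_mod_cast hL1
    rw [inv_mul_le_iff₀ hLpos]
    have : (L : ℝ) * (mag β * t) = ∑ _k ∈ Finset.range L, mag β * t := by
      rw [Finset.sum_const, Finset.card_range, nsmul_eq_mul]
    rw [this]
    refine Finset.sum_le_sum fun k hk => ?_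
    rw [avg_sp_eq hM1]
    have h3 := hs k hk
    have h4 := le_abs_self (n k)
    exact hn k N M (by omega) (by omega)
  have h3 : (2 * mag β)⁻¹ * avg β (kap 1) (box N M) (eta 0) (seg x K' L) ≤ t / 2 := by
    have := mul_le_mul_of_nonneg_left h2 (by positivity : (0 : ℝ) ≤ (2 * mag β)⁻¹)
    refine this.trans (le_of_eq ?_)
    field_simp
  have h4 : avg β (kap J) (box N M) (eta 0) (fun ω => if Above N x K' ω then 1 else 0) ≤
      avg β (kap J) (box N M) (eta 0) (fun ω => if Above N x K ω then 1 else 0) := by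
    refine avg_mono fun ω _ => ?_
    by_cases hA : Above N x K' ω
    · obtain ⟨y, hy1, hy2⟩ := hA
      have hA' : Above N x K ω := ⟨y, hK1.trans hy1, hy2⟩
      rw [if_pos ⟨y, hy1, hy2⟩, if_pos hA']
    · rw [if_neg hA]; split_ifs <;> norm_num
  linarith

end

end Pool.Agent.Helper49.DL
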