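import Pool.Agent.Helper49.DL.Half
import Pool.Agent.Helper49.DL.Refl

/-!
Comparison of the interfaces for two defect strengths `1 ≤ J ≤ J'`.
-/

open Finset
open scoped Classical

namespace Pool.Agent.Helper49.DL

section

variable {N M : ℤ} {β J : ℝ}

/-- Parity above a site, after reflection. -/
lemma gg_rf {ω : Cfg} (h : ω ∈ confs (box N M) (eta 0)) (hN : 0 ≤ N) (hM : 1 ≤ M) {i : Site}
    (hi : i ∈ box N M) : gg N M (rf ω) (bar i) + gg N M ω i = 1 := by
  have hc := col_odd h hN hM i.1
  rw [mem_box] at hi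
  have hig : ∀ y : ℤ, ig N (rf ω) ((i.1, y), false) = ig N ω ((i.1, -y), false) := by
    intro y
    unfold ig
    have := interface_rf (N := N) (ω := ω) (b := ((i.1, -y), false))
    have e : rfb ((i.1, -y), false) = ((i.1, y), false) := by simp [rfb]
    rw [e] at this
    simp only [this]
  have h1 : gg N M (rf ω) (bar i) = ∑ y ∈ Finset.Icc (-M) (i.2 - 1), ig N ω ((i.1, y), false) := by
    unfold gg
    simp only [bar]
    simp_rw [hig]
    refine Finset.sum_bij' (fun y _ => -y) (fun y _ => -y) ?_ ?_ ?_ ?_ ?_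
    · intro y hy
      rw [Finset.mem_Icc] at *
      omega
    · intro y hy
      rw [Finset.mem_Icc] at *
      omega
    · intro y _; simp
    · intro y _; simp
    · intro y _; rfl
  rw [h1]
  unfold gg
  rw [← hc, ← Finset.sum_union]
  · refine Finset.sum_congr ?_ fun _ _ => rfl
    ext y
    simp only [Finset.mem_union, Finset.mem_Icc]
    omega
  · rw [Finset.disjoint_left]
    intro y hy hy'
    rw [Finset.mem_Icc] at *
    omega

/-- Reflection of segment averages. -/
lemma seg_rf (x K : ℤ) (L : ℕ) (ω : Cfg) :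
    seg x (2 - K - L) L (rf ω) = - seg x K L ω := by
  unfold seg
  rw [← mul_neg, ← Finset.sum_neg_distrib, ← Finset.sum_range_reflect]
  congr 1
  refine Finset.sum_congr rfl fun k hk => ?_
  rw [Finset.mem_range] at hk
  have hb : bar (x, 2 - K - (L : ℤ) + ((L - 1 - k : ℕ) : ℤ)) = (x, K + k) := by
    have : ((L - 1 - k : ℕ) : ℤ) = (L : ℤ) - 1 - k := by omega
    rw [this]
    simp only [bar, Prod.mk.injEq, true_and]
    ring
  unfold rf
  rw [hb, sp_not]

/-- First absolute moment of a segment average. -/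
lemma seg_abs_avg (hβ : 0 ≤ β) (hm : 0 < mag β) (hJ : 1 ≤ J) {r L : ℕ} (hr : 1 ≤ r)
    (hL : 1 ≤ L) {x K : ℤ} (hK : (r : ℤ) + 1 ≤ K) (hKM : K + L + r ≤ M) (hx : |x| + r ≤ N) :
    avg β (kap J) (box N M) (eta 0) (fun ω => |seg x K L ω|) ≤
      ar β r + (4 * r + 1) / (2 * ar β r * L) := by
  have hLpos : (0 : ℝ) < L := by exact_mod_cast hL
  have har : 0 < ar β r := hm.trans_le (mag_le_ar β r)
  have h1 : avg β (kap J) (box N M) (eta 0) (fun ω => |seg x K L ω|) ≤
      avg β (kap J) (box N M) (eta 0) (fun ω => (2 * ar β r)⁻¹ * (seg x K L ω ^ 2 + ar β r ^ 2)) :=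
    avg_mono fun ω _ => seg_abs_le har x K L ω
  rw [avg_smul, avg_add (fun ω => seg x K L ω ^ 2) (fun _ => ar β r ^ 2), avg_const] at h1
  have h4 := seg_sq hβ hJ hr hL hK hKM hx
  have h6 : (2 * ar β r)⁻¹ * (avg β (kap J) (box N M) (eta 0) (fun ω => seg x K L ω ^ 2) +
      ar β r ^ 2) ≤ (2 * ar β r)⁻¹ * (ar β r ^ 2 + (4 * r + 1) / L + ar β r ^ 2) :=
    mul_le_mul_of_nonneg_left (by linarith) (by positivity)
  refine h1.trans (h6.trans (le_of_eq ?_))
  field_simp
  ring

/-- All sites of the segment lie below the interface. -/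
def SegBelow (N M x K : ℤ) (L : ℕ) (ω : Cfg) : Prop := ∀ k : ℕ, k < L → gg N M ω (x, K + k) = 1

/-- Upper bound for the segment average in terms of the probability that it lies below the
interface. -/
lemma seg_upper (hβ : 0 ≤ β) (hm : 0 < mag β) (hJ : 1 ≤ J) {r L : ℕ} (hr : 1 ≤ r)
    (hL : 1 ≤ L) {x K : ℤ} (hK : (r : ℤ) + 1 ≤ K) (hKM : K + L + r ≤ M) (hx : |x| + r ≤ N) :
    avg β (kap J) (box N M) (eta 0) (seg x K L) ≤
      ar β r + (4 * r + 1) / (2 * ar β r * L) -
        2 * mag β * avg β (kap J) (box N M) (eta 0) (fun ω => if SegBelow N M x K L ω then 1 else 0) := by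
  have hx1 := abs_le.1 (le_refl |x|)
  have hM1 : 1 ≤ M := by omega
  have hN0 : 0 ≤ N := by have := abs_nonneg x; omega
  set E := avg β (kap J) (box N M) (eta 0) with hE
  set U : Cfg → ℝ := fun ω => if ∀ k : ℕ, k < L → ¬ Low N M ω (x, (2 - K - L) + k) then 1 else 0
    with hU
  have hA : ∀ k : ℕ, k < L → ((x, (2 - K - L) + k) : Site) ∈ box N M := by
    intro k hk; rw [mem_box]; simp only; omega
  have h1 := no_low (β := β) (J := J) hβ hJ hL hA
  -- first absolute moment of the lower segment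
  have h2 : E (fun ω => |seg x (2 - K - L) L ω|) ≤ ar β r + (4 * r + 1) / (2 * ar β r * L) := by
    have h3 : E (fun ω => |seg x (2 - K - L) L ω|) = E (fun ω => |seg x K L ω|) := by
      rw [hE, ← avg_rf hM1 β J (fun ω => |seg x (2 - K - L) L ω|)]
      congr 1
      funext ω
      rw [seg_rf, abs_neg]
    rw [h3]
    exact seg_abs_avg hβ hm hJ hr hL hK hKM hx
  have h3 : E (seg x (2 - K - L) L) = - E (seg x K L) := by
    rw [hE, ← avg_rf hM1 β J (seg x (2 - K - L) L)]
    have : (fun ω : Cfg => seg x (2 - K - L) L (rf ω)) = fun ω => (-1) * seg x K L ω := by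
      funext ω; rw [seg_rf]; ring
    rw [this, avg_smul]; ring
  have h4 : 2 * E (fun ω => U ω * seg x (2 - K - L) L ω) - E (fun ω => |seg x (2 - K - L) L ω|) ≤
      E (seg x (2 - K - L) L) := by
    rw [hE, ← avg_smul, ← avg_sub (fun ω => 2 * (U ω * seg x (2 - K - L) L ω))]
    refine avg_mono fun ω _ => ?_
    have a1 := le_abs_self (seg x (2 - K - L) L ω)
    have a2 := neg_abs_le (seg x (2 - K - L) L ω)
    simp only [hU]
    split_ifs
    · linarith
    · linarith
  -- the event
  have h5 : E (fun ω => if SegBelow N M x K L ω then 1 else 0) ≤ E U := by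
    rw [hE, ← avg_rf hM1 β J U]
    refine avg_mono fun ω hω => ?_
    by_cases hS : SegBelow N M x K L ω
    · have hno : ∀ k : ℕ, k < L → ¬ Low N M (rf ω) (x, (2 - K - L) + k) := by
        intro k hk hlow
        have hg := low_gg (rf_mem hω) hN0 hM1 hlow
        have hb : (x, 2 - K - (L : ℤ) + (k : ℤ)) = bar (x, K + ((L - 1 - k : ℕ) : ℤ)) := by
          have : ((L - 1 - k : ℕ) : ℤ) = (L : ℤ) - 1 - k := by omega
          rw [this]
          simp only [bar, Prod.mk.injEq, true_and]
          ring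
        rw [hb] at hg
        have hgr := gg_rf hω hN0 hM1 (i := (x, K + ((L - 1 - k : ℕ) : ℤ)))
          (by rw [mem_box]; simp only; omega)
        rw [hg, hS (L - 1 - k) (by omega)] at hgr
        exact absurd hgr (by decide)
      rw [if_pos hS]
      simp only [hU]
      rw [if_pos hno]
    · rw [if_neg hS]
      simp only [hU]
      split_ifs <;> norm_num
  have h6 : mag β * E (fun ω => if SegBelow N M x K L ω then 1 else 0) ≤
      E (fun ω => U ω * seg x (2 - K - L) L ω) :=
    (mul_le_mul_of_nonneg_left h5 hm.le).trans h1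
  linarith

end

/-- Comparison of the interfaces for two defect strengths. -/
theorem interface_compare {β : ℝ} (hβ : 0 ≤ β) (hm : 0 < mag β) {t : ℝ} (ht : 0 < t) :
    ∃ r L : ℕ, 1 ≤ L ∧ ∀ J J' : ℝ, 1 ≤ J → J ≤ J' → ∀ N M x K : ℤ,
      (r : ℤ) ≤ K → K + L + r ≤ M → |x| + r ≤ N →
      avg β (kap J) (box N M) (eta 0) (fun ω => if SegBelow N M x K L ω then 1 else 0) - t ≤
        avg β (kap J') (box N M) (eta 0) (fun ω => if Above N x K ω then 1 else 0) := by
  obtain ⟨r, hr, har⟩ := exists_ar (β := β) (δ := mag β * t / 2) (by positivity)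
  have harm := mag_le_ar β r
  obtain ⟨L, hL⟩ := exists_nat_gt ((4 * r + 1) / (2 * mag β * (mag β * t / 2)))
  have hLpos : (0 : ℝ) < L := lt_of_le_of_lt (by positivity) hL
  have hL1 : 1 ≤ L := by exact_mod_cast hLpos
  refine ⟨r + 1, L, hL1, fun J J' hJ hJJ N M x K hK hKM hx => ?_⟩
  push_cast at hK hKM hx
  have h := above_finite (J := J') hβ hm (hJ.trans hJJ) hr hL1 (x := x) (K := K) (N := N) (M := M)
    hK (by omega) (by omega)
  refine le_trans ?_ h
  have hu := seg_upper (J := J) hβ hm hJ hr hL1 (x := x) (K := K) (N := N) (M := M)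
    hK (by omega) (by omega)
  have h1 : (4 * (r : ℝ) + 1) / (2 * ar β r * L) ≤ mag β * t / 2 := by
    have hpos : 0 < 2 * ar β r * L := by
      have : 0 < ar β r := hm.trans_le harm
      positivity
    rw [div_le_iff₀ hpos]
    rw [div_lt_iff₀ (by positivity)] at hL
    have h2 : mag β * t / 2 * (2 * mag β * L) ≤ mag β * t / 2 * (2 * ar β r * L) := by
      gcongr
    nlinarith
  have h2 : avg β (kap J') (box N M) (eta 0) (seg x K L) ≤
      avg β (kap J) (box N M) (eta 0) (seg x K L) := by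
    rw [seg_avg, seg_avg]
    refine mul_le_mul_of_nonneg_left (Finset.sum_le_sum fun k hk => ?_) (by positivity)
    rw [Finset.mem_range] at hk
    have hM1 : 1 ≤ M := by omega
    rw [avg_sp_eq hM1, avg_sp_eq hM1]
    refine J_mono hM1 hβ hJJ ?_
    have hx1 := abs_le.1 (le_refl |x|)
    rw [mem_ubox]
    simp only
    omega
  set P := avg β (kap J) (box N M) (eta 0) (fun ω => if SegBelow N M x K L ω then 1 else 0) with hP
  have h3 : (2 * mag β)⁻¹ * (ar β r + (4 * r + 1) / (2 * ar β r * L) +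
      avg β (kap J') (box N M) (eta 0) (seg x K L)) ≤
      (2 * mag β)⁻¹ * (2 * (mag β + mag β * t / 2 + mag β * t / 2) - 2 * mag β * P) := by
    refine mul_le_mul_of_nonneg_left ?_ (by positivity)
    linarith
  have h4 : (2 * mag β)⁻¹ * (2 * (mag β + mag β * t / 2 + mag β * t / 2) - 2 * mag β * P) =
      1 + t - P := by
    field_simp
    ring
  linarith

end Pool.Agent.Helper49.DL
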