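import Mathlib

/-!
Ginibre cone and correlation inequalities for ferromagnetic Ising systems with general
many-body interactions, in the duplicated form used for the two-layer model.
-/

open Finset

namespace Pool.Agent.Helper49.DL

/-- The spin value of a Boolean. -/
def sp (b : Bool) : ℝ := if b then 1 else -1

@[simp] lemma sp_true : sp true = 1 := rfl
@[simp] lemma sp_false : sp false = -1 := rfl

lemma sp_mul_self (b : Bool) : sp b * sp b = 1 := by cases b <;> simp

lemma sp_beq (a b : Bool) : sp (a == b) = sp a * sp b := by cases a <;> cases b <;> simp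

lemma sp_not (a : Bool) : sp (!a) = - sp a := by cases a <;> simp

section

variable {V : Type*}

/-- Product of spins over a finite set. -/
def chi (A : Finset V) (σ : V → Bool) : ℝ := ∏ v ∈ A, sp (σ v)

/-- Pointwise product of two configurations. -/
def mulc (σ τ : V → Bool) : V → Bool := fun v => σ v == τ v

lemma chi_mulc (A : Finset V) (σ τ : V → Bool) :
    chi A (mulc σ τ) = chi A σ * chi A τ := by
  simp [chi, mulc, sp_beq, Finset.prod_mul_distrib]

lemma chi_cases (A : Finset V) (σ : V → Bool) : chi A σ = 1 ∨ chi A σ = -1 := by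
  classical
  unfold chi
  induction A using Finset.induction_on with
  | empty => simp
  | insert a s ha ih =>
    rw [Finset.prod_insert ha]
    rcases ih with h | h <;> rw [h] <;> cases σ a <;> simp

lemma chi_empty (σ : V → Bool) : chi (∅ : Finset V) σ = 1 := by simp [chi]

lemma chi_singleton (v : V) (σ : V → Bool) : chi {v} σ = sp (σ v) := by simp [chi]

/-- Generators of the cone. -/
def gens (V : Type*) : Set ((V → Bool) → ℝ) :=
  {f | (∃ c : ℝ, 0 ≤ c ∧ f = fun _ => c) ∨ ∃ v, f = fun σ => sp (σ v)}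

/-- The cone generated by nonnegative constants and spins under sums and products. -/
def Cone (V : Type*) : Subsemiring ((V → Bool) → ℝ) := Subsemiring.closure (gens V)

lemma cone_const {c : ℝ} (hc : 0 ≤ c) : (fun _ => c : (V → Bool) → ℝ) ∈ Cone V :=
  Subsemiring.subset_closure (Or.inl ⟨c, hc, rfl⟩)

lemma cone_sp (v : V) : (fun σ => sp (σ v) : (V → Bool) → ℝ) ∈ Cone V :=
  Subsemiring.subset_closure (Or.inr ⟨v, rfl⟩)

lemma cone_mul {f g : (V → Bool) → ℝ} (hf : f ∈ Cone V) (hg : g ∈ Cone V) :
    (fun σ => f σ * g σ) ∈ Cone V := (Cone V).mul_mem hf hg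

lemma cone_add {f g : (V → Bool) → ℝ} (hf : f ∈ Cone V) (hg : g ∈ Cone V) :
    (fun σ => f σ + g σ) ∈ Cone V := (Cone V).add_mem hf hg

lemma cone_prod {ι : Type*} (s : Finset ι) (f : ι → (V → Bool) → ℝ)
    (h : ∀ i ∈ s, f i ∈ Cone V) : (fun σ => ∏ i ∈ s, f i σ) ∈ Cone V := by
  have := (Cone V).prod_mem h
  have e : (fun σ => ∏ i ∈ s, f i σ) = ∏ i ∈ s, f i := by
    funext σ; simp
  rw [e]; exact this

lemma cone_chi (A : Finset V) : (chi A : (V → Bool) → ℝ) ∈ Cone V :=
  cone_prod A (fun v σ => sp (σ v)) (fun v _ => cone_sp v)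

/-- `a + b * chi A` is in the cone when `a, b ≥ 0`. -/
lemma cone_lin (A : Finset V) {a b : ℝ} (ha : 0 ≤ a) (hb : 0 ≤ b) :
    (fun σ => a + b * chi A σ) ∈ Cone V :=
  cone_add (cone_const ha) (cone_mul (cone_const hb) (cone_chi A))

variable [Fintype V] [DecidableEq V]

lemma monomial_sum_nonneg (k : V → ℕ) : 0 ≤ ∑ σ : V → Bool, ∏ v, sp (σ v) ^ k v := by
  classical
  have h := Finset.prod_univ_sum (fun _ : V => (Finset.univ : Finset Bool))
    (fun v b => sp b ^ k v)
  rw [Fintype.piFinset_univ] at h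
  rw [← h]
  refine Finset.prod_nonneg fun v _ => ?_
  rw [Fintype.sum_bool]
  simp only [sp_true, sp_false, one_pow]
  rcases neg_one_pow_eq_or ℝ (k v) with h | h <;> rw [h] <;> norm_num

lemma cone_sum_nonneg {f : (V → Bool) → ℝ} (hf : f ∈ Cone V) : 0 ≤ ∑ σ, f σ := by
  classical
  have hf' : f ∈ AddSubmonoid.closure (Submonoid.closure (gens V) : Set ((V → Bool) → ℝ)) := by
    have := Subsemiring.mem_closure_iff.1 hf
    exact this
  refine AddSubmonoid.closure_induction (motive := fun f _ => 0 ≤ ∑ σ, f σ) ?_ ?_ ?_ hf'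
  · intro g hg
    have key : ∃ c : ℝ, 0 ≤ c ∧ ∃ k : V → ℕ, g = fun σ => c * ∏ v, sp (σ v) ^ k v := by
      refine Submonoid.closure_induction
        (motive := fun g _ => ∃ c : ℝ, 0 ≤ c ∧ ∃ k : V → ℕ, g = fun σ => c * ∏ v, sp (σ v) ^ k v)
        ?_ ?_ ?_ hg
      · rintro g (⟨c, hc, rfl⟩ | ⟨v, rfl⟩)
        · exact ⟨c, hc, fun _ => 0, by funext σ; simp⟩
        · refine ⟨1, zero_le_one, fun w => if w = v then 1 else 0, ?_⟩
          funext σ
          rw [one_mul]
          rw [Finset.prod_eq_single v]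
          · simp
          · intro b _ hb; simp [hb]
          · simp
      · exact ⟨1, zero_le_one, fun _ => 0, by funext σ; simp⟩
      · rintro g g' _ _ ⟨c, hc, k, rfl⟩ ⟨c', hc', k', rfl⟩
        refine ⟨c * c', mul_nonneg hc hc', fun v => k v + k' v, ?_⟩
        funext σ
        simp only [Pi.mul_apply, pow_add, Finset.prod_mul_distrib]
        ring
    obtain ⟨c, hc, k, rfl⟩ := key
    rw [← Finset.mul_sum]
    exact mul_nonneg hc (monomial_sum_nonneg k)
  · simp
  · intro g g' _ _ h h'
    simp only [Pi.add_apply, Finset.sum_add_distrib]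
    exact add_nonneg h h'

omit [Fintype V] [DecidableEq V] in
lemma mulc_mulc (σ τ : V → Bool) : mulc σ (mulc σ τ) = τ := by
  funext v; simp only [mulc]; cases σ v <;> cases τ v <;> rfl

/-- Duplication: a double sum is nonnegative if the function is in the cone after the
substitution `σ' = σ τ`, for every `τ`. -/
lemma dup_nonneg (P : (V → Bool) → (V → Bool) → ℝ)
    (h : ∀ τ, (fun σ => P σ (mulc σ τ)) ∈ Cone V) : 0 ≤ ∑ σ, ∑ σ', P σ σ' := by
  classical
  have e : ∀ σ : V → Bool, ∑ σ', P σ σ' = ∑ τ, P σ (mulc σ τ) := by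
    intro σ
    exact (Fintype.sum_equiv ⟨fun τ => mulc σ τ, fun τ => mulc σ τ,
      fun τ => mulc_mulc σ τ, fun τ => mulc_mulc σ τ⟩ _ _ (fun τ => rfl)).symm
  simp_rw [e]
  rw [Finset.sum_comm]
  exact Finset.sum_nonneg fun τ _ => cone_sum_nonneg (h τ)

omit [Fintype V] [DecidableEq V] in
/-- `y` is dominated by `x`. -/
def Dom (x y : (V → Bool) → ℝ) : Prop :=
  ∀ τ, (fun σ => x σ - y (mulc σ τ)) ∈ Cone V ∧ (fun σ => x σ + y (mulc σ τ)) ∈ Cone V

end

section dom

variable {V : Type*}

lemma dom_mul {x y x' y' : (V → Bool) → ℝ} (h : Dom x y) (h' : Dom x' y') :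
    Dom (fun σ => x σ * x' σ) (fun σ => y σ * y' σ) := by
  intro τ
  obtain ⟨h1, h2⟩ := h τ
  obtain ⟨h3, h4⟩ := h' τ
  have hh : (0 : ℝ) ≤ 1 / 2 := by norm_num
  constructor
  · have := cone_mul (cone_const hh) (cone_add (cone_mul h1 h4) (cone_mul h2 h3))
    convert this using 1
    funext σ; ring
  · have := cone_mul (cone_const hh) (cone_add (cone_mul h2 h4) (cone_mul h1 h3))
    convert this using 1
    funext σ; ring

lemma dom_one : Dom (fun _ => 1 : (V → Bool) → ℝ) (fun _ => 1) := by
  intro τ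
  constructor
  · convert cone_const (V := V) (le_refl (0 : ℝ)) using 1
    funext σ; simp
  · convert cone_const (V := V) (show (0 : ℝ) ≤ 2 by norm_num) using 1
    funext σ; norm_num

lemma dom_prod {ι : Type*} (s : Finset ι) (x y : ι → (V → Bool) → ℝ)
    (h : ∀ i ∈ s, Dom (x i) (y i)) :
    Dom (fun σ => ∏ i ∈ s, x i σ) (fun σ => ∏ i ∈ s, y i σ) := by
  classical
  induction s using Finset.induction_on with
  | empty => simpa using (dom_one (V := V))
  | insert a s ha ih =>
    have h1 := h a (Finset.mem_insert_self a s)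
    have h2 := ih (fun i hi => h i (Finset.mem_insert_of_mem hi))
    have := dom_mul h1 h2
    simpa [Finset.prod_insert ha] using this

lemma dom_chi (B : Finset V) : Dom (chi B) (chi B) := by
  intro τ
  rcases chi_cases B τ with h | h
  · constructor
    · convert cone_const (V := V) (le_refl (0 : ℝ)) using 1
      funext σ; rw [chi_mulc, h]; ring
    · convert cone_mul (cone_const (V := V) (show (0 : ℝ) ≤ 2 by norm_num)) (cone_chi B) using 1
      funext σ; rw [chi_mulc, h]; ring
  · constructor
    · convert cone_mul (cone_const (V := V) (show (0 : ℝ) ≤ 2 by norm_num)) (cone_chi B) using 1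
      funext σ; rw [chi_mulc, h]; ring
    · convert cone_const (V := V) (le_refl (0 : ℝ)) using 1
      funext σ; rw [chi_mulc, h]; ring

lemma exp_chi (A : Finset V) (x : ℝ) (σ : V → Bool) :
    Real.exp (x * chi A σ) = Real.cosh x + Real.sinh x * chi A σ := by
  rcases chi_cases A σ with h | h <;> rw [h]
  · rw [mul_one, mul_one, Real.cosh_add_sinh]
  · rw [mul_neg_one, mul_neg_one, ← sub_eq_add_neg, Real.cosh_sub_sinh]

lemma abs_sinh_le {x y : ℝ} (h : |y| ≤ x) : |Real.sinh y| ≤ Real.sinh x := by
  rw [Real.abs_sinh]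
  exact Real.sinh_le_sinh.2 h

lemma cosh_le {x y : ℝ} (h : |y| ≤ x) : Real.cosh y ≤ Real.cosh x := by
  rw [Real.cosh_le_cosh]
  exact h.trans (le_abs_self x)

lemma dom_exp (A : Finset V) {D D' : ℝ} (h : |D'| ≤ D) :
    Dom (fun σ => Real.exp (D * chi A σ)) (fun σ => Real.exp (D' * chi A σ)) := by
  intro τ
  have hs := abs_le.1 (abs_sinh_le h)
  have hc := cosh_le h
  have hc0 := Real.cosh_pos D'
  have hc1 := Real.cosh_pos D
  constructor
  · rcases chi_cases A τ with ht | ht
    · convert cone_lin A (a := Real.cosh D - Real.cosh D') (b := Real.sinh D - Real.sinh D')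
        (by linarith) (by linarith) using 1
      funext σ; beta_reduce; rw [exp_chi, exp_chi, chi_mulc, ht]; ring
    · convert cone_lin A (a := Real.cosh D - Real.cosh D') (b := Real.sinh D + Real.sinh D')
        (by linarith) (by linarith) using 1
      funext σ; beta_reduce; rw [exp_chi, exp_chi, chi_mulc, ht]; ring
  · rcases chi_cases A τ with ht | ht
    · convert cone_lin A (a := Real.cosh D + Real.cosh D') (b := Real.sinh D + Real.sinh D')
        (by linarith) (by linarith) using 1
      funext σ; beta_reduce; rw [exp_chi, exp_chi, chi_mulc, ht]; ring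
    · convert cone_lin A (a := Real.cosh D + Real.cosh D') (b := Real.sinh D - Real.sinh D')
        (by linarith) (by linarith) using 1
      funext σ; beta_reduce; rw [exp_chi, exp_chi, chi_mulc, ht]; ring

/-- The exponential weight of a family of interactions. -/
noncomputable def wt {ι : Type*} [Fintype ι] (A : ι → Finset V) (J : ι → ℝ) (σ : V → Bool) : ℝ :=
  Real.exp (∑ i, J i * chi (A i) σ)

lemma wt_eq_prod {ι : Type*} [Fintype ι] (A : ι → Finset V) (J : ι → ℝ) (σ : V → Bool) :
    wt A J σ = ∏ i, Real.exp (J i * chi (A i) σ) := by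
  rw [wt, Real.exp_sum]

lemma wt_pos {ι : Type*} [Fintype ι] (A : ι → Finset V) (J : ι → ℝ) (σ : V → Bool) :
    0 < wt A J σ := Real.exp_pos _

lemma wt_add {ι : Type*} [Fintype ι] (A : ι → Finset V) (J D : ι → ℝ) (σ : V → Bool) :
    wt A (fun i => J i + D i) σ = wt A J σ * wt A D σ := by
  rw [wt, wt, wt, ← Real.exp_add, ← Finset.sum_add_distrib]
  congr 1
  refine Finset.sum_congr rfl fun i _ => ?_
  ring

lemma dom_wt {ι : Type*} [Fintype ι] (A : ι → Finset V) {D D' : ι → ℝ}
    (h : ∀ i, |D' i| ≤ D i) : Dom (wt A D) (wt A D') := by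
  have := dom_prod Finset.univ (fun i σ => Real.exp (D i * chi (A i) σ))
    (fun i σ => Real.exp (D' i * chi (A i) σ)) (fun i _ => dom_exp (A i) (h i))
  have e1 : (wt A D) = fun σ => ∏ i, Real.exp (D i * chi (A i) σ) := by
    funext σ; exact wt_eq_prod A D σ
  have e2 : (wt A D') = fun σ => ∏ i, Real.exp (D' i * chi (A i) σ) := by
    funext σ; exact wt_eq_prod A D' σ
  rw [e1, e2]; exact this

/-- Constraint factor: positive multiple of the indicator that all spins of `F` are `+`. -/
def frc (F : Finset V) (σ : V → Bool) : ℝ := ∏ w ∈ F, (1 + sp (σ w))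

lemma frc_nonneg (F : Finset V) (σ : V → Bool) : 0 ≤ frc F σ := by
  refine Finset.prod_nonneg fun w _ => ?_
  cases σ w <;> simp <;> norm_num

/-- The base factor of the duplicated system is in the cone. -/
lemma base_cone {ι : Type*} [Fintype ι] [DecidableEq V] (A : ι → Finset V) {J1 J2 : ι → ℝ}
    (h : ∀ i, |J2 i| ≤ J1 i) {F F' : Finset V} (hF : F ⊆ F') (τ : V → Bool) :
    (fun σ => (wt A J1 σ * frc F' σ) * (wt A J2 (mulc σ τ) * frc F (mulc σ τ))) ∈ Cone V := by
  have h1 : (fun σ => wt A J1 σ * wt A J2 (mulc σ τ)) ∈ Cone V := by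
    have : (fun σ => ∏ i, Real.exp ((J1 i + J2 i * chi (A i) τ) * chi (A i) σ)) ∈ Cone V := by
      refine cone_prod _ _ fun i _ => ?_
      have hi := abs_le.1 (h i)
      have hnn : 0 ≤ J1 i + J2 i * chi (A i) τ := by
        rcases chi_cases (A i) τ with ht | ht <;> rw [ht] <;> linarith
      convert cone_lin (A i) (Real.cosh_pos (J1 i + J2 i * chi (A i) τ)).le
        (Real.sinh_nonneg_iff.2 hnn) using 1
      funext σ; rw [exp_chi]
    convert this using 1
    funext σ
    rw [wt, wt, ← Real.exp_add, ← Finset.sum_add_distrib, ← Real.exp_sum]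
    congr 1
    refine Finset.sum_congr rfl fun i _ => ?_
    rw [chi_mulc]; ring
  have h2 : (fun σ => frc F' σ * frc F (mulc σ τ)) ∈ Cone V := by
    have : (fun σ => ∏ w ∈ F', ((1 + sp (σ w)) *
        (if w ∈ F then (1 + sp (σ w) * sp (τ w)) else 1))) ∈ Cone V := by
      refine cone_prod _ _ fun w _ => ?_
      by_cases hw : w ∈ F
      · simp only [hw, if_true]
        cases hτ : τ w
        · convert cone_const (V := V) (le_refl (0 : ℝ)) using 1
          funext σ
          have := sp_mul_self (σ w)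
          rw [sp_false]; linear_combination (-1 : ℝ) * this
        · convert cone_add (cone_const (V := V) (show (0 : ℝ) ≤ 2 by norm_num))
            (cone_mul (cone_const (show (0 : ℝ) ≤ 2 by norm_num)) (cone_sp w)) using 1
          funext σ
          have := sp_mul_self (σ w)
          rw [sp_true]; linear_combination this
      · simp only [hw, if_false, mul_one]
        exact cone_add (cone_const zero_le_one) (cone_sp w)
    convert this using 1
    funext σ
    rw [Finset.prod_mul_distrib, frc, frc]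
    congr 1
    rw [Finset.prod_ite_mem, Finset.inter_eq_right.2 hF]
    refine Finset.prod_congr rfl fun w _ => ?_
    rw [mulc, sp_beq]
  convert cone_mul h1 h2 using 1
  funext σ; ring

/-- Weighted sum of a character. -/
noncomputable def NN {ι : Type*} [Fintype ι] [Fintype V] [DecidableEq V] (A : ι → Finset V) (J : ι → ℝ) (F B : Finset V) : ℝ :=
  ∑ σ : V → Bool, chi B σ * (wt A J σ * frc F σ)

/-- The general comparison inequality. -/
theorem compare {ι : Type*} [Fintype ι] [Fintype V] [DecidableEq V] (A : ι → Finset V)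
    {J1 J2 D D' : ι → ℝ} (h : ∀ i, |J2 i| ≤ J1 i) (h' : ∀ i, |D' i| ≤ D i)
    {F F' : Finset V} (hF : F ⊆ F') (B : Finset V) :
    NN A J1 F' ∅ * NN A (fun i => J2 i + D' i) F B ≤
      NN A J2 F ∅ * NN A (fun i => J1 i + D i) F' B := by
  have key := dup_nonneg (V := V) (fun σ σ' =>
      ((wt A J1 σ * frc F' σ) * (wt A J2 σ' * frc F σ')) *
        (chi B σ * wt A D σ - chi B σ' * wt A D' σ')) (by
    intro τ
    exact cone_mul (base_cone A h hF τ) (dom_mul (dom_chi B) (dom_wt A h') τ).1)
  have e : ∑ σ : V → Bool, ∑ σ' : V → Bool,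
      ((wt A J1 σ * frc F' σ) * (wt A J2 σ' * frc F σ')) *
        (chi B σ * wt A D σ - chi B σ' * wt A D' σ') =
      NN A J2 F ∅ * NN A (fun i => J1 i + D i) F' B -
        NN A J1 F' ∅ * NN A (fun i => J2 i + D' i) F B := by
    unfold NN
    rw [mul_comm (∑ σ : V → Bool, chi ∅ σ * (wt A J2 σ * frc F σ)), Finset.sum_mul_sum,
      Finset.sum_mul_sum, ← Finset.sum_sub_distrib]
    refine Finset.sum_congr rfl fun σ _ => ?_
    rw [← Finset.sum_sub_distrib]
    refine Finset.sum_congr rfl fun σ' _ => ?_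
    rw [wt_add, wt_add, chi_empty, chi_empty]
    ring
  linarith [key, e]

/-- First Griffiths inequality with constraints. -/
theorem NN_nonneg {ι : Type*} [Fintype ι] [Fintype V] [DecidableEq V] (A : ι → Finset V)
    {J : ι → ℝ} (h : ∀ i, 0 ≤ J i) (F B : Finset V) : 0 ≤ NN A J F B := by
  refine cone_sum_nonneg (f := fun σ => chi B σ * (wt A J σ * frc F σ)) ?_
  refine cone_mul (cone_chi B) (cone_mul ?_ ?_)
  · have : (fun σ => ∏ i, Real.exp (J i * chi (A i) σ)) ∈ Cone V := by
      refine cone_prod _ _ fun i _ => ?_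
      convert cone_lin (A i) (Real.cosh_pos (J i)).le (Real.sinh_nonneg_iff.2 (h i)) using 1
      funext σ; rw [exp_chi]
    convert this using 1
    funext σ; exact wt_eq_prod A J σ
  · exact cone_prod _ _ fun w _ => cone_add (cone_const zero_le_one) (cone_sp w)

theorem NN_empty_pos {ι : Type*} [Fintype ι] [Fintype V] [DecidableEq V] (A : ι → Finset V)
    (J : ι → ℝ) (F : Finset V) : 0 < NN A J F ∅ := by
  unfold NN
  have h0 : ∀ σ : V → Bool, 0 ≤ chi ∅ σ * (wt A J σ * frc F σ) := fun σ => by
    rw [chi_empty, one_mul]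
    exact mul_nonneg (wt_pos A J σ).le (frc_nonneg F σ)
  refine lt_of_lt_of_le ?_ (Finset.single_le_sum (fun σ _ => h0 σ)
    (Finset.mem_univ (fun _ => true : V → Bool)))
  rw [chi_empty, one_mul]
  refine mul_pos (wt_pos A J _) (Finset.prod_pos fun w _ => ?_)
  simp only [sp_true]; norm_num

end dom

end Pool.Agent.Helper49.DL
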