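import Mathlib

/-!
Block DL2-FK (finite combinatorics, Mathlib only): in the even subgraph model two vertices are
connected with weight at most the two-point sum.

Paper proof. Put `p e = 2 x e / (1 + x e) ∈ [0, 1]`, so `(p/2) / (1 - p/2) = x`. For every `F`:
`∏_{e ∈ F} x e * ∏_e (1 - p e / 2) = ∏_{e ∈ F} (p e / 2) ∏_{e ∉ F} (1 - p e / 2) =
 ∑_{ω ⊇ F} w ω`, `w ω = ∏_{e ∈ ω} (p e / 2) ∏_{e ∉ ω} (1 - p e) ≥ 0`
(since `1 - p/2 = p/2 + (1 - p)`; `Finset.prod_add`). Hence, with `K = ∏_e (1 - p e / 2) > 0`,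
`K * LHS = ∑_ω w ω * #{F ⊆ ω | gbd F = ∅, a, b connected in F}
        ≤ ∑_ω w ω * [a, b connected in ω] * #{F ⊆ ω | gbd F = ∅}`,
`K * RHS = ∑_ω w ω * #{F ⊆ ω | gbd F = {a, b}}`. If `a ≠ b` are connected in `ω` there is
`F₀ ⊆ ω` with `gbd F₀ = {a, b}` (induction along the connection: symmetric differences of edges), and
`F ↦ F ∆ F₀` is an injection from `{F ⊆ ω | gbd F = ∅}` to `{F ⊆ ω | gbd F = {a, b}}`
(`gbd (F ∆ F₀) = gbd F ∆ gbd F₀`).
-/

open Finset

namespace Pool.Agent.Helper49.DL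

section

variable {V ι : Type*} [Fintype V] [DecidableEq V] [Fintype ι] [DecidableEq ι]

/-- Vertices of odd degree of the set of edges `F`. -/
def gbd (A : ι → Finset V) (F : Finset ι) : Finset V :=
  Finset.univ.filter (fun v => Odd (F.filter (fun e => v ∈ A e)).card)

/-- Connection by edges of `F`. -/
def Cn (A : ι → Finset V) (F : Finset ι) (a b : V) : Prop :=
  Relation.ReflTransGen (fun u v => ∃ e ∈ F, A e = {u, v}) a b

private theorem prod_eq88 (x : ι → ℝ) (F : Finset ι) :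
    ∏ e ∈ F, x e = ∑ ω : Finset ι, if F ⊆ ω then (∏ e ∈ ω, x e) * ∏ e ∈ Finset.univ \ ω, (1 - x e) else 0 := by
  have h1 : ∏ e ∈ F, x e = ∏ e : ι, (x e + if e ∈ F then 0 else 1 - x e) := by
    rw [← Finset.prod_subset (Finset.subset_univ F)]
    · exact Finset.prod_congr rfl fun e he => by rw [if_pos he, add_zero]
    · intro e _ he
      rw [if_neg he]
      ring
  rw [h1, Finset.prod_add, Finset.powerset_univ]
  refine Finset.sum_congr rfl fun ω _ => ?_
  by_cases h : F ⊆ ω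
  · rw [if_pos h]
    congr 1
    refine Finset.prod_congr rfl fun e he => ?_
    rw [if_neg fun h2 => (Finset.mem_sdiff.1 he).2 (h h2)]
  · rw [if_neg h]
    obtain ⟨e, he, hne⟩ := Finset.not_subset.1 h
    have h0 : ∏ e ∈ Finset.univ \ ω, (if e ∈ F then (0 : ℝ) else 1 - x e) = 0 :=
      Finset.prod_eq_zero (Finset.mem_sdiff.2 ⟨Finset.mem_univ e, hne⟩) (if_pos he)
    rw [h0, mul_zero]

private theorem sum_le88 {x : ι → ℝ} (hx : ∀ e, 0 ≤ x e) (hx1 : ∀ e, x e ≤ 1) (P Q : Finset ι → Prop)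
    [DecidablePred P] [DecidablePred Q]
    (h : ∀ ω : Finset ι, (Finset.univ.filter fun F : Finset ι => P F ∧ F ⊆ ω).card ≤
      (Finset.univ.filter fun F : Finset ι => Q F ∧ F ⊆ ω).card) :
    ∑ F ∈ Finset.univ.filter P, ∏ e ∈ F, x e ≤ ∑ F ∈ Finset.univ.filter Q, ∏ e ∈ F, x e := by
  have key : ∀ (R : Finset ι → Prop) [DecidablePred R], ∑ F ∈ Finset.univ.filter R, ∏ e ∈ F, x e =
      ∑ ω : Finset ι, ((Finset.univ.filter fun F : Finset ι => R F ∧ F ⊆ ω).card : ℝ) *
        ((∏ e ∈ ω, x e) * ∏ e ∈ Finset.univ \ ω, (1 - x e)) := by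
    intro R _
    rw [Finset.sum_congr rfl fun F _ => prod_eq88 x F, Finset.sum_comm]
    refine Finset.sum_congr rfl fun ω _ => ?_
    rw [← Finset.sum_filter, Finset.filter_filter, Finset.sum_const, nsmul_eq_mul]
  rw [key P, key Q]
  refine Finset.sum_le_sum fun ω _ => mul_le_mul_of_nonneg_right (Nat.cast_le.2 (h ω)) ?_
  exact mul_nonneg (Finset.prod_nonneg fun e _ => hx e)
    (Finset.prod_nonneg fun e _ => sub_nonneg.2 (hx1 e))

omit [Fintype ι] [DecidableEq ι] in
private theorem mem_gbd88 (A : ι → Finset V) (F : Finset ι) (v : V) :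
    v ∈ gbd A F ↔ Odd (F.filter (fun e => v ∈ A e)).card := by
  unfold gbd
  rw [Finset.mem_filter]
  exact ⟨fun h => h.2, fun h => ⟨Finset.mem_univ _, h⟩⟩

private theorem odd_symm88 {α : Type*} [DecidableEq α] (s t : Finset α) :
    Odd (symmDiff s t).card ↔ ¬ (Odd s.card ↔ Odd t.card) := by
  have h1 : (symmDiff s t).card + 2 * (s ∩ t).card = s.card + t.card := by
    have e1 : (symmDiff s t).card = (s \ t).card + (t \ s).card := by
      rw [symmDiff_def, Finset.sup_eq_union, Finset.card_union_of_disjoint]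
      exact Finset.disjoint_left.2 fun a ha hb => (Finset.mem_sdiff.1 ha).2 (Finset.mem_sdiff.1 hb).1
    have e2 := Finset.card_sdiff_add_card_inter s t
    have e3 := Finset.card_sdiff_add_card_inter t s
    rw [Finset.inter_comm t s] at e3
    omega
  rw [Nat.odd_iff, Nat.odd_iff, Nat.odd_iff]
  omega

omit [Fintype ι] in
private theorem gbd_symm88 (A : ι → Finset V) (F F' : Finset ι) :
    gbd A (symmDiff F F') = symmDiff (gbd A F) (gbd A F') := by
  ext v
  have h1 : (symmDiff F F').filter (fun e => v ∈ A e) =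
      symmDiff (F.filter (fun e => v ∈ A e)) (F'.filter (fun e => v ∈ A e)) := by
    ext e
    simp only [Finset.mem_filter, Finset.mem_symmDiff]
    tauto
  rw [mem_gbd88, h1, odd_symm88, Finset.mem_symmDiff, mem_gbd88, mem_gbd88]
  tauto

omit [Fintype ι] [DecidableEq ι] in
private theorem gbd_singleton88 (A : ι → Finset V) (e : ι) : gbd A {e} = A e := by
  ext v
  rw [mem_gbd88]
  by_cases h : v ∈ A e
  · have h1 : ({e} : Finset ι).filter (fun e => v ∈ A e) = {e} := by
      rw [Finset.filter_singleton, if_pos h]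
    rw [h1, Finset.card_singleton]
    exact ⟨fun _ => h, fun _ => odd_one⟩
  · have h1 : ({e} : Finset ι).filter (fun e => v ∈ A e) = ∅ := by
      rw [Finset.filter_singleton, if_neg h]
    rw [h1, Finset.card_empty]
    exact ⟨fun h2 => absurd h2 (by decide), fun h2 => absurd h2 h⟩

omit [Fintype ι] [DecidableEq ι] in
private theorem gbd_empty88 (A : ι → Finset V) : gbd A ∅ = ∅ := by
  ext v
  rw [mem_gbd88, Finset.filter_empty, Finset.card_empty]
  exact ⟨fun h2 => absurd h2 (by decide), fun h2 => absurd h2 (Finset.notMem_empty v)⟩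

omit [Fintype V] in
private theorem pair88 {c d : V} (h : c ≠ d) : ({c, d} : Finset V) = symmDiff {c} {d} := by
  ext v
  simp only [Finset.mem_insert, Finset.mem_singleton, Finset.mem_symmDiff]
  constructor
  · rintro (rfl | rfl)
    · exact Or.inl ⟨rfl, h⟩
    · exact Or.inr ⟨rfl, h.symm⟩
  · rintro (⟨h1, _⟩ | ⟨h1, _⟩)
    · exact Or.inl h1
    · exact Or.inr h1

private theorem exists_path88 (A : ι → Finset V) (hA : ∀ e, (A e).card = 2) {ω : Finset ι} {a b : V}
    (h : Cn A ω a b) : ∃ F, F ⊆ ω ∧ gbd A F = symmDiff {a} {b} := by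
  unfold Cn at h
  induction h with
  | refl => exact ⟨∅, Finset.empty_subset _, by rw [gbd_empty88, symmDiff_self]; rfl⟩
  | @tail c d _ hcd ih =>
    obtain ⟨F, hF, hF2⟩ := ih
    obtain ⟨e, he, hAe⟩ := hcd
    have hne : c ≠ d := by
      intro hcd
      have h1 := hA e
      rw [hAe, hcd, Finset.pair_eq_singleton, Finset.card_singleton] at h1
      omega
    refine ⟨symmDiff F {e}, ?_, ?_⟩
    · intro i hi
      rcases Finset.mem_symmDiff.1 hi with ⟨h1, _⟩ | ⟨h1, _⟩
      · exact hF h1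
      · rw [Finset.mem_singleton.1 h1]
        exact he
    · rw [gbd_symm88, hF2, gbd_singleton88, hAe, pair88 hne, symmDiff_assoc,
        symmDiff_symmDiff_cancel_left]

private theorem card_le88 (A : ι → Finset V) (hA : ∀ e, (A e).card = 2) {a b : V} (hab : a ≠ b)
    (P Q : Finset ι → Prop) [DecidablePred P] [DecidablePred Q]
    (hP : ∀ F, P F ↔ (gbd A F = ∅ ∧ Cn A F a b)) (hQ : ∀ F, Q F ↔ gbd A F = {a, b}) (ω : Finset ι) :
    (Finset.univ.filter fun F : Finset ι => P F ∧ F ⊆ ω).card ≤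
      (Finset.univ.filter fun F : Finset ι => Q F ∧ F ⊆ ω).card := by
  by_cases hω : Cn A ω a b
  · obtain ⟨F0, hF0, hF1⟩ := exists_path88 A hA hω
    rw [← pair88 hab] at hF1
    refine Finset.card_le_card_of_injOn (fun F => symmDiff F F0) ?_ ?_
    · intro F hF
      obtain ⟨_, hF2, hF3⟩ := Finset.mem_filter.1 (Finset.mem_coe.1 hF)
      refine Finset.mem_coe.2 (Finset.mem_filter.2 ⟨Finset.mem_univ _, ?_, ?_⟩)
      · rw [hQ, gbd_symm88, ((hP F).1 hF2).1, hF1]
        exact bot_symmDiff _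
      · intro i hi
        rcases Finset.mem_symmDiff.1 hi with ⟨h1, _⟩ | ⟨h1, _⟩
        · exact hF3 h1
        · exact hF0 h1
    · intro F _ F' _ h
      exact symmDiff_left_injective F0 h
  · have h0 : (Finset.univ.filter fun F : Finset ι => P F ∧ F ⊆ ω) = ∅ := by
      rw [Finset.filter_eq_empty_iff]
      rintro F _ ⟨h1, h2⟩
      refine hω (Relation.ReflTransGen.mono ?_ a b ((hP F).1 h1).2)
      rintro u v ⟨e, he, hAe⟩
      exact ⟨e, h2 he, hAe⟩
    rw [h0, Finset.card_empty]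
    exact Nat.zero_le _

open scoped Classical in
theorem conn_le (A : ι → Finset V) (hA : ∀ e, (A e).card = 2) {x : ι → ℝ} (hx : ∀ e, 0 ≤ x e)
    (hx1 : ∀ e, x e ≤ 1) {a b : V} (hab : a ≠ b) :
    ∑ F ∈ Finset.univ.filter (fun F : Finset ι => gbd A F = ∅ ∧ Cn A F a b), ∏ e ∈ F, x e ≤
      ∑ F ∈ Finset.univ.filter (fun F : Finset ι => gbd A F = {a, b}), ∏ e ∈ F, x e :=
  sum_le88 hx hx1 _ _ (card_le88 A hA hab _ _ (fun _ => Iff.rfl) (fun _ => Iff.rfl))

end

end Pool.Agent.Helper49.DL
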