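import Pool.Agent.Helper49.DL.Fold
import Mathlib.Data.ZMod.Basic

/-!
Contours of a configuration; the unbounded contour of the Dobrushin boundary condition separates
the sites star-connected to the lower boundary from the top.
-/

open Finset

namespace Pool.Agent.Helper49.DL

lemma par (a b c d : Bool) (q1 q2 q3 q4 : ZMod 2) (h1 : a = b → q1 = 0) (h2 : a = c → q2 = 0)
    (h3 : b = d → q3 = 0) (h4 : c = d → q4 = 0) (h12 : a ≠ b → a ≠ c → q1 = q2)
    (h13 : a ≠ b → b ≠ d → q1 = q3) (h14 : a ≠ b → c ≠ d → q1 = q4) (h23 : a ≠ c → b ≠ d → q2 = q3)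
    (h24 : a ≠ c → c ≠ d → q2 = q4) (h34 : b ≠ d → c ≠ d → q3 = q4) : q1 + q2 + q3 + q4 = 0 := by
  have hz : ∀ q : ZMod 2, q + q = 0 := by decide
  have hz4 : ∀ q : ZMod 2, q + q + q + q = 0 := by decide
  by_cases c1 : a = b <;> by_cases c2 : a = c <;> by_cases c3 : b = d <;> by_cases c4 : c = d
  all_goals first
    | (exfalso; revert c1 c2 c3 c4; cases a <;> cases b <;> cases c <;> cases d <;> decide)
    | skip
  · rw [h1 c1, h2 c2, h3 c3, h4 c4]; rfl
  all_goals simp_all

open scoped Classical

/-- Bonds: `(i, true)` is the horizontal bond `{i, i + e1}`, `(i, false)` the vertical bond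
`{i, i + e2}`. -/
abbrev Bond := Site × Bool

/-- Second endpoint of a bond. -/
def bend (b : Bond) : Site := b.1 + (if b.2 then e1 else e2)

/-- A bond is broken if its endpoints have different colours; its dual edge then belongs to a
contour. -/
def Broken (ω : Cfg) (b : Bond) : Prop := ω b.1 ≠ ω (bend b)

/-- The four sides of the unit plaquette with lower left corner `p`. -/
def Side (p : Site) (b : Bond) : Prop :=
  b = (p, true) ∨ b = (p, false) ∨ b = (p + e1, false) ∨ b = (p + e2, true)

/-- Two dual edges have a common endpoint iff the two bonds are sides of a common plaquette. -/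
def Touch (a b : Bond) : Prop := ∃ p, Side p a ∧ Side p b

/-- Two broken bonds belong to the same contour. -/
def SameContour (ω : Cfg) : Bond → Bond → Prop :=
  Relation.ReflTransGen (fun a b => Broken ω a ∧ Broken ω b ∧ Touch a b)

/-- The interface: the contour containing the dual edge of the bond `{(N+1,0),(N+1,1)}` (which
lies just outside the box of half-width `N`). -/
def Interface (N : ℤ) (ω : Cfg) (b : Bond) : Prop :=
  Broken ω b ∧ SameContour ω b ((N + 1, 0), false)

section

variable {N M : ℤ} {ω : Cfg}

/-- Indicator of the interface, modulo two. -/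
noncomputable def ig (N : ℤ) (ω : Cfg) (b : Bond) : ZMod 2 := if Interface N ω b then 1 else 0

lemma ig_unbroken {b : Bond} (h : ¬ Broken ω b) : ig N ω b = 0 := by
  unfold ig; rw [if_neg]; intro h'; exact h h'.1

lemma interface_side {p : Site} {a b : Bond} (ha : Side p a) (hb : Side p b)
    (hbb : Broken ω b) (h : Interface N ω a) : Interface N ω b :=
  ⟨hbb, Relation.ReflTransGen.head ⟨hbb, h.1, p, hb, ha⟩ h.2⟩

lemma ig_side {p : Site} {a b : Bond} (ha : Side p a) (hb : Side p b) (haa : Broken ω a)
    (hbb : Broken ω b) : ig N ω a = ig N ω b := by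
  unfold ig
  by_cases h : Interface N ω a
  · rw [if_pos h, if_pos (interface_side ha hb hbb h)]
  · rw [if_neg h, if_neg (fun h' => h (interface_side hb ha haa h'))]

lemma zz (a : ZMod 2) : a + a = 0 := by
  have : ∀ a : ZMod 2, a + a = 0 := by decide
  exact this a

/-- The interface has an even number of sides in each plaquette. -/
lemma plaq_even (x y : ℤ) :
    ig N ω ((x, y), true) + ig N ω ((x, y), false) + ig N ω ((x + 1, y), false) +
      ig N ω ((x, y + 1), true) = 0 := by
  have s1 : Side (x, y) ((x, y), true) := Or.inl rfl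
  have s2 : Side (x, y) ((x, y), false) := Or.inr (Or.inl rfl)
  have s3 : Side (x, y) ((x + 1, y), false) := by
    right; right; left; simp [e1]
  have s4 : Side (x, y) ((x, y + 1), true) := by
    right; right; right; simp [e2]
  have b1 : Broken ω ((x, y), true) ↔ ω (x, y) ≠ ω (x + 1, y) := by
    unfold Broken bend; simp [e1]
  have b2 : Broken ω ((x, y), false) ↔ ω (x, y) ≠ ω (x, y + 1) := by
    unfold Broken bend; simp [e2]
  have b3 : Broken ω ((x + 1, y), false) ↔ ω (x + 1, y) ≠ ω (x + 1, y + 1) := by
    unfold Broken bend; simp [e2]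
  have b4 : Broken ω ((x, y + 1), true) ↔ ω (x, y + 1) ≠ ω (x + 1, y + 1) := by
    unfold Broken bend; simp [e1]
  refine par (ω (x, y)) (ω (x + 1, y)) (ω (x, y + 1)) (ω (x + 1, y + 1)) _ _ _ _ ?_ ?_ ?_ ?_
    ?_ ?_ ?_ ?_ ?_ ?_
  · intro h; exact ig_unbroken (fun h' => b1.1 h' h)
  · intro h; exact ig_unbroken (fun h' => b2.1 h' h)
  · intro h; exact ig_unbroken (fun h' => b3.1 h' h)
  · intro h; exact ig_unbroken (fun h' => b4.1 h' h)
  · intro h h'; exact ig_side s1 s2 (b1.2 h) (b2.2 h')
  · intro h h'; exact ig_side s1 s3 (b1.2 h) (b3.2 h')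
  · intro h h'; exact ig_side s1 s4 (b1.2 h) (b4.2 h')
  · intro h h'; exact ig_side s2 s3 (b2.2 h) (b3.2 h')
  · intro h h'; exact ig_side s2 s4 (b2.2 h) (b4.2 h')
  · intro h h'; exact ig_side s3 s4 (b3.2 h) (b4.2 h')

/-- Parity of the number of interface edges above a site. -/
noncomputable def gg (N M : ℤ) (ω : Cfg) (i : Site) : ZMod 2 :=
  ∑ y ∈ Finset.Icc i.2 M, ig N ω ((i.1, y), false)

lemma conf_high (h : ω ∈ confs (box N M) (eta 0)) {i : Site} (hi : M < i.2) (hM : 0 ≤ M) :
    ω i = true := by
  rw [mem_confs] at h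
  rw [h i (by rw [mem_box]; omega)]
  simp only [eta, decide_eq_true_eq]; omega

lemma conf_low (h : ω ∈ confs (box N M) (eta 0)) {i : Site} (hi : i ∉ box N M) (hy : i.2 ≤ 0) :
    ω i = false := by
  rw [mem_confs] at h
  rw [h i hi]
  simp only [eta, decide_eq_false_iff_not]; omega

lemma gg_vert (h : ω ∈ confs (box N M) (eta 0)) (hM : 0 ≤ M) (x y : ℤ) :
    gg N M ω (x, y) = ig N ω ((x, y), false) + gg N M ω (x, y + 1) := by
  unfold gg
  simp only
  by_cases hy : y ≤ M
  · have : Finset.Icc y M = insert y (Finset.Icc (y + 1) M) := by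
      ext z; simp only [Finset.mem_Icc, Finset.mem_insert]; omega
    rw [this, Finset.sum_insert]
    simp
  · rw [Finset.Icc_eq_empty (by omega), Finset.Icc_eq_empty (by omega), ig_unbroken]
    · simp
    · unfold Broken bend
      simp only [Bool.false_eq_true, if_false, ne_eq, not_not]
      rw [conf_high h (by simp only; omega) hM,
        conf_high h (by simp only [e2, Prod.snd_add]; omega) hM]

lemma gg_hor (h : ω ∈ confs (box N M) (eta 0)) (hM : 0 ≤ M) (x y : ℤ) :
    gg N M ω (x, y) + gg N M ω (x + 1, y) = ig N ω ((x, y), true) := by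
  have key : ∀ n : ℕ, gg N M ω (x, M + 1 - n) + gg N M ω (x + 1, M + 1 - n) =
      ig N ω ((x, M + 1 - n), true) := by
    intro n
    induction n with
    | zero =>
      simp only [Nat.cast_zero, sub_zero]
      unfold gg
      simp only
      rw [Finset.Icc_eq_empty (by simp), ig_unbroken]
      · simp
      · unfold Broken bend
        simp only [if_true, ne_eq, not_not]
        rw [conf_high h (by simp only; omega) hM,
          conf_high h (by simp only [e1, Prod.snd_add]; omega) hM]
    | succ n ih =>
      have hp := plaq_even (N := N) (ω := ω) x (M + 1 - (n + 1 : ℕ))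
      have e1' : M + 1 - ((n + 1 : ℕ) : ℤ) + 1 = M + 1 - (n : ℤ) := by push_cast; ring
      rw [gg_vert h hM x, gg_vert h hM (x + 1), e1']
      rw [e1'] at hp
      have h2 := ih
      set a := ig N ω ((x, M + 1 - ((n + 1 : ℕ) : ℤ)), true)
      set b := ig N ω ((x, M + 1 - ((n + 1 : ℕ) : ℤ)), false)
      set c := ig N ω ((x + 1, M + 1 - ((n + 1 : ℕ) : ℤ)), false)
      set d := ig N ω ((x, M + 1 - (n : ℤ)), true)
      set u := gg N M ω (x, M + 1 - (n : ℤ))
      set v := gg N M ω (x + 1, M + 1 - (n : ℤ))
      have h3 : b + u + (c + v) = b + c + (u + v) := by ring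
      rw [h3, h2]
      have h4 : ∀ a b c d : ZMod 2, a + b + c + d = 0 → b + c + d = a := by decide
      exact h4 a b c d hp
  by_cases hy : y ≤ M + 1
  · have := key (M + 1 - y).toNat
    rw [Int.toNat_of_nonneg (by omega)] at this
    simpa using this
  · unfold gg
    simp only
    rw [Finset.Icc_eq_empty (by omega), ig_unbroken]
    · simp
    · unfold Broken bend
      simp only [if_true, ne_eq, not_not]
      rw [conf_high h (by simp only; omega) hM,
        conf_high h (by simp only [e1, Prod.snd_add]; omega) hM]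

/-- Star adjacency. -/
def StarAdj (i j : Site) : Prop := |i.1 - j.1| ≤ 1 ∧ |i.2 - j.2| ≤ 1

lemma zeq {a b : ZMod 2} (h : a + b = 0) : a = b := by
  have : ∀ a b : ZMod 2, a + b = 0 → a = b := by decide
  exact this a b h

lemma gg_star (h : ω ∈ confs (box N M) (eta 0)) (hM : 0 ≤ M) {i j : Site} (hij : StarAdj i j)
    (hi : ω i = false) (hj : ω j = false) : gg N M ω i = gg N M ω j := by
  -- nearest neighbour steps
  have hh : ∀ x y : ℤ, ω (x, y) = false → ω (x + 1, y) = false →
      gg N M ω (x, y) = gg N M ω (x + 1, y) := by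
    intro x y h1 h2
    apply zeq
    rw [gg_hor h hM, ig_unbroken]
    unfold Broken bend; simp [e1, h1, h2]
  have hv : ∀ x y : ℤ, ω (x, y) = false → ω (x, y + 1) = false →
      gg N M ω (x, y) = gg N M ω (x, y + 1) := by
    intro x y h1 h2
    rw [gg_vert h hM, ig_unbroken, zero_add]
    unfold Broken bend; simp [e2, h1, h2]
  -- diagonal steps
  have hd1 : ∀ x y : ℤ, ω (x, y) = false → ω (x + 1, y + 1) = false →
      gg N M ω (x, y) = gg N M ω (x + 1, y + 1) := by
    intro x y h1 h2
    cases hk : ω (x + 1, y)
    · rw [hh x y h1 hk, hv (x + 1) y hk h2]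
    · have e1' := gg_hor h hM x y
      have e2' := gg_vert h hM (x + 1) y
      have s := ig_side (N := N) (ω := ω) (p := (x, y)) (a := ((x, y), true))
        (b := ((x + 1, y), false)) (Or.inl rfl) (Or.inr (Or.inr (Or.inl (by simp [e1]))))
        (by unfold Broken bend; simp [e1, h1, hk]) (by unfold Broken bend; simp [e2, h2, hk])
      rw [← s] at e2'
      rw [e2'] at e1'
      set a := gg N M ω (x, y)
      set b := gg N M ω (x + 1, y + 1)
      set c := ig N ω ((x, y), true)
      have : ∀ a b c : ZMod 2, a + (c + b) = c → a = b := by decide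
      exact this a b c e1'
  have hd2 : ∀ x y : ℤ, ω (x, y + 1) = false → ω (x + 1, y) = false →
      gg N M ω (x, y + 1) = gg N M ω (x + 1, y) := by
    intro x y h1 h2
    cases hk : ω (x, y)
    · rw [← hv x y hk h1, hh x y hk h2]
    · have e1' := gg_hor h hM x y
      have e2' := gg_vert h hM x y
      have s := ig_side (N := N) (ω := ω) (p := (x, y)) (a := ((x, y), true))
        (b := ((x, y), false)) (Or.inl rfl) (Or.inr (Or.inl rfl))
        (by unfold Broken bend; simp [e1, h2, hk]) (by unfold Broken bend; simp [e2, h1, hk])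
      rw [← s] at e2'
      rw [e2'] at e1'
      set a := gg N M ω (x, y + 1)
      set b := gg N M ω (x + 1, y)
      set c := ig N ω ((x, y), true)
      have : ∀ a b c : ZMod 2, c + a + b = c → a = b := by decide
      exact this a b c e1'
  obtain ⟨x, y⟩ := i
  obtain ⟨x', y'⟩ := j
  unfold StarAdj at hij
  simp only at hij
  have h1 := abs_le.1 hij.1
  have h2 := abs_le.1 hij.2
  have hx : x' = x - 1 ∨ x' = x ∨ x' = x + 1 := by omega
  have hy : y' = y - 1 ∨ y' = y ∨ y' = y + 1 := by omega
  rcases hx with rfl | rfl | rfl <;> rcases hy with rfl | rfl | rfl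
  · have := hd1 (x - 1) (y - 1)
    simp only [sub_add_cancel] at this
    exact (this hj hi).symm
  · have := hh (x - 1) y'
    simp only [sub_add_cancel] at this
    exact (this hj hi).symm
  · have := hd2 (x - 1) y
    simp only [sub_add_cancel] at this
    exact (this hj hi).symm
  · have := hv x' (y - 1)
    simp only [sub_add_cancel] at this
    exact (this hj hi).symm
  · rfl
  · exact hv x' y hi hj
  · have := hd2 x (y - 1)
    simp only [sub_add_cancel] at this
    exact this hi hj
  · exact hh x y' hi hj
  · exact hd1 x y hi hj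

/-- The parity is one on the lower outside region. -/
lemma gg_low (h : ω ∈ confs (box N M) (eta 0)) (hN : 0 ≤ N) (hM : 1 ≤ M) {i : Site}
    (hi : i ∉ box N M) (hy : i.2 ≤ 0) : gg N M ω i = 1 := by
  have hM0 : 0 ≤ M := by omega
  -- base point
  have hbase : gg N M ω (N + 1, 0) = 1 := by
    have hout : ∀ y : ℤ, ((N + 1, y) : Site) ∉ box N M := by
      intro y; rw [mem_box]; simp only; omega
    have hω : ∀ y : ℤ, ω (N + 1, y) = decide (1 ≤ y) := by
      intro y
      rw [mem_confs] at h
      rw [h _ (hout y)]
      simp [eta]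
    unfold gg
    simp only
    rw [Finset.sum_eq_single 0]
    · unfold ig
      rw [if_pos]
      refine ⟨?_, Relation.ReflTransGen.refl⟩
      unfold Broken bend
      simp only [Bool.false_eq_true, if_false, e2, Prod.mk_add_mk, add_zero, zero_add, ne_eq]
      rw [hω, hω]; decide
    · intro y hy' hne
      rw [Finset.mem_Icc] at hy'
      apply ig_unbroken
      unfold Broken bend
      simp only [Bool.false_eq_true, if_false, e2, Prod.mk_add_mk, add_zero, ne_eq, not_not]
      rw [hω, hω]
      have h1 : 1 ≤ y := by omega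
      have h2 : 1 ≤ y + 1 := by omega
      simp [h1, h2]
    · intro h0
      exfalso; apply h0; rw [Finset.mem_Icc]; omega
  -- descend in a column
  have hdesc : ∀ (x y : ℤ), y ≤ 0 → (∀ z, z ≤ y → ((x, z) : Site) ∉ box N M) → ∀ n : ℕ,
      gg N M ω (x, y - n) = gg N M ω (x, y) := by
    intro x y hy0 hout n
    induction n with
    | zero => simp
    | succ n ih =>
      rw [← ih]
      refine gg_star h hM0 ?_ ?_ ?_
      · unfold StarAdj
        simp only [sub_self, abs_zero]
        refine ⟨by norm_num, ?_⟩
        rw [abs_le]; push_cast; constructor <;> omega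
      · exact conf_low h (hout _ (by push_cast; omega)) (by simp only; push_cast; omega)
      · exact conf_low h (hout _ (by omega)) (by simp only; omega)
  -- rows below the box are constant
  have hrow : ∀ (y : ℤ), y ≤ -M → ∀ x x' : ℤ, gg N M ω (x, y) = gg N M ω (x', y) := by
    intro y hyM
    have hstep : ∀ x : ℤ, gg N M ω (x + 1, y) = gg N M ω (x, y) := by
      intro x
      refine gg_star h hM0 ?_ ?_ ?_
      · unfold StarAdj
        simp only [sub_self, abs_zero]
        refine ⟨?_, by norm_num⟩
        rw [abs_le]; constructor <;> omega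
      · exact conf_low h (by rw [mem_box]; simp only; omega) (by simp only; omega)
      · exact conf_low h (by rw [mem_box]; simp only; omega) (by simp only; omega)
    have hzero : ∀ x : ℤ, gg N M ω (x, y) = gg N M ω (0, y) := by
      intro x
      induction x using Int.induction_on with
      | zero => rfl
      | succ n ih => rw [hstep]; exact ih
      | pred n ih =>
        have := hstep (-(n : ℤ) - 1)
        rw [sub_add_cancel] at this
        rw [← this]; exact ih
    intro x x'
    rw [hzero x, hzero x']
  obtain ⟨x, y⟩ := i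
  simp only at hy
  have hcol : ∀ z, z ≤ y → ((x, z) : Site) ∉ box N M := by
    intro z hz
    rw [mem_box] at hi ⊢
    simp only at hi ⊢
    omega
  have h1 := hdesc x y hy hcol (y + M + |y|).toNat
  have h2 := hdesc (N + 1) 0 le_rfl (fun z _ => by rw [mem_box]; simp only; omega)
    (M + |y|).toNat
  have hyabs := neg_abs_le y
  rw [Int.toNat_of_nonneg (by omega)] at h1
  rw [Int.toNat_of_nonneg (by have := abs_nonneg y; omega)] at h2
  have e1' : y - (y + M + |y|) = 0 - (M + |y|) := by ring
  rw [e1'] at h1
  rw [← h1, hrow (0 - (M + |y|)) (by have := abs_nonneg y; omega) x (N + 1), h2, hbase]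

/-- Sites star-connected, through sites of colour 2, to the lower outside region. -/
def Low (N M : ℤ) (ω : Cfg) (i : Site) : Prop :=
  ∃ r, r ∉ box N M ∧ r.2 ≤ 0 ∧
    Relation.ReflTransGen (fun a b => StarAdj a b ∧ ω b = false ∧ b ∈ box N M) r i

lemma low_false (h : ω ∈ confs (box N M) (eta 0)) {i : Site} (hi : Low N M ω i) : ω i = false := by
  obtain ⟨r, hr, hr0, hp⟩ := hi
  induction hp with
  | refl => exact conf_low h hr hr0
  | tail _ hb _ => exact hb.2.1

lemma low_gg (h : ω ∈ confs (box N M) (eta 0)) (hN : 0 ≤ N) (hM : 1 ≤ M) {i : Site}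
    (hi : Low N M ω i) : gg N M ω i = 1 := by
  obtain ⟨r, hr, hr0, hp⟩ := hi
  induction hp with
  | refl => exact gg_low h hN hM hr hr0
  | @tail b c hab hb ih =>
    rw [← ih]
    exact (gg_star h (by omega) hb.1 (low_false h ⟨r, hr, hr0, hab⟩) hb.2.1).symm

/-- A site star-connected to the lower boundary lies below the interface. -/
theorem low_below (h : ω ∈ confs (box N M) (eta 0)) (hN : 0 ≤ N) (hM : 1 ≤ M) {i : Site}
    (hi : Low N M ω i) : ∃ y, i.2 ≤ y ∧ Interface N ω ((i.1, y), false) := by
  by_contra hc
  push Not at hc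
  have h1 := low_gg h hN hM hi
  have h2 : gg N M ω i = 0 := by
    unfold gg
    refine Finset.sum_eq_zero fun y hy => ?_
    unfold ig
    rw [if_neg]
    exact hc y (Finset.mem_Icc.1 hy).1
  rw [h2] at h1
  exact absurd h1 (by decide)

end

end Pool.Agent.Helper49.DL
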