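import Pool.Agent.Helper49.DL.Gin2

/-!
Block DL2-G2: lower bound for a line of bonds from boundary to boundary.

Paper proof of `line`. Let `m j = M1 ∅ (v j) ≥ mm`, `n j = M1 γ (v j)`, `g j = ±1` (`-1` iff `e j ∈ γ`).
`m 0 = n 0 = m k = n k = 1` (`sub Λ {v} = ∅` off `Λ`). If `mm = 0` all terms are `≥ 0` by `gin`. If
`mm > 0`, `r j = n j / m j`; `|m j n (j+1) - g j n j m (j+1)| = m j m (j+1) |r (j+1) - g j r j| ≥
mm² |r (j+1) - g j r j| = mm² |G (j+1) r (j+1) - G j r j|`, `G j = ∏_{i<j} g i`; the sum over `j < k`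
is `≥ mm² |G k r k - G 0 r 0| = mm² |-1 - 1| = 2 mm²`.
-/

open Finset
open scoped Classical

namespace Pool.Agent.Helper49.DL

section

variable {Λ : Finset Site}

private lemma M1_off {β : ℝ} {κ : Site → ℝ} (γ : Finset (LB Λ)) {i : Site} (hi : i ∉ Λ) :
    M1 β κ γ i = 1 := by
  have h1 : sub Λ {i} = ∅ := by
    unfold sub
    rw [Finset.filter_eq_empty_iff]
    intro v _ h
    rw [Finset.mem_singleton] at h
    exact hi (h ▸ v.2)
  unfold M1
  rw [h1]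
  exact div_self (NN_empty_pos _ _ _).ne'

/-- telescoping -/
private lemma tele (r g : ℕ → ℝ) (hg : ∀ j, |g j| = 1) (k : ℕ) :
    |r k - (∏ j ∈ Finset.range k, g j) * r 0| ≤
      ∑ j ∈ Finset.range k, |r (j + 1) - g j * r j| := by
  induction k with
  | zero => simp
  | succ k ih =>
    rw [Finset.sum_range_succ, Finset.prod_range_succ]
    have h1 : r (k + 1) - (∏ j ∈ Finset.range k, g j) * g k * r 0 =
        (r (k + 1) - g k * r k) + g k * (r k - (∏ j ∈ Finset.range k, g j) * r 0) := by ring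
    rw [h1]
    refine (abs_add_le _ _).trans ?_
    rw [abs_mul, hg, one_mul, add_comm]
    exact add_le_add_left ih _

theorem line {β : ℝ} (hβ : 0 ≤ β) {κ : Site → ℝ} (hκ : ∀ i, 0 ≤ κ i) (γ : Finset (LB Λ))
    {mm : ℝ} (hmm : 0 ≤ mm) (hM : ∀ i, mm ≤ M1 β κ (∅ : Finset (LB Λ)) i) {k : ℕ} (v : ℕ → Site)
    (e : ℕ → LB Λ) (hp : ∀ j < k, lp (e j) = v j) (hq : ∀ j < k, lq (e j) = v (j + 1))
    (h0 : v 0 ∉ Λ) (hk : v k ∉ Λ) (hodd : Odd ((Finset.range k).filter (fun j => e j ∈ γ)).card) :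
    2 * mm ^ 2 ≤ ∑ j ∈ Finset.range k, (M2 β κ (∅ : Finset (LB Λ)) (e j) -
      sg γ (e j) * M2 β κ γ (e j)) := by
  have hgin : ∀ j ∈ Finset.range k, |M1 β κ (∅ : Finset (LB Λ)) (v j) * M1 β κ γ (v (j + 1)) -
        sg γ (e j) * (M1 β κ γ (v j) * M1 β κ (∅ : Finset (LB Λ)) (v (j + 1)))| ≤
      M2 β κ (∅ : Finset (LB Λ)) (e j) - sg γ (e j) * M2 β κ γ (e j) := by
    intro j hj
    have hj' := Finset.mem_range.1 hj
    have h := gin hβ hκ γ (e j)
    rw [hp j hj', hq j hj'] at h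
    exact h
  rcases hmm.eq_or_lt with h00 | hpos
  · rw [← h00]
    have : (2 : ℝ) * 0 ^ 2 = 0 := by norm_num
    rw [this]
    exact Finset.sum_nonneg fun j hj => (abs_nonneg _).trans (hgin j hj)
  obtain ⟨m, hm⟩ : ∃ m : ℕ → ℝ, ∀ j, m j = M1 β κ (∅ : Finset (LB Λ)) (v j) := ⟨_, fun j => rfl⟩
  obtain ⟨n, hn⟩ : ∃ n : ℕ → ℝ, ∀ j, n j = M1 β κ γ (v j) := ⟨_, fun j => rfl⟩
  obtain ⟨r, hr⟩ : ∃ r : ℕ → ℝ, ∀ j, r j = n j / m j := ⟨_, fun j => rfl⟩
  have hmpos : ∀ j, mm ≤ m j := fun j => by rw [hm]; exact hM _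
  have hm0 : ∀ j, 0 < m j := fun j => hpos.trans_le (hmpos j)
  have hg : ∀ j, |sg γ (e j)| = 1 := by
    intro j
    unfold sg
    split_ifs <;> simp
  have h1 : ∀ j ∈ Finset.range k, mm ^ 2 * |r (j + 1) - sg γ (e j) * r j| ≤
      M2 β κ (∅ : Finset (LB Λ)) (e j) - sg γ (e j) * M2 β κ γ (e j) := by
    intro j hj
    refine le_trans ?_ (hgin j hj)
    rw [← hm, ← hm, ← hn, ← hn]
    have e1 : m j * n (j + 1) - sg γ (e j) * (n j * m (j + 1)) =
        (m j * m (j + 1)) * (r (j + 1) - sg γ (e j) * r j) := by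
      rw [hr, hr]
      have a1 := (hm0 j).ne'
      have a2 := (hm0 (j + 1)).ne'
      field_simp
    rw [e1, abs_mul, abs_of_pos (mul_pos (hm0 j) (hm0 (j + 1)))]
    refine mul_le_mul_of_nonneg_right ?_ (abs_nonneg _)
    rw [sq]
    exact mul_le_mul (hmpos j) (hmpos (j + 1)) hpos.le (hm0 j).le
  have h2 := tele r (fun j => sg γ (e j)) hg k
  have h3 : ∏ j ∈ Finset.range k, sg γ (e j) = -1 := by
    unfold sg
    rw [Finset.prod_ite, Finset.prod_const, Finset.prod_const_one, mul_one]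
    exact hodd.neg_one_pow
  have h4 : r 0 = 1 := by
    rw [hr, hn, hm, M1_off _ h0, M1_off _ h0, div_one]
  have h5 : r k = 1 := by
    rw [hr, hn, hm, M1_off _ hk, M1_off _ hk, div_one]
  rw [h3, h4, h5] at h2
  have h6 : |(1 : ℝ) - -1 * 1| = 2 := by norm_num
  rw [h6] at h2
  calc 2 * mm ^ 2 ≤ (∑ j ∈ Finset.range k, |r (j + 1) - sg γ (e j) * r j|) * mm ^ 2 :=
        mul_le_mul_of_nonneg_right h2 (sq_nonneg _)
    _ = ∑ j ∈ Finset.range k, mm ^ 2 * |r (j + 1) - sg γ (e j) * r j| := by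
        rw [mul_comm, Finset.mul_sum]
    _ ≤ _ := Finset.sum_le_sum h1

end

end Pool.Agent.Helper49.DL
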