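import Pool.Agent.Helper49.DL.Decay1
import Pool.Agent.Helper49.DL.Line

/-!
Block DL2-DE2: positivity of the surface tension above the critical inverse temperature
(Lebowitz-Pfister): disorder correlations decay exponentially.

Paper proof of `decay_col`. Use `decay_abs` (Decay1.lean) with `r = mag β₁ ^ 2 * |S|`. All terms of its
hypothesis are `≥ 0` (`gin`), `lk κ e ≥ 1`. For each column
`x ∈ S` the vertical bonds `(x, -M), …, (x, M)` form a line (`line`, `k = 2 M + 1`,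
`v j = (x, -M + j)`), an odd number of them is in `γ`, and `M1 s κ ∅ i ≥ mag s ≥ mag β₁` for `s ≥ β₁`
(`mag_le`, `M1 = avg … (sp (ω i))` for `i ∈ Λ` by `avg_ch`, `ch_singleton`; `M1 = 1 ≥ mag` off `Λ`).
The bonds of different columns are different. Rows: the same with the horizontal bonds `(-N - 1, y), …, (N, y)`.
`mag_mono`: `avg s (kap 1) (box n n) tt` of a spin increases with `s` (`compare` again).
-/

open Finset
open scoped Classical

namespace Pool.Agent.Helper49.DL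

/-- Monotonicity of plus correlations in the inverse temperature. -/
theorem de2_avg_beta_mono {Λ : Finset Site} {β₁ β : ℝ} (h0 : 0 ≤ β₁) (h : β₁ ≤ β) {κ : Site → ℝ}
    (hκ : ∀ i, 0 ≤ κ i) {B : Finset Site} (hB : B ⊆ Λ) :
    avg β₁ κ Λ tt (ch B) ≤ avg β κ Λ tt (ch B) := by
  rw [avg_ch β₁ κ tt hB, avg_ch β κ tt hB, div_le_div_iff₀ (PN_pos _ _ _) (PN_pos _ _ _)]
  have hl : ∀ e : LB Λ, |lJ β₁ κ tt e| ≤ lJ β κ tt e := by
    intro e
    unfold lJ
    have h1 := lk_nonneg hκ e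
    rw [osp_tt, osp_tt, mul_one, mul_one, mul_one, abs_of_nonneg (by positivity)]
    have h2 := mul_le_mul_of_nonneg_right h h1
    linarith
  have h1 := compare (lA (Λ := Λ)) (J1 := lJ β κ tt) (J2 := lJ β₁ κ tt) (D := fun _ => 0)
    (D' := fun _ => 0) hl (fun _ => by simp) (Finset.Subset.refl ∅) (sub Λ B)
  have e1' : (fun e : LB Λ => lJ β₁ κ tt e + 0) = lJ β₁ κ tt := by funext e; ring
  have e2' : (fun e : LB Λ => lJ β κ tt e + 0) = lJ β κ tt := by funext e; ring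
  rw [e1', e2'] at h1
  change PN Λ β κ tt ∅ * PN Λ β₁ κ tt (sub Λ B) ≤ PN Λ β₁ κ tt ∅ * PN Λ β κ tt (sub Λ B) at h1
  linarith

lemma de2_avg_zero_box (β : ℝ) : avg β (kap 1) (box ((0 : ℕ) : ℤ) ((0 : ℕ) : ℤ)) tt
    (fun ω => sp (ω (0, 0))) = 1 := by
  have h0 : ((0 : ℤ), (0 : ℤ)) ∉ box ((0 : ℕ) : ℤ) ((0 : ℕ) : ℤ) := by
    rw [mem_box]; simp
  rw [← avg_const (β := β) (κ := kap 1) (Λ := box ((0 : ℕ) : ℤ) ((0 : ℕ) : ℤ)) (η := tt) 1]
  refine avg_congr fun ω hω => ?_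
  rw [mem_confs] at hω
  rw [hω _ h0]; rfl

lemma de2_mag_le_one (β : ℝ) : mag β ≤ 1 := by
  have h := ciInf_le (mag_bdd β) 0
  rw [de2_avg_zero_box] at h
  exact h

theorem mag_mono {β₁ β : ℝ} (h0 : 0 ≤ β₁) (h : β₁ ≤ β) : mag β₁ ≤ mag β := by
  refine ciInf_mono (mag_bdd β₁) fun n => ?_
  rcases Nat.eq_zero_or_pos n with rfl | hn
  · rw [de2_avg_zero_box, de2_avg_zero_box]
  · have hB : ({((0 : ℤ), (0 : ℤ))} : Finset Site) ⊆ box (n : ℤ) n := by
      rw [Finset.singleton_subset_iff, mem_box]; simp only; omega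
    have h1 := de2_avg_beta_mono h0 h (kap_nonneg zero_le_one) hB
    rwa [ch_singleton] at h1

section

variable {Λ : Finset Site}

lemma de2_QN_empty (β : ℝ) (κ : Site → ℝ) (B : Finset (LV Λ)) :
    QN β κ (∅ : Finset (LB Λ)) B = PN Λ β κ tt B := by
  have e : sJ β κ (∅ : Finset (LB Λ)) = lJ β κ tt := by
    funext e
    unfold sJ sg lJ
    rw [if_neg (Finset.notMem_empty e), osp_tt, osp_tt]
    ring
  unfold QN PN
  rw [e]

lemma de2_mag_le_M1 {β₁ s J : ℝ} (h0 : 0 ≤ β₁) (h : β₁ ≤ s) (hJ : 1 ≤ J) (i : Site) :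
    mag β₁ ≤ M1 s (kap J) (∅ : Finset (LB Λ)) i := by
  unfold M1
  rw [de2_QN_empty, de2_QN_empty]
  by_cases hi : i ∈ Λ
  · have h1 := avg_ch s (kap J) tt (Finset.singleton_subset_iff.2 hi)
    rw [ch_singleton] at h1
    rw [← h1]
    exact (mag_mono h0 h).trans (mag_le (h0.trans h) hJ hi)
  · have h1 : sub Λ {i} = ∅ := by
      unfold sub
      rw [Finset.filter_eq_empty_iff]
      intro v _ hv
      rw [Finset.mem_singleton] at hv
      exact hi (hv ▸ v.2)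
    rw [h1, div_self (PN_pos _ _ _).ne']
    exact de2_mag_le_one β₁

lemma de2_one_le_lk {J : ℝ} (hJ : 1 ≤ J) (e : LB Λ) : 1 ≤ lk (kap J) e := by
  cases e with
  | inl i => exact le_rfl
  | inr i =>
    change 1 ≤ kap J i.1
    unfold kap
    split_ifs
    · exact hJ
    · exact le_rfl

/-- Disjoint lines of bonds from boundary to boundary with an odd number of bonds in `γ`. -/
theorem de2_decay_gen {β₁ β J : ℝ} (h0 : 0 ≤ β₁) (h : β₁ ≤ β) (hJ : 1 ≤ J) (γ : Finset (LB Λ))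
    (S : Finset ℤ) (k : ℕ) (v : ℤ → ℕ → Site) (e : ℤ → ℕ → LB Λ)
    (hp : ∀ x ∈ S, ∀ j < k, lp (e x j) = v x j) (hq : ∀ x ∈ S, ∀ j < k, lq (e x j) = v x (j + 1))
    (hv0 : ∀ x ∈ S, v x 0 ∉ Λ) (hvk : ∀ x ∈ S, v x k ∉ Λ)
    (hodd : ∀ x ∈ S, Odd ((Finset.range k).filter (fun j => e x j ∈ γ)).card)
    (hinj : ∀ x ∈ S, ∀ y ∈ S, ∀ i < k, ∀ j < k, e x i = e y j → x = y ∧ i = j) :
    avg β (kap J) Λ tt (dis β (kap J) γ) ≤ Real.exp (-((β - β₁) * mag β₁ ^ 2 * S.card)) := by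
  have hκ : ∀ i, 0 ≤ kap J i := kap_nonneg (by linarith)
  rw [mul_assoc]
  refine decay_abs h0 h hκ γ fun s hs1 _ => ?_
  have hs : 0 ≤ s := h0.trans hs1
  let d : LB Λ → ℝ := fun b => M2 s (kap J) (∅ : Finset (LB Λ)) b - sg γ b * M2 s (kap J) γ b
  have hd : ∀ b, 0 ≤ d b := fun b => (abs_nonneg _).trans (gin hs hκ γ b)
  have h1 : ∀ x ∈ S, 2 * mag β₁ ^ 2 ≤ ∑ j ∈ Finset.range k, d (e x j) := fun x hx =>
    line hs hκ γ (mag_nonneg h0) (de2_mag_le_M1 h0 hs1 hJ) (v x) (e x) (hp x hx) (hq x hx)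
      (hv0 x hx) (hvk x hx) (hodd x hx)
  have h2 : ∑ x ∈ S, ∑ j ∈ Finset.range k, d (e x j) ≤ ∑ b : LB Λ, d b := by
    rw [← Finset.sum_product' S (Finset.range k) (fun x j => d (e x j))]
    have h3 : Set.InjOn (fun p : ℤ × ℕ => e p.1 p.2) (S ×ˢ Finset.range k : Finset (ℤ × ℕ)) := by
      intro p hp' q hq' hpq
      rw [Finset.mem_coe, Finset.mem_product, Finset.mem_range] at hp' hq'
      obtain ⟨h4, h5⟩ := hinj p.1 hp'.1 q.1 hq'.1 p.2 hp'.2 q.2 hq'.2 hpq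
      exact Prod.ext h4 h5
    rw [← Finset.sum_image (f := d) (g := fun p : ℤ × ℕ => e p.1 p.2) h3]
    exact Finset.sum_le_sum_of_subset_of_nonneg (Finset.subset_univ _) fun b _ _ => hd b
  have h3 : (S.card : ℝ) * (2 * mag β₁ ^ 2) ≤ ∑ x ∈ S, ∑ j ∈ Finset.range k, d (e x j) := by
    rw [← nsmul_eq_mul, ← Finset.sum_const]
    exact Finset.sum_le_sum h1
  have h4 : ∑ b : LB Λ, d b / 2 ≤ ∑ b : LB Λ, lk (kap J) b / 2 * d b := by
    refine Finset.sum_le_sum fun b _ => ?_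
    have h5 := mul_le_mul_of_nonneg_right (de2_one_le_lk hJ b) (hd b)
    linarith
  rw [← Finset.sum_div] at h4
  change mag β₁ ^ 2 * (S.card : ℝ) ≤ ∑ b : LB Λ, lk (kap J) b / 2 * d b
  linarith

theorem de2_decay_nil {β₁ β J : ℝ} (h0 : 0 ≤ β₁) (h : β₁ ≤ β) (hJ : 1 ≤ J) (γ : Finset (LB Λ))
    {S : Finset ℤ} (hS : S = ∅) :
    avg β (kap J) Λ tt (dis β (kap J) γ) ≤ Real.exp (-((β - β₁) * mag β₁ ^ 2 * S.card)) := by
  have hκ : ∀ i, 0 ≤ kap J i := kap_nonneg (by linarith)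
  rw [mul_assoc]
  refine decay_abs h0 h hκ γ fun s hs1 _ => ?_
  have hs : 0 ≤ s := h0.trans hs1
  rw [hS, Finset.card_empty, Nat.cast_zero, mul_zero]
  refine Finset.sum_nonneg fun b _ => ?_
  have h1 := (abs_nonneg _).trans (gin hs hκ γ b)
  have h2 := lk_nonneg hκ b
  exact mul_nonneg (by linarith) h1

end

section

variable {N M : ℤ}

lemma de2_mem_vb_box {i : Site} : i ∈ vb (box N M) ↔ (-N ≤ i.1 ∧ i.1 ≤ N) ∧
    ((-M + 1 ≤ i.2 ∧ i.2 ≤ M) ∨ (-M + 1 ≤ i.2 + 1 ∧ i.2 + 1 ≤ M)) := by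
  rw [mem_vb, mem_box, mem_box]
  simp only [e2, Prod.fst_add, Prod.snd_add, add_zero]
  tauto

lemma de2_mem_hb_box {i : Site} : i ∈ hb (box N M) ↔
    ((-N ≤ i.1 ∧ i.1 ≤ N) ∨ (-N ≤ i.1 + 1 ∧ i.1 + 1 ≤ N)) ∧ (-M + 1 ≤ i.2 ∧ i.2 ≤ M) := by
  rw [mem_hb, mem_box, mem_box]
  simp only [e1, Prod.fst_add, Prod.snd_add, add_zero]
  tauto

/-- Number of vertical bonds of `γ` in the column `x`. -/
noncomputable def colc (γ : Finset (LB (box N M))) (x : ℤ) : ℕ :=
  (γ.filter (fun e => e.isRight = true ∧ (lp e).1 = x)).card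

/-- Number of horizontal bonds of `γ` in the row `y`. -/
noncomputable def rowc (γ : Finset (LB (box N M))) (y : ℤ) : ℕ :=
  (γ.filter (fun e => e.isLeft = true ∧ (lp e).2 = y)).card

theorem decay_col {β₁ β J : ℝ} (h0 : 0 ≤ β₁) (h : β₁ ≤ β) (hJ : 1 ≤ J) (hM : 1 ≤ M)
    (γ : Finset (LB (box N M))) {S : Finset ℤ} (hS : S ⊆ Finset.Icc (-N) N)
    (hodd : ∀ x ∈ S, Odd (colc γ x)) :
    avg β (kap J) (box N M) tt (dis β (kap J) γ) ≤
      Real.exp (-((β - β₁) * mag β₁ ^ 2 * S.card)) := by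
  rcases S.eq_empty_or_nonempty with hSe | ⟨x0, hx0⟩
  · exact de2_decay_nil h0 h hJ γ hSe
  have hx0' := Finset.mem_Icc.1 (hS hx0)
  have hm : ∀ (x : ℤ) (j : ℕ), -N ≤ x → x ≤ N → (j : ℤ) ≤ 2 * M →
      ((x, -M + j) : Site) ∈ vb (box N M) := by
    intro x j h1 h2 h3
    rw [de2_mem_vb_box]
    simp only
    omega
  have hk : ∀ j : ℕ, j < (2 * M + 1).toNat ↔ (j : ℤ) ≤ 2 * M := by intro j; omega
  let e : ℤ → ℕ → LB (box N M) := fun x j =>
    if hh : ((x, -M + j) : Site) ∈ vb (box N M) then Sum.inr ⟨(x, -M + j), hh⟩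
    else Sum.inr ⟨(x0, -M + (0 : ℕ)), hm x0 0 hx0'.1 hx0'.2 (by push_cast; omega)⟩
  have he : ∀ x ∈ S, ∀ j < (2 * M + 1).toNat, ∃ hh : ((x, -M + j) : Site) ∈ vb (box N M),
      e x j = Sum.inr ⟨(x, -M + j), hh⟩ := by
    intro x hx j hj
    have hx' := Finset.mem_Icc.1 (hS hx)
    have hh := hm x j hx'.1 hx'.2 ((hk j).1 hj)
    exact ⟨hh, dif_pos hh⟩
  have hinj : ∀ x ∈ S, ∀ y ∈ S, ∀ i < (2 * M + 1).toNat, ∀ j < (2 * M + 1).toNat,
      e x i = e y j → x = y ∧ i = j := by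
    intro x hx y hy i hi j hj hij
    obtain ⟨h1, h2⟩ := he x hx i hi
    obtain ⟨h3, h4⟩ := he y hy j hj
    rw [h2, h4] at hij
    have h5 := congrArg Subtype.val (Sum.inr.inj hij)
    rw [Prod.mk.injEq] at h5
    exact ⟨h5.1, by omega⟩
  refine de2_decay_gen h0 h hJ γ S (2 * M + 1).toNat (fun x j => (x, -M + j)) e ?_ ?_ ?_ ?_ ?_ hinj
  · intro x hx j hj
    obtain ⟨h1, h2⟩ := he x hx j hj
    rw [h2]
    rfl
  · intro x hx j hj
    obtain ⟨h1, h2⟩ := he x hx j hj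
    rw [h2]
    change (x, -M + (j : ℤ)) + e2 = (x, -M + ((j + 1 : ℕ) : ℤ))
    unfold e2
    rw [Prod.mk_add_mk, add_zero]
    push_cast
    rw [add_assoc]
  · intro x hx
    rw [mem_box]
    simp only
    push_cast
    omega
  · intro x hx
    rw [mem_box]
    simp only
    omega
  · intro x hx
    have h1 : ((Finset.range (2 * M + 1).toNat).filter (fun j => e x j ∈ γ)).card = colc γ x := by
      refine Finset.card_bij (fun j _ => e x j) ?_ ?_ ?_
      · intro j hj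
        rw [Finset.mem_filter, Finset.mem_range] at hj
        rw [Finset.mem_filter]
        obtain ⟨h1, h2⟩ := he x hx j hj.1
        refine ⟨hj.2, ?_, ?_⟩
        · rw [h2]; rfl
        · rw [h2]; rfl
      · intro i hi j hj hij
        rw [Finset.mem_filter, Finset.mem_range] at hi hj
        exact (hinj x hx x hx i hi.1 j hj.1 hij).2
      · intro b hb
        rw [Finset.mem_filter] at hb
        obtain ⟨hb1, hb2, hb3⟩ := hb
        cases b with
        | inl i => exact absurd hb2 (by simp)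
        | inr i =>
          obtain ⟨⟨a, b⟩, hi⟩ := i
          have hi' := de2_mem_vb_box.1 hi
          change a = x at hb3
          simp only at hi'
          subst hb3
          have hj : (b + M).toNat < (2 * M + 1).toNat := by omega
          obtain ⟨h1, h2⟩ := he a hx (b + M).toNat hj
          have h3 : ((a, -M + ((b + M).toNat : ℤ)) : Site) = (a, b) := by
            rw [Prod.mk.injEq]
            exact ⟨rfl, by omega⟩
          have h4 : e a (b + M).toNat = Sum.inr ⟨(a, b), hi⟩ := by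
            rw [h2]
            congr 1
            exact Subtype.ext h3
          refine ⟨(b + M).toNat, ?_, h4⟩
          rw [Finset.mem_filter, Finset.mem_range]
          exact ⟨hj, by rw [h4]; exact hb1⟩
    rw [h1]
    exact hodd x hx

theorem decay_row {β₁ β J : ℝ} (h0 : 0 ≤ β₁) (h : β₁ ≤ β) (hJ : 1 ≤ J) (hN : 0 ≤ N)
    (γ : Finset (LB (box N M))) {S : Finset ℤ} (hS : S ⊆ Finset.Icc (-M + 1) M)
    (hodd : ∀ y ∈ S, Odd (rowc γ y)) :
    avg β (kap J) (box N M) tt (dis β (kap J) γ) ≤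
      Real.exp (-((β - β₁) * mag β₁ ^ 2 * S.card)) := by
  rcases S.eq_empty_or_nonempty with hSe | ⟨y0, hy0⟩
  · exact de2_decay_nil h0 h hJ γ hSe
  have hy0' := Finset.mem_Icc.1 (hS hy0)
  have hm : ∀ (y : ℤ) (j : ℕ), -M + 1 ≤ y → y ≤ M → (j : ℤ) ≤ 2 * N + 1 →
      ((-N - 1 + j, y) : Site) ∈ hb (box N M) := by
    intro y j h1 h2 h3
    rw [de2_mem_hb_box]
    simp only
    omega
  have hk : ∀ j : ℕ, j < (2 * N + 2).toNat ↔ (j : ℤ) ≤ 2 * N + 1 := by intro j; omega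
  let e : ℤ → ℕ → LB (box N M) := fun y j =>
    if hh : ((-N - 1 + j, y) : Site) ∈ hb (box N M) then Sum.inl ⟨(-N - 1 + j, y), hh⟩
    else Sum.inl ⟨(-N - 1 + (0 : ℕ), y0), hm y0 0 hy0'.1 hy0'.2 (by push_cast; omega)⟩
  have he : ∀ y ∈ S, ∀ j < (2 * N + 2).toNat, ∃ hh : ((-N - 1 + j, y) : Site) ∈ hb (box N M),
      e y j = Sum.inl ⟨(-N - 1 + j, y), hh⟩ := by
    intro y hy j hj
    have hy' := Finset.mem_Icc.1 (hS hy)
    have hh := hm y j hy'.1 hy'.2 ((hk j).1 hj)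
    exact ⟨hh, dif_pos hh⟩
  have hinj : ∀ x ∈ S, ∀ y ∈ S, ∀ i < (2 * N + 2).toNat, ∀ j < (2 * N + 2).toNat,
      e x i = e y j → x = y ∧ i = j := by
    intro x hx y hy i hi j hj hij
    obtain ⟨h1, h2⟩ := he x hx i hi
    obtain ⟨h3, h4⟩ := he y hy j hj
    rw [h2, h4] at hij
    have h5 := congrArg Subtype.val (Sum.inl.inj hij)
    rw [Prod.mk.injEq] at h5
    exact ⟨h5.2, by omega⟩
  refine de2_decay_gen h0 h hJ γ S (2 * N + 2).toNat (fun y j => (-N - 1 + j, y)) e ?_ ?_ ?_ ?_ ?_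
    hinj
  · intro y hy j hj
    obtain ⟨h1, h2⟩ := he y hy j hj
    rw [h2]
    rfl
  · intro y hy j hj
    obtain ⟨h1, h2⟩ := he y hy j hj
    rw [h2]
    change (-N - 1 + (j : ℤ), y) + e1 = (-N - 1 + ((j + 1 : ℕ) : ℤ), y)
    unfold e1
    rw [Prod.mk_add_mk, add_zero]
    push_cast
    rw [add_assoc]
  · intro y hy
    rw [mem_box]
    simp only
    push_cast
    omega
  · intro y hy
    rw [mem_box]
    simp only
    omega
  · intro y hy
    have h1 : ((Finset.range (2 * N + 2).toNat).filter (fun j => e y j ∈ γ)).card = rowc γ y := by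
      refine Finset.card_bij (fun j _ => e y j) ?_ ?_ ?_
      · intro j hj
        rw [Finset.mem_filter, Finset.mem_range] at hj
        rw [Finset.mem_filter]
        obtain ⟨h1, h2⟩ := he y hy j hj.1
        refine ⟨hj.2, ?_, ?_⟩
        · rw [h2]; rfl
        · rw [h2]; rfl
      · intro i hi j hj hij
        rw [Finset.mem_filter, Finset.mem_range] at hi hj
        exact (hinj y hy y hy i hi.1 j hj.1 hij).2
      · intro b hb
        rw [Finset.mem_filter] at hb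
        obtain ⟨hb1, hb2, hb3⟩ := hb
        cases b with
        | inr i => exact absurd hb2 (by simp)
        | inl i =>
          obtain ⟨⟨a, b⟩, hi⟩ := i
          have hi' := de2_mem_hb_box.1 hi
          change b = y at hb3
          simp only at hi'
          subst hb3
          have hj : (a + N + 1).toNat < (2 * N + 2).toNat := by omega
          obtain ⟨h1, h2⟩ := he b hy (a + N + 1).toNat hj
          have h3 : ((-N - 1 + ((a + N + 1).toNat : ℤ), b) : Site) = (a, b) := by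
            rw [Prod.mk.injEq]
            exact ⟨by omega, rfl⟩
          have h4 : e b (a + N + 1).toNat = Sum.inl ⟨(a, b), hi⟩ := by
            rw [h2]
            congr 1
            exact Subtype.ext h3
          refine ⟨(a + N + 1).toNat, ?_, h4⟩
          rw [Finset.mem_filter, Finset.mem_range]
          exact ⟨hj, by rw [h4]; exact hb1⟩
    rw [h1]
    exact hodd y hy

end

end Pool.Agent.Helper49.DL
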