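import Pool.Agent.Helper49.DL.Dual1

/-!
Block DL2-D2: disorder correlations are correlations of the dual model.

Paper proof. `odp` is additive: `odp (F ∆ γ) = odp F ∆ odp γ` (`symmDiff`; parity of a symmetric
difference).
`avg_dis`: `wg β κ Λ ω = exp (β ∑ e, lk κ e) * ∏ e ∈ bk ω, xe e` (each broken bond loses `β lk κ e`; use
`wg_ex`/`en` as a sum over `LB Λ` as in the proof of `wg_ex` in Plus.lean), so
`wg ω * dis γ ω = exp (β ∑ lk κ e) * ∏ e ∈ bk ω ∆ γ, xe e` (bond by bond: `e ∈ γ`: `xe⁻¹ * xe = 1` if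
broken, `xe` if not). Sum over `ω` with `sum_even`, substitute `F = bk ω ∆ γ` (a bijection between
`{F | odp F = ∅}` and `{F | odp F = odp γ}`), divide by the case `γ = ∅`.
-/

open Finset
open scoped Classical

namespace Pool.Agent.Helper49.DL

section

variable {Λ : Finset Site}

/-- Weight of a broken bond. -/
noncomputable def xe (β : ℝ) (κ : Site → ℝ) (e : LB Λ) : ℝ := Real.exp (-(β * lk κ e))

/-- Disorder factor along the set of bonds `γ`. -/
noncomputable def dis (β : ℝ) (κ : Site → ℝ) (γ : Finset (LB Λ)) (ω : Cfg) : ℝ :=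
  ∏ e ∈ γ, if ω (lp e) ≠ ω (lq e) then (xe β κ e)⁻¹ else xe β κ e

/-- Weighted sum over the sets of bonds with boundary `A`. -/
noncomputable def ZE (β : ℝ) (κ : Site → ℝ) (A : Finset (PV Λ)) : ℝ :=
  ∑ F ∈ Finset.univ.filter (fun F : Finset (LB Λ) => odp F = A), ∏ e ∈ F, xe β κ e

/-- Couplings of the dual model: `tanh (dJ e) = xe e`. -/
noncomputable def dJ (β : ℝ) (κ : Site → ℝ) (e : LB Λ) : ℝ :=
  Real.log ((1 + xe β κ e) / (1 - xe β κ e)) / 2

private lemma xe_pos50 (β : ℝ) (κ : Site → ℝ) (e : LB Λ) : 0 < xe β κ e := Real.exp_pos _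

private lemma en_sum50 (κ : Site → ℝ) (ω : Cfg) :
    en κ Λ ω = ∑ e : LB Λ, lk κ e * agr (ω (lp e)) (ω (lq e)) := by
  unfold en
  rw [Fintype.sum_sum_type]
  simp only [lk, lp, lq, one_mul]
  rw [Finset.sum_coe_sort (hb Λ) (fun i : Site => agr (ω i) (ω (i + e1))),
    Finset.sum_coe_sort (vb Λ) (fun i : Site => κ i * agr (ω i) (ω (i + e2)))]

private lemma wg_bk50 (β : ℝ) (κ : Site → ℝ) (ω : Cfg) :
    wg β κ Λ ω = Real.exp (∑ e : LB Λ, β * lk κ e) * ∏ e ∈ bk Λ ω, xe β κ e := by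
  unfold wg xe bk
  rw [← Real.exp_sum, ← Real.exp_add, en_sum50, Finset.mul_sum, Finset.sum_filter,
    ← Finset.sum_add_distrib]
  congr 1
  refine Finset.sum_congr rfl fun e _ => ?_
  by_cases h : ω (lp e) = ω (lq e)
  · rw [if_neg (not_not.2 h), h]
    cases ω (lq e) <;> simp [agr]
  · rw [if_pos h]
    have : agr (ω (lp e)) (ω (lq e)) = 0 := by
      revert h
      cases ω (lp e) <;> cases ω (lq e) <;> simp [agr]
    rw [this]
    ring

private lemma card_symmDiff50 {α : Type*} [DecidableEq α] (s t : Finset α) :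
    (symmDiff s t).card + 2 * (s ∩ t).card = s.card + t.card := by
  have h1 : symmDiff s t = (s \ t) ∪ (t \ s) := rfl
  have h2 : Disjoint (s \ t) (t \ s) := disjoint_sdiff_sdiff
  rw [h1, Finset.card_union_of_disjoint h2]
  have h3 := Finset.card_sdiff_add_card_inter s t
  have h4 := Finset.card_sdiff_add_card_inter t s
  rw [Finset.inter_comm t s] at h4
  omega

private lemma odp_symmDiff50 (F γ : Finset (LB Λ)) :
    odp (symmDiff F γ) = symmDiff (odp F) (odp γ) := by
  ext p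
  rw [Finset.mem_symmDiff]
  unfold odp
  simp only [Finset.mem_filter, Finset.mem_univ, true_and]
  have h1 : (symmDiff F γ).filter (fun e => p ∈ dA e) =
      symmDiff (F.filter (fun e => p ∈ dA e)) (γ.filter (fun e => p ∈ dA e)) := by
    ext e
    simp only [Finset.mem_filter, Finset.mem_symmDiff]
    tauto
  have h2 := card_symmDiff50 (F.filter (fun e => p ∈ dA e)) (γ.filter (fun e => p ∈ dA e))
  rw [h1, Nat.odd_iff, Nat.odd_iff, Nat.odd_iff]
  omega

private lemma odp_empty50 : odp (∅ : Finset (LB Λ)) = ∅ := by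
  unfold odp
  simp

private lemma prod_symmDiff50 (β : ℝ) (κ : Site → ℝ) (F γ : Finset (LB Λ)) :
    (∏ e ∈ F, xe β κ e) * (∏ e ∈ γ, if e ∈ F then (xe β κ e)⁻¹ else xe β κ e) =
      ∏ e ∈ symmDiff F γ, xe β κ e := by
  have h (S : Finset (LB Λ)) (f : LB Λ → ℝ) : ∏ e ∈ S, f e = ∏ e, if e ∈ S then f e else 1 := by
    rw [Finset.prod_ite_mem, Finset.univ_inter]
  rw [h F, h γ, h (symmDiff F γ), ← Finset.prod_mul_distrib]
  refine Finset.prod_congr rfl fun e _ => ?_
  have hx := (xe_pos50 β κ e).ne'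
  by_cases h1 : e ∈ F <;> by_cases h2 : e ∈ γ <;> simp [Finset.mem_symmDiff, h1, h2, hx]

private lemma sum_shift50 (β : ℝ) (κ : Site → ℝ) (γ : Finset (LB Λ)) :
    ∑ F ∈ Finset.univ.filter (fun F : Finset (LB Λ) => odp F = ∅),
        ∏ e ∈ symmDiff F γ, xe β κ e = ZE β κ (odp γ) := by
  unfold ZE
  refine Finset.sum_bij' (fun F _ => symmDiff F γ) (fun F _ => symmDiff F γ) ?_ ?_ ?_ ?_ ?_
  · intro F hF
    rw [Finset.mem_filter] at hF ⊢
    refine ⟨Finset.mem_univ _, ?_⟩
    rw [odp_symmDiff50, hF.2]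
    exact bot_symmDiff _
  · intro F hF
    rw [Finset.mem_filter] at hF ⊢
    refine ⟨Finset.mem_univ _, ?_⟩
    rw [odp_symmDiff50, hF.2]
    exact symmDiff_self _
  · intro F _
    exact symmDiff_symmDiff_cancel_right γ F
  · intro F _
    exact symmDiff_symmDiff_cancel_right γ F
  · intro F _
    rfl

end

/-- Averages of functions of the set of broken bonds. -/
theorem avg_bk {N M : ℤ} (β : ℝ) (κ : Site → ℝ) (G : Finset (LB (box N M)) → ℝ) :
    avg β κ (box N M) tt (fun ω => G (bk (box N M) ω)) =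
      (∑ F ∈ Finset.univ.filter (fun F : Finset (LB (box N M)) => odp F = ∅),
        (∏ e ∈ F, xe β κ e) * G F) / ZE (Λ := box N M) β κ ∅ := by
  have key (H : Finset (LB (box N M)) → ℝ) :
      Zg β κ (box N M) tt (fun ω => H (bk (box N M) ω)) =
        Real.exp (∑ e : LB (box N M), β * lk κ e) *
          ∑ F ∈ Finset.univ.filter (fun F : Finset (LB (box N M)) => odp F = ∅),
            (∏ e ∈ F, xe β κ e) * H F := by
    rw [← sum_even, Finset.mul_sum]
    unfold Zg
    refine Finset.sum_congr rfl fun ω _ => ?_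
    rw [wg_bk50, mul_assoc]
  unfold avg
  rw [key G, key (fun _ => 1), mul_div_mul_left _ _ (Real.exp_pos _).ne']
  congr 1
  unfold ZE
  exact Finset.sum_congr rfl fun F _ => mul_one _

theorem avg_dis {N M : ℤ} (β : ℝ) (κ : Site → ℝ) (γ : Finset (LB (box N M))) :
    avg β κ (box N M) tt (dis β κ γ) = ZE β κ (odp γ) / ZE (Λ := box N M) β κ ∅ := by
  have h1 : dis β κ γ = fun ω => (fun F : Finset (LB (box N M)) =>
      ∏ e ∈ γ, if e ∈ F then (xe β κ e)⁻¹ else xe β κ e) (bk (box N M) ω) := by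
    funext ω
    unfold dis bk
    refine Finset.prod_congr rfl fun e _ => ?_
    simp only [Finset.mem_filter, Finset.mem_univ, true_and]
  rw [h1]
  refine (avg_bk β κ (fun F : Finset (LB (box N M)) =>
    ∏ e ∈ γ, if e ∈ F then (xe β κ e)⁻¹ else xe β κ e)).trans ?_
  rw [← sum_shift50]
  congr 1
  exact Finset.sum_congr rfl fun F _ => prod_symmDiff50 β κ F γ

theorem ZE_empty_pos {Λ : Finset Site} (β : ℝ) (κ : Site → ℝ) :
    0 < ZE (Λ := Λ) β κ ∅ := by
  unfold ZE
  refine Finset.sum_pos (fun F _ => Finset.prod_pos fun e _ => xe_pos50 β κ e) ⟨∅, ?_⟩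
  rw [Finset.mem_filter]
  exact ⟨Finset.mem_univ _, odp_empty50⟩

end Pool.Agent.Helper49.DL
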