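import Pool.Agent.Helper49.DL.Gin2
import Pool.Agent.Helper49.DL.Dual2

/-!
Block DL2-DE1: decay of a disorder correlation from a lower bound on the derivative of its cost.

Paper proof. `avg β κ Λ tt (dis β κ γ) = QN β κ γ ∅ / QN β κ ∅ ∅`: bond by bond
`exp (β lk agr) * (factor of dis) = exp (β lk / 2) exp (± β lk / 2 * sp sp)` (sign `-` for `e ∈ γ`);
use `wg_ex`, `sp_bond`, `osp_tt`, `sum_ex` from Plus.lean.
Let `T s = log (QN s κ ∅ ∅) - log (QN s κ γ ∅)`. `T s ≥ 0` for `s ≥ 0` (`compare` with `J1 = J2 = 0`,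
`D = sJ s κ ∅`, `D' = sJ s κ γ`, `B = ∅`, as in `TS_nonneg`, Freeze.lean). `T` is differentiable,
`T' s = ∑_e (lk κ e / 2) (M2 s κ ∅ e - sg γ e * M2 s κ γ e)` (derivative of the logarithm of a finite sum
of exponentials: `QN s κ γ ∅ = ∑_c exp (s * ∑_e sg γ e * lk κ e / 2 * chi (lA e) c)`). So
`T β ≥ T β₁ + (β - β₁) r` by the mean value theorem.
-/

open Finset
open scoped Classical

namespace Pool.Agent.Helper49.DL

section

variable {Λ : Finset Site}

/-- Energy of the system with couplings reversed on `γ`. -/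
private noncomputable def EE62 (κ : Site → ℝ) (γ : Finset (LB Λ)) (c : LV Λ → Bool) : ℝ :=
  ∑ e : LB Λ, sg γ e * (lk κ e / 2) * chi (lA e) c

private lemma wt62 (s : ℝ) (κ : Site → ℝ) (γ : Finset (LB Λ)) (c : LV Λ → Bool) :
    wt lA (sJ s κ γ) c = Real.exp (s * EE62 κ γ c) := by
  unfold wt EE62
  congr 1
  rw [Finset.mul_sum]
  refine Finset.sum_congr rfl fun e _ => ?_
  unfold sJ
  ring

private lemma QN_eq62 (s : ℝ) (κ : Site → ℝ) (γ : Finset (LB Λ)) (B : Finset (LV Λ)) :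
    QN s κ γ B = ∑ c : LV Λ → Bool, chi B c * Real.exp (s * EE62 κ γ c) := by
  unfold QN NN
  refine Finset.sum_congr rfl fun c _ => ?_
  rw [wt62]
  simp only [frc, Finset.prod_empty, mul_one]

private lemma QN_pos62 (s : ℝ) (κ : Site → ℝ) (γ : Finset (LB Λ)) :
    0 < QN s κ γ (∅ : Finset (LV Λ)) := NN_empty_pos _ _ _

private lemma QN_der62 (κ : Site → ℝ) (γ : Finset (LB Λ)) (s : ℝ) :
    HasDerivAt (fun s => QN s κ γ (∅ : Finset (LV Λ)))
      (∑ e : LB Λ, sg γ e * (lk κ e / 2) * QN s κ γ (lA e)) s := by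
  have e1 : (fun s => QN s κ γ (∅ : Finset (LV Λ))) =
      fun s => ∑ c : LV Λ → Bool, Real.exp (s * EE62 κ γ c) := by
    funext s
    rw [QN_eq62]
    exact Finset.sum_congr rfl fun c _ => by rw [chi_empty, one_mul]
  have e2 : ∑ e : LB Λ, sg γ e * (lk κ e / 2) * QN s κ γ (lA e) =
      ∑ c : LV Λ → Bool, Real.exp (s * EE62 κ γ c) * EE62 κ γ c := by
    simp only [QN_eq62, Finset.mul_sum]
    rw [Finset.sum_comm]
    refine Finset.sum_congr rfl fun c _ => ?_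
    calc ∑ e : LB Λ, sg γ e * (lk κ e / 2) * (chi (lA e) c * Real.exp (s * EE62 κ γ c))
        = ∑ e : LB Λ, (sg γ e * (lk κ e / 2) * chi (lA e) c) * Real.exp (s * EE62 κ γ c) :=
          Finset.sum_congr rfl fun e _ => by ring
      _ = (∑ e : LB Λ, sg γ e * (lk κ e / 2) * chi (lA e) c) * Real.exp (s * EE62 κ γ c) := by
          rw [Finset.sum_mul]
      _ = Real.exp (s * EE62 κ γ c) * EE62 κ γ c := mul_comm _ _
  rw [e1, e2]
  refine HasDerivAt.fun_sum fun c _ => ?_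
  have h := ((hasDerivAt_id s).mul_const (EE62 κ γ c)).exp
  simpa using h

/-- The logarithmic cost. -/
private noncomputable def T62 (κ : Site → ℝ) (γ : Finset (LB Λ)) (s : ℝ) : ℝ :=
  Real.log (QN s κ (∅ : Finset (LB Λ)) ∅) - Real.log (QN s κ γ ∅)

private lemma T_der62 (κ : Site → ℝ) (γ : Finset (LB Λ)) (s : ℝ) :
    HasDerivAt (T62 κ γ) (∑ e : LB Λ, lk κ e / 2 *
      (M2 s κ (∅ : Finset (LB Λ)) e - sg γ e * M2 s κ γ e)) s := by
  have h1 := (QN_der62 κ (∅ : Finset (LB Λ)) s).log (QN_pos62 s κ _).ne'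
  have h2 := (QN_der62 κ γ s).log (QN_pos62 s κ _).ne'
  refine (h1.sub h2).congr_deriv ?_
  rw [Finset.sum_div, Finset.sum_div, ← Finset.sum_sub_distrib]
  refine Finset.sum_congr rfl fun e _ => ?_
  have h3 : sg (∅ : Finset (LB Λ)) e = 1 := by
    unfold sg
    rw [if_neg (Finset.notMem_empty e)]
  rw [h3]
  unfold M2
  ring

private lemma T_nonneg62 {s : ℝ} (hs : 0 ≤ s) {κ : Site → ℝ} (hκ : ∀ i, 0 ≤ κ i)
    (γ : Finset (LB Λ)) : 0 ≤ T62 κ γ s := by
  have hle : ∀ e : LB Λ, |sJ s κ γ e| ≤ sJ s κ (∅ : Finset (LB Λ)) e := by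
    intro e
    have h0 : 0 ≤ s * lk κ e / 2 := by
      have := lk_nonneg hκ e
      positivity
    have h3 : sg (∅ : Finset (LB Λ)) e = 1 := by
      unfold sg
      rw [if_neg (Finset.notMem_empty e)]
    have h4 : |sg γ e| = 1 := by
      unfold sg
      split_ifs <;> norm_num
    unfold sJ
    rw [abs_mul, h4, h3, abs_of_nonneg h0]
  have h1 := compare (lA (Λ := Λ)) (J1 := fun _ => 0) (J2 := fun _ => 0)
    (D := sJ s κ (∅ : Finset (LB Λ))) (D' := sJ s κ γ) (fun _ => by simp) hle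
    (Finset.Subset.refl ∅) ∅
  simp only [zero_add] at h1
  have h0 := NN_empty_pos (lA (Λ := Λ)) (fun _ => (0 : ℝ)) ∅
  have h2 : QN s κ γ ∅ ≤ QN s κ (∅ : Finset (LB Λ)) ∅ := le_of_mul_le_mul_left h1 h0
  exact sub_nonneg.mpr (Real.log_le_log (QN_pos62 s κ γ) h2)

private lemma avg_dis62 (β : ℝ) (κ : Site → ℝ) (γ : Finset (LB Λ)) :
    avg β κ Λ tt (dis β κ γ) = QN β κ γ ∅ / QN β κ (∅ : Finset (LB Λ)) ∅ := by
  have hsp : ∀ (c : LV Λ → Bool) (e : LB Λ),
      sp (ex tt c (lp e)) * sp (ex tt c (lq e)) = chi (lA e) c := by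
    intro c e
    rw [sp_bond, osp_tt, osp_tt, one_mul, one_mul]
  have hfac : ∀ (c : LV Λ → Bool) (e : LB Λ),
      (if ex tt c (lp e) ≠ ex tt c (lq e) then (xe β κ e)⁻¹ else xe β κ e) =
        Real.exp (-(β * lk κ e) * chi (lA e) c) := by
    intro c e
    rw [← hsp]
    unfold xe
    rcases ex tt c (lp e) with _ | _ <;> rcases ex tt c (lq e) with _ | _ <;>
      simp [← Real.exp_neg]
  have hdis : ∀ c : LV Λ → Bool, wt lA (lJ β κ tt) c * dis β κ γ (ex tt c) =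
      wt lA (sJ β κ γ) c := by
    intro c
    unfold dis wt
    rw [Finset.prod_congr rfl fun e _ => hfac c e, ← Real.exp_sum, ← Real.exp_add]
    congr 1
    have hγ : ∑ e ∈ γ, -(β * lk κ e) * chi (lA e) c =
        ∑ e : LB Λ, if e ∈ γ then -(β * lk κ e) * chi (lA e) c else 0 := by
      rw [Finset.sum_ite_mem, Finset.univ_inter]
    rw [hγ, ← Finset.sum_add_distrib]
    refine Finset.sum_congr rfl fun e _ => ?_
    unfold lJ sJ sg
    rw [osp_tt, osp_tt]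
    split_ifs <;> ring
  have hone : lJ β κ (tt : Cfg) = sJ β κ (∅ : Finset (LB Λ)) := by
    funext e
    unfold lJ sJ sg
    rw [osp_tt, osp_tt, if_neg (Finset.notMem_empty e)]
    ring
  have hZ : ∀ γ' : Finset (LB Λ), ∑ c : LV Λ → Bool, wt lA (sJ β κ γ') c = QN β κ γ' ∅ := by
    intro γ'
    rw [QN_eq62]
    exact Finset.sum_congr rfl fun c _ => by rw [chi_empty, one_mul, wt62]
  unfold avg
  rw [Zg_ex, Zg_ex, Finset.sum_congr rfl fun c _ => hdis c, hZ]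
  simp only [mul_one]
  rw [hone, hZ, mul_div_mul_left _ _ (lK_pos β κ).ne']

end

theorem decay_abs {Λ : Finset Site} {β₁ β : ℝ} (h0 : 0 ≤ β₁) (h : β₁ ≤ β) {κ : Site → ℝ}
    (hκ : ∀ i, 0 ≤ κ i) (γ : Finset (LB Λ)) {r : ℝ}
    (hr : ∀ s, β₁ ≤ s → s ≤ β → r ≤ ∑ e : LB Λ, lk κ e / 2 *
      (M2 s κ (∅ : Finset (LB Λ)) e - sg γ e * M2 s κ γ e)) :
    avg β κ Λ tt (dis β κ γ) ≤ Real.exp (-((β - β₁) * r)) := by
  have hT : r * (β - β₁) ≤ T62 κ γ β - T62 κ γ β₁ := by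
    refine (convex_Icc β₁ β).mul_sub_le_image_sub_of_le_deriv
      (fun s _ => (T_der62 κ γ s).continuousAt.continuousWithinAt)
      (fun s _ => (T_der62 κ γ s).differentiableAt.differentiableWithinAt) ?_
      β₁ (Set.left_mem_Icc.2 h) β (Set.right_mem_Icc.2 h) h
    intro s hs
    rw [interior_Icc] at hs
    rw [(T_der62 κ γ s).deriv]
    exact hr s hs.1.le hs.2.le
  have h1 := T_nonneg62 h0 hκ γ
  have h2 : avg β κ Λ tt (dis β κ γ) = Real.exp (-(T62 κ γ β)) := by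
    rw [avg_dis62]
    unfold T62
    rw [neg_sub, Real.exp_sub, Real.exp_log (QN_pos62 β κ γ), Real.exp_log (QN_pos62 β κ _)]
  rw [h2]
  refine Real.exp_le_exp.2 ?_
  linarith

end Pool.Agent.Helper49.DL
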