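import Pool.Agent.Helper49.DL.Limit

/-!
The mean of the antisymmetric field tends to zero at every site, for every defect strength `≥ 1`.
-/

open Finset

namespace Pool.Agent.Helper49.DL

/-- Reflect and flip. -/
def rf (ω : Cfg) : Cfg := fun i => !(ω (bar i))

lemma rf_rf (ω : Cfg) : rf (rf ω) = ω := by funext i; simp [rf]

section

variable {N M : ℤ}

lemma bar_mem_box {i : Site} : bar i ∈ box N M ↔ i ∈ box N M := by
  rw [mem_box, mem_box]; simp only [bar]; omega

lemma rf_eta : rf (eta 0) = eta 0 := by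
  funext i
  simp only [rf, eta, bar]
  rcases le_or_gt 1 i.2 with h | h
  · have h1 : ¬ (0 + 1 ≤ 1 - i.2) := by omega
    have h2 : 0 + 1 ≤ i.2 := by omega
    simp only [h1, h2, decide_true, decide_false, Bool.not_false]
  · have h1 : (0 + 1 ≤ 1 - i.2) := by omega
    have h2 : ¬ (0 + 1 ≤ i.2) := by omega
    simp only [h1, h2, decide_true, decide_false, Bool.not_true]

lemma rf_mem {ω : Cfg} (h : ω ∈ confs (box N M) (eta 0)) : rf ω ∈ confs (box N M) (eta 0) := by
  rw [mem_confs] at *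
  intro i hi
  have h1 : bar i ∉ box N M := fun h' => hi (bar_mem_box.1 h')
  have h2 := h _ h1
  have h3 := congrFun rf_eta i
  simp only [rf] at *
  rw [h2, h3]

lemma agr_not (a b : Bool) : agr (!a) (!b) = agr a b := by
  cases a <;> cases b <;> simp [agr]

lemma en_rf (hM : 1 ≤ M) (J : ℝ) (ω : Cfg) :
    en (kap J) (box N M) (rf ω) = en (kap J) (box N M) ω := by
  rw [en_fold hM, en_fold hM]
  congr 1
  · refine Finset.sum_congr rfl fun e _ => ?_
    simp only [rf, bar_bar, agr_not]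
    ring
  · congr 1
    refine Finset.sum_congr rfl fun x _ => ?_
    simp only [rf, bar, agr_not]
    rw [agr_comm]
    norm_num

lemma avg_rf (hM : 1 ≤ M) (β J : ℝ) (F : Cfg → ℝ) :
    avg β (kap J) (box N M) (eta 0) (fun ω => F (rf ω)) = avg β (kap J) (box N M) (eta 0) F := by
  have h : ∀ G : Cfg → ℝ, Zg β (kap J) (box N M) (eta 0) (fun ω => G (rf ω)) =
      Zg β (kap J) (box N M) (eta 0) G := by
    intro G
    unfold Zg
    refine Finset.sum_bij' (fun ω _ => rf ω) (fun ω _ => rf ω) (fun ω h => rf_mem h)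
      (fun ω h => rf_mem h) (fun ω _ => rf_rf ω) (fun ω _ => rf_rf ω) ?_
    intro ω _
    unfold wg
    rw [en_rf hM]
  unfold avg
  rw [h F, ← h (fun _ => 1)]

/-- Mean spin and mean antisymmetric field coincide. -/
lemma avg_sp_eq (hM : 1 ≤ M) (β J : ℝ) (v : Site) :
    avg β (kap J) (box N M) (eta 0) (fun ω => sp (ω v)) =
      avg β (kap J) (box N M) (eta 0) (yv v) := by
  have h1 : avg β (kap J) (box N M) (eta 0) (fun ω => sp (ω (bar v))) =
      - avg β (kap J) (box N M) (eta 0) (fun ω => sp (ω v)) := by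
    rw [← avg_rf hM β J (fun ω => sp (ω (bar v)))]
    have : (fun ω : Cfg => sp (rf ω (bar v))) = fun ω => (-1) * sp (ω v) := by
      funext ω
      simp [rf, sp_not]
    rw [this, avg_smul]; ring
  have h2 : yv v = fun ω => (2 : ℝ)⁻¹ * (sp (ω v) - sp (ω (bar v))) := by
    funext ω; unfold yv; ring
  rw [h2, avg_smul, avg_sub, h1]
  ring

end

section

variable {β : ℝ}

lemma sp_le_one (b : Bool) : sp b ≤ 1 := by cases b <;> simp <;> norm_num

/-- Row averages of the spin are small in a suitable symmetric box. -/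
theorem row_sp_small (hβ : 0 ≤ β) (y : ℕ) (hy : 1 ≤ y) {t : ℝ} (ht : 0 < t) :
    ∃ N L M : ℤ, 0 ≤ L ∧ L ≤ N ∧ (y : ℤ) + 1 ≤ M ∧
      (2 * (L : ℝ) + 1)⁻¹ * ∑ x ∈ Finset.Icc (-L) L,
        avg β (kap 1) (box N M) (eta 0) (yv (x, (y : ℤ))) ≤ t := by
  obtain ⟨N, L, M, hL, hLN, hM, h⟩ := rows_small hβ y (s := (t / (2 * y)) ^ 2) (by positivity)
  refine ⟨N, L, M, hL, hLN, hM, ?_⟩
  have hM1 : 1 ≤ M := by omega
  have hc : (0 : ℝ) < 2 * (L : ℝ) + 1 := by
    have : (0 : ℝ) ≤ L := by exact_mod_cast hL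
    linarith
  set E := avg β (kap 1) (box N M) (eta 0) with hE
  have hsmall : ∀ k ∈ Finset.range y, E (fun ω => AL L (shift (0, -(k : ℤ)) ω)) ≤ t / (2 * y) := by
    intro k hk
    have h1 := h k (Finset.mem_range.1 hk).le
    rw [fi_zero hβ] at h1
    simp only [sub_zero] at h1
    have h2 := abs_le_of_sq (X := fun ω => AL L (shift (0, -(k : ℤ)) ω)) (by positivity) h1
    refine (avg_mono fun ω _ => ?_).trans h2
    exact le_abs_self _
  -- pointwise identity
  have hpt : ∀ x ∈ Finset.Icc (-L) L, E (yv (x, (y : ℤ))) ≤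
      2 * E (fun ω => ∑ k ∈ Finset.range y, (sp (ω (x, (k : ℤ) + 1)) - sp (ω (x, (k : ℤ)))) / 2) := by
    intro x hx
    have e1' : ∀ ω : Cfg, sp (ω (x, (y : ℤ))) = sp (ω (x, 0)) +
        2 * ∑ k ∈ Finset.range y, (sp (ω (x, (k : ℤ) + 1)) - sp (ω (x, (k : ℤ)))) / 2 := by
      intro ω
      have := Finset.sum_range_sub (fun k : ℕ => sp (ω (x, (k : ℤ))) / 2) y
      have h2 : ∑ k ∈ Finset.range y, (sp (ω (x, (k : ℤ) + 1)) - sp (ω (x, (k : ℤ)))) / 2 =
          ∑ k ∈ Finset.range y, (sp (ω (x, ((k + 1 : ℕ) : ℤ))) / 2 - sp (ω (x, (k : ℤ))) / 2) := by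
        refine Finset.sum_congr rfl fun k _ => ?_
        push_cast; ring
      rw [h2, this]
      push_cast; ring
    have e2' : E (yv (x, (y : ℤ))) = E (fun ω => sp (ω (x, (y : ℤ)))) := (avg_sp_eq hM1 β 1 _).symm
    have e3' : E (fun ω => sp (ω (x, (y : ℤ)))) = E (fun ω => sp (ω (x, 0))) +
        2 * E (fun ω => ∑ k ∈ Finset.range y,
          (sp (ω (x, (k : ℤ) + 1)) - sp (ω (x, (k : ℤ)))) / 2) := by
      rw [hE, ← avg_smul, ← avg_add]
      exact avg_congr fun ω _ => e1' ω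
    have e4' : E (fun ω => sp (ω (x, 0))) ≤ 0 := by
      rw [hE, avg_sp_eq hM1]
      have : yv (x, 0) = fun ω => (-1) * yv (x, 1) ω := by
        funext ω; unfold yv bar; norm_num; ring
      rw [this, avg_smul]
      have : 0 ≤ avg β (kap 1) (box N M) (eta 0) (yv (x, 1)) :=
        (fi_nonneg hβ).trans (fi_le_col hβ hM1
          (by rw [Finset.mem_Icc] at hx; omega) (by rw [Finset.mem_Icc] at hx; omega))
      linarith
    rw [e2', e3']
    linarith
  rw [inv_mul_le_iff₀ hc]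
  calc ∑ x ∈ Finset.Icc (-L) L, E (yv (x, (y : ℤ))) ≤
      ∑ x ∈ Finset.Icc (-L) L, 2 * E (fun ω => ∑ k ∈ Finset.range y,
        (sp (ω (x, (k : ℤ) + 1)) - sp (ω (x, (k : ℤ)))) / 2) := Finset.sum_le_sum hpt
    _ = (2 * (L : ℝ) + 1) * (2 * ∑ k ∈ Finset.range y, E (fun ω => AL L (shift (0, -(k : ℤ)) ω))) := by
        rw [← Finset.mul_sum, hE, ← avg_sum, ← avg_sum]
        have : (fun ω : Cfg => ∑ x ∈ Finset.Icc (-L) L, ∑ k ∈ Finset.range y,
            (sp (ω (x, (k : ℤ) + 1)) - sp (ω (x, (k : ℤ)))) / 2) =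
            fun ω => (2 * (L : ℝ) + 1) * ∑ k ∈ Finset.range y, AL L (shift (0, -(k : ℤ)) ω) := by
          funext ω
          simp only [AL_shift]
          rw [← Finset.mul_sum, mul_inv_cancel_left₀ hc.ne', Finset.sum_comm]
        rw [this, avg_smul]
        ring
    _ ≤ (2 * (L : ℝ) + 1) * (2 * ∑ _k ∈ Finset.range y, t / (2 * y)) := by
        refine mul_le_mul_of_nonneg_left ?_ hc.le
        exact mul_le_mul_of_nonneg_left (Finset.sum_le_sum hsmall) (by norm_num)
    _ = (2 * (L : ℝ) + 1) * t := by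
        rw [Finset.sum_const, Finset.card_range, nsmul_eq_mul]
        have : (y : ℝ) ≠ 0 := by
          have : (1 : ℝ) ≤ y := by exact_mod_cast hy
          linarith
        field_simp

/-- The mean of the antisymmetric field tends to zero. -/
theorem avg_y_tendsto (hβ : 0 ≤ β) {J : ℝ} (hJ : 1 ≤ J) (v : Site) (hv : 1 ≤ v.2) {t : ℝ}
    (ht : 0 < t) : ∃ n₀ : ℤ, ∀ N M : ℤ, n₀ ≤ N → n₀ ≤ M →
      avg β (kap J) (box N M) (eta 0) (yv v) ≤ t := by
  obtain ⟨y, hy⟩ : ∃ y : ℕ, (y : ℤ) = v.2 := ⟨v.2.toNat, Int.toNat_of_nonneg (by omega)⟩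
  have hy1 : 1 ≤ y := by omega
  obtain ⟨N, L, M, hL, hLN, hM, h⟩ := row_sp_small hβ y hy1 ht
  have hc : (0 : ℝ) < 2 * (L : ℝ) + 1 := by
    have : (0 : ℝ) ≤ L := by exact_mod_cast hL
    linarith
  refine ⟨max (|v.1| + N + L) M, fun N' M' hN' hM' => ?_⟩
  have h1 := (le_max_left _ _).trans hN'
  have h2 := (le_max_right _ _).trans hM'
  have hv1 := abs_le.1 (le_refl |v.1|)
  have hvu : v ∈ ubox N' M' := by rw [mem_ubox]; omega
  refine (J_mono (by omega) hβ hJ hvu).trans ?_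
  have hcmp : ∀ x ∈ Finset.Icc (-L) L, avg β (kap 1) (box N' M') (eta 0) (yv v) ≤
      avg β (kap 1) (box N M) (eta 0) (yv (x, (y : ℤ))) := by
    intro x hx
    rw [Finset.mem_Icc] at hx
    have hs : sbox (v.1 - x) N M ⊆ box N' M' := by
      intro i hi; rw [mem_sbox] at hi; rw [mem_box]; omega
    have h3 := dom_mono (by omega) hβ (le_refl 1) hs hvu
    rw [avg_sbox] at h3
    have h4 : (fun ω => yv v (shift (v.1 - x, 0) ω)) = yv (x, (y : ℤ)) := by
      funext ω
      have : v = (v.1, (y : ℤ)) := by ext <;> simp [hy]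
      rw [this, yv_shift]
      congr 2
      ring
    rw [h4] at h3
    exact h3
  have h5 : (2 * (L : ℝ) + 1) * avg β (kap 1) (box N' M') (eta 0) (yv v) ≤
      (2 * (L : ℝ) + 1) * t := by
    rw [inv_mul_le_iff₀ hc] at h
    refine le_trans ?_ h
    calc (2 * (L : ℝ) + 1) * avg β (kap 1) (box N' M') (eta 0) (yv v) =
        ∑ _x ∈ Finset.Icc (-L) L, avg β (kap 1) (box N' M') (eta 0) (yv v) := by
          rw [Finset.sum_const, nsmul_eq_mul, card_row hL]
      _ ≤ _ := Finset.sum_le_sum hcmp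
  exact le_of_mul_le_mul_left h5 hc

end

end Pool.Agent.Helper49.DL
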