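import Pool.Agent.Helper49.DL.Gibbs

/-!
Disjoint paths in diamonds around the bond joining `(0,0)` and `(0,1)` (block DL-DI, elementary).

Paper proof of `routes`. Claim `Cl R` for `R ≥ 1`: for `k1 ≠ k2` with `rad k1 = rad k2 = R` there are
`π1`, `π2` with `Pth k1 π1 o0 ∧ Pth k2 π2 o1` or `Pth k1 π1 o1 ∧ Pth k2 π2 o0`, all points of
`π1 ∪ π2` with `rad ≤ R`, and `insert k1 π1`, `insert k2 π2` disjoint, `k1 ∉ π1`, `k2 ∉ π2`.
Base `R = 1`: the points are `(±1,0)`, `(±1,1)`, `(0,2)`, `(0,-1)`; 15 pairs, e.g.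
`(1,0) → (1,1) → (0,1)` and `(-1,0) → (0,0)`. Step: a point of `rad = R + 1` has one or two neighbours
of `rad = R`; the points with only one are `(±(R+1),0)`, `(±(R+1),1)`, `(0,R+2)`, `(0,-R-1)`, and for
`R ≥ 1` their neighbours `(±R,0)`, `(±R,1)`, `(0,R+1)`, `(0,-R)` are distinct; so two distinct points
with `rad = R + 1` have distinct neighbours `k1 ≠ k2` with `rad = R`; extend the paths of `Cl R`.
`routes` is this step once more (`u`, `w` themselves are not in `π1 ∪ π2`).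
-/

open Finset

namespace Pool.Agent.Helper49.DL

/-- Distance to the defect bond `{(0,0), (0,1)}`. -/
def rad (i : Site) : ℤ := |i.1| + max (i.2 - 1) (-i.2)

/-- Neighbours. -/
def Adj (i j : Site) : Prop := j = i + e1 ∨ i = j + e1 ∨ j = i + e2 ∨ i = j + e2

/-- `Pth x π y`: the elements of `π` are the successive distinct vertices, after `x`, of a lattice
path from `x` to `y`. -/
inductive Pth : Site → Finset Site → Site → Prop
  | nil (x : Site) : Pth x ∅ x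
  | cons {x x' y : Site} {π : Finset Site} (h : Adj x x') (hx : x' ∉ π) (h' : Pth x' π y) :
      Pth x (insert x' π) y

/-- Lower endpoint of the central defect bond. -/
def o0 : Site := (0, 0)
/-- Upper endpoint of the central defect bond. -/
def o1 : Site := (0, 1)

/-- the claim for two points -/
def dlP (R : ℤ) (k1 k2 : Site) : Prop :=
  ∃ π1 π2 : Finset Site, Disjoint (insert k1 π1) (insert k2 π2) ∧ (∀ i ∈ π1, rad i ≤ R) ∧ (∀ i ∈ π2, rad i ≤ R) ∧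
    k1 ∉ π1 ∧ k2 ∉ π2 ∧ ((Pth k1 π1 o0 ∧ Pth k2 π2 o1) ∨ (Pth k1 π1 o1 ∧ Pth k2 π2 o0))

theorem dlP_symm {R : ℤ} {k1 k2 : Site} (h : dlP R k1 k2) : dlP R k2 k1 := by
  obtain ⟨π1, π2, h1, h2, h3, h4, h5, h6⟩ := h
  exact ⟨π2, π1, h1.symm, h3, h2, h5, h4, h6.elim (fun h => Or.inr ⟨h.2, h.1⟩) (fun h => Or.inl ⟨h.2, h.1⟩)⟩

theorem dl_one {x y : Site} (h : Adj x y) : Pth x {y} y := by
  have := Pth.cons h (by simp) (Pth.nil y)
  simpa using this

theorem dl_two {x y z : Site} (h : Adj x y) (h' : Adj y z) (hyz : y ≠ z) : Pth x {y, z} z :=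
  Pth.cons h (by simpa using hyz) (dl_one h')

theorem dl_nb (R : ℤ) (hR : 1 ≤ R) (k : Site) (hk : rad k = R + 1) :
    ∃ a b : Site, Adj k a ∧ Adj k b ∧ rad a = R ∧ rad b = R ∧ (a ≠ b ∨ (k = (R + 1, 0) ∧ a = (R, 0)) ∨ (k = (-(R + 1), 0) ∧ a = (-R, 0)) ∨
      (k = (R + 1, 1) ∧ a = (R, 1)) ∨ (k = (-(R + 1), 1) ∧ a = (-R, 1)) ∨ (k = (0, R + 2) ∧ a = (0, R + 1)) ∨
      (k = (0, -(R + 1)) ∧ a = (0, -R))) := by
  obtain ⟨x, y⟩ := k
  have hx : ∀ t : ℤ, (0 < x ∧ t = x - 1) ∨ (x < 0 ∧ t = x + 1) → Adj (x, y) (t, y) ∧ rad (t, y) = R := by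
    intro t ht
    unfold rad at hk ⊢
    unfold Adj e1 e2
    simp only at hk ⊢
    rcases ht with ⟨h1, rfl⟩ | ⟨h1, rfl⟩
    · refine ⟨Or.inr (Or.inl (by ext <;> simp)), ?_⟩
      rw [abs_of_pos h1] at hk
      rw [abs_of_nonneg (by omega)]
      omega
    · refine ⟨Or.inl (by ext <;> simp), ?_⟩
      rw [abs_of_neg h1] at hk
      rw [abs_of_nonpos (by omega)]
      omega
  have hy : ∀ t : ℤ, (1 < y ∧ t = y - 1) ∨ (y < 0 ∧ t = y + 1) → Adj (x, y) (x, t) ∧ rad (x, t) = R := by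
    intro t ht
    unfold rad at hk ⊢
    unfold Adj e1 e2
    simp only at hk ⊢
    rcases ht with ⟨h1, rfl⟩ | ⟨h1, rfl⟩
    · refine ⟨Or.inr (Or.inr (Or.inr (by ext <;> simp))), ?_⟩
      generalize |x| = z at *
      omega
    · refine ⟨Or.inr (Or.inr (Or.inl (by ext <;> simp))), ?_⟩
      generalize |x| = z at *
      omega
  have hk' := hk
  unfold rad at hk'
  simp only at hk'
  by_cases hx0 : x = 0
  · subst hx0
    rw [abs_zero] at hk'
    rcases lt_or_ge 1 y with h | h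
    · obtain ⟨a1, a2⟩ := hy (y - 1) (Or.inl ⟨h, rfl⟩)
      exact ⟨(0, y - 1), (0, y - 1), a1, a1, a2, a2, by
        right; right; right; right; right; left
        constructor <;> ext <;> simp <;> omega⟩
    · obtain ⟨a1, a2⟩ := hy (y + 1) (Or.inr ⟨by omega, rfl⟩)
      exact ⟨(0, y + 1), (0, y + 1), a1, a1, a2, a2, by
        right; right; right; right; right; right
        constructor <;> ext <;> simp <;> omega⟩
  · obtain ⟨t, ht⟩ : ∃ t : ℤ, (0 < x ∧ t = x - 1) ∨ (x < 0 ∧ t = x + 1) := by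
      rcases lt_or_gt_of_ne hx0 with h | h
      · exact ⟨x + 1, Or.inr ⟨h, rfl⟩⟩
      · exact ⟨x - 1, Or.inl ⟨h, rfl⟩⟩
    obtain ⟨a1, a2⟩ := hx t ht
    by_cases hy0 : y = 0 ∨ y = 1
    · refine ⟨(t, y), (t, y), a1, a1, a2, a2, ?_⟩
      rcases hy0 with rfl | rfl <;> rcases ht with ⟨h1, rfl⟩ | ⟨h1, rfl⟩
      · rw [abs_of_pos h1] at hk'
        right; left
        constructor <;> ext <;> simp at hk' ⊢ <;> omega
      · rw [abs_of_neg h1] at hk'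
        right; right; left
        constructor <;> ext <;> simp at hk' ⊢ <;> omega
      · rw [abs_of_pos h1] at hk'
        right; right; right; left
        constructor <;> ext <;> simp at hk' ⊢ <;> omega
      · rw [abs_of_neg h1] at hk'
        right; right; right; right; left
        constructor <;> ext <;> simp at hk' ⊢ <;> omega
    · obtain ⟨r, hr⟩ : ∃ r : ℤ, (1 < y ∧ r = y - 1) ∨ (y < 0 ∧ r = y + 1) := by
        rcases lt_or_ge y 0 with h | h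
        · exact ⟨y + 1, Or.inr ⟨h, rfl⟩⟩
        · exact ⟨y - 1, Or.inl ⟨by omega, rfl⟩⟩
      obtain ⟨b1, b2⟩ := hy r hr
      refine ⟨(t, y), (x, r), a1, b1, a2, b2, Or.inl ?_⟩
      intro h
      rw [Prod.mk.injEq] at h
      omega

theorem dl_nb2 (R : ℤ) (hR : 1 ≤ R) (u w : Site) (hu : rad u = R + 1) (hw : rad w = R + 1) (huw : u ≠ w) :
    ∃ a b : Site, a ≠ b ∧ Adj u a ∧ Adj w b ∧ rad a = R ∧ rad b = R := by
  obtain ⟨a1, b1, h1, h2, h3, h4, h5⟩ := dl_nb R hR u hu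
  obtain ⟨a2, b2, g1, g2, g3, g4, g5⟩ := dl_nb R hR w hw
  by_cases ha : a1 = a2
  · by_cases hb1 : a1 = b1
    · by_cases hb2 : a2 = b2
      · exfalso
        have h6 := h5.resolve_left (fun h => h hb1)
        have g6 := g5.resolve_left (fun h => h hb2)
        apply huw
        rcases h6 with ⟨rfl, rfl⟩ | ⟨rfl, rfl⟩ | ⟨rfl, rfl⟩ | ⟨rfl, rfl⟩ | ⟨rfl, rfl⟩ | ⟨rfl, rfl⟩ <;>
          rcases g6 with ⟨rfl, rfl⟩ | ⟨rfl, rfl⟩ | ⟨rfl, rfl⟩ | ⟨rfl, rfl⟩ | ⟨rfl, rfl⟩ | ⟨rfl, rfl⟩ <;>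
          rw [Prod.mk.injEq] at ha ⊢ <;> omega
      · exact ⟨a1, b2, fun h => hb2 (ha ▸ h), h1, g2, h3, g4⟩
    · exact ⟨b1, a2, fun h => hb1 (ha.trans h.symm), h2, g1, h4, g3⟩
  · exact ⟨a1, a2, ha, h1, g1, h3, g3⟩

theorem dl_base (k1 k2 : Site) (h1 : rad k1 = 1) (h2 : rad k2 = 1) (h : k1 ≠ k2) : dlP 1 k1 k2 := by
  have key : ∀ k : Site, rad k = 1 → (k = (1, 0) ∨ k = (-1, 0) ∨ k = (0, -1)) ∨ (k = (1, 1) ∨ k = (-1, 1) ∨ k = (0, 2)) := by
    rintro ⟨x, y⟩ hk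
    unfold rad at hk
    simp only at hk
    simp only [Prod.mk.injEq]
    rcases abs_cases x with ⟨e, _⟩ | ⟨e, _⟩ <;> rw [e] at hk <;> omega
  have hA : ∀ k : Site, (k = (1, 0) ∨ k = (-1, 0) ∨ k = (0, -1)) → Adj k o0 ∧ k ≠ o1 ∧ k ≠ o0 := by
    rintro k (rfl | rfl | rfl) <;> unfold Adj e1 e2 o0 o1 <;> decide
  have hB : ∀ k : Site, (k = (1, 1) ∨ k = (-1, 1) ∨ k = (0, 2)) → Adj k o1 ∧ k ≠ o0 ∧ k ≠ o1 := by
    rintro k (rfl | rfl | rfl) <;> unfold Adj e1 e2 o0 o1 <;> decide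
  have hr0 : rad o0 ≤ 1 := by decide
  have hr1 : rad o1 ≤ 1 := by decide
  have h01 : o0 ≠ o1 := by decide
  have AB : ∀ k1 k2 : Site, (k1 = (1, 0) ∨ k1 = (-1, 0) ∨ k1 = (0, -1)) → (k2 = (1, 1) ∨ k2 = (-1, 1) ∨ k2 = (0, 2)) → k1 ≠ k2 →
      dlP 1 k1 k2 := by
    intro k1 k2 a1 a2 hne
    obtain ⟨b1, b2, b3⟩ := hA k1 a1
    obtain ⟨c1, c2, c3⟩ := hB k2 a2
    refine ⟨{o0}, {o1}, ?_, by simpa using hr0, by simpa using hr1, by simpa using b3, by simpa using c3, Or.inl ⟨dl_one b1, dl_one c1⟩⟩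
    rw [Finset.disjoint_left]
    intro z hz hz'
    rw [Finset.mem_insert, Finset.mem_singleton] at hz hz'
    rcases hz with h1 | h1 <;> rcases hz' with h2 | h2
    · exact hne (h1.symm.trans h2)
    · exact b2 (h1.symm.trans h2)
    · exact c2 (h2.symm.trans h1)
    · exact h01 (h1.symm.trans h2)
  have AA : ∀ k1 k2 : Site, (k1 = (1, 0) ∨ k1 = (-1, 0)) → (k2 = (1, 0) ∨ k2 = (-1, 0) ∨ k2 = (0, -1)) → k1 ≠ k2 →
      dlP 1 k1 k2 := by
    intro k1 k2 a1 a2 hne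
    obtain ⟨c1, c2, c3⟩ := hA k2 a2
    refine ⟨{k1 + e2, o1}, {o0}, ?_, ?_, by simpa using hr0, ?_, by simpa using c3, Or.inr ⟨dl_two (Or.inr (Or.inr (Or.inl rfl))) ?_ ?_, dl_one c1⟩⟩
    · rcases a1 with rfl | rfl <;> rcases a2 with rfl | rfl | rfl <;> first | exact absurd rfl hne | decide
    · rcases a1 with rfl | rfl <;> decide
    · rcases a1 with rfl | rfl <;> decide
    · rcases a1 with rfl | rfl <;> unfold Adj e1 e2 o1 <;> decide
    · rcases a1 with rfl | rfl <;> decide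
  have BB : ∀ k1 k2 : Site, (k1 = (1, 1) ∨ k1 = (-1, 1)) → (k2 = (1, 1) ∨ k2 = (-1, 1) ∨ k2 = (0, 2)) → k1 ≠ k2 →
      dlP 1 k1 k2 := by
    intro k1 k2 a1 a2 hne
    obtain ⟨c1, c2, c3⟩ := hB k2 a2
    refine ⟨{k1 - e2, o0}, {o1}, ?_, ?_, by simpa using hr1, ?_, by simpa using c3, Or.inl ⟨dl_two (Or.inr (Or.inr (Or.inr (by simp)))) ?_ ?_, dl_one c1⟩⟩
    · rcases a1 with rfl | rfl <;> rcases a2 with rfl | rfl | rfl <;> first | exact absurd rfl hne | decide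
    · rcases a1 with rfl | rfl <;> decide
    · rcases a1 with rfl | rfl <;> decide
    · rcases a1 with rfl | rfl <;> unfold Adj e1 e2 o0 <;> decide
    · rcases a1 with rfl | rfl <;> decide
  rcases key k1 h1 with a1 | a1 <;> rcases key k2 h2 with a2 | a2
  · rcases a1 with a1 | a1 | a1
    · exact AA k1 k2 (Or.inl a1) a2 h
    · exact AA k1 k2 (Or.inr a1) a2 h
    · rcases a2 with a2 | a2 | a2
      · exact dlP_symm (AA k2 k1 (Or.inl a2) (Or.inr (Or.inr a1)) h.symm)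
      · exact dlP_symm (AA k2 k1 (Or.inr a2) (Or.inr (Or.inr a1)) h.symm)
      · exact absurd (a1.trans a2.symm) h
  · exact AB k1 k2 a1 a2 h
  · exact dlP_symm (AB k2 k1 a2 a1 h.symm)
  · rcases a1 with a1 | a1 | a1
    · exact BB k1 k2 (Or.inl a1) a2 h
    · exact BB k1 k2 (Or.inr a1) a2 h
    · rcases a2 with a2 | a2 | a2
      · exact dlP_symm (BB k2 k1 (Or.inl a2) (Or.inr (Or.inr a1)) h.symm)
      · exact dlP_symm (BB k2 k1 (Or.inr a2) (Or.inr (Or.inr a1)) h.symm)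
      · exact absurd (a1.trans a2.symm) h

theorem dl_step (R : ℤ) (hR : 1 ≤ R) (ih : ∀ k1 k2 : Site, rad k1 = R → rad k2 = R → k1 ≠ k2 → dlP R k1 k2) (u w : Site)
    (hu : rad u = R + 1) (hw : rad w = R + 1) (huw : u ≠ w) :
    ∃ π1 π2 : Finset Site, Disjoint π1 π2 ∧ (∀ i ∈ π1, rad i ≤ R) ∧ (∀ i ∈ π2, rad i ≤ R) ∧
      ((Pth u π1 o0 ∧ Pth w π2 o1) ∨ (Pth u π1 o1 ∧ Pth w π2 o0)) := by
  obtain ⟨a, b, hab, h1, h2, h3, h4⟩ := dl_nb2 R hR u w hu hw huw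
  obtain ⟨π1, π2, g1, g2, g3, g4, g5, g6⟩ := ih a b h3 h4 hab
  refine ⟨insert a π1, insert b π2, g1, ?_, ?_, ?_⟩
  · intro i hi
    rw [Finset.mem_insert] at hi
    rcases hi with rfl | hi
    · exact h3.le
    · exact g2 i hi
  · intro i hi
    rw [Finset.mem_insert] at hi
    rcases hi with rfl | hi
    · exact h4.le
    · exact g3 i hi
  · rcases g6 with ⟨p1, p2⟩ | ⟨p1, p2⟩
    · exact Or.inl ⟨Pth.cons h1 g4 p1, Pth.cons h2 g5 p2⟩
    · exact Or.inr ⟨Pth.cons h1 g4 p1, Pth.cons h2 g5 p2⟩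

theorem dl_all (n : ℕ) : ∀ k1 k2 : Site, rad k1 = n + 1 → rad k2 = n + 1 → k1 ≠ k2 → dlP (n + 1) k1 k2 := by
  induction n with
  | zero =>
    intro k1 k2 h1 h2 h
    simpa using dl_base k1 k2 (by simpa using h1) (by simpa using h2) h
  | succ n ih =>
    intro k1 k2 h1 h2 h
    push_cast at h1 h2 ⊢
    obtain ⟨π1, π2, g1, g2, g3, g4⟩ := dl_step (n + 1) (by omega) ih k1 k2 h1 h2 h
    have n11 : k1 ∉ π1 := fun hk => by have := g2 _ hk; omega
    have n12 : k1 ∉ π2 := fun hk => by have := g3 _ hk; omega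
    have n21 : k2 ∉ π1 := fun hk => by have := g2 _ hk; omega
    have n22 : k2 ∉ π2 := fun hk => by have := g3 _ hk; omega
    refine ⟨π1, π2, ?_, fun i hi => by have := g2 _ hi; omega, fun i hi => by have := g3 _ hi; omega, n11, n22, g4⟩
    rw [Finset.disjoint_insert_left, Finset.disjoint_insert_right]
    refine ⟨?_, n21, g1⟩
    rw [Finset.mem_insert]
    exact fun h' => h'.elim h n12

theorem routes {R : ℤ} (hR : 1 ≤ R) {u w : Site} (hu : rad u = R + 1) (hw : rad w = R + 1)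
    (huw : u ≠ w) :
    ∃ π1 π2 : Finset Site, Disjoint π1 π2 ∧ (∀ i ∈ π1, rad i ≤ R) ∧ (∀ i ∈ π2, rad i ≤ R) ∧
      ((Pth u π1 o0 ∧ Pth w π2 o1) ∨ (Pth u π1 o1 ∧ Pth w π2 o0)) := by
  obtain ⟨n, rfl⟩ : ∃ n : ℕ, R = n + 1 := ⟨(R - 1).toNat, by omega⟩
  exact dl_step _ hR (dl_all n) u w hu hw huw

end Pool.Agent.Helper49.DL
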