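import Pool.Agent.Helper49.DL.Cone

/-!
Finite volume Ising/Potts (two colours) weights on the square lattice with general vertical
couplings, consistency (DLR) and elementary facts.
-/

open Finset
open scoped Classical

namespace Pool.Agent.Helper49.DL

/-- Sites of the square lattice. -/
abbrev Site := ℤ × ℤ

/-- Configurations; `true` is colour 1. -/
abbrev Cfg := Site → Bool

/-- Configurations which agree with `η` off `Λ`. -/
noncomputable def confs (Λ : Finset Site) (η : Cfg) : Finset Cfg :=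
  Λ.powerset.image (fun P => fun i => if i ∈ P then !(η i) else η i)

lemma mem_confs {Λ : Finset Site} {η ω : Cfg} : ω ∈ confs Λ η ↔ ∀ i, i ∉ Λ → ω i = η i := by
  unfold confs
  rw [Finset.mem_image]
  constructor
  · rintro ⟨P, hP, rfl⟩ i hi
    have : i ∉ P := fun h => hi (Finset.mem_powerset.1 hP h)
    simp [this]
  · intro h
    refine ⟨Λ.filter (fun i => ω i ≠ η i), ?_, ?_⟩
    · rw [Finset.mem_powerset]; exact Finset.filter_subset _ _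
    · funext i
      by_cases hi : i ∈ Λ
      · by_cases hh : ω i = η i
        · simp [hh]
        · simp only [Finset.mem_filter, hi, hh, ne_eq, not_false_eq_true, and_self, if_true]
          cases hω : ω i <;> cases hη : η i <;> simp_all
      · simp [hi, h i hi]

lemma confs_eq {Λ : Finset Site} {η ω : Cfg} (h : ω ∈ confs Λ η) : confs Λ ω = confs Λ η := by
  rw [mem_confs] at h
  ext ξ
  rw [mem_confs, mem_confs]
  constructor
  · intro h' i hi; rw [h' i hi, h i hi]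
  · intro h' i hi; rw [h' i hi, h i hi]

lemma self_mem_confs (Λ : Finset Site) (η : Cfg) : η ∈ confs Λ η := mem_confs.2 fun _ _ => rfl

/-- Horizontal unit vector. -/
def e1 : Site := (1, 0)
/-- Vertical unit vector. -/
def e2 : Site := (0, 1)

/-- Left endpoints of horizontal bonds meeting `Λ`. -/
noncomputable def hb (Λ : Finset Site) : Finset Site := Λ ∪ Λ.image (fun i => i - e1)
/-- Lower endpoints of vertical bonds meeting `Λ`. -/
noncomputable def vb (Λ : Finset Site) : Finset Site := Λ ∪ Λ.image (fun i => i - e2)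

lemma mem_hb {Λ : Finset Site} {i : Site} : i ∈ hb Λ ↔ i ∈ Λ ∨ i + e1 ∈ Λ := by
  unfold hb
  rw [Finset.mem_union, Finset.mem_image]
  constructor
  · rintro (h | ⟨j, hj, rfl⟩)
    · exact Or.inl h
    · right; simpa using hj
  · rintro (h | h)
    · exact Or.inl h
    · exact Or.inr ⟨i + e1, h, by simp⟩

lemma mem_vb {Λ : Finset Site} {i : Site} : i ∈ vb Λ ↔ i ∈ Λ ∨ i + e2 ∈ Λ := by
  unfold vb
  rw [Finset.mem_union, Finset.mem_image]
  constructor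
  · rintro (h | ⟨j, hj, rfl⟩)
    · exact Or.inl h
    · right; simpa using hj
  · rintro (h | h)
    · exact Or.inl h
    · exact Or.inr ⟨i + e2, h, by simp⟩

/-- Agreement indicator. -/
def agr (a b : Bool) : ℝ := if a = b then 1 else 0

lemma agr_nonneg (a b : Bool) : 0 ≤ agr a b := by unfold agr; split_ifs <;> norm_num
lemma agr_le_one (a b : Bool) : agr a b ≤ 1 := by unfold agr; split_ifs <;> norm_num

/-- Energy (number of agreeing bonds meeting `Λ`, vertical bonds weighted by `κ`). -/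
noncomputable def en (κ : Site → ℝ) (Λ : Finset Site) (ω : Cfg) : ℝ :=
  ∑ i ∈ hb Λ, agr (ω i) (ω (i + e1)) + ∑ i ∈ vb Λ, κ i * agr (ω i) (ω (i + e2))

/-- Boltzmann weight. -/
noncomputable def wg (β : ℝ) (κ : Site → ℝ) (Λ : Finset Site) (ω : Cfg) : ℝ :=
  Real.exp (β * en κ Λ ω)

lemma wg_pos (β : ℝ) (κ : Site → ℝ) (Λ : Finset Site) (ω : Cfg) : 0 < wg β κ Λ ω :=
  Real.exp_pos _

/-- Weighted sum over configurations. -/
noncomputable def Zg (β : ℝ) (κ : Site → ℝ) (Λ : Finset Site) (η : Cfg) (F : Cfg → ℝ) : ℝ :=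
  ∑ ω ∈ confs Λ η, wg β κ Λ ω * F ω

/-- Gibbs average. -/
noncomputable def avg (β : ℝ) (κ : Site → ℝ) (Λ : Finset Site) (η : Cfg) (F : Cfg → ℝ) : ℝ :=
  Zg β κ Λ η F / Zg β κ Λ η (fun _ => 1)

section

variable {β : ℝ} {κ : Site → ℝ} {Λ Λ' : Finset Site} {η : Cfg}

lemma Zg_one_pos : 0 < Zg β κ Λ η (fun _ => 1) := by
  unfold Zg
  refine Finset.sum_pos (fun ω _ => by rw [mul_one]; exact wg_pos _ _ _ _)
    ⟨η, self_mem_confs Λ η⟩

lemma Zg_add (F G : Cfg → ℝ) :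
    Zg β κ Λ η (fun ω => F ω + G ω) = Zg β κ Λ η F + Zg β κ Λ η G := by
  unfold Zg; rw [← Finset.sum_add_distrib]
  exact Finset.sum_congr rfl fun ω _ => by ring

lemma Zg_sub (F G : Cfg → ℝ) :
    Zg β κ Λ η (fun ω => F ω - G ω) = Zg β κ Λ η F - Zg β κ Λ η G := by
  unfold Zg; rw [← Finset.sum_sub_distrib]
  exact Finset.sum_congr rfl fun ω _ => by ring

lemma Zg_smul (c : ℝ) (F : Cfg → ℝ) :
    Zg β κ Λ η (fun ω => c * F ω) = c * Zg β κ Λ η F := by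
  unfold Zg; rw [Finset.mul_sum]
  exact Finset.sum_congr rfl fun ω _ => by ring

lemma Zg_sum {ι : Type*} (s : Finset ι) (F : ι → Cfg → ℝ) :
    Zg β κ Λ η (fun ω => ∑ i ∈ s, F i ω) = ∑ i ∈ s, Zg β κ Λ η (F i) := by
  unfold Zg; rw [Finset.sum_comm]
  exact Finset.sum_congr rfl fun ω _ => by rw [Finset.mul_sum]

lemma Zg_mono {F G : Cfg → ℝ} (h : ∀ ω ∈ confs Λ η, F ω ≤ G ω) :
    Zg β κ Λ η F ≤ Zg β κ Λ η G := by
  unfold Zg
  exact Finset.sum_le_sum fun ω hω => mul_le_mul_of_nonneg_left (h ω hω) (wg_pos _ _ _ _).le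

lemma Zg_nonneg {F : Cfg → ℝ} (h : ∀ ω ∈ confs Λ η, 0 ≤ F ω) : 0 ≤ Zg β κ Λ η F := by
  unfold Zg
  exact Finset.sum_nonneg fun ω hω => mul_nonneg (wg_pos _ _ _ _).le (h ω hω)

lemma Zg_congr {F G : Cfg → ℝ} (h : ∀ ω ∈ confs Λ η, F ω = G ω) :
    Zg β κ Λ η F = Zg β κ Λ η G := by
  unfold Zg
  exact Finset.sum_congr rfl fun ω hω => by rw [h ω hω]

lemma avg_add (F G : Cfg → ℝ) :
    avg β κ Λ η (fun ω => F ω + G ω) = avg β κ Λ η F + avg β κ Λ η G := by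
  unfold avg; rw [Zg_add, add_div]

lemma avg_sub (F G : Cfg → ℝ) :
    avg β κ Λ η (fun ω => F ω - G ω) = avg β κ Λ η F - avg β κ Λ η G := by
  unfold avg; rw [Zg_sub, sub_div]

lemma avg_smul (c : ℝ) (F : Cfg → ℝ) :
    avg β κ Λ η (fun ω => c * F ω) = c * avg β κ Λ η F := by
  unfold avg; rw [Zg_smul, mul_div_assoc]

lemma avg_sum {ι : Type*} (s : Finset ι) (F : ι → Cfg → ℝ) :
    avg β κ Λ η (fun ω => ∑ i ∈ s, F i ω) = ∑ i ∈ s, avg β κ Λ η (F i) := by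
  unfold avg; rw [Zg_sum, Finset.sum_div]

lemma avg_const (c : ℝ) : avg β κ Λ η (fun _ => c) = c := by
  have h := avg_smul (β := β) (κ := κ) (Λ := Λ) (η := η) c (fun _ => 1)
  simp only [mul_one] at h
  rw [h]
  unfold avg
  rw [div_self (Zg_one_pos).ne', mul_one]

lemma avg_mono {F G : Cfg → ℝ} (h : ∀ ω ∈ confs Λ η, F ω ≤ G ω) :
    avg β κ Λ η F ≤ avg β κ Λ η G := by
  unfold avg
  exact div_le_div_of_nonneg_right (Zg_mono h) Zg_one_pos.le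

lemma avg_nonneg {F : Cfg → ℝ} (h : ∀ ω ∈ confs Λ η, 0 ≤ F ω) : 0 ≤ avg β κ Λ η F :=
  div_nonneg (Zg_nonneg h) Zg_one_pos.le

lemma avg_congr {F G : Cfg → ℝ} (h : ∀ ω ∈ confs Λ η, F ω = G ω) :
    avg β κ Λ η F = avg β κ Λ η G := by
  unfold avg; rw [Zg_congr h]

lemma Zg_bc {η' : Cfg} (h : η' ∈ confs Λ η) (F : Cfg → ℝ) : Zg β κ Λ η' F = Zg β κ Λ η F := by
  unfold Zg; rw [confs_eq h]

lemma avg_bc {η' : Cfg} (h : η' ∈ confs Λ η) (F : Cfg → ℝ) : avg β κ Λ η' F = avg β κ Λ η F := by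
  unfold avg; rw [Zg_bc h, Zg_bc h]

lemma en_swap (hΛ : Λ' ⊆ Λ) {ω ξ : Cfg} (h : ξ ∈ confs Λ' ω) :
    en κ Λ ω + en κ Λ' ξ = en κ Λ ξ + en κ Λ' ω := by
  rw [mem_confs] at h
  have hh : hb Λ' ⊆ hb Λ := by
    intro i hi; rw [mem_hb] at *
    rcases hi with hi | hi
    · exact Or.inl (hΛ hi)
    · exact Or.inr (hΛ hi)
  have hv : vb Λ' ⊆ vb Λ := by
    intro i hi; rw [mem_vb] at *
    rcases hi with hi | hi
    · exact Or.inl (hΛ hi)
    · exact Or.inr (hΛ hi)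
  have s1 : ∀ ζ : Cfg, ∑ i ∈ hb Λ, agr (ζ i) (ζ (i + e1)) =
      ∑ i ∈ hb Λ \ hb Λ', agr (ζ i) (ζ (i + e1)) + ∑ i ∈ hb Λ', agr (ζ i) (ζ (i + e1)) :=
    fun ζ => (Finset.sum_sdiff hh).symm
  have s2 : ∀ ζ : Cfg, ∑ i ∈ vb Λ, κ i * agr (ζ i) (ζ (i + e2)) =
      ∑ i ∈ vb Λ \ vb Λ', κ i * agr (ζ i) (ζ (i + e2)) +
        ∑ i ∈ vb Λ', κ i * agr (ζ i) (ζ (i + e2)) :=
    fun ζ => (Finset.sum_sdiff hv).symm
  have t1 : ∑ i ∈ hb Λ \ hb Λ', agr (ξ i) (ξ (i + e1)) =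
      ∑ i ∈ hb Λ \ hb Λ', agr (ω i) (ω (i + e1)) := by
    refine Finset.sum_congr rfl fun i hi => ?_
    rw [Finset.mem_sdiff, mem_hb (Λ := Λ')] at hi
    push Not at hi
    rw [h _ hi.2.1, h _ hi.2.2]
  have t2 : ∑ i ∈ vb Λ \ vb Λ', κ i * agr (ξ i) (ξ (i + e2)) =
      ∑ i ∈ vb Λ \ vb Λ', κ i * agr (ω i) (ω (i + e2)) := by
    refine Finset.sum_congr rfl fun i hi => ?_
    rw [Finset.mem_sdiff, mem_vb (Λ := Λ')] at hi
    push Not at hi
    rw [h _ hi.2.1, h _ hi.2.2]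
  unfold en
  rw [s1 ω, s1 ξ, s2 ω, s2 ξ, t1, t2]
  ring

lemma wg_swap (hΛ : Λ' ⊆ Λ) {ω ξ : Cfg} (h : ξ ∈ confs Λ' ω) :
    wg β κ Λ ω * wg β κ Λ' ξ = wg β κ Λ ξ * wg β κ Λ' ω := by
  unfold wg
  rw [← Real.exp_add, ← Real.exp_add, ← mul_add, ← mul_add, en_swap hΛ h]

/-- Consistency: the conditional distribution in `Λ'` given the spins off `Λ'`. -/
theorem dlr (hΛ : Λ' ⊆ Λ) (G F : Cfg → ℝ) (hG : ∀ ω ξ : Cfg, ξ ∈ confs Λ' ω → G ξ = G ω) :
    Zg β κ Λ η (fun ω => G ω * F ω) = Zg β κ Λ η (fun ω => G ω * avg β κ Λ' ω F) := by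
  have hsymm : ∀ ω ξ : Cfg, ξ ∈ confs Λ' ω → ω ∈ confs Λ' ξ := by
    intro ω ξ h
    rw [mem_confs] at *
    exact fun i hi => (h i hi).symm
  have hZ : ∀ ω ξ : Cfg, ξ ∈ confs Λ' ω →
      Zg β κ Λ' ξ (fun _ => 1) = Zg β κ Λ' ω (fun _ => 1) := fun ω ξ h => Zg_bc h _
  have step1 : Zg β κ Λ η (fun ω => G ω * avg β κ Λ' ω F) =
      ∑ ω ∈ confs Λ η, ∑ ξ ∈ confs Λ' ω,
        (wg β κ Λ ξ * wg β κ Λ' ω) * (G ξ * F ξ) / Zg β κ Λ' ξ (fun _ => 1) := by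
    refine Finset.sum_congr rfl fun ω _ => ?_
    have : ∀ ξ ∈ confs Λ' ω, (wg β κ Λ ξ * wg β κ Λ' ω) * (G ξ * F ξ) /
        Zg β κ Λ' ξ (fun _ => 1) =
        (wg β κ Λ' ξ * F ξ) * (wg β κ Λ ω * G ω / Zg β κ Λ' ω (fun _ => 1)) := by
      intro ξ hξ
      rw [hZ ω ξ hξ, ← wg_swap hΛ hξ, hG ω ξ hξ]
      ring
    rw [Finset.sum_congr rfl this, ← Finset.sum_mul]
    change wg β κ Λ ω * (G ω * (Zg β κ Λ' ω F / Zg β κ Λ' ω (fun _ => 1))) =
      Zg β κ Λ' ω F * (wg β κ Λ ω * G ω / Zg β κ Λ' ω (fun _ => 1))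
    ring
  rw [step1, Finset.sum_comm' (t' := confs Λ η) (s' := fun ξ => confs Λ' ξ)]
  · refine Finset.sum_congr rfl fun ξ _ => ?_
    have : ∀ ω ∈ confs Λ' ξ, (wg β κ Λ ξ * wg β κ Λ' ω) * (G ξ * F ξ) /
        Zg β κ Λ' ξ (fun _ => 1) =
        wg β κ Λ' ω * (wg β κ Λ ξ * (G ξ * F ξ) / Zg β κ Λ' ξ (fun _ => 1)) := by
      intro ω _
      ring
    rw [Finset.sum_congr rfl this, ← Finset.sum_mul]
    have hpos := Zg_one_pos (β := β) (κ := κ) (Λ := Λ') (η := ξ)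
    have e'' : (∑ ω ∈ confs Λ' ξ, wg β κ Λ' ω) = Zg β κ Λ' ξ (fun _ => 1) := by
      unfold Zg; simp
    rw [e'']
    field_simp
  · intro ω ξ
    constructor
    · rintro ⟨h1, h2⟩
      refine ⟨hsymm _ _ h2, ?_⟩
      rw [mem_confs] at *
      intro i hi
      rw [h2 i (fun h => hi (hΛ h)), h1 i hi]
    · rintro ⟨h1, h2⟩
      refine ⟨?_, hsymm _ _ h1⟩
      rw [mem_confs] at *
      intro i hi
      rw [h1 i (fun h => hi (hΛ h)), h2 i hi]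

end

end Pool.Agent.Helper49.DL
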