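import Pool.Agent.Helper49.DL.Joint
import Pool.Agent.Helper49.DL.Gibbs

/-!
Folding the symmetric box along the defect line: the Dobrushin state as a two-layer system.
-/

open Finset

namespace Pool.Agent.Helper49.DL

/-- Reflection across the line `y = 1/2`. -/
def bar (i : Site) : Site := (i.1, 1 - i.2)

@[simp] lemma bar_bar (i : Site) : bar (bar i) = i := by
  ext <;> simp [bar]

/-- The box symmetric under `bar`. -/
noncomputable def box (N M : ℤ) : Finset Site := Finset.Icc (-N) N ×ˢ Finset.Icc (-M + 1) M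

/-- The upper half of the box. -/
noncomputable def ubox (N M : ℤ) : Finset Site := Finset.Icc (-N) N ×ˢ Finset.Icc 1 M

/-- Dobrushin boundary condition with the step at height `k`. -/
def eta (k : ℤ) : Cfg := fun i => decide (k + 1 ≤ i.2)

/-- Vertical couplings: `J` across the defect line, `1` elsewhere. -/
noncomputable def kap (J : ℝ) : Site → ℝ := fun i => if i.2 = 0 then J else 1

lemma mem_box {N M : ℤ} {i : Site} :
    i ∈ box N M ↔ (-N ≤ i.1 ∧ i.1 ≤ N) ∧ (-M + 1 ≤ i.2 ∧ i.2 ≤ M) := by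
  simp [box, Finset.mem_product]

lemma mem_ubox {N M : ℤ} {i : Site} :
    i ∈ ubox N M ↔ (-N ≤ i.1 ∧ i.1 ≤ N) ∧ (1 ≤ i.2 ∧ i.2 ≤ M) := by
  simp [ubox, Finset.mem_product]

lemma bar_not_mem {N M : ℤ} {i : Site} (h : i ∈ ubox N M) : bar i ∉ ubox N M := by
  rw [mem_ubox] at *
  simp only [bar]
  omega

section onedim

lemma sum_fold (M : ℤ) (g : ℤ → ℝ) :
    ∑ y ∈ Finset.Icc (-M + 1) M, g y = ∑ y ∈ Finset.Icc 1 M, (g y + g (1 - y)) := by
  have h : Finset.Icc (-M + 1) M = Finset.Icc 1 M ∪ (Finset.Icc 1 M).image (fun y => 1 - y) := by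
    ext y
    simp only [Finset.mem_Icc, Finset.mem_union, Finset.mem_image]
    constructor
    · intro hy
      by_cases h1 : 1 ≤ y
      · left; omega
      · right; exact ⟨1 - y, by omega, by omega⟩
    · rintro (hy | ⟨z, hz, rfl⟩) <;> omega
  rw [h, Finset.sum_union, Finset.sum_image, ← Finset.sum_add_distrib]
  · intro a _ b _ hab
    simpa using hab
  · rw [Finset.disjoint_left]
    intro y hy hy'
    simp only [Finset.mem_Icc, Finset.mem_image] at hy hy'
    obtain ⟨z, hz, rfl⟩ := hy'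
    omega

lemma sum_fold' {M : ℤ} (hM : 1 ≤ M) (g : ℤ → ℝ) :
    ∑ y ∈ Finset.Icc (-M) M, g y = ∑ y ∈ Finset.Icc 1 M, (g y + g (-y)) + g 0 := by
  have h : Finset.Icc (-M) M = insert 0 (Finset.Icc 1 M ∪ (Finset.Icc 1 M).image (fun y => -y)) := by
    ext y
    simp only [Finset.mem_Icc, Finset.mem_union, Finset.mem_image, Finset.mem_insert]
    constructor
    · intro hy
      rcases lt_trichotomy y 0 with h1 | h1 | h1
      · right; right; exact ⟨-y, by omega, by omega⟩
      · left; exact h1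
      · right; left; omega
    · rintro (hy | hy | ⟨z, hz, rfl⟩) <;> omega
  rw [h, Finset.sum_insert, Finset.sum_union, Finset.sum_image, ← Finset.sum_add_distrib, add_comm]
  · intro a _ b _ hab
    simpa using hab
  · rw [Finset.disjoint_left]
    intro y hy hy'
    simp only [Finset.mem_Icc, Finset.mem_image] at hy hy'
    obtain ⟨z, hz, rfl⟩ := hy'
    omega
  · simp only [Finset.mem_Icc, Finset.mem_union, Finset.mem_image]
    rintro (hy | ⟨z, hz, hz'⟩) <;> omega

end onedim

lemma agr_comm (a b : Bool) : agr a b = agr b a := by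
  unfold agr; simp only [eq_comm]

/-- Vertices of the folded system. -/
abbrev VV (N M : ℤ) := {i // i ∈ ubox N M}

/-- Bonds of the folded system. -/
abbrev BB (N M : ℤ) :=
  {i // i ∈ Finset.Icc (-N - 1) N ×ˢ Finset.Icc 1 M} ⊕ {i // i ∈ ubox N M}

/-- First endpoint. -/
def bp {N M : ℤ} : BB N M → Site
  | Sum.inl i => i.1
  | Sum.inr i => i.1

/-- Second endpoint. -/
def bq {N M : ℤ} : BB N M → Site
  | Sum.inl i => i.1 + e1
  | Sum.inr i => i.1 + e2

/-- Set of endpoints inside the upper box. -/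
noncomputable def bA {N M : ℤ} (e : BB N M) : Finset (VV N M) :=
  Finset.univ.filter (fun v => v.1 = bp e ∨ v.1 = bq e)

/-- Interactions of the `b` layer. -/
noncomputable def bL (β : ℝ) {N M : ℤ} (e : BB N M) : ℝ :=
  if bp e ∈ ubox N M ∧ bq e ∈ ubox N M then β else 0

lemma bp_ne_bq {N M : ℤ} (e : BB N M) : bp e ≠ bq e := by
  cases e with
  | inl i => simp [bp, bq, e1, Prod.ext_iff]
  | inr i => simp [bp, bq, e2, Prod.ext_iff]

lemma bp_row {N M : ℤ} (e : BB N M) : 1 ≤ (bp e).2 := by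
  cases e with
  | inl i =>
    have := i.2
    simp only [Finset.mem_product, Finset.mem_Icc] at this
    exact this.2.1
  | inr i =>
    have := i.2
    rw [mem_ubox] at this
    exact this.2.1

lemma bq_row {N M : ℤ} (e : BB N M) : 1 ≤ (bq e).2 := by
  cases e with
  | inl i =>
    have := i.2
    simp only [Finset.mem_product, Finset.mem_Icc] at this
    simpa [bq, e1] using this.2.1
  | inr i =>
    have := i.2
    rw [mem_ubox] at this
    have h := this.2.1
    simp only [bq, e2, Prod.snd_add]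
    omega

lemma hb_box {N M : ℤ} :
    hb (box N M) = Finset.Icc (-N - 1) N ×ˢ Finset.Icc (-M + 1) M := by
  ext i
  rw [mem_hb, mem_box, mem_box]
  simp only [Finset.mem_product, Finset.mem_Icc, e1, Prod.fst_add, Prod.snd_add]
  omega

lemma vb_box {N M : ℤ} (hM : 1 ≤ M) :
    vb (box N M) = Finset.Icc (-N) N ×ˢ Finset.Icc (-M) M := by
  ext i
  rw [mem_vb, mem_box, mem_box]
  simp only [Finset.mem_product, Finset.mem_Icc, e2, Prod.fst_add, Prod.snd_add]
  omega

/-- Folded form of the energy. -/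
lemma en_fold {N M : ℤ} (hM : 1 ≤ M) (J : ℝ) (ω : Cfg) :
    en (kap J) (box N M) ω =
      ∑ e : BB N M, (agr (ω (bp e)) (ω (bq e)) + agr (ω (bar (bp e))) (ω (bar (bq e)))) +
      J * ∑ x ∈ Finset.Icc (-N) N, agr (ω (x, 0)) (ω (x, 1)) := by
  unfold en
  rw [hb_box, vb_box hM, Finset.sum_product, Finset.sum_product]
  simp_rw [sum_fold M, sum_fold' hM]
  rw [Fintype.sum_sum_type]
  simp only [bp, bq]
  rw [Finset.sum_coe_sort (Finset.Icc (-N - 1) N ×ˢ Finset.Icc 1 M)
    (fun i : Site => agr (ω i) (ω (i + e1)) + agr (ω (bar i)) (ω (bar (i + e1)))),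
    Finset.sum_coe_sort (ubox N M)
    (fun i : Site => agr (ω i) (ω (i + e2)) + agr (ω (bar i)) (ω (bar (i + e2)))),
    ubox, Finset.sum_product, Finset.sum_product, Finset.sum_add_distrib (s := Finset.Icc (-N) N),
    Finset.mul_sum]
  have hA : ∑ x ∈ Finset.Icc (-N - 1) N, ∑ y ∈ Finset.Icc 1 M,
      (agr (ω (x, y)) (ω ((x, y) + e1)) + agr (ω (x, 1 - y)) (ω ((x, 1 - y) + e1))) =
      ∑ x ∈ Finset.Icc (-N - 1) N, ∑ y ∈ Finset.Icc 1 M,
      (agr (ω (x, y)) (ω ((x, y) + e1)) + agr (ω (bar (x, y))) (ω (bar ((x, y) + e1)))) := by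
    refine Finset.sum_congr rfl fun x _ => Finset.sum_congr rfl fun y _ => ?_
    simp [bar, e1]
  have hB : ∑ x ∈ Finset.Icc (-N) N, ∑ y ∈ Finset.Icc 1 M,
      (kap J (x, y) * agr (ω (x, y)) (ω ((x, y) + e2)) +
        kap J (x, -y) * agr (ω (x, -y)) (ω ((x, -y) + e2))) =
      ∑ x ∈ Finset.Icc (-N) N, ∑ y ∈ Finset.Icc 1 M,
      (agr (ω (x, y)) (ω ((x, y) + e2)) + agr (ω (bar (x, y))) (ω (bar ((x, y) + e2)))) := by
    refine Finset.sum_congr rfl fun x _ => Finset.sum_congr rfl fun y hy => ?_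
    rw [Finset.mem_Icc] at hy
    have h1 : kap J (x, y) = 1 := by
      unfold kap; rw [if_neg]; simp only; omega
    have h2 : kap J (x, -y) = 1 := by
      unfold kap; rw [if_neg]; simp only; omega
    rw [h1, h2, one_mul, one_mul, agr_comm (ω (x, -y))]
    have h3 : ((x, -y) : Site) + e2 = bar (x, y) := by
      simp only [bar, e2, Prod.mk_add_mk]
      ext
      · simp
      · simp only; ring
    have h4 : ((x, -y) : Site) = bar ((x, y) + e2) := by
      simp only [bar, e2, Prod.mk_add_mk]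
      ext
      · simp
      · simp only; ring
    rw [h3, h4]
  have hC : ∑ x ∈ Finset.Icc (-N) N, kap J (x, 0) * agr (ω (x, 0)) (ω ((x, 0) + e2)) =
      ∑ x ∈ Finset.Icc (-N) N, J * agr (ω (x, 0)) (ω (x, 1)) := by
    refine Finset.sum_congr rfl fun x _ => ?_
    have h1 : kap J (x, 0) = J := by unfold kap; simp
    rw [h1]
    simp [e2]
  rw [hA, hB, hC]
  ring

end Pool.Agent.Helper49.DL
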