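import Pool.Agent.Helper49.DL.Trans
import Pool.Agent.Helper49.DL.Fold

/-!
Griffiths inequalities on a general finite set, with general boundary condition.
-/

open Finset
open scoped Classical

namespace Pool.Agent.Helper49.DL

/-- The all-`true` boundary condition. -/
def tt : Cfg := fun _ => true

/-- Product of spins. -/
noncomputable def ch (B : Finset Site) (ω : Cfg) : ℝ := ∏ i ∈ B, sp (ω i)

section compare2

variable {V : Type*}

/-- The general comparison inequality with the opposite sign. -/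
theorem compare_neg {ι : Type*} [Fintype ι] [Fintype V] [DecidableEq V] (A : ι → Finset V)
    {J1 J2 D D' : ι → ℝ} (h : ∀ i, |J2 i| ≤ J1 i) (h' : ∀ i, |D' i| ≤ D i)
    {F F' : Finset V} (hF : F ⊆ F') (B : Finset V) :
    -(NN A J1 F' ∅ * NN A (fun i => J2 i + D' i) F B) ≤
      NN A J2 F ∅ * NN A (fun i => J1 i + D i) F' B := by
  have key := dup_nonneg (V := V) (fun σ σ' =>
      ((wt A J1 σ * frc F' σ) * (wt A J2 σ' * frc F σ')) *
        (chi B σ * wt A D σ + chi B σ' * wt A D' σ')) (by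
    intro τ
    exact cone_mul (base_cone A h hF τ) (dom_mul (dom_chi B) (dom_wt A h') τ).2)
  have e : ∑ σ : V → Bool, ∑ σ' : V → Bool,
      ((wt A J1 σ * frc F' σ) * (wt A J2 σ' * frc F σ')) *
        (chi B σ * wt A D σ + chi B σ' * wt A D' σ') =
      NN A J2 F ∅ * NN A (fun i => J1 i + D i) F' B +
        NN A J1 F' ∅ * NN A (fun i => J2 i + D' i) F B := by
    unfold NN
    rw [mul_comm (∑ σ : V → Bool, chi ∅ σ * (wt A J2 σ * frc F σ)), Finset.sum_mul_sum,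
      Finset.sum_mul_sum, ← Finset.sum_add_distrib]
    refine Finset.sum_congr rfl fun σ _ => ?_
    rw [← Finset.sum_add_distrib]
    refine Finset.sum_congr rfl fun σ' _ => ?_
    rw [wt_add, wt_add, chi_empty, chi_empty]
    ring
  linarith [key, e]

end compare2

section

variable {Λ : Finset Site}

/-- Sites of `Λ`. -/
abbrev LV (Λ : Finset Site) := {i // i ∈ Λ}

/-- Bonds meeting `Λ`. -/
abbrev LB (Λ : Finset Site) := {i // i ∈ hb Λ} ⊕ {i // i ∈ vb Λ}

/-- First endpoint. -/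
def lp : LB Λ → Site
  | Sum.inl i => i.1
  | Sum.inr i => i.1

/-- Second endpoint. -/
def lq : LB Λ → Site
  | Sum.inl i => i.1 + e1
  | Sum.inr i => i.1 + e2

/-- Coupling of a bond. -/
noncomputable def lk (κ : Site → ℝ) : LB Λ → ℝ
  | Sum.inl _ => 1
  | Sum.inr i => κ i.1

lemma lp_ne_lq (e : LB Λ) : lp e ≠ lq e := by
  cases e with
  | inl i => simp [lp, lq, e1, Prod.ext_iff]
  | inr i => simp [lp, lq, e2, Prod.ext_iff]

/-- Endpoints inside `Λ`. -/
noncomputable def lA (e : LB Λ) : Finset (LV Λ) :=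
  Finset.univ.filter (fun v => v.1 = lp e ∨ v.1 = lq e)

/-- Spin of the boundary condition off `Λ`. -/
noncomputable def osp (Λ : Finset Site) (η : Cfg) (i : Site) : ℝ := if i ∈ Λ then 1 else sp (η i)

/-- Interaction constants. -/
noncomputable def lJ (β : ℝ) (κ : Site → ℝ) (η : Cfg) (e : LB Λ) : ℝ :=
  β * lk κ e / 2 * (osp Λ η (lp e) * osp Λ η (lq e))

/-- Extension of a configuration. -/
noncomputable def ex (η : Cfg) (c : LV Λ → Bool) : Cfg := fun i =>
  if h : i ∈ Λ then c ⟨i, h⟩ else η i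

lemma ex_in (η : Cfg) (c : LV Λ → Bool) (v : LV Λ) : ex η c v.1 = c v := by
  unfold ex; rw [dif_pos v.2]

lemma ex_out (η : Cfg) (c : LV Λ → Bool) {i : Site} (h : i ∉ Λ) : ex η c i = η i := by
  unfold ex; rw [dif_neg h]

lemma ex_mem (η : Cfg) (c : LV Λ → Bool) : ex η c ∈ confs Λ η := by
  rw [mem_confs]; intro i hi; exact ex_out η c hi

lemma sum_ex (η : Cfg) (G : Cfg → ℝ) :
    ∑ ω ∈ confs Λ η, G ω = ∑ c : LV Λ → Bool, G (ex η c) := by
  refine Finset.sum_bij' (fun ω _ => fun v : LV Λ => ω v.1) (fun c _ => ex η c) ?_ ?_ ?_ ?_ ?_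
  · intro ω _; exact Finset.mem_univ _
  · intro c _; exact ex_mem η c
  · intro ω hω
    rw [mem_confs] at hω
    funext i
    by_cases h : i ∈ Λ
    · exact ex_in η _ ⟨i, h⟩
    · rw [ex_out η _ h, hω i h]
  · intro c _; funext v; exact ex_in η c v
  · intro ω hω
    rw [mem_confs] at hω
    congr 1
    funext i
    by_cases h : i ∈ Λ
    · exact (ex_in η (fun v : LV Λ => ω v.1) ⟨i, h⟩).symm
    · rw [ex_out η _ h, hω i h]

lemma sp_ex (η : Cfg) (c : LV Λ → Bool) (i : Site) :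
    sp (ex η c i) = osp Λ η i * chi (Finset.univ.filter (fun v : LV Λ => v.1 = i)) c := by
  by_cases h : i ∈ Λ
  · have h1 : (Finset.univ.filter (fun v : LV Λ => v.1 = i)) = {⟨i, h⟩} := by
      ext v; simp [Subtype.ext_iff]
    rw [h1, chi_singleton, ex_in η c ⟨i, h⟩]
    unfold osp; rw [if_pos h, one_mul]
  · have h1 : (Finset.univ.filter (fun v : LV Λ => v.1 = i)) = ∅ := by
      ext v
      simp only [Finset.mem_filter, Finset.mem_univ, true_and, Finset.notMem_empty, iff_false]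
      intro hv; exact h (hv ▸ v.2)
    rw [h1, chi_empty, ex_out η c h]
    unfold osp; rw [if_neg h, mul_one]

lemma sp_bond (η : Cfg) (c : LV Λ → Bool) (e : LB Λ) :
    sp (ex η c (lp e)) * sp (ex η c (lq e)) =
      (osp Λ η (lp e) * osp Λ η (lq e)) * chi (lA e) c := by
  have h1 : lA e = (Finset.univ.filter (fun v : LV Λ => v.1 = lp e)) ∪
      (Finset.univ.filter (fun v : LV Λ => v.1 = lq e)) := by
    unfold lA; rw [Finset.filter_or]
  have h2 : Disjoint (Finset.univ.filter (fun v : LV Λ => v.1 = lp e))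
      (Finset.univ.filter (fun v : LV Λ => v.1 = lq e)) := by
    rw [Finset.disjoint_left]
    intro v hv hv'
    simp only [Finset.mem_filter, Finset.mem_univ, true_and] at hv hv'
    exact lp_ne_lq e (hv.symm.trans hv')
  rw [sp_ex, sp_ex, h1]
  have h3 : chi ((Finset.univ.filter (fun v : LV Λ => v.1 = lp e)) ∪
      (Finset.univ.filter (fun v : LV Λ => v.1 = lq e))) c =
      chi (Finset.univ.filter (fun v : LV Λ => v.1 = lp e)) c *
      chi (Finset.univ.filter (fun v : LV Λ => v.1 = lq e)) c := by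
    unfold chi; rw [Finset.prod_union h2]
  rw [h3]; ring

lemma agr_eq (a b : Bool) : agr a b = (1 + sp a * sp b) / 2 := by
  cases a <;> cases b <;> simp [agr]

/-- The constant factor. -/
noncomputable def lK (Λ : Finset Site) (β : ℝ) (κ : Site → ℝ) : ℝ :=
  Real.exp (∑ e : LB Λ, β * lk κ e / 2)

lemma lK_pos (β : ℝ) (κ : Site → ℝ) : 0 < lK Λ β κ := Real.exp_pos _

lemma wg_ex (β : ℝ) (κ : Site → ℝ) (η : Cfg) (c : LV Λ → Bool) :
    wg β κ Λ (ex η c) = lK Λ β κ * wt lA (lJ β κ η) c := by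
  unfold wg lK wt
  rw [← Real.exp_add, ← Finset.sum_add_distrib]
  congr 1
  have h1 : en κ Λ (ex η c) = ∑ e : LB Λ, lk κ e * agr (ex η c (lp e)) (ex η c (lq e)) := by
    unfold en
    rw [Fintype.sum_sum_type]
    simp only [lk, lp, lq, one_mul]
    rw [Finset.sum_coe_sort (hb Λ) (fun i : Site => agr (ex η c i) (ex η c (i + e1))),
      Finset.sum_coe_sort (vb Λ) (fun i : Site => κ i * agr (ex η c i) (ex η c (i + e2)))]
  rw [h1, Finset.mul_sum]
  refine Finset.sum_congr rfl fun e _ => ?_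
  rw [agr_eq, sp_bond]
  unfold lJ
  ring

lemma Zg_ex (β : ℝ) (κ : Site → ℝ) (η : Cfg) (G : Cfg → ℝ) :
    Zg β κ Λ η G = lK Λ β κ * ∑ c : LV Λ → Bool, wt lA (lJ β κ η) c * G (ex η c) := by
  unfold Zg
  rw [sum_ex, Finset.mul_sum]
  refine Finset.sum_congr rfl fun c _ => ?_
  rw [wg_ex]; ring

/-- Set of vertices corresponding to a set of sites. -/
noncomputable def sub (Λ B : Finset Site) : Finset (LV Λ) := Finset.univ.filter (fun v => v.1 ∈ B)

lemma ch_ex (η : Cfg) (c : LV Λ → Bool) {B : Finset Site} (hB : B ⊆ Λ) :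
    ch B (ex η c) = chi (sub Λ B) c := by
  unfold ch chi sub
  rw [← Finset.prod_subtype_of_mem (fun i => sp (ex η c i)) (p := fun i => i ∈ Λ) (fun i hi => hB hi)]
  have : (Finset.univ.filter (fun v : LV Λ => v.1 ∈ B)) = Finset.subtype (fun i => i ∈ Λ) B := by
    ext v; simp
  rw [this]
  exact Finset.prod_congr rfl fun v _ => by rw [ex_in]

/-- Character sum on `Λ`. -/
noncomputable def PN (Λ : Finset Site) (β : ℝ) (κ : Site → ℝ) (η : Cfg) (B : Finset (LV Λ)) : ℝ :=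
  NN (lA (Λ := Λ)) (lJ β κ η) ∅ B

lemma PN_pos (β : ℝ) (κ : Site → ℝ) (η : Cfg) : 0 < PN Λ β κ η ∅ := NN_empty_pos _ _ _

lemma Zg_ch (β : ℝ) (κ : Site → ℝ) (η : Cfg) {B : Finset Site} (hB : B ⊆ Λ) :
    Zg β κ Λ η (ch B) = lK Λ β κ * PN Λ β κ η (sub Λ B) := by
  rw [Zg_ex]
  congr 1
  unfold PN NN
  refine Finset.sum_congr rfl fun c _ => ?_
  rw [ch_ex η c hB]
  simp only [frc, Finset.prod_empty, mul_one]
  ring

lemma Zg_one_eq (β : ℝ) (κ : Site → ℝ) (η : Cfg) :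
    Zg β κ Λ η (fun _ => 1) = lK Λ β κ * PN Λ β κ η ∅ := by
  have h := Zg_ch β κ η (Finset.empty_subset Λ)
  have h1 : ch ∅ = fun _ => (1 : ℝ) := by funext ω; simp [ch]
  have h2 : sub Λ ∅ = ∅ := by unfold sub; simp
  rw [h1, h2] at h
  exact h

lemma avg_ch (β : ℝ) (κ : Site → ℝ) (η : Cfg) {B : Finset Site} (hB : B ⊆ Λ) :
    avg β κ Λ η (ch B) = PN Λ β κ η (sub Λ B) / PN Λ β κ η ∅ := by
  unfold avg
  rw [Zg_ch β κ η hB, Zg_one_eq]
  rw [mul_div_mul_left _ _ (lK_pos β κ).ne']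

lemma osp_abs (η : Cfg) (i : Site) : |osp Λ η i| = 1 := by
  unfold osp; split_ifs
  · norm_num
  · cases η i <;> simp

lemma osp_tt (i : Site) : osp Λ tt i = 1 := by
  unfold osp tt; split_ifs <;> simp

lemma lk_nonneg {κ : Site → ℝ} (hκ : ∀ i, 0 ≤ κ i) (e : LB Λ) : 0 ≤ lk κ e := by
  cases e with
  | inl i => exact zero_le_one
  | inr i => exact hκ _

lemma lk_mono {κ κ' : Site → ℝ} (hκ : ∀ i, κ i ≤ κ' i) (e : LB Λ) : lk κ e ≤ lk κ' e := by
  cases e with
  | inl i => exact le_rfl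
  | inr i => exact hκ _

lemma lJ_le {β : ℝ} (hβ : 0 ≤ β) {κ κ' : Site → ℝ} (hκ : ∀ i, 0 ≤ κ i) (hκκ : ∀ i, κ i ≤ κ' i)
    (η : Cfg) (e : LB Λ) : |lJ β κ η e| ≤ lJ β κ' tt e := by
  unfold lJ
  rw [osp_tt, osp_tt, mul_one, mul_one, abs_mul, abs_mul, osp_abs, osp_abs, mul_one, mul_one,
    abs_of_nonneg (by have := lk_nonneg hκ e; positivity)]
  have h1 := lk_mono hκκ e
  have h2 := mul_le_mul_of_nonneg_left h1 hβ
  linarith

/-- Comparison with the plus boundary condition and larger couplings. -/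
theorem abs_avg_le {β : ℝ} (hβ : 0 ≤ β) {κ κ' : Site → ℝ} (hκ : ∀ i, 0 ≤ κ i)
    (hκκ : ∀ i, κ i ≤ κ' i) (η : Cfg) {B : Finset Site} (hB : B ⊆ Λ) :
    |avg β κ Λ η (ch B)| ≤ avg β κ' Λ tt (ch B) := by
  rw [avg_ch β κ η hB, avg_ch β κ' tt hB, abs_div,
    abs_of_pos (PN_pos β κ η), div_le_div_iff₀ (PN_pos _ _ _) (PN_pos _ _ _)]
  have h1 := compare (lA (Λ := Λ)) (J1 := lJ β κ' tt) (J2 := lJ β κ η) (D := fun _ => 0)
    (D' := fun _ => 0) (fun e => lJ_le hβ hκ hκκ η e) (fun _ => by simp)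
    (Finset.Subset.refl ∅) (sub Λ B)
  have h2 := compare_neg (lA (Λ := Λ)) (J1 := lJ β κ' tt) (J2 := lJ β κ η) (D := fun _ => 0)
    (D' := fun _ => 0) (fun e => lJ_le hβ hκ hκκ η e) (fun _ => by simp)
    (Finset.Subset.refl ∅) (sub Λ B)
  have e1' : (fun e : LB Λ => lJ β κ η e + 0) = lJ β κ η := by funext e; ring
  have e2' : (fun e : LB Λ => lJ β κ' tt e + 0) = lJ β κ' tt := by funext e; ring
  rw [e1', e2'] at h1 h2
  change PN Λ β κ' tt ∅ * PN Λ β κ η (sub Λ B) ≤ PN Λ β κ η ∅ * PN Λ β κ' tt (sub Λ B) at h1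
  change -(PN Λ β κ' tt ∅ * PN Λ β κ η (sub Λ B)) ≤
    PN Λ β κ η ∅ * PN Λ β κ' tt (sub Λ B) at h2
  rcases abs_cases (PN Λ β κ η (sub Λ B)) with ⟨h, _⟩ | ⟨h, _⟩
  · rw [h]; linarith
  · rw [h]; linarith

/-- Monotonicity of plus correlations in the domain. -/
theorem avg_dom_mono {β : ℝ} (hβ : 0 ≤ β) {κ : Site → ℝ} (hκ : ∀ i, 0 ≤ κ i)
    {Λ' : Finset Site} (hΛ : Λ' ⊆ Λ) (η : Cfg) {B : Finset Site} (hB : B ⊆ Λ') :
    |avg β κ Λ η (ch B)| ≤ avg β κ Λ' tt (ch B) := by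
  have h := dlr (β := β) (κ := κ) (η := η) hΛ (fun _ => 1) (ch B) (fun _ _ _ => rfl)
  simp only [one_mul] at h
  have h2 : avg β κ Λ η (ch B) = avg β κ Λ η (fun ω => avg β κ Λ' ω (ch B)) := by
    unfold avg at h ⊢; rw [h]
  rw [h2, abs_le]
  constructor
  · rw [← avg_const (β := β) (κ := κ) (Λ := Λ) (η := η) (-(avg β κ Λ' tt (ch B)))]
    exact avg_mono fun ω _ => (abs_le.1 (abs_avg_le hβ hκ (fun _ => le_rfl) ω hB)).1
  · rw [← avg_const (β := β) (κ := κ) (Λ := Λ) (η := η) (avg β κ Λ' tt (ch B))]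
    exact avg_mono fun ω _ => (abs_le.1 (abs_avg_le hβ hκ (fun _ => le_rfl) ω hB)).2

end

end Pool.Agent.Helper49.DL
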