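import Pool.Agent.Helper49.DL.Contour
import Pool.Agent.Helper49.DL.Plus

/-!
Block DL2-D1: configurations with the boundary condition `tt` and even sets of bonds.

Plaquettes are denoted by their lower left corners (`Side`, `Touch` in Contour.lean). A horizontal
bond `(i, i + e1)` is a side of the plaquettes `i` and `i - e2`, a vertical bond `(i, i + e2)` of the
plaquettes `i` and `i - e1`. `bk ω` is the set of bonds meeting `Λ` broken by `ω`, `odp F` the set of
plaquettes with an odd number of sides in `F`.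

Paper proof of `sum_even` (`Λ = box N M`). The map `ω ↦ bk ω` is a bijection from
`confs (box N M) tt` onto `{F | odp F = ∅}`:
* `odp (bk ω) = ∅`: for a plaquette `p` all sides of which that are broken by `ω` meet the box (a bond
  not meeting the box is not broken); going around `p` the number of colour changes is even
  (four sides, `decide`-like case analysis, cf. `par`, `plaq_even` in Contour.lean).
* injective: `ω` is `true` off the box; in each column the spins are determined from the bottom to
  the top by the broken vertical bonds.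
* surjective: for `F` with `odp F = ∅` put `f (x, y) =` number (mod 2) of `z ≥ y` with
  `((x, z), vertical) ∈ F` and `ω (x, y) = true` iff `f (x, y) = 0`. Then
  `f (x, y) + f (x, y + 1) = [((x, y), vertical) ∈ F]` and, by descending induction on `y` (as in
  `gg_hor`), `f (x, y) + f (x + 1, y) = [((x, y), horizontal) ∈ F]` (mod 2). `f` vanishes above the
  box and in the columns left and right of it (no bond of `LB (box N M)` is vertical there), and below
  the box by the horizontal relation (no bond there), so `ω ∈ confs (box N M) tt` and `bk ω = F`.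
A convenient device: transport `F` to a function `Bond → ZMod 2` (`Bond = Site × Bool`, Contour.lean),
zero off the bonds meeting the box.
-/

open Finset
open scoped Classical

namespace Pool.Agent.Helper49.DL

section

variable {Λ : Finset Site}

/-- First plaquette adjacent to a bond. -/
def dp : LB Λ → Site
  | Sum.inl i => i.1
  | Sum.inr i => i.1

/-- Second plaquette adjacent to a bond. -/
def dq : LB Λ → Site
  | Sum.inl i => i.1 - e2
  | Sum.inr i => i.1 - e1

/-- Plaquettes with a side that meets `Λ`. -/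
noncomputable def PL (Λ : Finset Site) : Finset Site :=
  (Finset.univ : Finset (LB Λ)).image dp ∪ (Finset.univ : Finset (LB Λ)).image dq

/-- Vertices of the dual graph. -/
abbrev PV (Λ : Finset Site) := {p // p ∈ PL Λ}

/-- The two plaquettes adjacent to a bond. -/
noncomputable def dA (e : LB Λ) : Finset (PV Λ) :=
  Finset.univ.filter (fun p => p.1 = dp e ∨ p.1 = dq e)

/-- Plaquettes with an odd number of sides in `F`. -/
noncomputable def odp (F : Finset (LB Λ)) : Finset (PV Λ) :=
  Finset.univ.filter (fun p => Odd (F.filter (fun e => p ∈ dA e)).card)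

/-- Bonds meeting `Λ` broken by `ω`. -/
noncomputable def bk (Λ : Finset Site) (ω : Cfg) : Finset (LB Λ) :=
  Finset.univ.filter (fun e => ω (lp e) ≠ ω (lq e))

end

section aux31

variable {Λ : Finset Site}

/-- Indicator of the horizontal bonds of `F`. -/
private noncomputable def fh31 (F : Finset (LB Λ)) (i : Site) : ZMod 2 :=
  if ∃ h : i ∈ hb Λ, (Sum.inl ⟨i, h⟩ : LB Λ) ∈ F then 1 else 0

/-- Indicator of the vertical bonds of `F`. -/
private noncomputable def fv31 (F : Finset (LB Λ)) (i : Site) : ZMod 2 :=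
  if ∃ h : i ∈ vb Λ, (Sum.inr ⟨i, h⟩ : LB Λ) ∈ F then 1 else 0

/-- The colour as an element of `ZMod 2`. -/
private def bb31 (c : Bool) : ZMod 2 := if c then 0 else 1

private lemma fh31_off (F : Finset (LB Λ)) {i : Site} (h : i ∉ hb Λ) : fh31 F i = 0 := by
  unfold fh31; rw [if_neg]; rintro ⟨h', _⟩; exact h h'

private lemma fv31_off (F : Finset (LB Λ)) {i : Site} (h : i ∉ vb Λ) : fv31 F i = 0 := by
  unfold fv31; rw [if_neg]; rintro ⟨h', _⟩; exact h h'

private lemma fh31_on (F : Finset (LB Λ)) (i : {i // i ∈ hb Λ}) :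
    fh31 F i.1 = if (Sum.inl i : LB Λ) ∈ F then 1 else 0 := by
  unfold fh31
  refine if_congr ⟨?_, ?_⟩ rfl rfl
  · rintro ⟨_, h⟩; exact h
  · intro h; exact ⟨i.2, h⟩

private lemma fv31_on (F : Finset (LB Λ)) (i : {i // i ∈ vb Λ}) :
    fv31 F i.1 = if (Sum.inr i : LB Λ) ∈ F then 1 else 0 := by
  unfold fv31
  refine if_congr ⟨?_, ?_⟩ rfl rfl
  · rintro ⟨_, h⟩; exact h
  · intro h; exact ⟨i.2, h⟩

private lemma sum_single31 (s : Finset Site) (g : Site → ZMod 2) (hg : ∀ i, i ∉ s → g i = 0)
    (p : Site) : ∑ i : {i // i ∈ s}, (if i.1 = p then g i.1 else 0) = g p := by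
  rw [Finset.sum_coe_sort s (fun i : Site => if i = p then g i else 0), Finset.sum_ite_eq']
  split_ifs with h
  · rfl
  · exact (hg p h).symm

private lemma card31 (F : Finset (LB Λ)) (p : PV Λ) :
    ((F.filter (fun e => p ∈ dA e)).card : ZMod 2) =
      fh31 F p.1 + fh31 F (p.1 + e2) + fv31 F p.1 + fv31 F (p.1 + e1) := by
  have h1 : ((F.filter (fun e => p ∈ dA e)).card : ZMod 2) =
      ∑ e : LB Λ, if (e ∈ F ∧ p ∈ dA e) then (1 : ZMod 2) else 0 := by
    rw [Finset.sum_boole]
    congr 2
    ext e
    simp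
  have z1 : (e1 : Site) ≠ 0 := by simp [e1, Prod.ext_iff]
  have z2 : (e2 : Site) ≠ 0 := by simp [e2, Prod.ext_iff]
  rw [h1, Fintype.sum_sum_type]
  have hh : ∑ i : {i // i ∈ hb Λ}, (if ((Sum.inl i : LB Λ) ∈ F ∧ p ∈ dA (Sum.inl i : LB Λ))
      then (1 : ZMod 2) else 0) = fh31 F p.1 + fh31 F (p.1 + e2) := by
    rw [← sum_single31 (hb Λ) (fh31 F) (fun i hi => fh31_off F hi) p.1,
      ← sum_single31 (hb Λ) (fh31 F) (fun i hi => fh31_off F hi) (p.1 + e2),
      ← Finset.sum_add_distrib]
    refine Finset.sum_congr rfl fun i _ => ?_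
    rw [fh31_on]
    have hm : p ∈ dA (Sum.inl i : LB Λ) ↔ i.1 = p.1 ∨ i.1 = p.1 + e2 := by
      unfold dA
      rw [Finset.mem_filter]
      simp only [Finset.mem_univ, true_and, dp, dq]
      constructor
      · rintro (h | h)
        · exact Or.inl h.symm
        · right; rw [h, sub_add_cancel]
      · rintro (h | h)
        · exact Or.inl h.symm
        · right; rw [h, add_sub_cancel_right]
    simp only [hm]
    by_cases c1 : i.1 = p.1
    · simp [c1, z2]
    · by_cases c2 : i.1 = p.1 + e2
      · simp [c2, z2]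
      · simp [c1, c2]
  have hv : ∑ i : {i // i ∈ vb Λ}, (if ((Sum.inr i : LB Λ) ∈ F ∧ p ∈ dA (Sum.inr i : LB Λ))
      then (1 : ZMod 2) else 0) = fv31 F p.1 + fv31 F (p.1 + e1) := by
    rw [← sum_single31 (vb Λ) (fv31 F) (fun i hi => fv31_off F hi) p.1,
      ← sum_single31 (vb Λ) (fv31 F) (fun i hi => fv31_off F hi) (p.1 + e1),
      ← Finset.sum_add_distrib]
    refine Finset.sum_congr rfl fun i _ => ?_
    rw [fv31_on]
    have hm : p ∈ dA (Sum.inr i : LB Λ) ↔ i.1 = p.1 ∨ i.1 = p.1 + e1 := by
      unfold dA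
      rw [Finset.mem_filter]
      simp only [Finset.mem_univ, true_and, dp, dq]
      constructor
      · rintro (h | h)
        · exact Or.inl h.symm
        · right; rw [h, sub_add_cancel]
      · rintro (h | h)
        · exact Or.inl h.symm
        · right; rw [h, add_sub_cancel_right]
    simp only [hm]
    by_cases c1 : i.1 = p.1
    · simp [c1, z1]
    · by_cases c2 : i.1 = p.1 + e1
      · simp [c2, z1]
      · simp [c1, c2]
  rw [hh, hv]
  ring

private lemma odp31 (F : Finset (LB Λ)) : odp F = ∅ ↔
    ∀ p : Site, fh31 F p + fh31 F (p + e2) + fv31 F p + fv31 F (p + e1) = 0 := by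
  unfold odp
  rw [Finset.filter_eq_empty_iff]
  constructor
  · intro h p
    by_cases hp : p ∈ PL Λ
    · have h1 := h (Finset.mem_univ (⟨p, hp⟩ : PV Λ))
      rw [Nat.not_odd_iff_even] at h1
      rw [← card31 F ⟨p, hp⟩]
      exact (ZMod.natCast_eq_zero_iff_even).2 h1
    · have hdp : ∀ e : LB Λ, dp e ≠ p := by
        intro e he
        apply hp
        unfold PL
        exact Finset.mem_union_left _ (Finset.mem_image.2 ⟨e, Finset.mem_univ _, he⟩)
      have hdq : ∀ e : LB Λ, dq e ≠ p := by
        intro e he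
        apply hp
        unfold PL
        exact Finset.mem_union_right _ (Finset.mem_image.2 ⟨e, Finset.mem_univ _, he⟩)
      rw [fh31_off F (fun h' => hdp (Sum.inl ⟨p, h'⟩) rfl),
        fh31_off F (fun h' => hdq (Sum.inl ⟨p + e2, h'⟩) (by simp [dq])),
        fv31_off F (fun h' => hdp (Sum.inr ⟨p, h'⟩) rfl),
        fv31_off F (fun h' => hdq (Sum.inr ⟨p + e1, h'⟩) (by simp [dq]))]
      simp
  · intro h p _
    rw [Nat.not_odd_iff_even, ← ZMod.natCast_eq_zero_iff_even, card31 F p]
    exact h p.1

private lemma bb31_ne (a b : Bool) : (if a ≠ b then (1 : ZMod 2) else 0) = bb31 a + bb31 b := by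
  cases a <;> cases b <;> decide

private lemma fh_bk31 {ω : Cfg} (h : ω ∈ confs Λ tt) (i : Site) :
    fh31 (bk Λ ω) i = bb31 (ω i) + bb31 (ω (i + e1)) := by
  by_cases hi : i ∈ hb Λ
  · rw [show i = (⟨i, hi⟩ : {i // i ∈ hb Λ}).1 from rfl, fh31_on, ← bb31_ne]
    refine if_congr ?_ rfl rfl
    unfold bk
    rw [Finset.mem_filter]
    simp [lp, lq]
  · rw [fh31_off _ hi]
    rw [mem_hb] at hi
    push Not at hi
    rw [mem_confs] at h
    rw [h _ hi.1, h _ hi.2]
    simp [tt, bb31]

private lemma fv_bk31 {ω : Cfg} (h : ω ∈ confs Λ tt) (i : Site) :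
    fv31 (bk Λ ω) i = bb31 (ω i) + bb31 (ω (i + e2)) := by
  by_cases hi : i ∈ vb Λ
  · rw [show i = (⟨i, hi⟩ : {i // i ∈ vb Λ}).1 from rfl, fv31_on, ← bb31_ne]
    refine if_congr ?_ rfl rfl
    unfold bk
    rw [Finset.mem_filter]
    simp [lp, lq]
  · rw [fv31_off _ hi]
    rw [mem_vb] at hi
    push Not at hi
    rw [mem_confs] at h
    rw [h _ hi.1, h _ hi.2]
    simp [tt, bb31]

private lemma bb31_inj {a b : Bool} (h : bb31 a = bb31 b) : a = b := by
  revert h; cases a <;> cases b <;> decide

end aux31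

section aux31b

variable {N M : ℤ}

/-- The potential of `F`. -/
private noncomputable def ff31 (F : Finset (LB (box N M))) (i : Site) : ZMod 2 :=
  ∑ z ∈ Finset.Icc i.2 M, fv31 F (i.1, z)

private lemma ff31_vert (F : Finset (LB (box N M))) (x y : ℤ) :
    ff31 F (x, y) = fv31 F (x, y) + ff31 F (x, y + 1) := by
  unfold ff31
  simp only
  by_cases hy : y ≤ M
  · have : Finset.Icc y M = insert y (Finset.Icc (y + 1) M) := by
      ext z; simp only [Finset.mem_Icc, Finset.mem_insert]; omega
    rw [this, Finset.sum_insert]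
    simp
  · rw [Finset.Icc_eq_empty (by omega), Finset.Icc_eq_empty (by omega), fv31_off]
    · simp
    · rw [mem_vb, mem_box, mem_box]
      simp only [e2, Prod.mk_add_mk]
      omega

private lemma ff31_hor (F : Finset (LB (box N M)))
    (hF : ∀ p : Site, fh31 F p + fh31 F (p + e2) + fv31 F p + fv31 F (p + e1) = 0) (x y : ℤ) :
    ff31 F (x, y) + ff31 F (x + 1, y) = fh31 F (x, y) := by
  have key : ∀ n : ℕ, ff31 F (x, M + 1 - n) + ff31 F (x + 1, M + 1 - n) =
      fh31 F (x, M + 1 - n) := by
    intro n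
    induction n with
    | zero =>
      simp only [Nat.cast_zero, sub_zero]
      unfold ff31
      simp only
      rw [Finset.Icc_eq_empty (by simp), fh31_off]
      · simp
      · rw [mem_hb, mem_box, mem_box]
        simp only [e1, Prod.mk_add_mk]
        omega
    | succ n ih =>
      have hp := hF (x, M + 1 - (n + 1 : ℕ))
      have e1' : M + 1 - ((n + 1 : ℕ) : ℤ) + 1 = M + 1 - (n : ℤ) := by push_cast; ring
      simp only [e1, e2, Prod.mk_add_mk, add_zero] at hp
      rw [ff31_vert F x, ff31_vert F (x + 1), e1']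
      rw [e1'] at hp
      set a := fh31 F (x, M + 1 - ((n + 1 : ℕ) : ℤ))
      set b := fv31 F (x, M + 1 - ((n + 1 : ℕ) : ℤ))
      set c := fv31 F (x + 1, M + 1 - ((n + 1 : ℕ) : ℤ))
      set d := fh31 F (x, M + 1 - (n : ℤ))
      set u := ff31 F (x, M + 1 - (n : ℤ))
      set v := ff31 F (x + 1, M + 1 - (n : ℤ))
      have h3 : b + u + (c + v) = b + c + (u + v) := by ring
      rw [h3, ih]
      have h4 : ∀ a b c d : ZMod 2, a + d + b + c = 0 → b + c + d = a := by decide
      exact h4 a b c d hp
  by_cases hy : y ≤ M + 1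
  · have := key (M + 1 - y).toNat
    rw [Int.toNat_of_nonneg (by omega)] at this
    simpa using this
  · unfold ff31
    simp only
    rw [Finset.Icc_eq_empty (by omega), fh31_off]
    · simp
    · rw [mem_hb, mem_box, mem_box]
      simp only [e1, Prod.mk_add_mk]
      omega

private lemma ff31_off (F : Finset (LB (box N M)))
    (hF : ∀ p : Site, fh31 F p + fh31 F (p + e2) + fv31 F p + fv31 F (p + e1) = 0) {i : Site}
    (hi : i ∉ box N M) : ff31 F i = 0 := by
  have hcol : ∀ x y : ℤ, ¬ (-N ≤ x ∧ x ≤ N) → ff31 F (x, y) = 0 := by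
    intro x y hx
    unfold ff31
    refine Finset.sum_eq_zero fun z _ => fv31_off F ?_
    rw [mem_vb, mem_box, mem_box]
    simp only [e2, Prod.mk_add_mk]
    omega
  obtain ⟨x, y⟩ := i
  by_cases hx : -N ≤ x ∧ x ≤ N
  · rw [mem_box] at hi
    simp only at hi
    by_cases hy : M < y
    · unfold ff31
      simp only
      rw [Finset.Icc_eq_empty (by omega)]
      simp
    · have hy2 : y ≤ -M := by omega
      have key : ∀ n : ℕ, ff31 F (N + 1 - n, y) = 0 := by
        intro n
        induction n with
        | zero => exact hcol _ _ (by push_cast; omega)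
        | succ n ih =>
          have h1 := ff31_hor F hF (N + 1 - ((n + 1 : ℕ) : ℤ)) y
          have e1' : N + 1 - ((n + 1 : ℕ) : ℤ) + 1 = N + 1 - (n : ℤ) := by push_cast; ring
          rw [e1', ih, add_zero, fh31_off] at h1
          · exact h1
          · rw [mem_hb, mem_box, mem_box]
            simp only [e1, Prod.mk_add_mk]
            omega
      have := key (N + 1 - x).toNat
      rw [Int.toNat_of_nonneg (by omega)] at this
      simpa using this
  · exact hcol x y hx

end aux31b

theorem bk_even {N M : ℤ} {ω : Cfg} (h : ω ∈ confs (box N M) tt) :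
    odp (bk (box N M) ω) = ∅ := by
  rw [odp31]
  intro p
  rw [fh_bk31 h, fh_bk31 h, fv_bk31 h, fv_bk31 h, add_right_comm p e2 e1]
  have h4 : ∀ a b c d : ZMod 2, a + b + (c + d) + (a + c) + (b + d) = 0 := by decide
  exact h4 _ _ _ _

theorem sum_even {N M : ℤ} (G : Finset (LB (box N M)) → ℝ) :
    ∑ ω ∈ confs (box N M) tt, G (bk (box N M) ω) =
      ∑ F ∈ Finset.univ.filter (fun F : Finset (LB (box N M)) => odp F = ∅), G F := by
  refine Finset.sum_bij (fun ω _ => bk (box N M) ω) ?_ ?_ ?_ ?_
  · intro ω hω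
    rw [Finset.mem_filter]
    exact ⟨Finset.mem_univ _, bk_even hω⟩
  · intro ω hω ω' hω' hbk
    have hv : ∀ i : Site, bb31 (ω i) + bb31 (ω (i + e2)) = bb31 (ω' i) + bb31 (ω' (i + e2)) := by
      intro i
      rw [← fv_bk31 hω, ← fv_bk31 hω', hbk]
    funext i
    obtain ⟨x, y⟩ := i
    have htop : ∀ y : ℤ, M < y → ω (x, y) = ω' (x, y) := by
      intro y hy
      rw [mem_confs] at hω hω'
      rw [hω _ (by rw [mem_box]; simp only; omega), hω' _ (by rw [mem_box]; simp only; omega)]
    have key : ∀ n : ℕ, ω (x, M + 1 - n) = ω' (x, M + 1 - n) := by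
      intro n
      induction n with
      | zero => exact htop _ (by push_cast; omega)
      | succ n ih =>
        have h1 := hv (x, M + 1 - ((n + 1 : ℕ) : ℤ))
        have e1' : M + 1 - ((n + 1 : ℕ) : ℤ) + 1 = M + 1 - (n : ℤ) := by push_cast; ring
        simp only [e2, Prod.mk_add_mk, add_zero] at h1
        rw [e1', ih] at h1
        exact bb31_inj (add_right_cancel h1)
    by_cases hy : y ≤ M + 1
    · have := key (M + 1 - y).toNat
      rw [Int.toNat_of_nonneg (by omega)] at this
      simpa using this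
    · exact htop y (by omega)
  · intro F hF
    rw [Finset.mem_filter, odp31] at hF
    have hF2 := hF.2
    have hbf : ∀ z : ZMod 2, bb31 (decide (z = 0)) = z := by decide
    have hω : (fun i => decide (ff31 F i = 0) : Cfg) ∈ confs (box N M) tt := by
      rw [mem_confs]
      intro i hi
      simp [ff31_off F hF2 hi, tt]
    refine ⟨fun i => decide (ff31 F i = 0), hω, ?_⟩
    have h10 : ∀ q : Prop, ∀ [Decidable q], (if q then (1 : ZMod 2) else 0) = 1 ↔ q := by
      intro q _
      split_ifs with h
      · simp [h]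
      · simp [h]
    have hzz : ∀ a b c : ZMod 2, a = b + c → b + a = c := by decide
    ext e
    cases e with
    | inl i =>
      have h1 := fh_bk31 hω i.1
      have h2 := ff31_hor F hF2 i.1.1 i.1.2
      have h3 : ((i.1.1 + 1, i.1.2) : Site) = i.1 + e1 := by simp [e1, Prod.ext_iff]
      rw [h3] at h2
      simp only [hbf] at h1
      rw [h2, fh31_on, fh31_on] at h1
      rw [← h10 (Sum.inl i ∈ F), ← h1, h10]
    | inr i =>
      have h1 := fv_bk31 hω i.1
      have h2 := ff31_vert F i.1.1 i.1.2
      have h3 : ((i.1.1, i.1.2 + 1) : Site) = i.1 + e2 := by simp [e2, Prod.ext_iff]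
      rw [h3] at h2
      simp only [hbf] at h1
      have h4 : ff31 F i.1 + ff31 F (i.1 + e2) = fv31 F i.1 := by
        have h5 : ff31 F i.1 = fv31 F i.1 + ff31 F (i.1 + e2) := h2
        rw [h5]
        have : ∀ a b : ZMod 2, a + b + b = a := by decide
        exact this _ _
      rw [h4, fv31_on, fv31_on] at h1
      rw [← h10 (Sum.inr i ∈ F), ← h1, h10]
  · intro ω _
    rfl

end Pool.Agent.Helper49.DL
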