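import Pool.Agent.Helper49.DL.Dual2

/-!
Block DL2-D3: high temperature expansion of the dual model.

Paper proof. `ZE_dual`: `exp (dJ e * chi (dA e) τ) = cosh (dJ e) * (1 + xe e * chi (dA e) τ)` since
`tanh (dJ e) = xe e` (`chi = ±1`); expand `∏ e (1 + xe e * chi (dA e) τ) =
∑ F, ∏ e ∈ F, xe e * chi (dA e) τ` (`Finset.prod_one_add`), and `∑ τ, chi A τ * ∏ e ∈ F, chi (dA e) τ =
2 ^ |PV|` if `odp F = A` and `0` otherwise (the product is `chi (A ∆ odp F) τ`).
-/

open Finset
open scoped Classical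

namespace Pool.Agent.Helper49.DL

section

variable {V : Type*} [Fintype V] [DecidableEq V]

private lemma chi_eq_univ65 (A : Finset V) (σ : V → Bool) :
    chi A σ = ∏ v, (if v ∈ A then sp (σ v) else 1) := by
  unfold chi
  rw [Finset.prod_ite_mem, Finset.univ_inter]

private lemma sum_chi65 (A B : Finset V) :
    ∑ σ : V → Bool, chi A σ * chi B σ = if B = A then 2 ^ Fintype.card V else 0 := by
  have h1 : ∀ σ : V → Bool, chi A σ * chi B σ =
      ∏ v, ((if v ∈ A then sp (σ v) else 1) * (if v ∈ B then sp (σ v) else 1)) := by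
    intro σ
    rw [chi_eq_univ65, chi_eq_univ65, Finset.prod_mul_distrib]
  have h2 := Finset.prod_univ_sum (fun _ : V => (Finset.univ : Finset Bool))
    (fun v b => (if v ∈ A then sp b else 1) * (if v ∈ B then sp b else (1 : ℝ)))
  rw [Fintype.piFinset_univ] at h2
  rw [Finset.sum_congr rfl fun σ _ => h1 σ, ← h2]
  have h3 : ∀ v : V, ∑ b : Bool, (if v ∈ A then sp b else 1) * (if v ∈ B then sp b else (1 : ℝ)) =
      if (v ∈ B ↔ v ∈ A) then 2 else 0 := by
    intro v
    rw [Fintype.sum_bool]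
    by_cases hA : v ∈ A <;> by_cases hB : v ∈ B <;> simp [hA, hB] <;> norm_num
  rw [Finset.prod_congr rfl fun v _ => h3 v]
  by_cases hAB : B = A
  · rw [if_pos hAB]
    subst hAB
    simp
  · rw [if_neg hAB]
    have : ∃ v, ¬ (v ∈ B ↔ v ∈ A) := by
      by_contra hcon
      push Not at hcon
      exact hAB (Finset.ext hcon)
    obtain ⟨v, hv⟩ := this
    exact Finset.prod_eq_zero (Finset.mem_univ v) (if_neg hv)

end

private lemma sp_pow65 (b : Bool) (n : ℕ) : sp b ^ n = if Odd n then sp b else 1 := by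
  induction n with
  | zero => simp
  | succ n ih =>
    rw [pow_succ, ih]
    by_cases h : Odd n
    · rw [if_pos h, if_neg (by rw [Nat.not_odd_iff_even]; exact Odd.add_one h), sp_mul_self]
    · rw [if_neg h, if_pos (Even.add_one (Nat.not_odd_iff_even.1 h)), one_mul]

private lemma prod_chi65 {Λ : Finset Site} (F : Finset (LB Λ)) (σ : PV Λ → Bool) :
    ∏ e ∈ F, chi (dA e) σ = chi (odp F) σ := by
  rw [chi_eq_univ65]
  simp only [chi_eq_univ65]
  rw [Finset.prod_comm]
  refine Finset.prod_congr rfl fun p _ => ?_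
  rw [Finset.prod_ite, Finset.prod_const, Finset.prod_const_one, mul_one, sp_pow65]
  unfold odp
  simp only [Finset.mem_filter, Finset.mem_univ, true_and]

private lemma exp_dual65 {Λ : Finset Site} {β : ℝ} {κ : Site → ℝ} {e : LB Λ}
    (hx : 0 < β * lk κ e) (σ : PV Λ → Bool) :
    Real.exp (dJ β κ e * chi (dA e) σ) =
      Real.cosh (dJ β κ e) * (1 + xe β κ e * chi (dA e) σ) := by
  have hs : Real.sinh (dJ β κ e) = xe β κ e * Real.cosh (dJ β κ e) := by
    have h0 : 0 < xe β κ e := Real.exp_pos _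
    have h1 : xe β κ e < 1 := by
      unfold xe
      rw [Real.exp_lt_one_iff]
      linarith
    have hy : 0 < (1 + xe β κ e) / (1 - xe β κ e) := div_pos (by linarith) (by linarith)
    have hE : Real.exp (dJ β κ e) ^ 2 = (1 + xe β κ e) / (1 - xe β κ e) := by
      rw [← Real.exp_nat_mul]
      unfold dJ
      push_cast
      rw [mul_div_cancel₀ _ (two_ne_zero), Real.exp_log hy]
    have hE0 : 0 < Real.exp (dJ β κ e) := Real.exp_pos _
    rw [Real.sinh_eq, Real.cosh_eq, Real.exp_neg]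
    rw [eq_div_iff (by linarith)] at hE
    field_simp
    linear_combination hE
  rw [exp_chi, hs]
  ring

theorem ZE_dual {Λ : Finset Site} {β : ℝ} {κ : Site → ℝ} (hx : ∀ e : LB Λ, 0 < β * lk κ e)
    (A : Finset (PV Λ)) :
    NN (dA (Λ := Λ)) (dJ β κ) ∅ A =
      (2 ^ Fintype.card (PV Λ) * ∏ e : LB Λ, Real.cosh (dJ β κ e)) * ZE β κ A := by
  have h1 : ∀ σ : PV Λ → Bool, wt (dA (Λ := Λ)) (dJ β κ) σ * frc ∅ σ =
      (∏ e : LB Λ, Real.cosh (dJ β κ e)) *
        ∑ F : Finset (LB Λ), (∏ e ∈ F, xe β κ e) * chi (odp F) σ := by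
    intro σ
    have h2 : frc (∅ : Finset (PV Λ)) σ = 1 := by
      unfold frc
      simp
    rw [h2, mul_one, wt_eq_prod, Finset.prod_congr rfl fun e _ => exp_dual65 (hx e) σ,
      Finset.prod_mul_distrib, Finset.prod_one_add, Finset.powerset_univ]
    congr 1
    refine Finset.sum_congr rfl fun F _ => ?_
    rw [Finset.prod_mul_distrib, prod_chi65]
  unfold NN
  rw [Finset.sum_congr rfl fun σ _ => by rw [h1 σ]]
  have h3 : ∑ σ : PV Λ → Bool, chi A σ * ((∏ e : LB Λ, Real.cosh (dJ β κ e)) *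
      ∑ F : Finset (LB Λ), (∏ e ∈ F, xe β κ e) * chi (odp F) σ) =
      (∏ e : LB Λ, Real.cosh (dJ β κ e)) * ∑ F : Finset (LB Λ), (∏ e ∈ F, xe β κ e) *
        ∑ σ : PV Λ → Bool, chi A σ * chi (odp F) σ := by
    simp only [Finset.mul_sum]
    rw [Finset.sum_comm]
    refine Finset.sum_congr rfl fun F _ => Finset.sum_congr rfl fun σ _ => ?_
    ring
  rw [h3]
  simp only [sum_chi65]
  unfold ZE
  rw [Finset.sum_filter, Finset.mul_sum, Finset.mul_sum]
  refine Finset.sum_congr rfl fun F _ => ?_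
  by_cases hF : odp F = A
  · rw [if_pos hF, if_pos hF]
    ring
  · rw [if_neg hF, if_neg hF]
    ring

end Pool.Agent.Helper49.DL
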