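import Pool.Agent.Helper49.DL.Layers

/-!
Joint representation of the two-layer sums: one configuration `c` on the whole vertex set.
-/

open Finset

namespace Pool.Agent.Helper49.DL

section

variable {V ι : Type*} [Fintype V] [DecidableEq V] [Fintype ι]

/-- `f` depends only on the coordinates in `S`. -/
def DepOn (S : Finset V) (f : (V → Bool) → ℝ) : Prop :=
  ∀ σ σ' : V → Bool, (∀ v ∈ S, σ v = σ' v) → f σ = f σ'

lemma sum_mul_sum_dep (S : Finset V) {f g : (V → Bool) → ℝ} (hf : DepOn S f)
    (hg : DepOn Sᶜ g) :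
    (∑ σ, f σ) * (∑ σ, g σ) = (2 : ℝ) ^ (Fintype.card V) * ∑ σ, f σ * g σ := by
  classical
  have h1 : ∑ p : (V → Bool) × (V → Bool), f p.1 * g p.2 =
      ∑ p : (V → Bool) × (V → Bool), f p.1 * g p.1 := by
    have key : ∀ p : (V → Bool) × (V → Bool), f p.1 * g p.2 =
        f (S.piecewise p.1 p.2) * g (S.piecewise p.1 p.2) := by
      intro p
      congr 1
      · refine hf _ _ fun v hv => ?_
        simp [Finset.piecewise, hv]
      · refine hg _ _ fun v hv => ?_
        have : v ∉ S := by simpa using hv
        simp [Finset.piecewise, this]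
    simp_rw [key]
    let e : (V → Bool) × (V → Bool) → (V → Bool) × (V → Bool) :=
      fun p => (S.piecewise p.1 p.2, S.piecewise p.2 p.1)
    have he : ∀ p, e (e p) = p := by
      intro p
      ext v <;> by_cases hv : v ∈ S <;> simp [e, Finset.piecewise, hv]
    exact Fintype.sum_equiv ⟨e, e, he, he⟩ _ (fun p => f p.1 * g p.1) (fun p => rfl)
  rw [Finset.sum_mul_sum, ← Fintype.sum_prod_type' (f := fun a b => f a * g b), h1,
    Fintype.sum_prod_type' (f := fun a (_ : V → Bool) => f a * g a)]
  simp only [Finset.sum_const, Finset.card_univ, Fintype.card_fun, Fintype.card_bool,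
    nsmul_eq_mul, ← Finset.mul_sum]
  push_cast
  rfl

omit [Fintype V] [DecidableEq V] in
lemma chi_dep {A S : Finset V} (h : A ⊆ S) : DepOn S (chi A) := by
  intro σ σ' hs
  unfold chi
  exact Finset.prod_congr rfl fun v hv => by rw [hs v (h hv)]

omit [Fintype V] [DecidableEq V] in
lemma frc_dep {F S : Finset V} (h : F ⊆ S) : DepOn S (frc F) := by
  intro σ σ' hs
  unfold frc
  exact Finset.prod_congr rfl fun v hv => by rw [hs v (h hv)]

omit [Fintype V] in
lemma wt_res_dep (A : ι → Finset V) (J : ι → ℝ) (S : Finset V) :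
    DepOn S (wt A (res A J S)) := by
  intro σ σ' hs
  unfold wt
  congr 1
  refine Finset.sum_congr rfl fun i _ => ?_
  unfold res
  by_cases h : A i ⊆ S
  · rw [chi_dep h σ σ' hs]
  · simp [h]

/-- Product of the two layer sums as a joint sum. -/
theorem na_mul_na (A : ι → Finset V) (J L : ι → ℝ) {F B S : Finset V} (hF : F ⊆ S)
    (hB : B ⊆ S) :
    na A J F B S * na A L ∅ ∅ Sᶜ = (2 : ℝ) ^ (Fintype.card V) *
      ∑ c : V → Bool, chi B c * (wt A (res A J S) c * wt A (res A L Sᶜ) c * frc F c) := by
  unfold na NN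
  rw [sum_mul_sum_dep S]
  · congr 1
    refine Finset.sum_congr rfl fun c _ => ?_
    simp only [chi_empty, frc, Finset.prod_empty]
    ring
  · intro σ σ' hs
    beta_reduce
    rw [chi_dep hB σ σ' hs, wt_res_dep A J S σ σ' hs, frc_dep hF σ σ' hs]
  · intro σ σ' hs
    beta_reduce
    rw [wt_res_dep A L Sᶜ σ σ' hs]
    simp [chi_empty, frc]

/-- If `B` is not contained in `S` and `F ⊆ S`, the layer sum vanishes. -/
theorem na_eq_zero (A : ι → Finset V) (J : ι → ℝ) {F B S : Finset V} (hF : F ⊆ S)
    (hB : ¬ B ⊆ S) : na A J F B S = 0 := by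
  classical
  obtain ⟨v, hvB, hvS⟩ := Finset.not_subset.1 hB
  unfold na NN
  have hinv : ∀ c : V → Bool, (Function.update c v (!(c v))) ≠ c := by
    intro c h
    have := congrFun h v
    simp at this
  refine Finset.sum_involution (fun c _ => Function.update c v (!(c v))) ?_ ?_ ?_ ?_
  · intro c _
    have hs : ∀ w ∈ S, (Function.update c v (!(c v))) w = c w := by
      intro w hw
      rw [Function.update_of_ne]
      rintro rfl; exact hvS hw
    have e1 := wt_res_dep A J S _ _ hs
    have e2 := frc_dep hF _ _ hs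
    have e3 : chi B (Function.update c v (!(c v))) = - chi B c := by
      unfold chi
      rw [← Finset.mul_prod_erase B _ hvB, ← Finset.mul_prod_erase B (fun w => sp (c w)) hvB]
      have : ∀ w ∈ B.erase v, sp (Function.update c v (!(c v)) w) = sp (c w) := by
        intro w hw
        rw [Function.update_of_ne (Finset.ne_of_mem_erase hw)]
      rw [Finset.prod_congr rfl this, Function.update_self, sp_not]
      ring
    rw [e1, e2, e3]; ring
  · intro c _ _
    exact hinv c
  · intro c _; exact Finset.mem_univ _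
  · intro c _
    funext w
    by_cases hw : w = v
    · subst hw; simp
    · simp [Function.update_of_ne hw]

end

end Pool.Agent.Helper49.DL
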