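import Pool.Agent.Helper49.DL.Odd
import Pool.Agent.Helper49.DL.Joint

/-!
Two complementary ferromagnetic layers: local comparison of the two point functions
`X b b' = ∑_S <q_b>_S <r_b'>_{S^c}` (a Harnack type inequality).
-/

open Finset

namespace Pool.Agent.Helper49.DL

section

variable {V ι : Type*} [Fintype V] [DecidableEq V] [Fintype ι]

omit [DecidableEq V] in
lemma wt_cone (A : ι → Finset V) {J : ι → ℝ} (hJ : ∀ i, 0 ≤ J i) : wt A J ∈ Cone V := by
  have : (fun σ => ∏ i, Real.exp (J i * chi (A i) σ)) ∈ Cone V := by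
    refine cone_prod _ _ fun i _ => ?_
    convert cone_lin (A i) (Real.cosh_pos (J i)).le (Real.sinh_nonneg_iff.2 (hJ i)) using 1
    funext σ; rw [exp_chi]
  convert this using 1
  funext σ; exact wt_eq_prod A J σ

omit [DecidableEq V] in
lemma wt_sub_one_cone (A : ι → Finset V) {D : ι → ℝ} (hD : ∀ i, 0 ≤ D i) :
    (fun σ => wt A D σ - 1) ∈ Cone V := by
  have h := (dom_wt A (D := D) (D' := fun _ => 0) (fun i => by simpa using hD i)
    (fun _ => true)).1
  convert h using 1
  funext σ
  congr 1
  unfold wt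
  simp

omit [Fintype V] [DecidableEq V] [Fintype ι] in
lemma frc_empty (σ : V → Bool) : frc ∅ σ = 1 := by simp [frc]

/-- One point sum of one layer. -/
noncomputable def N1 (A : ι → Finset V) (J : ι → ℝ) (P : Finset V) (x : V) : ℝ :=
  ∑ σ : V → Bool, sp (σ x) * wt A (res A J P) σ

lemma N1_nonneg (A : ι → Finset V) {J : ι → ℝ} (hJ : ∀ i, 0 ≤ J i) (P : Finset V) (x : V) :
    0 ≤ N1 A J P x := by
  unfold N1
  exact cone_sum_nonneg (f := fun σ => sp (σ x) * wt A (res A J P) σ)
    (cone_mul (cone_sp x) (wt_cone A (res_nonneg A hJ P)))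

/-- Monotonicity. -/
lemma N1_mono (A : ι → Finset V) {J : ι → ℝ} (hJ : ∀ i, 0 ≤ J i) {P P' : Finset V} (h : P ⊆ P')
    (x : V) : N1 A J P x ≤ N1 A J P' x := by
  have h1 : ∀ i, 0 ≤ res A J P' i - res A J P i := by
    intro i
    unfold res
    by_cases h2 : A i ⊆ P
    · rw [if_pos h2, if_pos (h2.trans h)]; simp
    · rw [if_neg h2]
      split_ifs
      · simpa using hJ i
      · simp
  have h2 := cone_sum_nonneg (f := fun σ => sp (σ x) * (wt A (res A J P) σ *
    (wt A (fun i => res A J P' i - res A J P i) σ - 1)))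
    (cone_mul (cone_sp x) (cone_mul (wt_cone A (res_nonneg A hJ P)) (wt_sub_one_cone A h1)))
  have e : ∀ σ : V → Bool, wt A (res A J P') σ =
      wt A (res A J P) σ * wt A (fun i => res A J P' i - res A J P i) σ := by
    intro σ
    rw [← wt_add]
    congr 1
    funext i; ring
  unfold N1
  have e2' : ∑ σ : V → Bool, sp (σ x) * (wt A (res A J P) σ *
    (wt A (fun i => res A J P' i - res A J P i) σ - 1)) =
    ∑ σ : V → Bool, sp (σ x) * wt A (res A J P') σ - ∑ σ : V → Bool, sp (σ x) * wt A (res A J P) σ := by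
    rw [← Finset.sum_sub_distrib]
    refine Finset.sum_congr rfl fun σ _ => ?_
    rw [e]; ring
  linarith

/-- One step of a path. -/
lemma N1_step (A : ι → Finset V) {J : ι → ℝ} (hJ : ∀ i, 0 ≤ J i) {P : Finset V} {x x' : V}
    (hx : x ∈ P) (hx' : x' ∉ P) {e : ι} (he : A e = {x, x'}) {κ : ℝ} (hκ : 0 ≤ κ)
    (hJe : κ ≤ J e) : Real.sinh κ * N1 A J P x ≤ N1 A J (insert x' P) x' := by
  classical
  have hne : x ≠ x' := fun h => hx' (h ▸ hx)
  set D1 : ι → ℝ := fun i => if i = e then κ else 0 with hD1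
  set D2 : ι → ℝ := fun i => res A J (insert x' P) i - res A J P i - D1 i with hD2
  have hD1n : ∀ i, 0 ≤ D1 i := fun i => by
    simp only [hD1]; split_ifs
    · exact hκ
    · exact le_rfl
  have hD2n : ∀ i, 0 ≤ D2 i := by
    intro i
    simp only [hD2, hD1]
    unfold res
    by_cases h1 : A i ⊆ P
    · have h2 : A i ⊆ insert x' P := h1.trans (Finset.subset_insert _ _)
      have h3 : i ≠ e := by
        rintro rfl
        apply hx'
        apply h1
        rw [he]; simp
      rw [if_pos h1, if_pos h2, if_neg h3]; simp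
    · rw [if_neg h1]
      by_cases h3 : i = e
      · subst h3
        have h2 : A i ⊆ insert x' P := by
          rw [he]
          intro v hv
          rcases Finset.mem_insert.1 hv with h | h
          · rw [h]; exact Finset.mem_insert_of_mem hx
          · rw [Finset.mem_singleton.1 h]; exact Finset.mem_insert_self _ _
        rw [if_pos h2, if_pos rfl]; linarith
      · rw [if_neg h3]
        split_ifs
        · have := hJ i; linarith
        · simp
  have hwD1 : ∀ σ, wt A D1 σ = Real.cosh κ + Real.sinh κ * chi (A e) σ := by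
    intro σ
    rw [← exp_chi]
    unfold wt
    congr 1
    simp only [hD1, ite_mul, zero_mul, Finset.sum_ite_eq', Finset.mem_univ, if_true]
  have hw : ∀ σ, wt A (res A J (insert x' P)) σ =
      wt A (res A J P) σ * ((Real.cosh κ + Real.sinh κ * chi (A e) σ) * wt A D2 σ) := by
    intro σ
    rw [← hwD1, ← wt_add, ← wt_add]
    congr 1
    funext i
    simp only [hD2]; ring
  have hchi : ∀ σ : V → Bool, sp (σ x') * chi (A e) σ = sp (σ x) := by
    intro σ
    rw [he]
    unfold chi
    rw [Finset.prod_pair hne]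
    have := sp_mul_self (σ x')
    linear_combination sp (σ x) * this
  have hsinh : 0 ≤ Real.sinh κ := Real.sinh_nonneg_iff.2 hκ
  have h1 := cone_sum_nonneg (f := fun σ => sp (σ x') * (wt A (res A J P) σ *
      (Real.cosh κ * wt A D2 σ + (Real.sinh κ * chi (A e) σ) * (wt A D2 σ - 1))))
    (cone_mul (cone_sp x') (cone_mul (wt_cone A (res_nonneg A hJ P)) (cone_add
      (cone_mul (cone_const (Real.cosh_pos κ).le) (wt_cone A hD2n))
      (cone_mul (cone_mul (cone_const hsinh) (cone_chi (A e))) (wt_sub_one_cone A hD2n)))))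
  have e2' : ∑ σ : V → Bool, sp (σ x') * (wt A (res A J P) σ *
      (Real.cosh κ * wt A D2 σ + (Real.sinh κ * chi (A e) σ) * (wt A D2 σ - 1))) =
      N1 A J (insert x' P) x' - Real.sinh κ * N1 A J P x := by
    unfold N1
    rw [Finset.mul_sum, ← Finset.sum_sub_distrib]
    refine Finset.sum_congr rfl fun σ _ => ?_
    rw [hw, ← hchi σ]
    ring
  linarith

/-- Routes: `Route x π y` says that the vertices of `π` form a path leading from `x` to `y`. -/
inductive Route (A : ι → Finset V) (JQ JR : ι → ℝ) (κ : ℝ) : V → Finset V → V → Prop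
  | nil (x : V) : Route A JQ JR κ x ∅ x
  | cons {x x' y : V} {π : Finset V} (e : ι) (he : A e = {x, x'}) (hQ : κ ≤ JQ e)
      (hR : κ ≤ JR e) (hx : x' ∉ π) (h : Route A JQ JR κ x' π y) :
      Route A JQ JR κ x (insert x' π) y

lemma route_ineq (A : ι → Finset V) {JQ JR : ι → ℝ} {κ : ℝ} (hκ : 0 ≤ κ) {x y : V}
    {π : Finset V} (h : Route A JQ JR κ x π y) :
    ∀ P : Finset V, x ∈ P → Disjoint P π →
      ((∀ i, 0 ≤ JQ i) → Real.sinh κ ^ π.card * N1 A JQ P x ≤ N1 A JQ (P ∪ π) y) ∧
      ((∀ i, 0 ≤ JR i) → Real.sinh κ ^ π.card * N1 A JR P x ≤ N1 A JR (P ∪ π) y) := by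
  have hs : 0 ≤ Real.sinh κ := Real.sinh_nonneg_iff.2 hκ
  induction h with
  | nil x =>
    intro P _ _
    simp
  | @cons x x' y π e he hQ hR hx h ih =>
    intro P hxP hdis
    rw [Finset.disjoint_insert_right] at hdis
    have h1 := ih (insert x' P) (Finset.mem_insert_self _ _) (by
      rw [Finset.disjoint_insert_left]; exact ⟨hx, hdis.2⟩)
    have hU : insert x' P ∪ π = P ∪ insert x' π := by
      ext v; simp only [Finset.mem_union, Finset.mem_insert]; tauto
    rw [hU] at h1
    rw [Finset.card_insert_of_notMem hx, pow_succ]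
    constructor
    · intro hJ
      have h2 := N1_step A hJ hxP hdis.1 he hκ hQ
      calc Real.sinh κ ^ π.card * Real.sinh κ * N1 A JQ P x
          = Real.sinh κ ^ π.card * (Real.sinh κ * N1 A JQ P x) := by ring
        _ ≤ Real.sinh κ ^ π.card * N1 A JQ (insert x' P) x' :=
          mul_le_mul_of_nonneg_left h2 (pow_nonneg hs _)
        _ ≤ _ := h1.1 hJ
    · intro hJ
      have h2 := N1_step A hJ hxP hdis.1 he hκ hR
      calc Real.sinh κ ^ π.card * Real.sinh κ * N1 A JR P x
          = Real.sinh κ ^ π.card * (Real.sinh κ * N1 A JR P x) := by ring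
        _ ≤ Real.sinh κ ^ π.card * N1 A JR (insert x' P) x' :=
          mul_le_mul_of_nonneg_left h2 (pow_nonneg hs _)
        _ ≤ _ := h1.2 hJ

/-- Decoupling: removing the set `W` from one layer. -/
theorem decouple (A : ι → Finset V) {J : ι → ℝ} (hJ : ∀ i, 0 ≤ J i)
    (hA : ∀ i, J i ≠ 0 → (A i).card ≤ 2) {W E S : Finset V} (hWE : Disjoint W E)
    (hW : ∀ i, J i ≠ 0 → ¬ Disjoint (A i) W → Even (A i).card ∧ A i ⊆ W ∪ E)
    {G : ℝ} (hG : Real.exp (∑ i ∈ Finset.univ.filter (fun i => ¬ Disjoint (A i) W), J i) ≤ G)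
    {b : V} (hb : b ∈ W) :
    N1 A J S b ≤ G * ∑ u ∈ E ∩ S, N1 A J (S \ W) u := by
  classical
  set Jin : ι → ℝ := fun i => res A J S i - res A J (S \ W) i with hJin
  have hJin_eq : ∀ i, Jin i = if A i ⊆ S ∧ ¬ Disjoint (A i) W then J i else 0 := by
    intro i
    simp only [hJin]
    unfold res
    by_cases h1 : A i ⊆ S
    · by_cases h2 : Disjoint (A i) W
      · have h3 : A i ⊆ S \ W := by
          intro v hv
          rw [Finset.mem_sdiff]
          exact ⟨h1 hv, fun h => (Finset.disjoint_left.1 h2) hv h⟩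
        rw [if_pos h1, if_pos h3, if_neg (fun h => h.2 h2)]; simp
      · have h3 : ¬ A i ⊆ S \ W := by
          intro h
          apply h2
          rw [Finset.disjoint_left]
          intro v hv hv'
          exact (Finset.mem_sdiff.1 (h hv)).2 hv'
        rw [if_pos h1, if_neg h3, if_pos ⟨h1, h2⟩]; simp
    · have h3 : ¬ A i ⊆ S \ W := fun h => h1 (h.trans Finset.sdiff_subset)
      rw [if_neg h1, if_neg h3, if_neg (fun h => h1 h.1)]; simp
  have hJin0 : ∀ i, 0 ≤ Jin i := fun i => by
    rw [hJin_eq]; split_ifs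
    · exact hJ i
    · exact le_rfl
  have hsplit : ∀ c, wt A (res A J S) c = wt A (res A J (S \ W)) c * wt A Jin c := by
    intro c
    rw [← wt_add]
    congr 1
    funext i
    simp only [hJin]; ring
  set g : (V → Bool) → ℝ := fun c => sp (c b) * wt A Jin c with hg
  -- bound
  have hwtin : ∀ c, wt A Jin c ≤ G := by
    intro c
    refine le_trans ?_ hG
    unfold wt
    apply Real.exp_le_exp.2
    rw [Finset.sum_filter]
    refine Finset.sum_le_sum fun i _ => ?_
    rw [hJin_eq]
    by_cases h2 : Disjoint (A i) W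
    · rw [if_neg (fun h => h.2 h2), if_neg (fun h => h h2)]; simp
    · rw [if_pos h2]
      have hc : chi (A i) c ≤ 1 := by
        rcases chi_cases (A i) c with h | h <;> rw [h] <;> norm_num
      split_ifs
      · have := mul_le_mul_of_nonneg_left hc (hJ i)
        linarith
      · have := hJ i; linarith
  have hG0 : 0 < G := lt_of_lt_of_le (Real.exp_pos _) hG
  have hgabs : ∀ c, |g c| ≤ G := by
    intro c
    simp only [hg]
    rw [abs_mul]
    have h1 : |sp (c b)| = 1 := by cases c b <;> simp
    rw [h1, one_mul, abs_of_pos (wt_pos A Jin c)]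
    exact hwtin c
  -- dependence of g
  have hgdep : ∀ c c' : V → Bool, (∀ v ∈ W ∪ (E ∩ S), c v = c' v) → g c = g c' := by
    intro c c' h
    simp only [hg]
    rw [h b (Finset.mem_union_left _ hb)]
    congr 1
    unfold wt
    congr 1
    refine Finset.sum_congr rfl fun i _ => ?_
    by_cases h0 : Jin i = 0
    · rw [h0]; simp
    · have h1 := hJin_eq i
      by_cases h2 : A i ⊆ S ∧ ¬ Disjoint (A i) W
      · have hJi : J i ≠ 0 := by
          intro hz
          apply h0
          rw [h1, if_pos h2, hz]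
        have h3 := (hW i hJi h2.2).2
        have h4 : A i ⊆ W ∪ (E ∩ S) := by
          intro v hv
          rcases Finset.mem_union.1 (h3 hv) with h5 | h5
          · exact Finset.mem_union_left _ h5
          · exact Finset.mem_union_right _ (Finset.mem_inter.2 ⟨h5, h2.1 hv⟩)
        rw [chi_dep h4 c c' h]
      · exfalso; apply h0; rw [h1, if_neg h2]
  have hgodd : ∀ c, g (neg c) = - g c := by
    intro c
    simp only [hg]
    have h1 : wt A Jin (neg c) = wt A Jin c := by
      unfold wt
      congr 1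
      refine Finset.sum_congr rfl fun i _ => ?_
      by_cases h0 : Jin i = 0
      · rw [h0]; simp
      · have h1 := hJin_eq i
        by_cases h2 : A i ⊆ S ∧ ¬ Disjoint (A i) W
        · have hJi : J i ≠ 0 := by
            intro hz
            apply h0
            rw [h1, if_pos h2, hz]
          rw [chi_neg, (hW i hJi h2.2).1.neg_one_pow, one_mul]
        · exfalso; apply h0; rw [h1, if_neg h2]
    rw [h1]
    simp only [neg, sp_not]; ring
  -- averaged function
  set n : ℝ := (Fintype.card (V → Bool) : ℝ) with hn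
  have hnpos : 0 < n := by
    rw [hn]; exact_mod_cast Fintype.card_pos
  set gb : (V → Bool) → ℝ := fun c => n⁻¹ * ∑ c' : V → Bool, g (W.piecewise c' c) with hgb
  have hgb_abs : ∀ c, |gb c| ≤ G := by
    intro c
    simp only [hgb]
    rw [abs_mul, abs_of_pos (inv_pos.2 hnpos), inv_mul_le_iff₀ hnpos]
    refine (Finset.abs_sum_le_sum_abs _ _).trans ?_
    refine (Finset.sum_le_sum fun c' _ => hgabs _).trans ?_
    rw [Finset.sum_const, nsmul_eq_mul, Finset.card_univ]
  have hgb_dep : ∀ c c' : V → Bool, (∀ v ∈ E ∩ S, c v = c' v) → gb c = gb c' := by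
    intro c c' h
    simp only [hgb]
    congr 1
    refine Finset.sum_congr rfl fun c'' _ => hgdep _ _ fun v hv => ?_
    by_cases hvW : v ∈ W
    · simp [Finset.piecewise, hvW]
    · have : v ∈ E ∩ S := by
        rcases Finset.mem_union.1 hv with h1 | h1
        · exact absurd h1 hvW
        · exact h1
      simp [Finset.piecewise, hvW, h v this]
  have hgb_odd : ∀ c, gb (neg c) = - gb c := by
    intro c
    simp only [hgb]
    have h1 : ∑ c' : V → Bool, g (W.piecewise c' (neg c)) =
        ∑ c' : V → Bool, g (W.piecewise (neg c') (neg c)) :=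
      Fintype.sum_equiv ⟨neg, neg, neg_neg, neg_neg⟩ _ _ (fun c' => by
        simp only [Equiv.coe_fn_mk, neg_neg])
    have h2 : ∀ c' : V → Bool, W.piecewise (neg c') (neg c) = neg (W.piecewise c' c) := by
      intro c'
      funext v
      by_cases hv : v ∈ W <;> simp [Finset.piecewise, hv, neg]
    rw [h1]
    simp only [h2, hgodd, Finset.sum_neg_distrib]
    ring
  -- monotone odd function
  have hmono : Monotone (fun c : V → Bool => G * ∑ u ∈ E ∩ S, sp (c u) - gb c) := by
    intro c c' hcc
    by_cases h : ∀ v ∈ E ∩ S, c v = c' v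
    · have h1 := hgb_dep c c' h
      have h2 : ∑ u ∈ E ∩ S, sp (c u) = ∑ u ∈ E ∩ S, sp (c' u) :=
        Finset.sum_congr rfl fun v hv => by rw [h v hv]
      simp only [h1, h2, le_refl]
    · push Not at h
      obtain ⟨w, hw, hne⟩ := h
      have h1 : ∑ v ∈ E ∩ S, sp (c v) + 2 ≤ ∑ v ∈ E ∩ S, sp (c' v) := by
        rw [← Finset.add_sum_erase (E ∩ S) _ hw,
          ← Finset.add_sum_erase (E ∩ S) (fun v => sp (c' v)) hw]
        have h2 := sp_lt (hcc w) hne
        have h3 : ∑ v ∈ (E ∩ S).erase w, sp (c v) ≤ ∑ v ∈ (E ∩ S).erase w, sp (c' v) :=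
          Finset.sum_le_sum fun v _ => sp_mono (hcc v)
        linarith
      have h2 := (abs_le.1 (hgb_abs c')).2
      have h3 := (abs_le.1 (hgb_abs c)).1
      have h4 := mul_le_mul_of_nonneg_left h1 hG0.le
      simp only
      linarith
  have hodd : ∀ c : V → Bool, (fun c : V → Bool => G * ∑ u ∈ E ∩ S, sp (c u) - gb c) (neg c) =
      - (fun c : V → Bool => G * ∑ u ∈ E ∩ S, sp (c u) - gb c) c := by
    intro c
    simp only
    rw [hgb_odd]
    have : ∑ v ∈ E ∩ S, sp (neg c v) = - ∑ v ∈ E ∩ S, sp (c v) := by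
      rw [← Finset.sum_neg_distrib]
      refine Finset.sum_congr rfl fun v _ => ?_
      simp [neg, sp_not]
    rw [this]; ring
  have hmain := odd_incr A (res_nonneg A hJ (S \ W)) (fun i h => hA i (by
    intro hz
    apply h
    unfold res
    rw [hz]; simp)) hmono hodd
  -- replace gb by g
  have hrep : ∑ c, gb c * wt A (res A J (S \ W)) c = ∑ c, g c * wt A (res A J (S \ W)) c := by
    have hout : ∀ c c' : V → Bool, wt A (res A J (S \ W)) (W.piecewise c' c) =
        wt A (res A J (S \ W)) c := by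
      intro c c'
      refine wt_res_dep A J (S \ W) _ _ fun v hv => ?_
      have : v ∉ W := (Finset.mem_sdiff.1 hv).2
      simp [Finset.piecewise, this]
    have h1 : ∑ c, gb c * wt A (res A J (S \ W)) c =
        n⁻¹ * ∑ p : (V → Bool) × (V → Bool),
          g (W.piecewise p.2 p.1) * wt A (res A J (S \ W)) (W.piecewise p.2 p.1) := by
      rw [Fintype.sum_prod_type, Finset.mul_sum]
      refine Finset.sum_congr rfl fun c _ => ?_
      simp only [hgb, hout]
      rw [← Finset.sum_mul]; ring
    have h2 : ∑ p : (V → Bool) × (V → Bool),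
          g (W.piecewise p.2 p.1) * wt A (res A J (S \ W)) (W.piecewise p.2 p.1) =
        ∑ p : (V → Bool) × (V → Bool), g p.1 * wt A (res A J (S \ W)) p.1 := by
      let e : (V → Bool) × (V → Bool) → (V → Bool) × (V → Bool) :=
        fun p => (W.piecewise p.2 p.1, W.piecewise p.1 p.2)
      have he : ∀ p, e (e p) = p := by
        intro p
        ext v <;> by_cases hv : v ∈ W <;> simp [e, Finset.piecewise, hv]
      exact Fintype.sum_equiv ⟨e, e, he, he⟩ _
        (fun p => g p.1 * wt A (res A J (S \ W)) p.1) (fun p => rfl)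
    rw [h1, h2, Fintype.sum_prod_type]
    simp only [Finset.sum_const, Finset.card_univ, nsmul_eq_mul]
    rw [← Finset.mul_sum, ← mul_assoc, inv_mul_cancel₀ hnpos.ne', one_mul]
  have hN : N1 A J S b = ∑ c, g c * wt A (res A J (S \ W)) c := by
    unfold N1
    refine Finset.sum_congr rfl fun c _ => ?_
    rw [hsplit]
    simp only [hg]; ring
  have hfin : ∑ c, (G * ∑ u ∈ E ∩ S, sp (c u) - gb c) * wt A (res A J (S \ W)) c =
      G * ∑ u ∈ E ∩ S, N1 A J (S \ W) u - N1 A J S b := by
    rw [hN, ← hrep]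
    unfold N1
    rw [Finset.sum_comm, Finset.mul_sum, ← Finset.sum_sub_distrib]
    refine Finset.sum_congr rfl fun c _ => ?_
    rw [sub_mul, mul_assoc, Finset.sum_mul]
  have hmain' : 0 ≤ ∑ c, (G * ∑ u ∈ E ∩ S, sp (c u) - gb c) * wt A (res A J (S \ W)) c := hmain
  rw [hfin] at hmain'
  linarith

/-- The mixed two point function. -/
noncomputable def X (A : ι → Finset V) (JQ JR : ι → ℝ) (b b' : V) : ℝ :=
  ∑ S : Finset V, N1 A JQ S b * N1 A JR Sᶜ b'

end

end Pool.Agent.Helper49.DL
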