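import Pool.Agent.Helper49.DL.Dup

/-!
The duplicated system (block DL-ID): `s` with couplings `J i`, `t` with couplings `g i * J i`,
`g i = ±1` (`g i = 1` when `A i` has two elements). With `S = {v | s v = t v}`, the pair `(s, t)` is a
pair of complementary ferromagnetic layers with couplings `JQ i = J i (1 + g i)` on `S` and
`JR i = J i (1 + g i (-1)^|A i|)` on `Sᶜ`.

Paper proof. (1) `(s, t) ↦ (S, s)` is a bijection onto `Finset V × (V → Bool)`, with inverse
`t v = s v` for `v ∈ S`, `t v = !(s v)` for `v ∉ S`; `chi B t = (-1)^|B \ S| chi B s`.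
(2) For every `i`: `J i * chi (A i) s + g i * J i * chi (A i) t =
    res A JQ S i * chi (A i) s + res A JR Sᶜ i * chi (A i) s` (cases: `A i ⊆ S`; `A i ⊆ Sᶜ`; neither,
    then `|A i| = 2`, `g i = 1`, `|A i \ S| = 1` and both sides vanish; `A i` is nonempty).
    So `wt A J s * wt A (g J) t = wt A (res A JQ S) s * wt A (res A JR Sᶜ) s`.
(3) `chi B s - chi B t = 2 chi B s` if `|B \ S|` is odd, else `0`. For `|B|` even, `|B ∩ S|` is odd as
    well, and `∑_s chi B s * wt (res JQ S) s * wt (res JR Sᶜ) s =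
    2^(-|V|) (∑_c chi (B ∩ S) c * wt (res JQ S) c) (∑_c chi (B \ S) c * wt (res JR Sᶜ) c)`
    (`sum_mul_sum_dep`, `chi_dep`, `wt_res_dep`). For `B = {x, y}` this is
    `2^(-|V|) N1 JQ S x * N1 JR Sᶜ y` if `x ∈ S`, `y ∉ S` (and symmetrically); note
    `N1 A J S b = 0` for `b ∉ S` (as `na_eq_zero` in Joint.lean). In general use `odd_bound`
    (Odd.lean, `s = 1`) for both factors, which are nonnegative, and enlarge the sums to `B`.
-/

open Finset

namespace Pool.Agent.Helper49.DL

section

variable {V ι : Type*} [Fintype V] [DecidableEq V] [Fintype ι]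

/-- Couplings of the first layer. -/
def cQ (J g : ι → ℝ) : ι → ℝ := fun i => J i * (1 + g i)

/-- Couplings of the second layer. -/
def cR (A : ι → Finset V) (J g : ι → ℝ) : ι → ℝ := fun i => J i * (1 + g i * (-1) ^ (A i).card)

/-- `t` from `S` and `s`. -/
def flp (S : Finset V) (s : V → Bool) : V → Bool := fun v => if v ∈ S then s v else !(s v)

omit [Fintype V] in
lemma chi_flp (B S : Finset V) (s : V → Bool) :
    chi B (flp S s) = (-1) ^ (B \ S).card * chi B s := by
  have h1 : (-1 : ℝ) ^ (B \ S).card = ∏ v ∈ B, (if v ∈ S then (1 : ℝ) else -1) := by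
    rw [Finset.prod_ite, Finset.prod_const_one, one_mul, Finset.prod_const,
      Finset.sdiff_eq_filter]
  rw [h1]
  unfold chi
  rw [← Finset.prod_mul_distrib]
  refine Finset.prod_congr rfl fun v _ => ?_
  unfold flp
  by_cases hv : v ∈ S
  · simp [hv]
  · rw [if_neg hv, if_neg hv, sp_not]; ring

lemma sum_flp (F : (V → Bool) → (V → Bool) → ℝ) :
    ∑ s : V → Bool, ∑ t : V → Bool, F s t = ∑ S : Finset V, ∑ s : V → Bool, F s (flp S s) := by
  classical
  rw [Finset.sum_comm (s := (Finset.univ : Finset (Finset V)))]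
  refine Finset.sum_congr rfl fun s _ => ?_
  refine Fintype.sum_equiv ⟨fun t => Finset.univ.filter (fun v => s v = t v), fun S => flp S s,
    ?_, ?_⟩ _ _ ?_
  · intro t
    funext v
    unfold flp
    cases hs : s v <;> cases ht : t v <;> simp [hs, ht]
  · intro S
    ext v
    unfold flp
    by_cases hv : v ∈ S
    · simp [hv]
    · simp [hv]
  · intro t
    congr 1
    funext v
    unfold flp
    cases hs : s v <;> cases ht : t v <;> simp [hs, ht]

omit [Fintype V] in
lemma wt_flp (A : ι → Finset V) {J g : ι → ℝ} (hne : ∀ i, (A i).Nonempty)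
    (hA : ∀ i, (A i).card ≤ 2) (hg2 : ∀ i, (A i).card = 2 → g i = 1) [Fintype V] (S : Finset V)
    (s : V → Bool) : wt A J s * wt A (fun i => g i * J i) (flp S s) =
      wt A (res A (cQ J g) S) s * wt A (res A (cR A J g) Sᶜ) s := by
  unfold wt
  rw [← Real.exp_add, ← Real.exp_add]
  congr 1
  rw [← Finset.sum_add_distrib, ← Finset.sum_add_distrib]
  refine Finset.sum_congr rfl fun i _ => ?_
  rw [chi_flp]
  unfold res cQ cR
  by_cases h1 : A i ⊆ S
  · have h2 : ¬ A i ⊆ Sᶜ := by
      intro h
      obtain ⟨v, hv⟩ := hne i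
      exact (Finset.mem_compl.1 (h hv)) (h1 hv)
    rw [if_pos h1, if_neg h2, Finset.sdiff_eq_empty_iff_subset.2 h1, Finset.card_empty]
    ring
  · by_cases h2 : A i ⊆ Sᶜ
    · have h3 : A i \ S = A i := by
        rw [Finset.sdiff_eq_self_iff_disjoint, Finset.disjoint_left]
        intro v hv hv'
        exact (Finset.mem_compl.1 (h2 hv)) hv'
      rw [if_neg h1, if_pos h2, h3]
      ring
    · obtain ⟨v, hv, hv'⟩ := Finset.not_subset.1 h1
      obtain ⟨w, hw, hw'⟩ := Finset.not_subset.1 h2
      have h3 : 1 ≤ (A i \ S).card := Finset.card_pos.2 ⟨v, Finset.mem_sdiff.2 ⟨hv, hv'⟩⟩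
      have h4 : 1 ≤ (A i ∩ S).card := by
        refine Finset.card_pos.2 ⟨w, Finset.mem_inter.2 ⟨hw, ?_⟩⟩
        by_contra h
        exact hw' (Finset.mem_compl.2 h)
      have h5 := Finset.card_sdiff_add_card_inter (A i) S
      have h6 := hA i
      have h7 : (A i).card = 2 := by omega
      have h8 : (A i \ S).card = 1 := by omega
      rw [if_neg h1, if_neg h2, h8]
      beta_reduce
      rw [hg2 i h7]
      ring

lemma N1_zero (A : ι → Finset V) (J : ι → ℝ) {P : Finset V} {b : V} (hb : b ∉ P) :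
    N1 A J P b = 0 := by
  have h := na_eq_zero A J (F := ∅) (B := {b}) (S := P) (Finset.empty_subset _)
    (by simpa using hb)
  rw [← h]
  unfold N1 na NN
  refine Finset.sum_congr rfl fun c _ => ?_
  rw [chi_singleton, frc_empty]
  ring

/-- one layer sum of a character -/
noncomputable def MB (A : ι → Finset V) (J : ι → ℝ) (P D : Finset V) : ℝ :=
  ∑ c : V → Bool, chi D c * wt A (res A J P) c

lemma MB_singleton (A : ι → Finset V) (J : ι → ℝ) (P : Finset V) (x : V) :
    MB A J P {x} = N1 A J P x := by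
  unfold MB N1
  refine Finset.sum_congr rfl fun c _ => ?_
  rw [chi_singleton]

lemma MB_nonneg (A : ι → Finset V) {J : ι → ℝ} (hJ : ∀ i, 0 ≤ J i) (P D : Finset V) :
    0 ≤ MB A J P D :=
  cone_sum_nonneg (f := fun σ => chi D σ * wt A (res A J P) σ)
    (cone_mul (cone_chi D) (wt_cone A (res_nonneg A hJ P)))

lemma MB_le (A : ι → Finset V) {J : ι → ℝ} (hJ : ∀ i, 0 ≤ J i) (hA : ∀ i, (A i).card ≤ 2)
    (P : Finset V) {D B : Finset V} (hD : Odd D.card) (hDB : D ⊆ B) :
    MB A J P D ≤ ∑ b ∈ B, N1 A J P b := by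
  have h := odd_bound A (res_nonneg A hJ P) (fun i _ => hA i) hD (s := 1) (by norm_num)
  have h2 : ∑ v ∈ D, N1 A J P v ≤ ∑ b ∈ B, N1 A J P b :=
    Finset.sum_le_sum_of_subset_of_nonneg hDB fun b _ _ => N1_nonneg A hJ P b
  refine le_trans ?_ h2
  simp only [one_mul] at h
  exact h

lemma layer_prod (A : ι → Finset V) (J L : ι → ℝ) (B S : Finset V) :
    ∑ s : V → Bool, chi B s * (wt A (res A J S) s * wt A (res A L Sᶜ) s) =
      1 / 2 ^ Fintype.card V * (MB A J S (B ∩ S) * MB A L Sᶜ (B \ S)) := by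
  have h := sum_mul_sum_dep S (f := fun c => chi (B ∩ S) c * wt A (res A J S) c)
    (g := fun c => chi (B \ S) c * wt A (res A L Sᶜ) c)
    (by
      intro σ σ' hs
      beta_reduce
      rw [chi_dep Finset.inter_subset_right σ σ' hs, wt_res_dep A J S σ σ' hs])
    (by
      intro σ σ' hs
      beta_reduce
      have h2 : B \ S ⊆ Sᶜ := by
        intro v hv
        exact Finset.mem_compl.2 (Finset.mem_sdiff.1 hv).2
      rw [chi_dep h2 σ σ' hs, wt_res_dep A L Sᶜ σ σ' hs])
  unfold MB
  rw [h]
  have h3 : (2 : ℝ) ^ Fintype.card V ≠ 0 := by positivity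
  rw [← mul_assoc, one_div, inv_mul_cancel₀ h3, one_mul]
  refine Finset.sum_congr rfl fun s _ => ?_
  have h4 : chi B s = chi (B ∩ S) s * chi (B \ S) s := by
    unfold chi
    rw [← Finset.prod_union (Finset.disjoint_left.2 fun v hv hv' =>
      (Finset.mem_sdiff.1 hv').2 (Finset.mem_inter.1 hv).2)]
    refine Finset.prod_congr ?_ fun _ _ => rfl
    ext v
    simp only [Finset.mem_union, Finset.mem_inter, Finset.mem_sdiff]
    tauto
  rw [h4]
  ring

lemma dup_eq (A : ι → Finset V) {J g : ι → ℝ} (hne : ∀ i, (A i).Nonempty)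
    (hA : ∀ i, (A i).card ≤ 2) (hg2 : ∀ i, (A i).card = 2 → g i = 1) (B : Finset V) :
    ∑ s : V → Bool, ∑ t : V → Bool, (chi B s - chi B t) *
        (wt A J s * wt A (fun i => g i * J i) t) =
      ∑ S : Finset V, (1 - (-1) ^ (B \ S).card) / 2 ^ Fintype.card V *
        (MB A (cQ J g) S (B ∩ S) * MB A (cR A J g) Sᶜ (B \ S)) := by
  rw [sum_flp (fun s t => (chi B s - chi B t) * (wt A J s * wt A (fun i => g i * J i) t))]
  refine Finset.sum_congr rfl fun S _ => ?_
  have h1 : ∀ s : V → Bool, (chi B s - chi B (flp S s)) *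
      (wt A J s * wt A (fun i => g i * J i) (flp S s)) =
      (1 - (-1) ^ (B \ S).card) *
        (chi B s * (wt A (res A (cQ J g) S) s * wt A (res A (cR A J g) Sᶜ) s)) := by
    intro s
    rw [wt_flp A hne hA hg2, chi_flp]
    ring
  rw [Finset.sum_congr rfl fun s _ => h1 s, ← Finset.mul_sum, layer_prod]
  ring

theorem dup_pair (A : ι → Finset V) {J g : ι → ℝ}
    (hg : ∀ i, g i = 1 ∨ g i = -1) (hne : ∀ i, (A i).Nonempty) (hA : ∀ i, (A i).card ≤ 2)
    (hg2 : ∀ i, (A i).card = 2 → g i = 1) {x y : V} (hxy : x ≠ y) :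
    ∑ s : V → Bool, ∑ t : V → Bool, (chi {x, y} s - chi {x, y} t) *
        (wt A J s * wt A (fun i => g i * J i) t) =
      2 / 2 ^ Fintype.card V * (X A (cQ J g) (cR A J g) x y + X A (cQ J g) (cR A J g) y x) := by
  rw [dup_eq A hne hA hg2]
  unfold X
  rw [← Finset.sum_add_distrib, Finset.mul_sum]
  refine Finset.sum_congr rfl fun S _ => ?_
  by_cases hx : x ∈ S
  · by_cases hy : y ∈ S
    · have h1 : ({x, y} : Finset V) \ S = ∅ := by
        rw [Finset.sdiff_eq_empty_iff_subset]
        intro v hv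
        rcases Finset.mem_insert.1 hv with h | h
        · rw [h]; exact hx
        · rw [Finset.mem_singleton.1 h]; exact hy
      have h2 : N1 A (cR A J g) Sᶜ x = 0 := N1_zero A _ (by simpa using hx)
      have h3 : N1 A (cR A J g) Sᶜ y = 0 := N1_zero A _ (by simpa using hy)
      rw [h1, h2, h3, Finset.card_empty]
      ring
    · have h1 : ({x, y} : Finset V) \ S = {y} := by
        ext v
        simp only [Finset.mem_sdiff, Finset.mem_insert, Finset.mem_singleton]
        constructor
        · rintro ⟨h | h, h'⟩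
          · exact absurd (h ▸ hx) h'
          · exact h
        · intro h
          exact ⟨Or.inr h, h ▸ hy⟩
      have h2 : ({x, y} : Finset V) ∩ S = {x} := by
        ext v
        simp only [Finset.mem_inter, Finset.mem_insert, Finset.mem_singleton]
        constructor
        · rintro ⟨h | h, h'⟩
          · exact h
          · exact absurd (h ▸ h') hy
        · intro h
          exact ⟨Or.inl h, h ▸ hx⟩
      have h3 : N1 A (cR A J g) Sᶜ x = 0 := N1_zero A _ (by simpa using hx)
      rw [h1, h2, h3, MB_singleton, MB_singleton, Finset.card_singleton]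
      ring
  · by_cases hy : y ∈ S
    · have h1 : ({x, y} : Finset V) \ S = {x} := by
        ext v
        simp only [Finset.mem_sdiff, Finset.mem_insert, Finset.mem_singleton]
        constructor
        · rintro ⟨h | h, h'⟩
          · exact h
          · exact absurd (h ▸ hy) h'
        · intro h
          exact ⟨Or.inl h, h ▸ hx⟩
      have h2 : ({x, y} : Finset V) ∩ S = {y} := by
        ext v
        simp only [Finset.mem_inter, Finset.mem_insert, Finset.mem_singleton]
        constructor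
        · rintro ⟨h | h, h'⟩
          · exact absurd (h ▸ h') hx
          · exact h
        · intro h
          exact ⟨Or.inr h, h ▸ hy⟩
      have h3 : N1 A (cR A J g) Sᶜ y = 0 := N1_zero A _ (by simpa using hy)
      rw [h1, h2, h3, MB_singleton, MB_singleton, Finset.card_singleton]
      ring
    · have h1 : ({x, y} : Finset V) \ S = {x, y} := by
        rw [Finset.sdiff_eq_self_iff_disjoint, Finset.disjoint_left]
        intro v hv
        rcases Finset.mem_insert.1 hv with h | h
        · rw [h]; exact hx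
        · rw [Finset.mem_singleton.1 h]; exact hy
      have h2 : N1 A (cQ J g) S x = 0 := N1_zero A _ hx
      have h3 : N1 A (cQ J g) S y = 0 := N1_zero A _ hy
      rw [h1, h2, h3, Finset.card_pair hxy]
      ring

theorem dup_even (A : ι → Finset V) {J g : ι → ℝ} (hJ : ∀ i, 0 ≤ J i)
    (hg : ∀ i, g i = 1 ∨ g i = -1) (hne : ∀ i, (A i).Nonempty) (hA : ∀ i, (A i).card ≤ 2)
    (hg2 : ∀ i, (A i).card = 2 → g i = 1) {B : Finset V} (hB : Even B.card) :
    ∑ s : V → Bool, ∑ t : V → Bool, (chi B s - chi B t) *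
        (wt A J s * wt A (fun i => g i * J i) t) ≤
      2 / 2 ^ Fintype.card V * ∑ b ∈ B, ∑ b' ∈ B, X A (cQ J g) (cR A J g) b b' := by
  have hQ : ∀ i, 0 ≤ cQ J g i := by
    intro i
    unfold cQ
    refine mul_nonneg (hJ i) ?_
    rcases hg i with h | h <;> rw [h] <;> norm_num
  have hR : ∀ i, 0 ≤ cR A J g i := by
    intro i
    unfold cR
    refine mul_nonneg (hJ i) ?_
    rcases neg_one_pow_eq_or ℝ (A i).card with h' | h' <;> rcases hg i with h | h <;>
      rw [h, h'] <;> norm_num
  rw [dup_eq A hne hA hg2]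
  have hre : 2 / 2 ^ Fintype.card V * ∑ b ∈ B, ∑ b' ∈ B, X A (cQ J g) (cR A J g) b b' =
      ∑ S : Finset V, 2 / 2 ^ Fintype.card V *
        ((∑ b ∈ B, N1 A (cQ J g) S b) * ∑ b' ∈ B, N1 A (cR A J g) Sᶜ b') := by
    rw [← Finset.mul_sum]
    congr 1
    unfold X
    simp only [Finset.sum_mul_sum]
    rw [Finset.sum_comm (s := (Finset.univ : Finset (Finset V)))]
    refine Finset.sum_congr rfl fun b _ => ?_
    rw [Finset.sum_comm (s := (Finset.univ : Finset (Finset V)))]
  rw [hre]
  refine Finset.sum_le_sum fun S _ => ?_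
  have hn1 : 0 ≤ ∑ b ∈ B, N1 A (cQ J g) S b := Finset.sum_nonneg fun b _ => N1_nonneg A hQ S b
  have hn2 : 0 ≤ ∑ b' ∈ B, N1 A (cR A J g) Sᶜ b' :=
    Finset.sum_nonneg fun b _ => N1_nonneg A hR Sᶜ b
  rcases Nat.even_or_odd (B \ S).card with he | ho
  · rw [he.neg_one_pow, sub_self, zero_div, zero_mul]
    positivity
  · rw [ho.neg_one_pow, show (1 : ℝ) - -1 = 2 by norm_num]
    refine mul_le_mul_of_nonneg_left ?_ (by positivity)
    have ho' : Odd (B ∩ S).card := by
      have h1 := Finset.card_sdiff_add_card_inter B S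
      rw [← h1, Nat.even_add'] at hB
      exact hB.1 ho
    exact mul_le_mul (MB_le A hQ hA S ho' Finset.inter_subset_left)
      (MB_le A hR hA Sᶜ ho Finset.sdiff_subset) (MB_nonneg A hR _ _) hn1

end

end Pool.Agent.Helper49.DL
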