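import Pool.Agent.Helper49.DL.Contour
import Pool.Agent.Helper49.DL.Plus
import Pool.Agent.Helper49.DL.Deloc

/-!
The interface is not tight: lower bound for the probability that it passes above a given height.
-/

open Finset
open scoped Classical

namespace Pool.Agent.Helper49.DL

/-- Spontaneous magnetization of the homogeneous model. -/
noncomputable def mag (β : ℝ) : ℝ :=
  ⨅ n : ℕ, avg β (kap 1) (box n n) tt (fun ω => sp (ω (0, 0)))

lemma ch_singleton (v : Site) : ch {v} = fun ω => sp (ω v) := by funext ω; simp [ch]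

lemma kap_nonneg {J : ℝ} (hJ : 0 ≤ J) (i : Site) : 0 ≤ kap J i := by
  unfold kap; split_ifs
  · exact hJ
  · exact zero_le_one

lemma kap_le {J J' : ℝ} (hJ : J ≤ J') (i : Site) : kap J i ≤ kap J' i := by
  unfold kap; split_ifs
  · exact hJ
  · exact le_rfl

lemma avg_tt_nonneg {β J : ℝ} (hβ : 0 ≤ β) (hJ : 0 ≤ J) (Λ B : Finset Site) (hB : B ⊆ Λ) :
    0 ≤ avg β (kap J) Λ tt (ch B) :=
  (abs_nonneg _).trans (abs_avg_le hβ (kap_nonneg hJ) (fun _ => le_rfl) tt hB)

lemma sp_ge (b : Bool) : -1 ≤ sp b := by cases b <;> simp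

lemma mag_bdd (β : ℝ) : BddBelow (Set.range fun n : ℕ =>
    avg β (kap 1) (box n n) tt (fun ω => sp (ω (0, 0)))) := by
  refine ⟨-1, ?_⟩
  rintro _ ⟨n, rfl⟩
  rw [← avg_const (β := β) (κ := kap 1) (Λ := box n n) (η := tt) (-1)]
  exact avg_mono fun ω _ => sp_ge _

lemma shift_tt (a : Site) : shift a tt = tt := rfl

/-- The magnetization is a lower bound for plus one-point functions. -/
theorem mag_le {β J : ℝ} (hβ : 0 ≤ β) (hJ : 1 ≤ J) {Λ : Finset Site} {v : Site} (hv : v ∈ Λ) :
    mag β ≤ avg β (kap J) Λ tt (fun ω => sp (ω v)) := by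
  -- a large box
  obtain ⟨n, hn1, hn⟩ : ∃ n : ℕ, 1 ≤ n ∧ Λ ⊆ tr v (box n n) := by
    obtain ⟨m, hm⟩ : ∃ m : ℕ, ∀ i ∈ Λ, (i.1 - v.1).natAbs + (i.2 - v.2).natAbs + 1 ≤ m :=
      ⟨∑ i ∈ Λ, ((i.1 - v.1).natAbs + (i.2 - v.2).natAbs + 1), fun i hi =>
        Finset.single_le_sum (f := fun i : Site => (i.1 - v.1).natAbs + (i.2 - v.2).natAbs + 1)
          (fun j _ => Nat.zero_le _) hi⟩
    refine ⟨1 + m, by omega, ?_⟩
    intro i hi
    have h1 := hm i hi
    rw [mem_tr, mem_box]
    simp only [Prod.fst_sub, Prod.snd_sub]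
    push_cast
    omega
  have hB : ({v} : Finset Site) ⊆ Λ := Finset.singleton_subset_iff.2 hv
  have h1 := abs_avg_le hβ (κ := kap 1) (κ' := kap J) (kap_nonneg zero_le_one)
    (kap_le hJ) tt hB
  have h2 := avg_dom_mono hβ (κ := kap 1) (kap_nonneg zero_le_one) hn tt hB
  rw [ch_singleton] at h1 h2
  have h3 : avg β (kap 1) (tr v (box n n)) tt (fun ω => sp (ω v)) =
      avg β (kap 1) (box n n) tt (fun ω => sp (ω (0, 0))) := by
    have := avg_tr (β := β) (κ := kap 1) (Λ := box (n : ℤ) n) (η := tt) v (fun ω => sp (ω v))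
    rw [shift_tt, kap_one_shift] at this
    rw [this]
    congr 1
    funext ω
    simp only [shift, sub_self]
    rfl
  have h4 : mag β ≤ avg β (kap 1) (box n n) tt (fun ω => sp (ω (0, 0))) := ciInf_le (mag_bdd β) n
  rw [← h3] at h4
  exact h4.trans ((le_abs_self _).trans (h2.trans ((le_abs_self _).trans h1)))

lemma mag_nonneg {β : ℝ} (hβ : 0 ≤ β) : 0 ≤ mag β := by
  refine le_ciInf fun n => ?_
  rcases Nat.eq_zero_or_pos n with rfl | hn
  · have h0 : ((0 : ℤ), (0 : ℤ)) ∉ box ((0 : ℕ) : ℤ) ((0 : ℕ) : ℤ) := by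
      rw [mem_box]; simp
    have : avg β (kap 1) (box ((0 : ℕ) : ℤ) ((0 : ℕ) : ℤ)) tt (fun ω => sp (ω (0, 0))) = 1 := by
      rw [← avg_const (β := β) (κ := kap 1) (Λ := box ((0 : ℕ) : ℤ) ((0 : ℕ) : ℤ)) (η := tt) 1]
      refine avg_congr fun ω hω => ?_
      rw [mem_confs] at hω
      rw [hω _ h0]; rfl
    rw [this]; exact zero_le_one
  · have h := avg_tt_nonneg (J := 1) hβ zero_le_one (box (n : ℤ) n) {(0, 0)} (by
      rw [Finset.singleton_subset_iff, mem_box]; simp only; omega)
    rwa [ch_singleton] at h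

section

variable {N M : ℤ}

/-- Sites of the box star-connected to the lower boundary. -/
noncomputable def Bs (N M : ℤ) (ω : Cfg) : Finset Site := (box N M).filter (Low N M ω)

/-- The unexplored region. -/
noncomputable def Lam (N M : ℤ) (B : Finset Site) : Finset Site :=
  (box N M).filter (fun i => ∀ j, StarAdj j i → j ∉ B ∧ ¬ (j ∉ box N M ∧ j.2 ≤ 0))

lemma star_refl (i : Site) : StarAdj i i := by unfold StarAdj; simp

lemma star_symm {i j : Site} (h : StarAdj i j) : StarAdj j i := by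
  unfold StarAdj at *
  rw [abs_sub_comm, abs_sub_comm j.2]; exact h

lemma low_iff {ω : Cfg} {i : Site} :
    Low N M ω i ↔ i ∈ Bs N M ω ∨ (i ∉ box N M ∧ i.2 ≤ 0) := by
  constructor
  · intro h
    by_cases hb : i ∈ box N M
    · left; exact Finset.mem_filter.2 ⟨hb, h⟩
    · right
      refine ⟨hb, ?_⟩
      obtain ⟨r, hr, hr0, hp⟩ := h
      cases hp with
      | refl => exact hr0
      | tail _ hb' => exact absurd hb'.2.2 hb
  · rintro (h | h)
    · exact (Finset.mem_filter.1 h).2
    · exact ⟨i, h.1, h.2, Relation.ReflTransGen.refl⟩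

lemma low_step {ω : Cfg} {i j : Site} (hi : Low N M ω i) (hij : StarAdj i j)
    (hj : ω j = false) (hb : j ∈ box N M) : Low N M ω j := by
  obtain ⟨r, hr, hr0, hp⟩ := hi
  exact ⟨r, hr, hr0, hp.tail ⟨hij, hj, hb⟩⟩

lemma low_congr {ω ξ : Cfg} (h : ξ ∈ confs (Lam N M (Bs N M ω)) ω) (i : Site) :
    Low N M ξ i ↔ Low N M ω i := by
  rw [mem_confs] at h
  have hnotLam : ∀ j, Low N M ω j → j ∉ Lam N M (Bs N M ω) := by
    intro j hj hL
    have h1 := (Finset.mem_filter.1 hL).2 j (star_refl j)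
    rcases low_iff.1 hj with h2 | h2
    · exact h1.1 h2
    · exact h1.2 h2
  constructor
  · rintro ⟨r, hr, hr0, hp⟩
    induction hp with
    | refl => exact ⟨r, hr, hr0, Relation.ReflTransGen.refl⟩
    | @tail b c _ hbc ih =>
      by_cases hc : c ∈ Lam N M (Bs N M ω)
      · exfalso
        have h1 := (Finset.mem_filter.1 hc).2 b hbc.1
        rcases low_iff.1 ih with h2 | h2
        · exact h1.1 h2
        · exact h1.2 h2
      · refine low_step ih hbc.1 ?_ hbc.2.2
        rw [← h c hc]; exact hbc.2.1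
  · rintro ⟨r, hr, hr0, hp⟩
    induction hp with
    | refl => exact ⟨r, hr, hr0, Relation.ReflTransGen.refl⟩
    | @tail b c hab hbc ih =>
      refine low_step ih hbc.1 ?_ hbc.2.2
      have hc : Low N M ω c := low_step ⟨r, hr, hr0, hab⟩ hbc.1 hbc.2.1 hbc.2.2
      rw [h c (hnotLam c hc)]; exact hbc.2.1

lemma Bs_congr {B : Finset Site} {ω ξ : Cfg} (h : ξ ∈ confs (Lam N M B) ω) :
    Bs N M ξ = B ↔ Bs N M ω = B := by
  have hsym : ω ∈ confs (Lam N M B) ξ := by
    rw [mem_confs] at *
    intro i hi; exact (h i hi).symm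
  constructor
  · intro hB
    subst hB
    unfold Bs
    exact Finset.filter_congr fun i _ => low_congr hsym i
  · intro hB
    subst hB
    unfold Bs
    exact Finset.filter_congr fun i _ => low_congr h i

lemma lam_bdry {ω : Cfg} (hω : ω ∈ confs (box N M) (eta 0)) :
    SameBdry (Lam N M (Bs N M ω)) tt ω := by
  intro i hi hadj
  -- a neighbour in the unexplored region
  obtain ⟨i', hi', hst⟩ : ∃ i', i' ∈ Lam N M (Bs N M ω) ∧ StarAdj i i' := by
    rcases hadj with h | h | h | h
    · exact ⟨_, h, by unfold StarAdj e1; simp⟩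
    · exact ⟨_, h, by unfold StarAdj e1; simp⟩
    · exact ⟨_, h, by unfold StarAdj e2; simp⟩
    · exact ⟨_, h, by unfold StarAdj e2; simp⟩
  have h1 := (Finset.mem_filter.1 hi').2 i hst
  change true = ω i
  by_cases hb : i ∈ box N M
  · by_contra hne
    have hf : ω i = false := by
      cases h : ω i
      · rfl
      · exact absurd h.symm hne
    have h2 : ∃ j, StarAdj j i ∧ Low N M ω j := by
      by_contra hno
      push Not at hno
      apply hi
      refine Finset.mem_filter.2 ⟨hb, fun j hj => ?_⟩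
      have h3 := hno j hj
      rw [low_iff] at h3
      push Not at h3
      exact ⟨h3.1, fun h4 => absurd h4.2 (not_le.2 (h3.2 h4.1))⟩
    obtain ⟨j, hj, hlow⟩ := h2
    have h3 := low_step hlow hj hf hb
    rcases low_iff.1 h3 with h4 | h4
    · exact h1.1 h4
    · exact h1.2 h4
  · have h2 : 1 ≤ i.2 := by
      by_contra h3
      exact h1.2 ⟨hb, by omega⟩
    rw [mem_confs] at hω
    rw [hω i hb]
    simp only [eta]
    rw [eq_comm, decide_eq_true_eq]; omega

/-- Conditional lower bound. -/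
lemma cond_lower {β J : ℝ} (hβ : 0 ≤ β) (hJ : 1 ≤ J) {v : Site} (hv : v ∈ box N M)
    {B : Finset Site} (hvB : v ∉ B) :
    mag β * Zg β (kap J) (box N M) (eta 0) (fun ω => if Bs N M ω = B then 1 else 0) ≤
      Zg β (kap J) (box N M) (eta 0) (fun ω => (if Bs N M ω = B then 1 else 0) * sp (ω v)) := by
  have hmag1 : mag β ≤ 1 := by
    refine (mag_le hβ hJ (Λ := {v}) (Finset.mem_singleton_self v)).trans ?_
    refine (avg_mono (G := fun _ => 1) fun ω _ => sp_le_one _).trans (le_of_eq (avg_const 1))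
  by_cases hL : v ∈ Lam N M B
  · rw [dlr (Λ' := Lam N M B) (Finset.filter_subset _ _) _ _ (fun ω ξ h => by
      by_cases hB : Bs N M ω = B
      · rw [if_pos hB, if_pos ((Bs_congr h).2 hB)]
      · rw [if_neg hB, if_neg (fun h' => hB ((Bs_congr h).1 h'))]), ← Zg_smul]
    refine Zg_mono fun ω hω => ?_
    by_cases hB : Bs N M ω = B
    · rw [if_pos hB, mul_one, one_mul]
      have h1 := lam_bdry hω
      rw [hB] at h1
      rw [avg_sameBdry h1 (F := fun ω => sp (ω v)) (fun ω ω' h => by
        have := h v hL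
        simp only [this])]
      exact mag_le hβ hJ hL
    · rw [if_neg hB]; simp
  · rw [← Zg_smul]
    refine Zg_mono fun ω hω => ?_
    by_cases hB : Bs N M ω = B
    · rw [if_pos hB, mul_one, one_mul]
      have h2 : ω v = true := by
        by_contra hne
        have hf : ω v = false := by simpa using hne
        have h3 : ∃ j, StarAdj j v ∧ Low N M ω j := by
          by_contra hno
          push Not at hno
          apply hL
          refine Finset.mem_filter.2 ⟨hv, fun j hj => ?_⟩
          have h3 := hno j hj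
          rw [low_iff, hB] at h3
          push Not at h3
          exact ⟨h3.1, fun h4 => absurd h4.2 (not_le.2 (h3.2 h4.1))⟩
        obtain ⟨j, hj, hlow⟩ := h3
        have h4 := low_step hlow hj hf hv
        apply hvB
        rw [← hB]
        exact Finset.mem_filter.2 ⟨hv, h4⟩
      rw [h2, sp_true]; exact hmag1
    · rw [if_neg hB]; simp

/-- Lower bound for the probability of being star-connected to the lower boundary. -/
theorem low_prob {β J : ℝ} (hβ : 0 ≤ β) (hJ : 1 ≤ J) {v : Site} (hv : v ∈ box N M) :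
    mag β - avg β (kap J) (box N M) (eta 0) (fun ω => sp (ω v)) ≤
      (1 + mag β) * avg β (kap J) (box N M) (eta 0) (fun ω => if Low N M ω v then 1 else 0) := by
  set Z := Zg β (kap J) (box N M) (eta 0) with hZ
  set 𝓑 := (box N M).powerset.filter (fun B => v ∉ B) with h𝓑
  have hsum : ∀ (G : Cfg → ℝ) (ω : Cfg), ∑ B ∈ 𝓑, (if Bs N M ω = B then (1 : ℝ) else 0) * G ω =
      (if Low N M ω v then 0 else 1) * G ω := by
    intro G ω
    rw [← Finset.sum_mul, Finset.sum_ite_eq]
    congr 1
    have hiff : Bs N M ω ∈ 𝓑 ↔ ¬ Low N M ω v := by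
      rw [h𝓑, Finset.mem_filter]
      constructor
      · rintro ⟨_, h2⟩ hl
        exact h2 (Finset.mem_filter.2 ⟨hv, hl⟩)
      · intro h
        exact ⟨Finset.mem_powerset.2 (Finset.filter_subset _ _),
          fun h2 => h (Finset.mem_filter.1 h2).2⟩
    by_cases hl : Low N M ω v
    · rw [if_neg (fun h => (hiff.1 h) hl), if_pos hl]
    · rw [if_pos (hiff.2 hl), if_neg hl]
  have h1 : mag β * Z (fun ω => if Low N M ω v then 0 else 1) ≤
      Z (fun ω => (if Low N M ω v then 0 else 1) * sp (ω v)) := by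
    have e1' : Z (fun ω => if Low N M ω v then 0 else 1) =
        ∑ B ∈ 𝓑, Z (fun ω => if Bs N M ω = B then 1 else 0) := by
      rw [hZ, ← Zg_sum]
      refine Zg_congr fun ω _ => ?_
      have := hsum (fun _ => 1) ω
      simp only [mul_one] at this
      exact this.symm
    have e2' : Z (fun ω => (if Low N M ω v then 0 else 1) * sp (ω v)) =
        ∑ B ∈ 𝓑, Z (fun ω => (if Bs N M ω = B then 1 else 0) * sp (ω v)) := by
      rw [hZ, ← Zg_sum]
      refine Zg_congr fun ω _ => ?_
      exact (hsum (fun ω => sp (ω v)) ω).symm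
    rw [e1', e2', Finset.mul_sum]
    refine Finset.sum_le_sum fun B hB => cond_lower hβ hJ hv ?_
    exact (Finset.mem_filter.1 hB).2
  have h2 : Z (fun ω => sp (ω v)) = Z (fun ω => (if Low N M ω v then 0 else 1) * sp (ω v)) -
      Z (fun ω => if Low N M ω v then 1 else 0) := by
    rw [hZ, ← Zg_sub]
    refine Zg_congr fun ω hω => ?_
    by_cases hl : Low N M ω v
    · rw [if_pos hl, if_pos hl, low_false hω hl, sp_false]; ring
    · rw [if_neg hl, if_neg hl]; ring
  have h3 : Z (fun ω => if Low N M ω v then 0 else 1) =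
      Z (fun _ => 1) - Z (fun ω => if Low N M ω v then 1 else 0) := by
    rw [hZ, ← Zg_sub]
    refine Zg_congr fun ω _ => ?_
    split_ifs <;> ring
  have hz : 0 < Z (fun _ => 1) := Zg_one_pos
  change mag β - Z (fun ω => sp (ω v)) / Z (fun _ => 1) ≤
    (1 + mag β) * (Z (fun ω => if Low N M ω v then 1 else 0) / Z (fun _ => 1))
  rw [h3] at h1
  rw [h2]
  have e1' : mag β - (Z (fun ω => (if Low N M ω v then 0 else 1) * sp (ω v)) -
      Z (fun ω => if Low N M ω v then 1 else 0)) / Z (fun _ => 1) =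
      (mag β * Z (fun _ => 1) - (Z (fun ω => (if Low N M ω v then 0 else 1) * sp (ω v)) -
      Z (fun ω => if Low N M ω v then 1 else 0))) / Z (fun _ => 1) := by
    field_simp
  rw [e1', mul_div_assoc']
  refine div_le_div_of_nonneg_right ?_ hz.le
  linarith

/-- The event that the interface meets the vertical line `x` at height above `K`. -/
def Above (N : ℤ) (x K : ℤ) (ω : Cfg) : Prop := ∃ y, K ≤ y ∧ Interface N ω ((x, y), false)

end

/-- The interface is not tight. -/
theorem not_tight {β J : ℝ} (hβ : 0 ≤ β) (hJ : 1 ≤ J) (x K : ℤ) {t : ℝ} (ht : 0 < t) :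
    ∃ n₀ : ℤ, ∀ N M : ℤ, n₀ ≤ N → n₀ ≤ M →
      mag β / (1 + mag β) - t ≤
        avg β (kap J) (box N M) (eta 0) (fun ω => if Above N x K ω then 1 else 0) := by
  have hm := mag_nonneg hβ
  set v : Site := (x, max K 1) with hv
  have hv1 : 1 ≤ v.2 := le_max_right _ _
  obtain ⟨n₀, hn₀⟩ := avg_y_tendsto hβ hJ v hv1 ht
  refine ⟨max n₀ (|x| + |K| + 1), fun N M hN hM => ?_⟩
  have h1 := (le_max_left _ _).trans hN
  have h2 := (le_max_right _ _).trans hN
  have h3 := (le_max_left _ _).trans hM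
  have h4 := (le_max_right _ _).trans hM
  have hx := abs_le.1 (le_refl |x|)
  have hK := abs_le.1 (le_refl |K|)
  have hvK : v.2 ≤ |K| + 1 := max_le (by omega) (by have := abs_nonneg K; omega)
  have hx0 := abs_nonneg x
  have hK0 := abs_nonneg K
  have hvb : v ∈ box N M := by
    rw [mem_box]
    refine ⟨⟨?_, ?_⟩, ?_, ?_⟩
    · simp only [hv]; omega
    · simp only [hv]; omega
    · omega
    · omega
  have hM1 : 1 ≤ M := by omega
  have hN0 : 0 ≤ N := by omega
  have hp := low_prob hβ hJ hvb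
  rw [avg_sp_eq hM1] at hp
  have hy := hn₀ N M h1 h3
  have hle : avg β (kap J) (box N M) (eta 0) (fun ω => if Low N M ω v then 1 else 0) ≤
      avg β (kap J) (box N M) (eta 0) (fun ω => if Above N x K ω then 1 else 0) := by
    refine avg_mono fun ω hω => ?_
    by_cases hl : Low N M ω v
    · obtain ⟨y, hy1, hy2⟩ := low_below hω hN0 hM1 hl
      have hA : Above N x K ω := ⟨y, (le_max_left _ _).trans hy1, hy2⟩
      rw [if_pos hl, if_pos hA]
    · rw [if_neg hl]; split_ifs <;> norm_num
  have hpos : 0 < 1 + mag β := by linarith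
  have h5 : mag β - t ≤ (1 + mag β) *
      avg β (kap J) (box N M) (eta 0) (fun ω => if Above N x K ω then 1 else 0) :=
    le_trans (by linarith) (hp.trans (mul_le_mul_of_nonneg_left hle hpos.le))
  have h6 : mag β / (1 + mag β) - t ≤ (mag β - t) / (1 + mag β) := by
    rw [sub_div]
    have : t / (1 + mag β) ≤ t := div_le_self ht.le (by linarith)
    linarith
  refine h6.trans ?_
  rw [div_le_iff₀ hpos]
  linarith

end Pool.Agent.Helper49.DL
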