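import Pool.Agent.Helper49.DL.Harnack
import Pool.Agent.Helper49.DL.DupId
import Pool.Agent.Helper49.DL.Diamond
import Pool.Agent.Helper49.DL.Explore

/-!
Even local correlations: their excess in the `true` phase is controlled by the excess at the central
defect bond.
-/

open Finset
open scoped Classical

namespace Pool.Agent.Helper49.DL

section

variable {Λ : Finset Site}

/-- Sign of a bond. -/
noncomputable def gs (Λ : Finset Site) (η : Cfg) (e : LB Λ) : ℝ := osp Λ η (lp e) * osp Λ η (lq e)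

lemma osp_cases (η : Cfg) (i : Site) : osp Λ η i = 1 ∨ osp Λ η i = -1 := by
  unfold osp; split_ifs
  · left; rfl
  · cases η i <;> simp

lemma gs_cases (η : Cfg) (e : LB Λ) : gs Λ η e = 1 ∨ gs Λ η e = -1 := by
  unfold gs
  rcases osp_cases (Λ := Λ) η (lp e) with h | h <;> rcases osp_cases (Λ := Λ) η (lq e) with h' | h' <;>
    rw [h, h'] <;> norm_num

lemma mem_lA {e : LB Λ} {v : LV Λ} : v ∈ lA e ↔ v.1 = lp e ∨ v.1 = lq e := by
  simp [lA]

lemma lA_meets (e : LB Λ) : lp e ∈ Λ ∨ lq e ∈ Λ := by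
  cases e with
  | inl i => exact mem_hb.1 i.2
  | inr i => exact mem_vb.1 i.2

lemma lA_nonempty (e : LB Λ) : (lA e).Nonempty := by
  rcases lA_meets e with h | h
  · exact ⟨⟨_, h⟩, mem_lA.2 (Or.inl rfl)⟩
  · exact ⟨⟨_, h⟩, mem_lA.2 (Or.inr rfl)⟩

lemma lA_card (e : LB Λ) : (lA e).card ≤ 2 := by
  have h : (lA e).image Subtype.val ⊆ {lp e, lq e} := by
    intro i hi
    rw [Finset.mem_image] at hi
    obtain ⟨v, hv, rfl⟩ := hi
    rw [mem_lA] at hv
    simp only [Finset.mem_insert, Finset.mem_singleton]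
    exact hv
  have h1 := Finset.card_le_card h
  rw [Finset.card_image_of_injective _ Subtype.val_injective] at h1
  exact h1.trans Finset.card_le_two

lemma lA_pair {e : LB Λ} (hp : lp e ∈ Λ) (hq : lq e ∈ Λ) :
    lA e = {⟨lp e, hp⟩, ⟨lq e, hq⟩} := by
  ext v
  rw [mem_lA]
  simp only [Finset.mem_insert, Finset.mem_singleton, Subtype.ext_iff]

lemma lA_card_two {e : LB Λ} : (lA e).card = 2 ↔ lp e ∈ Λ ∧ lq e ∈ Λ := by
  constructor
  · intro h
    by_contra hc
    have h1 : (lA e).card ≤ 1 := by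
      rw [Finset.card_le_one]
      intro a ha b hb
      rw [mem_lA] at ha hb
      apply Subtype.ext
      rcases ha with ha | ha <;> rcases hb with hb | hb
      · rw [ha, hb]
      · exact absurd ⟨ha ▸ a.2, hb ▸ b.2⟩ hc
      · exact absurd ⟨hb ▸ b.2, ha ▸ a.2⟩ hc
      · rw [ha, hb]
    omega
  · rintro ⟨hp, hq⟩
    rw [lA_pair hp hq, Finset.card_pair]
    intro h
    exact lp_ne_lq e (congrArg Subtype.val h)

lemma gs_two {η : Cfg} {e : LB Λ} (h : (lA e).card = 2) : gs Λ η e = 1 := by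
  rw [lA_card_two] at h
  unfold gs osp
  rw [if_pos h.1, if_pos h.2, one_mul]

lemma lJ_gs (β : ℝ) (κ : Site → ℝ) (η : Cfg) :
    (fun e : LB Λ => gs Λ η e * lJ β κ tt e) = lJ β κ η := by
  funext e
  unfold gs lJ
  rw [osp_tt, osp_tt]
  ring

/-- The duplicated sum. -/
lemma PN_dup (β : ℝ) (κ : Site → ℝ) (η : Cfg) (B : Finset (LV Λ)) :
    PN Λ β κ tt B * PN Λ β κ η ∅ - PN Λ β κ tt ∅ * PN Λ β κ η B =
      ∑ s : LV Λ → Bool, ∑ t : LV Λ → Bool, (chi B s - chi B t) *
        (wt lA (lJ β κ tt) s * wt lA (fun e => gs Λ η e * lJ β κ tt e) t) := by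
  rw [lJ_gs]
  unfold PN NN
  rw [Finset.sum_mul_sum, Finset.sum_mul_sum, ← Finset.sum_sub_distrib]
  refine Finset.sum_congr rfl fun s _ => ?_
  rw [← Finset.sum_sub_distrib]
  refine Finset.sum_congr rfl fun t _ => ?_
  rw [chi_empty, chi_empty, frc_empty, frc_empty]
  ring

end

/-- Sites at distance at most `R` from the central defect bond. -/
noncomputable def dia (R : ℤ) : Finset Site := (box R (R + 1)).filter (fun i => rad i ≤ R)

lemma mem_dia {R : ℤ} {i : Site} : i ∈ dia R ↔ rad i ≤ R := by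
  unfold dia
  rw [Finset.mem_filter, mem_box]
  constructor
  · exact fun h => h.2
  · intro h
    refine ⟨?_, h⟩
    unfold rad at h
    have h1 := le_abs_self i.1
    have h2 := neg_abs_le i.1
    have h3 := le_max_left (i.2 - 1) (-i.2)
    have h4 := le_max_right (i.2 - 1) (-i.2)
    have h5 := abs_nonneg i.1
    omega

lemma rad_adj {i j : Site} (h : Adj i j) : rad j ≤ rad i + 1 := by
  obtain ⟨a, b⟩ := i
  obtain ⟨c, d⟩ := j
  unfold Adj at h
  unfold rad
  simp only [e1, e2, Prod.mk_add_mk, Prod.mk.injEq] at h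
  simp only
  rcases le_total 0 a with ha | ha <;> rcases le_total 0 c with hc | hc <;>
    rcases le_total (b - 1) (-b) with hb | hb <;> rcases le_total (d - 1) (-d) with hd | hd <;>
    simp only [abs_of_nonneg, abs_of_nonpos, ha, hc, max_eq_left, max_eq_right, hb, hd] <;> omega

lemma adj_bond {Λ : Finset Site} (e : LB Λ) : Adj (lp e) (lq e) := by
  cases e with
  | inl i => exact Or.inl rfl
  | inr i => exact Or.inr (Or.inr (Or.inl rfl))

lemma adj_symm {i j : Site} (h : Adj i j) : Adj j i := by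
  unfold Adj at *; tauto

/-- Bond between adjacent sites of `Λ`. -/
lemma bond_of_adj {Λ : Finset Site} {i j : Site} (hi : i ∈ Λ) (hj : j ∈ Λ) (h : Adj i j) :
    ∃ e : LB Λ, lA e = {⟨i, hi⟩, ⟨j, hj⟩} := by
  rcases h with h | h | h | h
  · refine ⟨Sum.inl ⟨i, mem_hb.2 (Or.inl hi)⟩, ?_⟩
    ext v
    rw [mem_lA]
    simp only [lp, lq, Finset.mem_insert, Finset.mem_singleton, Subtype.ext_iff, h]
  · refine ⟨Sum.inl ⟨j, mem_hb.2 (Or.inl hj)⟩, ?_⟩
    ext v
    rw [mem_lA]
    simp only [lp, lq, Finset.mem_insert, Finset.mem_singleton, Subtype.ext_iff, h]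
    tauto
  · refine ⟨Sum.inr ⟨i, mem_vb.2 (Or.inl hi)⟩, ?_⟩
    ext v
    rw [mem_lA]
    simp only [lp, lq, Finset.mem_insert, Finset.mem_singleton, Subtype.ext_iff, h]
  · refine ⟨Sum.inr ⟨j, mem_vb.2 (Or.inl hj)⟩, ?_⟩
    ext v
    rw [mem_lA]
    simp only [lp, lq, Finset.mem_insert, Finset.mem_singleton, Subtype.ext_iff, h]
    tauto

section main

variable {Λ : Finset Site} {β J : ℝ}

lemma lJ_tt (β : ℝ) (κ : Site → ℝ) (e : LB Λ) : lJ β κ tt e = β * lk κ e / 2 := by
  unfold lJ; rw [osp_tt, osp_tt]; ring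

lemma lk_kap_ge (hJ : 1 ≤ J) (e : LB Λ) : 1 ≤ lk (kap J) e := by
  cases e with
  | inl i => exact le_rfl
  | inr i =>
    simp only [lk, kap]
    split_ifs
    · exact hJ
    · exact le_rfl

lemma lk_kap_le (hJ : 1 ≤ J) (e : LB Λ) : lk (kap J) e ≤ J := by
  cases e with
  | inl i => exact hJ
  | inr i =>
    simp only [lk, kap]
    split_ifs
    · exact le_rfl
    · exact hJ

/-- Lattice paths give routes. -/
lemma route_of_pth (hβ : 0 ≤ β) (hJ : 1 ≤ J) (η : Cfg) {u v : Site} {π : Finset Site}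
    (h : Pth u π v) : ∀ (hu : u ∈ Λ) (_hπ : π ⊆ Λ), ∃ hv : v ∈ Λ,
      Route (lA (Λ := Λ)) (cQ (lJ β (kap J) tt) (gs Λ η)) (cR lA (lJ β (kap J) tt) (gs Λ η)) β
        ⟨u, hu⟩ (sub Λ π) ⟨v, hv⟩ := by
  induction h with
  | nil x =>
    intro hu _
    refine ⟨hu, ?_⟩
    have : sub Λ ∅ = ∅ := by unfold sub; simp
    rw [this]
    exact Route.nil _
  | @cons x x' y π hadj hx h' ih =>
    intro hu hπ
    have hx'Λ : x' ∈ Λ := hπ (Finset.mem_insert_self _ _)
    obtain ⟨hv, hr⟩ := ih hx'Λ (fun i hi => hπ (Finset.mem_insert_of_mem hi))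
    refine ⟨hv, ?_⟩
    obtain ⟨e, he⟩ := bond_of_adj hu hx'Λ hadj
    have hne : (⟨x, hu⟩ : LV Λ) ≠ ⟨x', hx'Λ⟩ := by
      intro h
      have h1 : x = x' := congrArg Subtype.val h
      subst h1
      unfold Adj at hadj
      simp [e1, e2, Prod.ext_iff] at hadj
    have hc : (lA e).card = 2 := by rw [he, Finset.card_pair hne]
    have hg := gs_two (η := η) hc
    have hk := lk_kap_ge hJ e
    have hkβ : β ≤ β * lk (kap J) e := by nlinarith
    have hs : sub Λ (insert x' π) = insert ⟨x', hx'Λ⟩ (sub Λ π) := by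
      ext v
      simp only [sub, Finset.mem_filter, Finset.mem_univ, true_and, Finset.mem_insert,
        Subtype.ext_iff]
    rw [hs]
    refine Route.cons e he ?_ ?_ ?_ hr
    · unfold cQ
      rw [hg, lJ_tt]; linarith
    · unfold cR
      rw [hg, hc, lJ_tt]
      norm_num
      exact hkβ
    · simp only [sub, Finset.mem_filter, Finset.mem_univ, true_and]
      exact hx

lemma sub_card {B : Finset Site} (hB : B ⊆ Λ) : (sub Λ B).card = B.card := by
  have h : (sub Λ B).image Subtype.val = B := by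
    ext i
    simp only [sub, Finset.mem_image, Finset.mem_filter, Finset.mem_univ, true_and]
    constructor
    · rintro ⟨v, hv, rfl⟩; exact hv
    · intro hi; exact ⟨⟨i, hB hi⟩, hi, rfl⟩
  conv_rhs => rw [← h]
  rw [Finset.card_image_of_injective _ Subtype.val_injective]

lemma mem_sub {B : Finset Site} {v : LV Λ} : v ∈ sub Λ B ↔ v.1 ∈ B := by simp [sub]

/-- Number of bonds touching a set. -/
lemma touch_card (D : Finset Site) :
    (Finset.univ.filter (fun e : LB Λ => ¬ Disjoint (lA e) (sub Λ D))).card ≤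
      (hb D).card + (vb D).card := by
  have h : (Finset.univ.filter (fun e : LB Λ => ¬ Disjoint (lA e) (sub Λ D))).image
      (fun e : LB Λ => Sum.map (fun i : {i // i ∈ hb Λ} => i.1) (fun i : {i // i ∈ vb Λ} => i.1) e) ⊆
      (hb D).disjSum (vb D) := by
    intro p hp
    rw [Finset.mem_image] at hp
    obtain ⟨e, he, rfl⟩ := hp
    rw [Finset.mem_filter, Finset.not_disjoint_iff] at he
    obtain ⟨-, v, hv, hvD⟩ := he
    rw [mem_lA] at hv
    rw [mem_sub] at hvD
    cases e with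
    | inl i =>
      simp only [Sum.map_inl, Finset.inl_mem_disjSum, mem_hb]
      rcases hv with hv | hv
      · left; rw [hv] at hvD; exact hvD
      · right; rw [hv] at hvD; exact hvD
    | inr i =>
      simp only [Sum.map_inr, Finset.inr_mem_disjSum, mem_vb]
      rcases hv with hv | hv
      · left; rw [hv] at hvD; exact hvD
      · right; rw [hv] at hvD; exact hvD
  have h1 := Finset.card_le_card h
  rw [Finset.card_image_of_injective, Finset.card_disjSum] at h1
  · exact h1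
  · exact Sum.map_injective.2 ⟨Subtype.val_injective, Subtype.val_injective⟩

lemma cQ_bounds (hβ : 0 ≤ β) (hJ : 1 ≤ J) (η : Cfg) (e : LB Λ) :
    0 ≤ cQ (lJ β (kap J) tt) (gs Λ η) e ∧ cQ (lJ β (kap J) tt) (gs Λ η) e ≤ β * J := by
  unfold cQ
  have h1 := lk_kap_ge hJ e
  have h2 := lk_kap_le hJ e
  have h3 : 0 ≤ β * lk (kap J) e := mul_nonneg hβ (by linarith)
  have h4 : β * lk (kap J) e ≤ β * J := mul_le_mul_of_nonneg_left h2 hβ
  rw [lJ_tt]
  rcases gs_cases η e with h | h <;> rw [h] <;> constructor <;> linarith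

lemma cR_bounds (hβ : 0 ≤ β) (hJ : 1 ≤ J) (η : Cfg) (e : LB Λ) :
    0 ≤ cR lA (lJ β (kap J) tt) (gs Λ η) e ∧ cR lA (lJ β (kap J) tt) (gs Λ η) e ≤ β * J := by
  unfold cR
  have h1 := lk_kap_ge hJ e
  have h2 := lk_kap_le hJ e
  have h3 : 0 ≤ β * lk (kap J) e := mul_nonneg hβ (by linarith)
  have h4 : β * lk (kap J) e ≤ β * J := mul_le_mul_of_nonneg_left h2 hβ
  rw [lJ_tt]
  rcases neg_one_pow_eq_or ℝ (lA e).card with h5 | h5 <;> rw [h5] <;>
    rcases gs_cases η e with h | h <;> rw [h] <;> constructor <;> linarith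

/-- Bonds touching the diamond are interior. -/
lemma touch_inner {R : ℤ} (hΛ : dia (R + 1) ⊆ Λ) {e : LB Λ}
    (h : ¬ Disjoint (lA e) (sub Λ (dia R))) :
    Even (lA e).card ∧ lA e ⊆ sub Λ (dia R) ∪ sub Λ ((dia (R + 1)).filter (fun i => rad i = R + 1)) := by
  rw [Finset.not_disjoint_iff] at h
  obtain ⟨v, hv, hvD⟩ := h
  rw [mem_lA] at hv
  rw [mem_sub, mem_dia] at hvD
  have hadj := adj_bond e
  have hpq : rad (lp e) ≤ R + 1 ∧ rad (lq e) ≤ R + 1 := by
    rcases hv with hv | hv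
    · rw [hv] at hvD
      have := rad_adj hadj
      constructor <;> linarith
    · rw [hv] at hvD
      have := rad_adj (adj_symm hadj)
      constructor <;> linarith
  have hp : lp e ∈ Λ := hΛ (mem_dia.2 hpq.1)
  have hq : lq e ∈ Λ := hΛ (mem_dia.2 hpq.2)
  constructor
  · rw [lA_card_two.2 ⟨hp, hq⟩]; exact even_two
  · intro w hw
    rw [mem_lA] at hw
    have hw1 : rad w.1 ≤ R + 1 := by
      rcases hw with hw | hw <;> rw [hw]
      · exact hpq.1
      · exact hpq.2
    rw [Finset.mem_union, mem_sub, mem_sub, Finset.mem_filter, mem_dia, mem_dia]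
    rcases eq_or_lt_of_le hw1 with h1 | h1
    · right; exact ⟨hw1, h1⟩
    · left; omega

/-- Even local correlations are controlled by the central bond. -/
theorem even_bound (hβ : 0 < β) (hJ : 1 ≤ J) {R : ℤ} (hR : 1 ≤ R) :
    ∃ C : ℝ, 0 ≤ C ∧ ∀ Λ : Finset Site, dia (R + 1) ⊆ Λ → ∀ (η : Cfg) (B : Finset Site),
      (∀ i ∈ B, rad i ≤ R) → Even B.card →
      avg β (kap J) Λ tt (ch B) - avg β (kap J) Λ η (ch B) ≤
        (B.card : ℝ) ^ 2 * C *
          (avg β (kap J) Λ tt (ch {o0, o1}) - avg β (kap J) Λ η (ch {o0, o1})) := by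
  set G : ℝ := Real.exp (((hb (dia R)).card + (vb (dia R)).card : ℕ) * (β * J)) with hG
  set c0 : ℝ := min 1 (Real.sinh β) with hc0
  have hsinh : 0 < Real.sinh β := Real.sinh_pos_iff.2 hβ
  have hc0pos : 0 < c0 := lt_min one_pos hsinh
  set C : ℝ := G ^ 2 * (((dia (R + 1)).card : ℝ) ^ 2 *
    (2 ^ (dia R).card * (c0 ^ (2 * (dia R).card))⁻¹)) with hC
  have hCn : 0 ≤ C := by positivity
  refine ⟨C, hCn, fun Λ hΛ η B hB hBe => ?_⟩
  have hdia : dia R ⊆ Λ := fun i hi => hΛ (mem_dia.2 (by rw [mem_dia] at hi; omega))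
  have hBΛ : B ⊆ Λ := fun i hi => hdia (mem_dia.2 (hB i hi))
  have h0Λ : o0 ∈ Λ := hdia (mem_dia.2 (by simp [rad, o0]; omega))
  have h1Λ : o1 ∈ Λ := hdia (mem_dia.2 (by simp [rad, o1]; omega))
  set x : LV Λ := ⟨o0, h0Λ⟩ with hx
  set y : LV Λ := ⟨o1, h1Λ⟩ with hy
  have hxy : x ≠ y := by
    intro h
    have := congrArg Subtype.val h
    simp [hx, hy, o0, o1] at this
  set JQ := cQ (lJ β (kap J) tt) (gs Λ η) with hJQ
  set JR := cR lA (lJ β (kap J) tt) (gs Λ η) with hJR
  set W := sub Λ (dia R) with hW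
  set E := sub Λ ((dia (R + 1)).filter (fun i => rad i = R + 1)) with hE
  have hWE : Disjoint W E := by
    rw [Finset.disjoint_left]
    intro v hv hv'
    rw [hW, mem_sub, mem_dia] at hv
    rw [hE, mem_sub, Finset.mem_filter] at hv'
    omega
  have hWcard : W.card = (dia R).card := sub_card hdia
  have hEcard : (E.card : ℝ) ≤ ((dia (R + 1)).card : ℝ) := by
    have h1 : E.card = ((dia (R + 1)).filter (fun i => rad i = R + 1)).card :=
      sub_card (fun i hi => hΛ (Finset.mem_filter.1 hi).1)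
    rw [h1]
    exact_mod_cast Finset.card_filter_le _ _
  have hsumQ : Real.exp (∑ i ∈ Finset.univ.filter (fun e : LB Λ => ¬ Disjoint (lA e) W), JQ i) ≤ G := by
    rw [hG]
    apply Real.exp_le_exp.2
    refine (Finset.sum_le_sum fun e _ => (cQ_bounds hβ.le hJ η e).2).trans ?_
    rw [Finset.sum_const, nsmul_eq_mul]
    refine mul_le_mul_of_nonneg_right ?_ (by positivity)
    exact_mod_cast touch_card (dia R)
  have hsumR : Real.exp (∑ i ∈ Finset.univ.filter (fun e : LB Λ => ¬ Disjoint (lA e) W), JR i) ≤ G := by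
    rw [hG]
    apply Real.exp_le_exp.2
    refine (Finset.sum_le_sum fun e _ => (cR_bounds hβ.le hJ η e).2).trans ?_
    rw [Finset.sum_const, nsmul_eq_mul]
    refine mul_le_mul_of_nonneg_right ?_ (by positivity)
    exact_mod_cast touch_card (dia R)
  have hharn : ∀ b ∈ W, ∀ b' ∈ W, X lA JQ JR b b' ≤ C * (X lA JQ JR x y + X lA JQ JR y x) := by
    intro b hb b' hb'
    have hXn : 0 ≤ X lA JQ JR x y + X lA JQ JR y x := by
      refine add_nonneg ?_ ?_ <;>
        exact Finset.sum_nonneg fun S _ => mul_nonneg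
          (N1_nonneg lA (fun e => (cQ_bounds hβ.le hJ η e).1) _ _)
          (N1_nonneg lA (fun e => (cR_bounds hβ.le hJ η e).1) _ _)
    refine (harnack lA (fun e => (cQ_bounds hβ.le hJ η e).1) (fun e => (cR_bounds hβ.le hJ η e).1)
      lA_card hWE (fun e _ h => touch_inner hΛ h) (fun e _ h => touch_inner hΛ h) hsumQ hsumR
      hβ.le hc0pos (min_le_left _ _) (min_le_right _ _) (x := x) (y := y) ?_ hb hb').trans ?_
    · intro u hu w hw huw
      rw [hE, mem_sub, Finset.mem_filter] at hu hw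
      have huw' : u.1 ≠ w.1 := fun h => huw (Subtype.ext h)
      obtain ⟨π1, π2, hdis, hπ1, hπ2, hr⟩ := routes hR hu.2 hw.2 huw'
      have hs1 : π1 ⊆ Λ := fun i hi => hdia (mem_dia.2 (hπ1 i hi))
      have hs2 : π2 ⊆ Λ := fun i hi => hdia (mem_dia.2 (hπ2 i hi))
      refine ⟨sub Λ π1, sub Λ π2, ?_, ?_, ?_, ?_⟩
      · intro v hv; rw [mem_sub] at hv; rw [hW, mem_sub, mem_dia]; exact hπ1 _ hv
      · intro v hv; rw [mem_sub] at hv; rw [hW, mem_sub, mem_dia]; exact hπ2 _ hv
      · rw [Finset.disjoint_left]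
        intro v hv hv'
        rw [mem_sub] at hv hv'
        exact (Finset.disjoint_left.1 hdis) hv hv'
      · rcases hr with ⟨h1, h2⟩ | ⟨h1, h2⟩
        · left
          obtain ⟨_, h3⟩ := route_of_pth hβ.le hJ η h1 u.2 hs1
          obtain ⟨_, h4⟩ := route_of_pth hβ.le hJ η h2 w.2 hs2
          exact ⟨h3, h4⟩
        · right
          obtain ⟨_, h3⟩ := route_of_pth hβ.le hJ η h1 u.2 hs1
          obtain ⟨_, h4⟩ := route_of_pth hβ.le hJ η h2 w.2 hs2
          exact ⟨h3, h4⟩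
    · refine mul_le_mul_of_nonneg_right ?_ hXn
      rw [hC, hWcard]
      have : (E.card : ℝ) ^ 2 ≤ ((dia (R + 1)).card : ℝ) ^ 2 :=
        pow_le_pow_left₀ (Nat.cast_nonneg _) hEcard 2
      gcongr
  -- the two duplicated sums
  have hJn : ∀ e : LB Λ, 0 ≤ lJ β (kap J) tt e := fun e => by
    rw [lJ_tt]
    have := lk_kap_ge hJ e
    positivity
  have hdup2 := dup_pair (lA (Λ := Λ)) (J := lJ β (kap J) tt) (g := gs Λ η) (gs_cases η)
    lA_nonempty lA_card (fun e => gs_two) hxy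
  have hdupB := dup_even (lA (Λ := Λ)) hJn (g := gs Λ η) (gs_cases η)
    lA_nonempty lA_card (fun e => gs_two) (B := sub Λ B) (by rw [sub_card hBΛ]; exact hBe)
  rw [← PN_dup] at hdup2 hdupB
  have hsub : sub Λ {o0, o1} = {x, y} := by
    ext v
    rw [mem_sub]
    simp only [Finset.mem_insert, Finset.mem_singleton, hx, hy, Subtype.ext_iff]
  have h01 : ({o0, o1} : Finset Site) ⊆ Λ := by
    intro i hi
    simp only [Finset.mem_insert, Finset.mem_singleton] at hi
    rcases hi with rfl | rfl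
    · exact h0Λ
    · exact h1Λ
  have hP1 := PN_pos (Λ := Λ) β (kap J) tt
  have hP2 := PN_pos (Λ := Λ) β (kap J) η
  have ediff : ∀ B' : Finset Site, B' ⊆ Λ → avg β (kap J) Λ tt (ch B') - avg β (kap J) Λ η (ch B') =
      (PN Λ β (kap J) tt (sub Λ B') * PN Λ β (kap J) η ∅ -
        PN Λ β (kap J) tt ∅ * PN Λ β (kap J) η (sub Λ B')) /
        (PN Λ β (kap J) tt ∅ * PN Λ β (kap J) η ∅) := by
    intro B' hB'
    rw [avg_ch _ _ _ hB', avg_ch _ _ _ hB', div_sub_div _ _ hP1.ne' hP2.ne']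
  rw [ediff B hBΛ, ediff _ h01, hsub, hdup2, ← mul_div_assoc]
  refine div_le_div_of_nonneg_right ?_ (mul_pos hP1 hP2).le
  refine hdupB.trans ?_
  have hsum : ∑ b ∈ sub Λ B, ∑ b' ∈ sub Λ B, X lA JQ JR b b' ≤
      (B.card : ℝ) ^ 2 * (C * (X lA JQ JR x y + X lA JQ JR y x)) := by
    have hBW : ∀ b ∈ sub Λ B, b ∈ W := by
      intro b hb
      rw [mem_sub] at hb
      rw [hW, mem_sub, mem_dia]
      exact hB _ hb
    refine (Finset.sum_le_sum fun b hb => Finset.sum_le_sum fun b' hb' =>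
      hharn b (hBW b hb) b' (hBW b' hb')).trans (le_of_eq ?_)
    simp only [Finset.sum_const, nsmul_eq_mul, sub_card hBΛ]
    ring
  have h2V : (0 : ℝ) ≤ 2 / 2 ^ Fintype.card (LV Λ) := by positivity
  refine (mul_le_mul_of_nonneg_left hsum h2V).trans (le_of_eq ?_)
  ring

end main

end Pool.Agent.Helper49.DL
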