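import Pool.Agent.Helper49.DL.Freeze

/-!
Factorisation over two sets of sites which are not joined by a bond.

Paper proof (block DL-FA). `ω ↦ (glue Λ1 ω η, glue Λ2 ω η)` is a bijection from
`confs (Λ1 ∪ Λ2) η` to `confs Λ1 η × confs Λ2 η` (inverse: `glue Λ1 ω1 ω2`), and
`en κ (Λ1 ∪ Λ2) (glue Λ1 ω1 ω2) = en κ Λ1 ω1 + en κ Λ2 ω2` since `hb (Λ1 ∪ Λ2) = hb Λ1 ∪ hb Λ2` is a
disjoint union and, for `i ∈ hb Λ1`, neither `i` nor `i + e1` is in `Λ2` (otherwise `i ∈ hb Λ2`), so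
`glue Λ1 ω1 ω2` and `ω1` agree at `i` and `i + e1`: both are equal to `η` off `Λ1 ∪ Λ2`.
Note `Λ ⊆ hb Λ`, so `Λ1` and `Λ2` are disjoint.
-/

/-!
Factorisation over two sets of sites which are not joined by a bond.

Paper proof (block DL-FA). `ω ↦ (glue Λ1 ω η, glue Λ2 ω η)` is a bijection from
`confs (Λ1 ∪ Λ2) η` to `confs Λ1 η × confs Λ2 η` (inverse: `glue Λ1 ω1 ω2`), and
`en κ (Λ1 ∪ Λ2) (glue Λ1 ω1 ω2) = en κ Λ1 ω1 + en κ Λ2 ω2` since `hb (Λ1 ∪ Λ2) = hb Λ1 ∪ hb Λ2` is a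
disjoint union and, for `i ∈ hb Λ1`, neither `i` nor `i + e1` is in `Λ2` (otherwise `i ∈ hb Λ2`), so
`glue Λ1 ω1 ω2` and `ω1` agree at `i` and `i + e1`: both are equal to `η` off `Λ1 ∪ Λ2`.
Note `Λ ⊆ hb Λ`, so `Λ1` and `Λ2` are disjoint.
-/

open Finset
open scoped Classical

namespace Pool.Agent.Helper49.DL

/-- No bond meets both sets. -/
def Apart (Λ1 Λ2 : Finset Site) : Prop := Disjoint (hb Λ1) (hb Λ2) ∧ Disjoint (vb Λ1) (vb Λ2)

private lemma hb_un (Λ1 Λ2 : Finset Site) : hb (Λ1 ∪ Λ2) = hb Λ1 ∪ hb Λ2 := by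
  ext i; simp only [mem_hb, Finset.mem_union]; tauto

private lemma vb_un (Λ1 Λ2 : Finset Site) : vb (Λ1 ∪ Λ2) = vb Λ1 ∪ vb Λ2 := by
  ext i; simp only [mem_vb, Finset.mem_union]; tauto

/-- restriction of `ω` to `Λ`, completed by `η` -/
private noncomputable def rst (Λ : Finset Site) (η ω : Cfg) : Cfg := fun i => if i ∈ Λ then ω i else η i

private lemma rst_eq {Λ1 Λ2 : Finset Site} {η ω : Cfg} (hω : ω ∈ confs (Λ1 ∪ Λ2) η) {i : Site}
    (h : i ∉ Λ2) : rst Λ1 η ω i = ω i := by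
  unfold rst
  split_ifs with h1
  · rfl
  · rw [mem_confs] at hω
    exact (hω i (by simp [h, h1])).symm

private lemma rst_eq' {Λ1 Λ2 : Finset Site} {η ω : Cfg} (hω : ω ∈ confs (Λ1 ∪ Λ2) η) {i : Site}
    (h : i ∉ Λ1) : rst Λ2 η ω i = ω i := by
  rw [Finset.union_comm] at hω
  exact rst_eq hω h

private lemma en_un (κ : Site → ℝ) {Λ1 Λ2 : Finset Site} (h : Apart Λ1 Λ2) {η ω : Cfg}
    (hω : ω ∈ confs (Λ1 ∪ Λ2) η) :
    en κ (Λ1 ∪ Λ2) ω = en κ Λ1 (rst Λ1 η ω) + en κ Λ2 (rst Λ2 η ω) := by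
  obtain ⟨h1, h2⟩ := h
  unfold en
  rw [hb_un, vb_un, Finset.sum_union h1, Finset.sum_union h2]
  have e1' : ∑ i ∈ hb Λ1, agr (rst Λ1 η ω i) (rst Λ1 η ω (i + e1)) =
      ∑ i ∈ hb Λ1, agr (ω i) (ω (i + e1)) := by
    refine Finset.sum_congr rfl fun i hi => ?_
    have hn : i ∉ hb Λ2 := Finset.disjoint_left.1 h1 hi
    rw [mem_hb, not_or] at hn
    rw [rst_eq hω hn.1, rst_eq hω hn.2]
  have e2' : ∑ i ∈ hb Λ2, agr (rst Λ2 η ω i) (rst Λ2 η ω (i + e1)) =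
      ∑ i ∈ hb Λ2, agr (ω i) (ω (i + e1)) := by
    refine Finset.sum_congr rfl fun i hi => ?_
    have hn : i ∉ hb Λ1 := Finset.disjoint_right.1 h1 hi
    rw [mem_hb, not_or] at hn
    rw [rst_eq' hω hn.1, rst_eq' hω hn.2]
  have e3' : ∑ i ∈ vb Λ1, κ i * agr (rst Λ1 η ω i) (rst Λ1 η ω (i + e2)) =
      ∑ i ∈ vb Λ1, κ i * agr (ω i) (ω (i + e2)) := by
    refine Finset.sum_congr rfl fun i hi => ?_
    have hn : i ∉ vb Λ2 := Finset.disjoint_left.1 h2 hi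
    rw [mem_vb, not_or] at hn
    rw [rst_eq hω hn.1, rst_eq hω hn.2]
  have e4' : ∑ i ∈ vb Λ2, κ i * agr (rst Λ2 η ω i) (rst Λ2 η ω (i + e2)) =
      ∑ i ∈ vb Λ2, κ i * agr (ω i) (ω (i + e2)) := by
    refine Finset.sum_congr rfl fun i hi => ?_
    have hn : i ∉ vb Λ1 := Finset.disjoint_right.1 h2 hi
    rw [mem_vb, not_or] at hn
    rw [rst_eq' hω hn.1, rst_eq' hω hn.2]
  rw [e1', e2', e3', e4']
  ring

theorem Zg_union (β : ℝ) (κ : Site → ℝ) {Λ1 Λ2 : Finset Site} (h : Apart Λ1 Λ2) (η : Cfg) :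
    Zg β κ (Λ1 ∪ Λ2) η (fun _ => 1) = Zg β κ Λ1 η (fun _ => 1) * Zg β κ Λ2 η (fun _ => 1) := by
  have hd : ∀ i, i ∈ Λ1 → i ∉ Λ2 := fun i hi hi' =>
    Finset.disjoint_left.1 h.1 (mem_hb.2 (Or.inl hi)) (mem_hb.2 (Or.inl hi'))
  unfold Zg
  rw [Finset.sum_mul_sum, ← Finset.sum_product']
  refine Finset.sum_nbij' (fun ω => (rst Λ1 η ω, rst Λ2 η ω))
    (fun p i => if i ∈ Λ1 then p.1 i else p.2 i) ?_ ?_ ?_ ?_ ?_
  · intro ω _
    rw [Finset.mem_product, mem_confs, mem_confs]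
    exact ⟨fun i hi => by simp [rst, hi], fun i hi => by simp [rst, hi]⟩
  · intro p hp
    rw [Finset.mem_product, mem_confs, mem_confs] at hp
    rw [mem_confs]
    intro i hi
    rw [Finset.mem_union, not_or] at hi
    simp only [hi.1, if_false]
    exact hp.2 i hi.2
  · intro ω hω
    funext i
    by_cases hi : i ∈ Λ1
    · simp [rst, hi]
    · simp only [hi, if_false]
      exact rst_eq' hω hi
  · intro p hp
    rw [Finset.mem_product, mem_confs, mem_confs] at hp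
    refine Prod.ext ?_ ?_
    · funext i
      by_cases hi : i ∈ Λ1
      · simp [rst, hi]
      · simp only [rst, hi, if_false]
        exact (hp.1 i hi).symm
    · funext i
      by_cases hi : i ∈ Λ2
      · have : i ∉ Λ1 := fun h' => hd i h' hi
        simp [rst, hi, this]
      · simp only [rst, hi, if_false]
        exact (hp.2 i hi).symm
  · intro ω hω
    simp only [mul_one]
    unfold wg
    rw [en_un κ h hω, ← Real.exp_add]
    congr 1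
    ring

theorem TS_union (β : ℝ) (κ : Site → ℝ) {Λ1 Λ2 : Finset Site} (h : Apart Λ1 Λ2) (η : Cfg) :
    TS β κ (Λ1 ∪ Λ2) η = TS β κ Λ1 η + TS β κ Λ2 η := by
  unfold TS
  rw [Zg_union β κ h, Zg_union β κ h, Real.log_mul Zg_one_pos.ne' Zg_one_pos.ne',
    Real.log_mul Zg_one_pos.ne' Zg_one_pos.ne']
  ring

end Pool.Agent.Helper49.DL
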