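import Pool.Agent.Helper49.DL.Odd

/-!
Asymptotic colour swap invariance of the Dobrushin state for defect strength `≥ 1`.
-/

open Finset

namespace Pool.Agent.Helper49.DL

section

variable {N M : ℤ}

/-- The upper representative. -/
def up (i : Site) : Site := if 1 ≤ i.2 then i else bar i

lemma up_mem {i : Site} (h : i ∈ box N M) : up i ∈ ubox N M := by
  rw [mem_box] at h
  unfold up
  split_ifs with h1
  · rw [mem_ubox]; omega
  · rw [mem_ubox]; simp only [bar]; omega

lemma up_row {i : Site} : 1 ≤ (up i).2 := by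
  unfold up
  split_ifs with h1
  · exact h1
  · simp only [bar]; omega

lemma sp_abs (b : Bool) : |sp b| = 1 := by cases b <;> simp

/-- Spin at a site in the folded description. -/
lemma sp_dec (S : Finset (VV N M)) (c : VV N M → Bool) {i : Site} (h : i ∈ box N M) :
    ∃ s : ℝ, |s| ≤ 1 ∧ (∀ c : VV N M → Bool, sp (dec S c i) = s * sp (c ⟨up i, up_mem h⟩)) := by
  by_cases h1 : 1 ≤ i.2
  · refine ⟨1, by norm_num, fun c => ?_⟩
    have hu : up i = i := by unfold up; rw [if_pos h1]
    have h2 := dec_up S c ⟨up i, up_mem h⟩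
    simp only [hu] at h2 ⊢
    rw [h2, one_mul]
  · have hu : up i = bar i := by unfold up; rw [if_neg h1]
    by_cases hS : (⟨up i, up_mem h⟩ : VV N M) ∈ S
    · refine ⟨-1, by norm_num, fun c => ?_⟩
      have h2 := dec_bar S c ⟨up i, up_mem h⟩
      rw [if_pos hS] at h2
      have h3 : bar (up i) = i := by rw [hu, bar_bar]
      simp only [h3] at h2
      rw [h2, sp_not]; ring
    · refine ⟨1, by norm_num, fun c => ?_⟩
      have h2 := dec_bar S c ⟨up i, up_mem h⟩
      rw [if_neg hS] at h2
      have h3 : bar (up i) = i := by rw [hu, bar_bar]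
      simp only [h3] at h2
      rw [h2, one_mul]

/-- Folding a product of spins. -/
lemma fold_char (A : Finset Site) (hA : A ⊆ box N M) :
    ∃ (D : Finset (VV N M)) (s : Finset (VV N M) → ℝ), (∀ S, |s S| ≤ 1) ∧
      (Odd D.card ↔ Odd A.card) ∧
      (∀ S c, ∏ i ∈ A, sp (dec S c i) = s S * chi D c) ∧
      (∀ g : Site → ℝ, (∀ i ∈ ubox N M, 0 ≤ g i) → ∑ v ∈ D, g v.1 ≤ ∑ i ∈ A, g (up i)) := by
  classical
  induction A using Finset.induction_on with
  | empty =>
    refine ⟨∅, fun _ => 1, fun S => by norm_num, by simp, fun S c => by simp [chi_empty],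
      fun g _ => by simp⟩
  | insert i A hi ih =>
    obtain ⟨D, s, hs, hpar, hprod, hsum⟩ := ih (fun j hj => hA (Finset.mem_insert_of_mem hj))
    have hib : i ∈ box N M := hA (Finset.mem_insert_self i A)
    set v : VV N M := ⟨up i, up_mem hib⟩ with hv
    have hsd : ∀ S : Finset (VV N M), ∃ t : ℝ, |t| ≤ 1 ∧
        (∀ c : VV N M → Bool, sp (dec S c i) = t * sp (c v)) := fun S =>
      sp_dec S (fun _ => true) hib
    choose t ht htc using hsd
    have hchi : ∀ (E : Finset (VV N M)) (c : VV N M → Bool), v ∉ E →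
        chi (insert v E) c = sp (c v) * chi E c := by
      intro E c hvE
      unfold chi
      rw [Finset.prod_insert hvE]
    by_cases hvD : v ∈ D
    · refine ⟨D.erase v, fun S => t S * s S, ?_, ?_, ?_, ?_⟩
      · intro S
        rw [abs_mul]
        exact mul_le_one₀ (ht S) (abs_nonneg _) (hs S)
      · rw [Finset.card_erase_of_mem hvD, Finset.card_insert_of_notMem hi]
        have hpos : 0 < D.card := Finset.card_pos.2 ⟨v, hvD⟩
        have : D.card = (D.card - 1) + 1 := by omega
        rw [this] at hpar
        rw [Nat.odd_add_one] at hpar ⊢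
        tauto
      · intro S c
        rw [Finset.prod_insert hi, hprod, htc]
        have h2 := hchi (D.erase v) c (Finset.notMem_erase v D)
        rw [Finset.insert_erase hvD] at h2
        rw [h2]
        have := sp_mul_self (c v)
        linear_combination (t S * s S * chi (D.erase v) c) * this
      · intro g hg
        rw [Finset.sum_insert hi]
        have h3 := hsum g hg
        rw [← Finset.add_sum_erase D _ hvD] at h3
        have h4 : 0 ≤ g v.1 := hg _ v.2
        have h5 : g (up i) = g v.1 := rfl
        rw [h5]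
        linarith
    · refine ⟨insert v D, fun S => t S * s S, ?_, ?_, ?_, ?_⟩
      · intro S
        rw [abs_mul]
        exact mul_le_one₀ (ht S) (abs_nonneg _) (hs S)
      · rw [Finset.card_insert_of_notMem hvD, Finset.card_insert_of_notMem hi, Nat.odd_add_one,
          Nat.odd_add_one]
        tauto
      · intro S c
        rw [Finset.prod_insert hi, hprod, htc, hchi D c hvD]
        ring
      · intro g hg
        rw [Finset.sum_insert hi, Finset.sum_insert hvD]
        have h3 := hsum g hg
        have h5 : g (up i) = g v.1 := rfl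
        rw [h5]
        linarith

lemma bA_card (e : BB N M) : (bA e).card ≤ 2 := by
  classical
  have h : (bA e).image Subtype.val ⊆ {bp e, bq e} := by
    intro i hi
    rw [Finset.mem_image] at hi
    obtain ⟨v, hv, rfl⟩ := hi
    simp only [bA, Finset.mem_filter, Finset.mem_univ, true_and] at hv
    simp only [Finset.mem_insert, Finset.mem_singleton]
    exact hv
  have h1 := Finset.card_le_card h
  rw [Finset.card_image_of_injective _ Subtype.val_injective] at h1
  exact h1.trans Finset.card_le_two

/-- Odd correlations in the Dobrushin state. -/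
theorem avg_odd (hM : 1 ≤ M) {β J : ℝ} (hβ : 0 ≤ β) {A : Finset Site} (hA : A ⊆ box N M)
    (hodd : Odd A.card) :
    |avg β (kap J) (box N M) (eta 0) (fun ω => ∏ i ∈ A, sp (ω i))| ≤
      ∑ i ∈ A, avg β (kap J) (box N M) (eta 0) (yv (up i)) := by
  classical
  obtain ⟨D, s, hs, hpar, hprod, hsum⟩ := fold_char A hA
  have hD : Odd D.card := hpar.2 hodd
  set Z := Zg β (kap J) (box N M) (eta 0) with hZ
  have key : ∀ t : ℝ, |t| ≤ 1 → Z (fun ω => t * ∏ i ∈ A, sp (ω i)) ≤
      ∑ v ∈ D, Z (fun ω => sp (ω v.1)) := by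
    intro t ht
    have e1' : Z (fun ω => t * ∏ i ∈ A, sp (ω i)) = ∑ S : Finset (VV N M),
        Real.exp (β * (Fintype.card (BB N M) : ℝ)) * rho β J S * ∑ c : VV N M → Bool,
          ((t * s S) * chi D c) *
            wt bA (fun e => res bA (fun _ => β) S e + res bA (bL β) Sᶜ e) c := by
      rw [hZ]
      unfold Zg
      rw [sum_dec]
      refine Finset.sum_congr rfl fun S _ => ?_
      rw [Finset.mul_sum]
      refine Finset.sum_congr rfl fun c _ => ?_
      beta_reduce
      rw [wg_dec S c hM, hprod, wt_add]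
      ring
    have e2' : ∀ v : VV N M, Z (fun ω => sp (ω v.1)) = ∑ S : Finset (VV N M),
        Real.exp (β * (Fintype.card (BB N M) : ℝ)) * rho β J S * ∑ c : VV N M → Bool,
          sp (c v) * wt bA (fun e => res bA (fun _ => β) S e + res bA (bL β) Sᶜ e) c := by
      intro v
      rw [hZ]
      unfold Zg
      rw [sum_dec]
      refine Finset.sum_congr rfl fun S _ => ?_
      rw [Finset.mul_sum]
      refine Finset.sum_congr rfl fun c _ => ?_
      beta_reduce
      rw [wg_dec S c hM, dec_up, wt_add]
      ring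
    rw [e1', Finset.sum_congr rfl (fun v _ => e2' v), Finset.sum_comm]
    refine Finset.sum_le_sum fun S _ => ?_
    rw [← Finset.mul_sum]
    refine mul_le_mul_of_nonneg_left ?_ (mul_pos (Real.exp_pos _) (rho_pos _ _ _)).le
    refine odd_bound bA ?_ (fun e _ => bA_card e) hD ?_
    · intro e
      exact add_nonneg (res_nonneg bA (fun _ => hβ) S e) (res_nonneg bA (bL_nonneg hβ) Sᶜ e)
    · rw [abs_mul]
      exact mul_le_one₀ ht (abs_nonneg _) (hs S)
  have hz : 0 < Z (fun _ => 1) := Zg_one_pos
  have hsumavg : ∑ v ∈ D, Z (fun ω => sp (ω v.1)) / Z (fun _ => 1) ≤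
      ∑ i ∈ A, avg β (kap J) (box N M) (eta 0) (yv (up i)) := by
    refine le_trans (le_of_eq ?_) (hsum (fun i => avg β (kap J) (box N M) (eta 0) (yv i))
      (fun i hi => avg_y_nonneg hM hβ hi))
    refine Finset.sum_congr rfl fun v _ => ?_
    exact avg_sp_eq hM β J v.1
  rw [abs_le]
  constructor
  · have h1 := key (-1) (by norm_num)
    have h2 : Z (fun ω => (-1) * ∏ i ∈ A, sp (ω i)) = - Z (fun ω => ∏ i ∈ A, sp (ω i)) := by
      rw [hZ, Zg_smul]; ring
    rw [h2] at h1
    have h3 := div_le_div_of_nonneg_right h1 hz.le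
    rw [Finset.sum_div, neg_div] at h3
    have h4 : avg β (kap J) (box N M) (eta 0) (fun ω => ∏ i ∈ A, sp (ω i)) =
        Z (fun ω => ∏ i ∈ A, sp (ω i)) / Z (fun _ => 1) := rfl
    rw [h4]
    linarith
  · have h1 := key 1 (by norm_num)
    simp only [one_mul] at h1
    have h3 := div_le_div_of_nonneg_right h1 hz.le
    rw [Finset.sum_div] at h3
    exact h3.trans hsumavg

end

/-- Fourier expansion of a local function. -/
lemma fourier (B : Finset Site) : ∀ F : Cfg → ℝ, Loc B F →
    ∃ a : Finset Site → ℝ, ∀ ω, F ω = ∑ A ∈ B.powerset, a A * ∏ i ∈ A, sp (ω i) := by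
  classical
  induction B using Finset.induction_on with
  | empty =>
    intro F hF
    refine ⟨fun _ => F (fun _ => true), fun ω => ?_⟩
    simp only [Finset.powerset_empty, Finset.sum_singleton, Finset.prod_empty, mul_one]
    exact hF _ _ (fun i hi => absurd hi (Finset.notMem_empty i))
  | insert j B hj ih =>
    intro F hF
    have hloc : ∀ b : Bool, Loc B (fun ω => F (Function.update ω j b)) := by
      intro b ω ω' h
      apply hF
      intro i hi
      by_cases hij : i = j
      · subst hij; simp
      · rw [Function.update_of_ne hij, Function.update_of_ne hij]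
        exact h i (by
          rcases Finset.mem_insert.1 hi with h' | h'
          · exact absurd h' hij
          · exact h')
    obtain ⟨a1, h1⟩ := ih _ (hloc true)
    obtain ⟨a0, h0⟩ := ih _ (hloc false)
    refine ⟨fun A => if j ∈ A then (a1 (A.erase j) - a0 (A.erase j)) / 2
      else (a1 A + a0 A) / 2, fun ω => ?_⟩
    have hF2 : F ω = F (Function.update ω j true) * ((1 + sp (ω j)) / 2) +
        F (Function.update ω j false) * ((1 - sp (ω j)) / 2) := by
      cases hω : ω j
      · have : Function.update ω j false = ω := by rw [← hω, Function.update_eq_self]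
        rw [this]; simp
      · have : Function.update ω j true = ω := by rw [← hω, Function.update_eq_self]
        rw [this]; simp
    have h1' := h1 ω
    have h0' := h0 ω
    rw [hF2, h1', h0', Finset.sum_powerset_insert hj, Finset.sum_mul, Finset.sum_mul,
      ← Finset.sum_add_distrib, ← Finset.sum_add_distrib]
    refine Finset.sum_congr rfl fun A hA => ?_
    have hjA : j ∉ A := fun h => hj (Finset.mem_powerset.1 hA h)
    beta_reduce
    rw [if_neg hjA, if_pos (Finset.mem_insert_self j A), Finset.erase_insert hjA,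
      Finset.prod_insert hjA]
    ring

/-- Asymptotic colour swap invariance. -/
theorem swap_inv {β J : ℝ} (hβ : 0 ≤ β) (hJ : 1 ≤ J) (B : Finset Site) (F : Cfg → ℝ)
    (hF : Loc B F) {t : ℝ} (ht : 0 < t) : ∃ n₀ : ℤ, ∀ N M : ℤ, n₀ ≤ N → n₀ ≤ M →
      |avg β (kap J) (box N M) (eta 0) F -
        avg β (kap J) (box N M) (eta 0) (fun ω => F (fun i => !(ω i)))| ≤ t := by
  classical
  obtain ⟨a, ha⟩ := fourier B F hF
  set C : ℝ := ∑ A ∈ B.powerset, 2 * |a A| with hC
  have hC0 : 0 ≤ C := Finset.sum_nonneg fun A _ => by positivity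
  set t' : ℝ := t / ((C + 1) * (B.card + 1)) with ht'
  have ht'pos : 0 < t' := by positivity
  -- choose n₀ working for all sites of B
  have hex : ∀ i : Site, ∃ n₀ : ℤ, ∀ N M : ℤ, n₀ ≤ N → n₀ ≤ M →
      avg β (kap J) (box N M) (eta 0) (yv (up i)) ≤ t' := fun i =>
    avg_y_tendsto hβ hJ (up i) up_row ht'pos
  choose n hn using hex
  set K : ℤ := 1 + ∑ i ∈ B, (|n i| + |i.1| + |i.2| + 1) with hK
  have hKi : ∀ i ∈ B, |n i| + |i.1| + |i.2| + 1 ≤ K := by
    intro i hi
    have h1 : |n i| + |i.1| + |i.2| + 1 ≤ ∑ i ∈ B, (|n i| + |i.1| + |i.2| + 1) :=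
      Finset.single_le_sum (f := fun i : Site => |n i| + |i.1| + |i.2| + 1)
        (fun j _ => by positivity) hi
    linarith
  have hK1 : 1 ≤ K := by
    have : 0 ≤ ∑ i ∈ B, (|n i| + |i.1| + |i.2| + 1) := Finset.sum_nonneg fun j _ => by positivity
    linarith
  refine ⟨K, fun N M hN hM => ?_⟩
  have hM1 : 1 ≤ M := hK1.trans hM
  set E := avg β (kap J) (box N M) (eta 0) with hE
  have hBbox : B ⊆ box N M := by
    intro i hi
    have h1 := hKi i hi
    have h2 := abs_le.1 (le_refl |i.1|)
    have h3 := abs_le.1 (le_refl |i.2|)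
    have h4 := abs_nonneg (n i)
    rw [mem_box]
    omega
  have hodd : ∀ A ∈ B.powerset, Odd A.card → |E (fun ω => ∏ i ∈ A, sp (ω i))| ≤
      (B.card + 1) * t' := by
    intro A hA hoddA
    rw [Finset.mem_powerset] at hA
    refine (avg_odd hM1 hβ (hA.trans hBbox) hoddA).trans ?_
    calc ∑ i ∈ A, avg β (kap J) (box N M) (eta 0) (yv (up i)) ≤ ∑ _i ∈ A, t' := by
          refine Finset.sum_le_sum fun i hi => hn i N M ?_ ?_
          · have h1 := hKi i (hA hi)
            have h2 := le_abs_self (n i)
            have h3 := abs_nonneg i.1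
            have h4 := abs_nonneg i.2
            omega
          · have h1 := hKi i (hA hi)
            have h2 := le_abs_self (n i)
            have h3 := abs_nonneg i.1
            have h4 := abs_nonneg i.2
            omega
      _ = A.card * t' := by rw [Finset.sum_const, nsmul_eq_mul]
      _ ≤ (B.card + 1) * t' := by
          refine mul_le_mul_of_nonneg_right ?_ ht'pos.le
          have : (A.card : ℝ) ≤ B.card := by exact_mod_cast Finset.card_le_card hA
          linarith
  have e1' : E F = ∑ A ∈ B.powerset, a A * E (fun ω => ∏ i ∈ A, sp (ω i)) := by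
    have : F = fun ω => ∑ A ∈ B.powerset, a A * ∏ i ∈ A, sp (ω i) := by funext ω; exact ha ω
    rw [hE]
    conv_lhs => rw [this]
    rw [avg_sum]
    exact Finset.sum_congr rfl fun A _ => by rw [avg_smul]
  have e2' : E (fun ω => F (fun i => !(ω i))) =
      ∑ A ∈ B.powerset, a A * ((-1) ^ A.card * E (fun ω => ∏ i ∈ A, sp (ω i))) := by
    have : (fun ω : Cfg => F (fun i => !(ω i))) =
        fun ω => ∑ A ∈ B.powerset, (a A * (-1) ^ A.card) * ∏ i ∈ A, sp (ω i) := by
      funext ω
      rw [ha]
      refine Finset.sum_congr rfl fun A _ => ?_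
      have : ∏ i ∈ A, sp (!(ω i)) = (-1) ^ A.card * ∏ i ∈ A, sp (ω i) := by
        rw [← Finset.prod_const, ← Finset.prod_mul_distrib]
        exact Finset.prod_congr rfl fun i _ => by rw [sp_not]; ring
      rw [this]; ring
    rw [hE]
    conv_lhs => rw [this]
    rw [avg_sum]
    refine Finset.sum_congr rfl fun A _ => ?_
    rw [avg_smul]; ring
  rw [e1', e2', ← Finset.sum_sub_distrib]
  refine (Finset.abs_sum_le_sum_abs _ _).trans ?_
  calc ∑ A ∈ B.powerset, |a A * E (fun ω => ∏ i ∈ A, sp (ω i)) -
      a A * ((-1) ^ A.card * E (fun ω => ∏ i ∈ A, sp (ω i)))| ≤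
      ∑ A ∈ B.powerset, 2 * |a A| * ((B.card + 1) * t') := by
        refine Finset.sum_le_sum fun A hA => ?_
        rcases Nat.even_or_odd A.card with h | h
        · rw [h.neg_one_pow, one_mul, sub_self, abs_zero]
          positivity
        · rw [h.neg_one_pow]
          have h1 := hodd A hA h
          have h2 : a A * E (fun ω => ∏ i ∈ A, sp (ω i)) -
              a A * (-1 * E (fun ω => ∏ i ∈ A, sp (ω i))) =
              2 * a A * E (fun ω => ∏ i ∈ A, sp (ω i)) := by ring
          rw [h2, abs_mul, abs_mul, abs_two]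
          exact mul_le_mul_of_nonneg_left h1 (by positivity)
    _ = C * ((B.card + 1) * t') := by rw [hC, Finset.sum_mul]
    _ ≤ t := by
        have hb : (0 : ℝ) < (B.card : ℝ) + 1 := by positivity
        rw [ht']
        have : C * (((B.card : ℝ) + 1) * (t / ((C + 1) * ((B.card : ℝ) + 1)))) = C / (C + 1) * t := by
          field_simp
        rw [this]
        have h1 : C / (C + 1) ≤ 1 := by
          rw [div_le_one (by positivity)]; linarith
        nlinarith

end Pool.Agent.Helper49.DL
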