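import Pool.Agent.Helper49.DL.Fold

/-!
Decoding: sums over configurations of the symmetric box with the Dobrushin boundary condition
become two-layer sums.
-/

open Finset

namespace Pool.Agent.Helper49.DL

section decode

variable {N M : ℤ}

/-- Configuration with agreement-flip set `S` and upper spins `c`. -/
noncomputable def dec (S : Finset (VV N M)) (c : VV N M → Bool) : Cfg := fun i =>
  if h : i ∈ ubox N M then c ⟨i, h⟩
  else if h : bar i ∈ ubox N M then
    (if (⟨bar i, h⟩ : VV N M) ∈ S then !(c ⟨bar i, h⟩) else c ⟨bar i, h⟩)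
  else eta 0 i

variable (S : Finset (VV N M)) (c : VV N M → Bool)

lemma dec_up (v : VV N M) : dec S c v.1 = c v := by
  unfold dec
  rw [dif_pos v.2]

lemma dec_bar (v : VV N M) : dec S c (bar v.1) = if v ∈ S then !(c v) else c v := by
  unfold dec
  rw [dif_neg (bar_not_mem v.2)]
  have h : bar (bar v.1) ∈ ubox N M := by rw [bar_bar]; exact v.2
  rw [dif_pos h]
  have e : (⟨bar (bar v.1), h⟩ : VV N M) = v := Subtype.ext (bar_bar _)
  rw [e]

lemma dec_off {i : Site} (hi : 1 ≤ i.2) (h : i ∉ ubox N M) :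
    dec S c i = true ∧ dec S c (bar i) = false := by
  have hb : bar i ∉ ubox N M := by
    rw [mem_ubox]; simp only [bar]; omega
  constructor
  · unfold dec
    rw [dif_neg h, dif_neg hb]
    simp only [eta, zero_add, decide_eq_true_eq]; exact hi
  · unfold dec
    rw [dif_neg hb, dif_neg (by rw [bar_bar]; exact h)]
    simp only [eta, zero_add, bar, decide_eq_false_iff_not]; omega

lemma dec_mem : dec S c ∈ confs (box N M) (eta 0) := by
  rw [mem_confs]
  intro i hi
  have h1 : i ∉ ubox N M := by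
    intro h; apply hi; rw [mem_ubox] at h; rw [mem_box]; omega
  have h2 : bar i ∉ ubox N M := by
    intro h; apply hi; rw [mem_ubox] at h; simp only [bar] at h; rw [mem_box]; omega
  unfold dec
  rw [dif_neg h1, dif_neg h2]

/-- The set of upper sites whose spin differs from that of the mirror image. -/
noncomputable def Sof (ω : Cfg) : Finset (VV N M) :=
  Finset.univ.filter (fun v => ω v.1 ≠ ω (bar v.1))

/-- The upper spins. -/
def cof (ω : Cfg) : VV N M → Bool := fun v => ω v.1

lemma mem_Sof {ω : Cfg} {v : VV N M} : v ∈ Sof ω ↔ ω v.1 ≠ ω (bar v.1) := by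
  simp [Sof]

lemma Sof_dec : Sof (dec S c) = S := by
  ext v
  rw [mem_Sof, dec_up, dec_bar]
  by_cases h : v ∈ S <;> simp [h]

lemma cof_dec : cof (dec S c) = c := by
  funext v
  exact dec_up S c v

lemma dec_Sof {ω : Cfg} (h : ω ∈ confs (box N M) (eta 0)) :
    dec (Sof (N := N) (M := M) ω) (cof ω) = ω := by
  rw [mem_confs] at h
  funext i
  by_cases h1 : i ∈ ubox N M
  · exact dec_up _ _ ⟨i, h1⟩
  · by_cases h2 : bar i ∈ ubox N M
    · have h3 := dec_bar (Sof (N := N) (M := M) ω) (cof ω) ⟨bar i, h2⟩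
      simp only [bar_bar] at h3
      rw [h3]
      have h4 : (⟨bar i, h2⟩ : VV N M) ∈ Sof (N := N) (M := M) ω ↔ ω (bar i) ≠ ω i := by
        rw [mem_Sof]; simp only [bar_bar]
      by_cases hS : (⟨bar i, h2⟩ : VV N M) ∈ Sof (N := N) (M := M) ω
      · rw [if_pos hS]
        have h5 := h4.1 hS
        simp only [cof]
        cases hx : ω (bar i) <;> cases hy : ω i <;> simp_all
      · rw [if_neg hS]
        have h5 : ω (bar i) = ω i := by
          by_contra hne; exact hS (h4.2 hne)
        simp only [cof]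
        exact h5
    · have h3 : i ∉ box N M := by
        intro h'; rw [mem_box] at h'
        rw [mem_ubox] at h1 h2
        simp only [bar] at h2
        omega
      rw [h i h3]
      unfold dec
      rw [dif_neg h1, dif_neg h2]

lemma sum_dec (G : Cfg → ℝ) :
    ∑ ω ∈ confs (box N M) (eta 0), G ω =
      ∑ S : Finset (VV N M), ∑ c : VV N M → Bool, G (dec S c) := by
  classical
  rw [← Fintype.sum_prod_type' (f := fun S c => G (dec S c))]
  refine Finset.sum_bij' (fun ω _ => (Sof ω, cof ω)) (fun p _ => dec p.1 p.2) ?_ ?_ ?_ ?_ ?_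
  · intro ω _; exact Finset.mem_univ _
  · intro p _; exact dec_mem p.1 p.2
  · intro ω hω; exact dec_Sof hω
  · intro p _; ext1
    · exact Sof_dec p.1 p.2
    · exact cof_dec p.1 p.2
  · intro ω hω
    simp only
    rw [dec_Sof hω]

lemma agr_id (a a' b b' : Bool) : agr a b + agr a' b' =
    1 + (if (a ≠ a' ∧ b ≠ b') then sp a * sp b else 0) +
      (if (a = a' ∧ b = b') then sp a * sp b else 0) := by
  cases a <;> cases a' <;> cases b <;> cases b' <;> simp [agr] <;> norm_num

/-- An upper site is *in* `S` or outside the box iff its spin differs from its mirror image. -/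
lemma dec_ne_iff {i : Site} (hi : 1 ≤ i.2) :
    dec S c i ≠ dec S c (bar i) ↔ ∀ v : VV N M, v.1 = i → v ∈ S := by
  by_cases h : i ∈ ubox N M
  · have e1 := dec_up S c ⟨i, h⟩
    have e2 := dec_bar S c ⟨i, h⟩
    simp only at e1 e2
    rw [e1, e2]
    constructor
    · intro hne v hv
      have : v = ⟨i, h⟩ := Subtype.ext hv
      rw [this]
      by_contra hS
      simp [hS] at hne
    · intro hall
      have := hall ⟨i, h⟩ rfl
      simp [this]
  · obtain ⟨e1, e2⟩ := dec_off S c hi h
    rw [e1, e2]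
    constructor
    · intro _ v hv
      exact absurd (hv ▸ v.2) h
    · intro _; simp

lemma bA_subset_iff (e : BB N M) (T : Finset (VV N M)) :
    bA e ⊆ T ↔ (∀ v : VV N M, v.1 = bp e → v ∈ T) ∧ (∀ v : VV N M, v.1 = bq e → v ∈ T) := by
  unfold bA
  constructor
  · intro h
    exact ⟨fun v hv => h (by simp [hv]), fun v hv => h (by simp [hv])⟩
  · rintro ⟨h1, h2⟩ v hv
    simp only [Finset.mem_filter, Finset.mem_univ, true_and] at hv
    rcases hv with hv | hv
    · exact h1 v hv
    · exact h2 v hv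

lemma chi_bA (e : BB N M) :
    chi (bA e) c = sp (dec S c (bp e)) * sp (dec S c (bq e)) := by
  classical
  have hne := bp_ne_bq e
  by_cases hp : bp e ∈ ubox N M <;> by_cases hq : bq e ∈ ubox N M
  · have e1 := dec_up S c ⟨_, hp⟩
    have e2 := dec_up S c ⟨_, hq⟩
    simp only at e1 e2
    have hA : bA e = {⟨_, hp⟩, ⟨_, hq⟩} := by
      ext v
      simp [bA, Subtype.ext_iff]
    rw [hA, e1, e2, chi, Finset.prod_pair]
    intro h; exact hne (congrArg Subtype.val h)
  · have e1 := dec_up S c ⟨_, hp⟩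
    simp only at e1
    have e2 := (dec_off S c (bq_row e) hq).1
    have hA : bA e = {⟨_, hp⟩} := by
      ext v
      simp only [bA, Finset.mem_filter, Finset.mem_univ, true_and, Finset.mem_singleton,
        Subtype.ext_iff]
      constructor
      · rintro (h | h)
        · exact h
        · exact absurd (h ▸ v.2) hq
      · intro h; exact Or.inl h
    rw [hA, e1, e2, chi_singleton, sp_true, mul_one]
  · have e1 := dec_up S c ⟨_, hq⟩
    simp only at e1
    have e2 := (dec_off S c (bp_row e) hp).1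
    have hA : bA e = {⟨_, hq⟩} := by
      ext v
      simp only [bA, Finset.mem_filter, Finset.mem_univ, true_and, Finset.mem_singleton,
        Subtype.ext_iff]
      constructor
      · rintro (h | h)
        · exact absurd (h ▸ v.2) hp
        · exact h
      · intro h; exact Or.inr h
    rw [hA, e1, e2, chi_singleton, sp_true, one_mul]
  · have e1 := (dec_off S c (bp_row e) hp).1
    have e2 := (dec_off S c (bq_row e) hq).1
    have hA : bA e = ∅ := by
      ext v
      simp only [bA, Finset.mem_filter, Finset.mem_univ, true_and, Finset.notMem_empty,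
        iff_false, not_or]
      exact ⟨fun h => hp (h ▸ v.2), fun h => hq (h ▸ v.2)⟩
    rw [hA, e1, e2, chi_empty, sp_true, one_mul]

/-- The energy of a folded bond. -/
lemma bond_id (β : ℝ) (e : BB N M) :
    β * (agr (dec S c (bp e)) (dec S c (bq e)) +
      agr (dec S c (bar (bp e))) (dec S c (bar (bq e)))) =
    β + (res bA (fun _ => β) S e * chi (bA e) c + res bA (bL β) Sᶜ e * chi (bA e) c) := by
  classical
  have hchi := chi_bA S c e
  have hP := dec_ne_iff S c (bp_row e)
  have hQ := dec_ne_iff S c (bq_row e)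
  have h1 : (bA e ⊆ S) ↔ (dec S c (bp e) ≠ dec S c (bar (bp e)) ∧
      dec S c (bq e) ≠ dec S c (bar (bq e))) := by
    rw [bA_subset_iff, hP, hQ]
  have h2 : (bA e ⊆ Sᶜ ∧ (bp e ∈ ubox N M ∧ bq e ∈ ubox N M)) ↔
      (dec S c (bp e) = dec S c (bar (bp e)) ∧ dec S c (bq e) = dec S c (bar (bq e))) := by
    rw [bA_subset_iff, ← not_ne_iff, ← not_ne_iff (a := dec S c (bq e)), hP, hQ]
    constructor
    · rintro ⟨⟨h3, h4⟩, h5, h6⟩
      constructor
      · intro h
        have := h3 ⟨_, h5⟩ rfl
        rw [Finset.mem_compl] at this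
        exact this (h ⟨_, h5⟩ rfl)
      · intro h
        have := h4 ⟨_, h6⟩ rfl
        rw [Finset.mem_compl] at this
        exact this (h ⟨_, h6⟩ rfl)
    · rintro ⟨h3, h4⟩
      push Not at h3 h4
      obtain ⟨v, hv, hvS⟩ := h3
      obtain ⟨w, hw, hwS⟩ := h4
      refine ⟨⟨fun v' hv' => ?_, fun w' hw' => ?_⟩, hv ▸ v.2, hw ▸ w.2⟩
      · rw [show v' = v from Subtype.ext (hv'.trans hv.symm), Finset.mem_compl]; exact hvS
      · rw [show w' = w from Subtype.ext (hw'.trans hw.symm), Finset.mem_compl]; exact hwS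
  rw [agr_id, ← hchi]
  have r1 : res bA (fun _ => β) S e = if (dec S c (bp e) ≠ dec S c (bar (bp e)) ∧
      dec S c (bq e) ≠ dec S c (bar (bq e))) then β else 0 := by
    unfold res
    simp only [h1]
  have r2 : res bA (bL β) Sᶜ e = if (dec S c (bp e) = dec S c (bar (bp e)) ∧
      dec S c (bq e) = dec S c (bar (bq e))) then β else 0 := by
    unfold res bL
    simp only [← h2]
    by_cases ha : bA e ⊆ Sᶜ <;> by_cases hb : bp e ∈ ubox N M ∧ bq e ∈ ubox N M <;>
      simp [ha, hb]
  rw [r1, r2]
  split_ifs <;> ring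

/-- Weight of the set `S` coming from the defect line. -/
noncomputable def rho (β J : ℝ) (S : Finset (VV N M)) : ℝ :=
  Real.exp (β * (J * ∑ v : VV N M, if v.1.2 = 1 ∧ v ∉ S then (1 : ℝ) else 0))

lemma rho_pos (β J : ℝ) : 0 < rho β J S := Real.exp_pos _

lemma rho_holley {β J J' : ℝ} (hβ : 0 ≤ β) (hJ : J' ≤ J) (S T : Finset (VV N M)) :
    rho β J' S * rho β J T ≤ rho β J (S ∩ T) * rho β J' (S ∪ T) := by
  unfold rho
  rw [← Real.exp_add, ← Real.exp_add]
  apply Real.exp_le_exp.2
  rw [← mul_add, ← mul_add]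
  refine mul_le_mul_of_nonneg_left ?_ hβ
  rw [Finset.mul_sum, Finset.mul_sum, Finset.mul_sum, Finset.mul_sum, ← Finset.sum_add_distrib,
    ← Finset.sum_add_distrib]
  refine Finset.sum_le_sum fun v _ => ?_
  by_cases h1 : v.1.2 = 1 <;> by_cases h2 : v ∈ S <;> by_cases h3 : v ∈ T <;>
    simp [h1, h2, h3] <;> linarith

lemma row_sum (hM : 1 ≤ M) :
    ∑ x ∈ Finset.Icc (-N) N, agr (dec S c (x, 0)) (dec S c (x, 1)) =
      ∑ v : VV N M, if v.1.2 = 1 ∧ v ∉ S then (1 : ℝ) else 0 := by
  classical
  have h1 : ∀ v : VV N M, (if v.1.2 = 1 ∧ v ∉ S then (1 : ℝ) else 0) =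
      if v.1.2 = 1 then agr (dec S c (bar v.1)) (dec S c v.1) else 0 := by
    intro v
    by_cases hv : v.1.2 = 1
    · rw [dec_up, dec_bar]
      by_cases hS : v ∈ S
      · simp [hv, hS, agr]
      · simp [hv, hS, agr]
    · simp [hv]
  simp_rw [h1]
  rw [Finset.sum_coe_sort (ubox N M)
    (fun i : Site => if i.2 = 1 then agr (dec S c (bar i)) (dec S c i) else 0), ubox,
    Finset.sum_product]
  refine Finset.sum_congr rfl fun x _ => ?_
  rw [Finset.sum_ite_eq']
  have : (1 : ℤ) ∈ Finset.Icc 1 M := by simp [hM]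
  rw [if_pos this]
  simp [bar]

/-- The Boltzmann weight in the folded description. -/
lemma wg_dec (hM : 1 ≤ M) (β J : ℝ) :
    wg β (kap J) (box N M) (dec S c) =
      Real.exp (β * (Fintype.card (BB N M) : ℝ)) * (rho β J S *
        (wt bA (res bA (fun _ => β) S) c * wt bA (res bA (bL β) Sᶜ) c)) := by
  unfold wg wt rho
  rw [← Real.exp_add, ← Real.exp_add, ← Real.exp_add]
  congr 1
  rw [en_fold hM, row_sum S c hM, mul_add, Finset.mul_sum]
  simp_rw [bond_id S c β]
  rw [Finset.sum_add_distrib, Finset.sum_add_distrib]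
  simp only [Finset.sum_const, Finset.card_univ, nsmul_eq_mul]
  ring

end decode

end Pool.Agent.Helper49.DL
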