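import Pool.Agent.Helper49.DL.Fold2

/-!
Correlation inequalities for the Dobrushin state in the symmetric box.
-/

open Finset

namespace Pool.Agent.Helper49.DL

/-- The antisymmetrised spin. -/
noncomputable def yv (i : Site) (ω : Cfg) : ℝ := (sp (ω i) - sp (ω (bar i))) / 2

section

variable {N M : ℤ}

/-- Indicator that the configuration has the Dobrushin pattern on `F` and its mirror image. -/
noncomputable def indF (F : Finset (VV N M)) (ω : Cfg) : ℝ :=
  if ∀ v ∈ F, ω v.1 = true ∧ ω (bar v.1) = false then 1 else 0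

lemma yv_dec (S : Finset (VV N M)) (c : VV N M → Bool) (v : VV N M) :
    yv v.1 (dec S c) = if v ∈ S then sp (c v) else 0 := by
  unfold yv
  rw [dec_up, dec_bar]
  by_cases h : v ∈ S
  · simp only [h, if_true, sp_not]; ring
  · simp only [h, if_false]; ring

lemma indF_dec (F S : Finset (VV N M)) (c : VV N M → Bool) :
    indF F (dec S c) = if F ⊆ S then frc F c / 2 ^ F.card else 0 := by
  classical
  unfold indF
  by_cases hFS : F ⊆ S
  · rw [if_pos hFS]
    by_cases hc : ∀ v ∈ F, c v = true
    · rw [if_pos, frc]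
      · have : ∀ w ∈ F, (1 + sp (c w) : ℝ) = 2 := by
          intro w hw; rw [hc w hw, sp_true]; norm_num
        rw [Finset.prod_congr rfl this, Finset.prod_const, div_self]
        positivity
      · intro v hv
        rw [dec_up, dec_bar, if_pos (hFS hv), hc v hv]
        simp
    · rw [if_neg, frc]
      · push Not at hc
        obtain ⟨w, hw, hcw⟩ := hc
        rw [Finset.prod_eq_zero hw, zero_div]
        have : c w = false := by simpa using hcw
        rw [this, sp_false]; norm_num
      · intro h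
        apply hc
        intro v hv
        have := (h v hv).1
        rwa [dec_up] at this
  · rw [if_neg hFS, if_neg]
    intro h
    apply hFS
    intro v hv
    obtain ⟨h1, h2⟩ := h v hv
    rw [dec_up] at h1
    rw [dec_bar] at h2
    by_contra hS
    rw [if_neg hS, h1] at h2
    exact absurd h2 (by simp)

/-- The constant relating the two descriptions. -/
noncomputable def KF (β : ℝ) (F : Finset (VV N M)) : ℝ :=
  Real.exp (β * (Fintype.card (BB N M) : ℝ)) / 2 ^ F.card / 2 ^ (Fintype.card (VV N M))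

lemma KF_pos (β : ℝ) (F : Finset (VV N M)) : 0 < KF β F := by
  unfold KF; positivity

/-- Prior with constraints. -/
noncomputable def prior (β J : ℝ) (g : Finset (VV N M) → ℝ) (F S : Finset (VV N M)) : ℝ :=
  if F ⊆ S then rho β J S * g S else 0

/-- Abbreviation for the folded sum. -/
noncomputable def TT (β J : ℝ) (g : Finset (VV N M) → ℝ) (F B : Finset (VV N M)) : ℝ :=
  TL bA (fun _ => β) (bL β) (prior β J g F) F B

lemma Zg_fold_one (hM : 1 ≤ M) (β J : ℝ) (g : Finset (VV N M) → ℝ) (F : Finset (VV N M)) :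
    Zg β (kap J) (box N M) (eta 0) (fun ω => g (Sof ω) * indF F ω) = KF β F * TT β J g F ∅ := by
  classical
  unfold Zg TT TL
  rw [sum_dec, Finset.mul_sum]
  refine Finset.sum_congr rfl fun S _ => ?_
  unfold prior
  by_cases hFS : F ⊆ S
  · rw [if_pos hFS, na_mul_na bA (fun _ => β) (bL β) hFS (Finset.empty_subset S)]
    have h1 : ∀ c : VV N M → Bool, wg β (kap J) (box N M) (dec S c) *
        (g (Sof (dec S c)) * indF F (dec S c)) =
        (Real.exp (β * (Fintype.card (BB N M) : ℝ)) / 2 ^ F.card * (rho β J S * g S)) *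
        (chi ∅ c * (wt bA (res bA (fun _ => β) S) c * wt bA (res bA (bL β) Sᶜ) c * frc F c)) := by
      intro c
      rw [wg_dec S c hM, Sof_dec, indF_dec, if_pos hFS, chi_empty]
      ring
    simp_rw [h1]
    rw [← Finset.mul_sum]
    unfold KF
    have h2 : (2 : ℝ) ^ (Fintype.card (VV N M)) ≠ 0 := by positivity
    field_simp
  · rw [if_neg hFS]
    have h1 : ∀ c : VV N M → Bool, wg β (kap J) (box N M) (dec S c) *
        (g (Sof (dec S c)) * indF F (dec S c)) = 0 := by
      intro c
      rw [indF_dec, if_neg hFS]; ring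
    simp_rw [h1]
    simp

lemma Zg_fold_y (hM : 1 ≤ M) (β J : ℝ) (g : Finset (VV N M) → ℝ) (F : Finset (VV N M))
    (v : VV N M) :
    Zg β (kap J) (box N M) (eta 0) (fun ω => g (Sof ω) * (indF F ω * yv v.1 ω)) =
      KF β F * TT β J g F {v} := by
  classical
  unfold Zg TT TL
  rw [sum_dec, Finset.mul_sum]
  refine Finset.sum_congr rfl fun S _ => ?_
  unfold prior
  by_cases hFS : F ⊆ S
  · rw [if_pos hFS]
    by_cases hv : v ∈ S
    · rw [na_mul_na bA (fun _ => β) (bL β) hFS (Finset.singleton_subset_iff.2 hv)]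
      have h1 : ∀ c : VV N M → Bool, wg β (kap J) (box N M) (dec S c) *
          (g (Sof (dec S c)) * (indF F (dec S c) * yv v.1 (dec S c))) =
          (Real.exp (β * (Fintype.card (BB N M) : ℝ)) / 2 ^ F.card * (rho β J S * g S)) *
          (chi {v} c *
            (wt bA (res bA (fun _ => β) S) c * wt bA (res bA (bL β) Sᶜ) c * frc F c)) := by
        intro c
        rw [wg_dec S c hM, Sof_dec, indF_dec, if_pos hFS, yv_dec, if_pos hv, chi_singleton]
        ring
      simp_rw [h1]
      rw [← Finset.mul_sum]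
      unfold KF
      have h2 : (2 : ℝ) ^ (Fintype.card (VV N M)) ≠ 0 := by positivity
      field_simp
    · rw [na_eq_zero bA (fun _ => β) hFS (by rwa [Finset.singleton_subset_iff])]
      have h1 : ∀ c : VV N M → Bool, wg β (kap J) (box N M) (dec S c) *
          (g (Sof (dec S c)) * (indF F (dec S c) * yv v.1 (dec S c))) = 0 := by
        intro c
        rw [yv_dec, if_neg hv]; ring
      simp_rw [h1]
      simp
  · rw [if_neg hFS]
    have h1 : ∀ c : VV N M → Bool, wg β (kap J) (box N M) (dec S c) *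
        (g (Sof (dec S c)) * (indF F (dec S c) * yv v.1 (dec S c))) = 0 := by
      intro c
      rw [indF_dec, if_neg hFS]; ring
    simp_rw [h1]
    simp

lemma bL_nonneg {β : ℝ} (hβ : 0 ≤ β) (e : BB N M) : 0 ≤ bL β e := by
  unfold bL; split_ifs
  · exact hβ
  · exact le_rfl

/-- Comparison of two-layer sums. -/
lemma TT_compare {β J J' : ℝ} (hβ : 0 ≤ β) (hJ : J' ≤ J) {g g' : Finset (VV N M) → ℝ}
    (hg : ∀ S, 0 ≤ g S) (hg' : ∀ S, 0 ≤ g' S)
    (hgg : ∀ S T, g' S * g T ≤ g (S ∩ T) * g' (S ∪ T)) {F F' : Finset (VV N M)} (hF : F ⊆ F')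
    (B : Finset (VV N M)) :
    TT β J' g' F' ∅ * TT β J g F B ≤ TT β J g F ∅ * TT β J' g' F' B := by
  classical
  refine core bA (fun _ => hβ) (fun _ => le_rfl) (bL_nonneg hβ) ?_ ?_ ?_ hF B
  · intro S; unfold prior; split_ifs
    · exact mul_nonneg (rho_pos _ _ _).le (hg S)
    · exact le_rfl
  · intro S; unfold prior; split_ifs
    · exact mul_nonneg (rho_pos _ _ _).le (hg' S)
    · exact le_rfl
  · intro S T
    unfold prior
    by_cases h1 : F' ⊆ S <;> by_cases h2 : F ⊆ T
    · have h3 : F ⊆ S ∩ T := Finset.subset_inter (hF.trans h1) h2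
      have h4 : F' ⊆ S ∪ T := h1.trans Finset.subset_union_left
      rw [if_pos h1, if_pos h2, if_pos h3, if_pos h4]
      calc rho β J' S * g' S * (rho β J T * g T) =
          (rho β J' S * rho β J T) * (g' S * g T) := by ring
        _ ≤ (rho β J (S ∩ T) * rho β J' (S ∪ T)) * (g (S ∩ T) * g' (S ∪ T)) :=
          mul_le_mul (rho_holley hβ hJ S T) (hgg S T) (mul_nonneg (hg' S) (hg T))
            (mul_nonneg (rho_pos _ _ _).le (rho_pos _ _ _).le)
        _ = _ := by ring
    · rw [if_neg h2, mul_zero]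
      refine mul_nonneg ?_ ?_
      · split_ifs
        · exact mul_nonneg (rho_pos _ _ _).le (hg _)
        · exact le_rfl
      · split_ifs
        · exact mul_nonneg (rho_pos _ _ _).le (hg' _)
        · exact le_rfl
    all_goals
      rw [if_neg h1, zero_mul]
      refine mul_nonneg ?_ ?_
      · split_ifs
        · exact mul_nonneg (rho_pos _ _ _).le (hg _)
        · exact le_rfl
      · split_ifs
        · exact mul_nonneg (rho_pos _ _ _).le (hg' _)
        · exact le_rfl

/-- Main comparison inequality for the Dobrushin state: smaller `J`, more constraints and a larger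
prior increase the expectation of `yv v`. -/
theorem star (hM : 1 ≤ M) {β J J' : ℝ} (hβ : 0 ≤ β) (hJ : J' ≤ J) {g g' : Finset (VV N M) → ℝ}
    (hg : ∀ S, 0 ≤ g S) (hg' : ∀ S, 0 ≤ g' S)
    (hgg : ∀ S T, g' S * g T ≤ g (S ∩ T) * g' (S ∪ T)) {F F' : Finset (VV N M)} (hF : F ⊆ F')
    (v : VV N M) :
    Zg β (kap J') (box N M) (eta 0) (fun ω => g' (Sof ω) * indF F' ω) *
      Zg β (kap J) (box N M) (eta 0) (fun ω => g (Sof ω) * (indF F ω * yv v.1 ω)) ≤
    Zg β (kap J) (box N M) (eta 0) (fun ω => g (Sof ω) * indF F ω) *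
      Zg β (kap J') (box N M) (eta 0) (fun ω => g' (Sof ω) * (indF F' ω * yv v.1 ω)) := by
  rw [Zg_fold_one hM, Zg_fold_one hM, Zg_fold_y hM, Zg_fold_y hM]
  have h := TT_compare hβ hJ hg hg' hgg hF {v}
  have k1 := KF_pos β F
  have k2 := KF_pos β F'
  calc KF β F' * TT β J' g' F' ∅ * (KF β F * TT β J g F {v}) =
      (KF β F * KF β F') * (TT β J' g' F' ∅ * TT β J g F {v}) := by ring
    _ ≤ (KF β F * KF β F') * (TT β J g F ∅ * TT β J' g' F' {v}) :=
      mul_le_mul_of_nonneg_left h (mul_pos k1 k2).le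
    _ = _ := by ring

/-- First inequality: the expectation of `yv v` is nonnegative. -/
theorem Zg_y_nonneg (hM : 1 ≤ M) {β J : ℝ} (hβ : 0 ≤ β) {g : Finset (VV N M) → ℝ}
    (hg : ∀ S, 0 ≤ g S) (F : Finset (VV N M)) (v : VV N M) :
    0 ≤ Zg β (kap J) (box N M) (eta 0) (fun ω => g (Sof ω) * (indF F ω * yv v.1 ω)) := by
  rw [Zg_fold_y hM]
  refine mul_nonneg (KF_pos β F).le ?_
  unfold TT TL
  refine Finset.sum_nonneg fun S _ => mul_nonneg ?_ (mul_nonneg ?_ ?_)
  · unfold prior; split_ifs
    · exact mul_nonneg (rho_pos _ _ _).le (hg S)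
    · exact le_rfl
  · exact na_nonneg bA (fun _ => hβ) _ _ _
  · exact na_nonneg bA (bL_nonneg hβ) _ _ _

end

end Pool.Agent.Helper49.DL
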