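import Pool.Agent.Helper49.DL.Plus

/-!
The cost `TS` of a boundary condition (logarithm of the ratio of the partition functions with the
all-`true` boundary condition and with the boundary condition `η`), and the freezing inequality.

Paper proof of `freeze` (block DL-FZ). Put `F = Λ \ Λ'` and let `τ ∈ confs Λ η`.
(1) For every `ζ ∈ confs Λ η'` (any `η'`), `confs Λ' ζ = {ω ∈ confs Λ η' | ω = ζ on F}` and for such
    `ω` one has `wg β κ Λ ω = exp (β * enD κ Λ Λ' ζ) * wg β κ Λ' ω` (split the sums over `hb Λ`,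
    `vb Λ` with `Finset.sum_sdiff`; bonds in `hb Λ \ hb Λ'` have both endpoints off `Λ'`).
    Hence `Zg β κ Λ η' (indicator of ω = ζ on F) = exp (β * enD κ Λ Λ' ζ) * Zg β κ Λ' ζ (fun _ => 1)`.
(2) The indicator of `ω = ζ on F` is `∏_{i ∈ F} (1 + sp (ζ i) * sp (ω i)) / 2 =
    2^(-|F|) ∑_{A ⊆ F} ch A ζ * ch A ω` (`Finset.prod_one_add` / `Finset.prod_add`).
(3) By `abs_avg_le` (Plus.lean) `avg η (ch A) * ch A τ ≤ |avg η (ch A)| ≤ avg tt (ch A)`, so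
    `avg β κ Λ η (ω = τ on F) ≤ avg β κ Λ tt (ω = true on F)`.
(4) With (1): `exp (β enD τ) * Zg Λ' τ 1 / Zg Λ η 1 ≤ exp (β enD tt) * Zg Λ' tt 1 / Zg Λ tt 1`; take
    logarithms.
-/

open Finset
open scoped Classical

namespace Pool.Agent.Helper49.DL

/-- Energy of the bonds which meet `Λ` but not `Λ'`. -/
noncomputable def enD (κ : Site → ℝ) (Λ Λ' : Finset Site) (ω : Cfg) : ℝ :=
  ∑ i ∈ hb Λ \ hb Λ', agr (ω i) (ω (i + e1)) +
    ∑ i ∈ vb Λ \ vb Λ', κ i * agr (ω i) (ω (i + e2))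

/-- Cost of the boundary condition `η`. -/
noncomputable def TS (β : ℝ) (κ : Site → ℝ) (Λ : Finset Site) (η : Cfg) : ℝ :=
  Real.log (Zg β κ Λ tt (fun _ => 1)) - Real.log (Zg β κ Λ η (fun _ => 1))

/-- The cost is nonnegative: `Zg η 1 ≤ Zg tt 1`. (Use `compare` from Cone.lean with `J1 = J2 = 0`,
`D = lJ β κ tt`, `D' = lJ β κ η`, `B = ∅`, and `Zg_one_eq`, `lJ_le` from Plus.lean.) -/
theorem TS_nonneg {β : ℝ} (hβ : 0 ≤ β) {κ : Site → ℝ} (hκ : ∀ i, 0 ≤ κ i) (Λ : Finset Site)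
    (η : Cfg) : 0 ≤ TS β κ Λ η := by
  have h1 := compare (lA (Λ := Λ)) (J1 := fun _ => 0) (J2 := fun _ => 0) (D := lJ β κ tt)
    (D' := lJ β κ η) (fun _ => by simp) (fun e => lJ_le hβ hκ (fun _ => le_rfl) η e)
    (Finset.Subset.refl ∅) ∅
  simp only [zero_add] at h1
  have h0 := NN_empty_pos (lA (Λ := Λ)) (fun _ => (0 : ℝ)) ∅
  have h2 : PN Λ β κ η ∅ ≤ PN Λ β κ tt ∅ := le_of_mul_le_mul_left h1 h0
  have h3 : Zg β κ Λ η (fun _ => 1) ≤ Zg β κ Λ tt (fun _ => 1) := by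
    rw [Zg_one_eq, Zg_one_eq]
    exact mul_le_mul_of_nonneg_left h2 (lK_pos β κ).le
  unfold TS
  exact sub_nonneg.mpr (Real.log_le_log Zg_one_pos h3)

private lemma en_split50 {κ : Site → ℝ} {Λ Λ' : Finset Site} (hΛ : Λ' ⊆ Λ) {ζ ω : Cfg}
    (h : ω ∈ confs Λ' ζ) : en κ Λ ω = enD κ Λ Λ' ζ + en κ Λ' ω := by
  rw [mem_confs] at h
  have hh : hb Λ' ⊆ hb Λ := by
    intro i hi; rw [mem_hb] at *
    rcases hi with hi | hi
    · exact Or.inl (hΛ hi)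
    · exact Or.inr (hΛ hi)
  have hv : vb Λ' ⊆ vb Λ := by
    intro i hi; rw [mem_vb] at *
    rcases hi with hi | hi
    · exact Or.inl (hΛ hi)
    · exact Or.inr (hΛ hi)
  have t1 : ∑ i ∈ hb Λ \ hb Λ', agr (ω i) (ω (i + e1)) =
      ∑ i ∈ hb Λ \ hb Λ', agr (ζ i) (ζ (i + e1)) := by
    refine Finset.sum_congr rfl fun i hi => ?_
    rw [Finset.mem_sdiff, mem_hb (Λ := Λ')] at hi
    push Not at hi
    rw [h _ hi.2.1, h _ hi.2.2]
  have t2 : ∑ i ∈ vb Λ \ vb Λ', κ i * agr (ω i) (ω (i + e2)) =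
      ∑ i ∈ vb Λ \ vb Λ', κ i * agr (ζ i) (ζ (i + e2)) := by
    refine Finset.sum_congr rfl fun i hi => ?_
    rw [Finset.mem_sdiff, mem_vb (Λ := Λ')] at hi
    push Not at hi
    rw [h _ hi.2.1, h _ hi.2.2]
  unfold en enD
  rw [← Finset.sum_sdiff hh, ← Finset.sum_sdiff hv, t1, t2]
  ring

private lemma Zg_ind50 {β : ℝ} {κ : Site → ℝ} {Λ Λ' : Finset Site} (hΛ : Λ' ⊆ Λ) {η' ζ : Cfg}
    (hζ : ζ ∈ confs Λ η') :
    Zg β κ Λ η' (fun ω => if ω ∈ confs Λ' ζ then 1 else 0) =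
      Real.exp (β * enD κ Λ Λ' ζ) * Zg β κ Λ' ζ (fun _ => 1) := by
  have hsub : confs Λ' ζ ⊆ confs Λ η' := by
    intro ω hω
    rw [mem_confs] at *
    intro i hi
    rw [hω i (fun h => hi (hΛ h)), hζ i hi]
  unfold Zg
  rw [Finset.mul_sum]
  have h1 : ∑ ω ∈ confs Λ η', wg β κ Λ ω * (if ω ∈ confs Λ' ζ then (1 : ℝ) else 0) =
      ∑ ω ∈ confs Λ' ζ, wg β κ Λ ω * (if ω ∈ confs Λ' ζ then (1 : ℝ) else 0) := by
    refine (Finset.sum_subset hsub fun ω _ hω => ?_).symm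
    rw [if_neg hω, mul_zero]
  rw [h1]
  refine Finset.sum_congr rfl fun ω hω => ?_
  rw [if_pos hω, mul_one, mul_one]
  unfold wg
  rw [← Real.exp_add, en_split50 hΛ hω]
  congr 1
  ring

private lemma ind_eq50 {Λ Λ' : Finset Site} {η' ζ ω : Cfg}
    (hζ : ζ ∈ confs Λ η') (hω : ω ∈ confs Λ η') :
    (if ω ∈ confs Λ' ζ then (1 : ℝ) else 0) =
      (1 / 2) ^ (Λ \ Λ').card * ∑ A ∈ (Λ \ Λ').powerset, ch A ζ * ch A ω := by
  have h1 : ∑ A ∈ (Λ \ Λ').powerset, ch A ζ * ch A ω =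
      ∏ i ∈ Λ \ Λ', (1 + sp (ζ i) * sp (ω i)) := by
    rw [Finset.prod_one_add]
    refine Finset.sum_congr rfl fun A _ => ?_
    unfold ch
    rw [Finset.prod_mul_distrib]
  rw [h1]
  rw [mem_confs] at hζ hω
  by_cases h : ω ∈ confs Λ' ζ
  · rw [if_pos h]
    rw [mem_confs] at h
    have h2 : ∏ i ∈ Λ \ Λ', (1 + sp (ζ i) * sp (ω i)) = 2 ^ (Λ \ Λ').card := by
      rw [← Finset.prod_const]
      refine Finset.prod_congr rfl fun i hi => ?_
      rw [Finset.mem_sdiff] at hi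
      rw [h i hi.2, sp_mul_self]
      norm_num
    rw [h2, ← mul_pow]
    norm_num
  · rw [if_neg h]
    rw [mem_confs] at h
    push Not at h
    obtain ⟨i, hi, hne⟩ := h
    have hiΛ : i ∈ Λ := by
      by_contra hc
      exact hne (by rw [hω i hc, hζ i hc])
    have h2 : ∏ i ∈ Λ \ Λ', (1 + sp (ζ i) * sp (ω i)) = 0 := by
      refine Finset.prod_eq_zero (i := i) (Finset.mem_sdiff.mpr ⟨hiΛ, hi⟩) ?_
      revert hne
      cases ζ i <;> cases ω i <;> simp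
    rw [h2, mul_zero]

private lemma avg_ind50 {β : ℝ} {κ : Site → ℝ} {Λ Λ' : Finset Site} {η' ζ : Cfg}
    (hζ : ζ ∈ confs Λ η') :
    avg β κ Λ η' (fun ω => if ω ∈ confs Λ' ζ then 1 else 0) =
      (1 / 2) ^ (Λ \ Λ').card *
        ∑ A ∈ (Λ \ Λ').powerset, ch A ζ * avg β κ Λ η' (ch A) := by
  rw [avg_congr (G := fun ω => (1 / 2) ^ (Λ \ Λ').card *
    ∑ A ∈ (Λ \ Λ').powerset, ch A ζ * ch A ω) (fun ω hω => ind_eq50 hζ hω)]
  rw [avg_smul, avg_sum]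
  congr 1
  refine Finset.sum_congr rfl fun A _ => ?_
  exact avg_smul (ch A ζ) (ch A)

private lemma ch_abs50 (A : Finset Site) (ζ : Cfg) : |ch A ζ| = 1 := by
  unfold ch
  rw [Finset.abs_prod]
  refine Finset.prod_eq_one fun i _ => ?_
  cases ζ i <;> simp

private lemma ch_tt50 (A : Finset Site) : ch A tt = 1 := by
  unfold ch tt
  exact Finset.prod_eq_one fun i _ => rfl

/-- Freezing the spins of `Λ \ Λ'` to the values of `τ`. -/
theorem freeze {β : ℝ} (hβ : 0 ≤ β) {κ : Site → ℝ} (hκ : ∀ i, 0 ≤ κ i) {Λ Λ' : Finset Site}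
    (h : Λ' ⊆ Λ) {η τ : Cfg} (hτ : τ ∈ confs Λ η) :
    TS β κ Λ η ≤ TS β κ Λ' τ + β * (enD κ Λ Λ' tt - enD κ Λ Λ' τ) := by
  have a1 : avg β κ Λ η (fun ω => if ω ∈ confs Λ' τ then 1 else 0) ≤
      avg β κ Λ tt (fun ω => if ω ∈ confs Λ' tt then 1 else 0) := by
    rw [avg_ind50 hτ, avg_ind50 (self_mem_confs Λ tt)]
    refine mul_le_mul_of_nonneg_left ?_ (by positivity)
    refine Finset.sum_le_sum fun A hA => ?_
    rw [ch_tt50, one_mul]
    have hAΛ : A ⊆ Λ := (Finset.mem_powerset.mp hA).trans Finset.sdiff_subset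
    calc ch A τ * avg β κ Λ η (ch A) ≤ |ch A τ * avg β κ Λ η (ch A)| := le_abs_self _
      _ = |avg β κ Λ η (ch A)| := by rw [abs_mul, ch_abs50, one_mul]
      _ ≤ avg β κ Λ tt (ch A) := abs_avg_le hβ hκ (fun _ => le_rfl) η hAΛ
  unfold avg at a1
  rw [Zg_ind50 h hτ, Zg_ind50 h (self_mem_confs Λ tt)] at a1
  have p1 : 0 < Zg β κ Λ η (fun _ => 1) := Zg_one_pos
  have p2 : 0 < Zg β κ Λ tt (fun _ => 1) := Zg_one_pos
  have p3 : 0 < Zg β κ Λ' τ (fun _ => 1) := Zg_one_pos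
  have p4 : 0 < Zg β κ Λ' tt (fun _ => 1) := Zg_one_pos
  have a2 := Real.log_le_log (div_pos (mul_pos (Real.exp_pos _) p3) p1) a1
  rw [Real.log_div (mul_pos (Real.exp_pos _) p3).ne' p1.ne',
    Real.log_div (mul_pos (Real.exp_pos _) p4).ne' p2.ne',
    Real.log_mul (Real.exp_pos _).ne' p3.ne', Real.log_mul (Real.exp_pos _).ne' p4.ne',
    Real.log_exp, Real.log_exp] at a2
  unfold TS
  linarith

end Pool.Agent.Helper49.DL
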