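import Pool.Agent.Helper49.DL.Deloc

/-!
Odd increasing functions have nonnegative mean in a ferromagnet with positive fields; odd
correlations of the Dobrushin state.
-/

open Finset

namespace Pool.Agent.Helper49.DL

section

variable {V ι : Type*} [Fintype V] [DecidableEq V] [Fintype ι]

/-- Global flip. -/
def neg (c : V → Bool) : V → Bool := fun v => !(c v)

omit [Fintype V] [DecidableEq V] in
lemma neg_neg (c : V → Bool) : neg (neg c) = c := by funext v; simp [neg]

omit [Fintype V] in
lemma chi_neg (A : Finset V) (c : V → Bool) : chi A (neg c) = (-1) ^ A.card * chi A c := by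
  unfold chi neg
  rw [← Finset.prod_const, ← Finset.prod_mul_distrib]
  refine Finset.prod_congr rfl fun v _ => ?_
  rw [sp_not]; ring

lemma sp_inf_sup (a b a' b' : Bool) :
    sp a * sp b + sp a' * sp b' ≤ sp (a ⊓ a') * sp (b ⊓ b') + sp (a ⊔ a') * sp (b ⊔ b') := by
  cases a <;> cases b <;> cases a' <;> cases b' <;> simp [sp] <;> norm_num

lemma sp_inf_sup_one (a a' : Bool) : sp a + sp a' = sp (a ⊓ a') + sp (a ⊔ a') := by
  cases a <;> cases a' <;> simp [sp] <;> norm_num

omit [Fintype V] in
lemma chi_super {A : Finset V} (hA : A.card ≤ 2) (c c' : V → Bool) :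
    chi A c + chi A c' ≤ chi A (c ⊓ c') + chi A (c ⊔ c') := by
  interval_cases h : A.card
  · rw [Finset.card_eq_zero] at h
    subst h
    simp [chi_empty]
  · rw [Finset.card_eq_one] at h
    obtain ⟨v, rfl⟩ := h
    simp only [chi_singleton, Pi.inf_apply, Pi.sup_apply]
    exact (sp_inf_sup_one _ _).le
  · rw [Finset.card_eq_two] at h
    obtain ⟨v, w, hvw, rfl⟩ := h
    unfold chi
    rw [Finset.prod_pair hvw, Finset.prod_pair hvw, Finset.prod_pair hvw, Finset.prod_pair hvw]
    exact sp_inf_sup _ _ _ _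

/-- FKG lattice condition for ferromagnetic pair interactions. -/
lemma wt_super (A : ι → Finset V) {J : ι → ℝ} (hJ : ∀ i, 0 ≤ J i) (hA : ∀ i, J i ≠ 0 → (A i).card ≤ 2)
    (c c' : V → Bool) : wt A J c * wt A J c' ≤ wt A J (c ⊓ c') * wt A J (c ⊔ c') := by
  unfold wt
  rw [← Real.exp_add, ← Real.exp_add]
  apply Real.exp_le_exp.2
  rw [← Finset.sum_add_distrib, ← Finset.sum_add_distrib]
  refine Finset.sum_le_sum fun i _ => ?_
  rw [← mul_add, ← mul_add]
  by_cases h : J i = 0
  · rw [h]; simp
  · exact mul_le_mul_of_nonneg_left (chi_super (hA i h) c c') (hJ i)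

omit [Fintype V] [DecidableEq V] in
lemma sp_mono {a b : Bool} (h : a ≤ b) : sp a ≤ sp b := by
  cases a <;> cases b
  · exact le_rfl
  · simp [sp]
  · exact absurd h (by decide)
  · exact le_rfl

omit [Fintype V] [DecidableEq V] in
lemma sp_lt {a b : Bool} (h : a ≤ b) (hne : a ≠ b) : sp a + 2 ≤ sp b := by
  cases a <;> cases b
  · exact absurd rfl hne
  · simp [sp]; norm_num
  · exact absurd h (by decide)
  · exact absurd rfl hne

/-- An odd increasing function has nonnegative mean. -/
theorem odd_incr (A : ι → Finset V) {J : ι → ℝ} (hJ : ∀ i, 0 ≤ J i)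
    (hA : ∀ i, J i ≠ 0 → (A i).card ≤ 2) {f : (V → Bool) → ℝ} (hf : Monotone f)
    (hodd : ∀ c, f (neg c) = - f c) : 0 ≤ ∑ c, f c * wt A J c := by
  classical
  -- split the interactions
  set J2 : ι → ℝ := fun i => if Even (A i).card then J i else 0 with hJ2
  set J1 : ι → ℝ := fun i => if Even (A i).card then 0 else J i with hJ1
  have hJ2n : ∀ i, 0 ≤ J2 i := fun i => by
    simp only [hJ2]; split_ifs
    · exact hJ i
    · exact le_rfl
  have hJ1n : ∀ i, 0 ≤ J1 i := fun i => by
    simp only [hJ1]; split_ifs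
    · exact le_rfl
    · exact hJ i
  have hsplit : ∀ c, wt A J c = wt A J2 c * wt A J1 c := by
    intro c
    rw [← wt_add]
    congr 1
    funext i
    simp only [hJ2, hJ1]
    split_ifs <;> simp
  have hA2 : ∀ i, J2 i ≠ 0 → (A i).card ≤ 2 := by
    intro i h
    simp only [hJ2] at h
    split_ifs at h with he
    · exact hA i h
    · exact absurd rfl h
  have heven : ∀ c, wt A J2 (neg c) = wt A J2 c := by
    intro c
    unfold wt
    congr 1
    refine Finset.sum_congr rfl fun i _ => ?_
    simp only [hJ2]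
    split_ifs with he
    · rw [chi_neg, he.neg_one_pow, one_mul]
    · simp
  have hmono1 : Monotone (wt A J1) := by
    intro c c' hcc
    unfold wt
    apply Real.exp_le_exp.2
    refine Finset.sum_le_sum fun i _ => ?_
    by_cases h0 : J1 i = 0
    · rw [h0]; simp
    · have h1 : ¬ Even (A i).card := by
        intro he; apply h0; simp only [hJ1]; rw [if_pos he]
      have h2 : J i ≠ 0 := by
        intro hz; apply h0; simp only [hJ1]; rw [if_neg h1]; exact hz
      have h3 := hA i h2
      have h4 : (A i).card = 1 := by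
        interval_cases h : (A i).card
        · exact absurd (by decide) h1
        · rfl
        · exact absurd (by decide) h1
      obtain ⟨v, hv⟩ := Finset.card_eq_one.1 h4
      rw [hv, chi_singleton, chi_singleton]
      exact mul_le_mul_of_nonneg_left (sp_mono (hcc v)) (hJ1n i)
  -- bound for f
  obtain ⟨C, hC⟩ : ∃ C : ℝ, ∀ c, 0 ≤ f c + C := by
    refine ⟨∑ c, |f c|, fun c => ?_⟩
    have h1 : |f c| ≤ ∑ c, |f c| :=
      Finset.single_le_sum (f := fun c => |f c|) (fun c _ => abs_nonneg _) (Finset.mem_univ c)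
    have h2 := neg_abs_le (f c)
    linarith
  have hfkg := fkg (μ := wt A J2) (f := fun c => f c + C) (g := wt A J1)
    (fun c => (wt_pos A J2 c).le) (fun c => hC c) (fun c => (wt_pos A J1 c).le)
    (fun c c' h => by have := hf h; linarith) hmono1
    (fun c c' => wt_super A hJ2n hA2 c c')
  have hzero : ∑ c, wt A J2 c * f c = 0 := by
    have h1 : ∑ c, wt A J2 c * f c = ∑ c, wt A J2 (neg c) * f (neg c) :=
      (Fintype.sum_equiv ⟨neg, neg, neg_neg, neg_neg⟩ _ _ (fun c => rfl)).symm
    have h2 : ∑ c, wt A J2 (neg c) * f (neg c) = - ∑ c, wt A J2 c * f c := by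
      rw [← Finset.sum_neg_distrib]
      refine Finset.sum_congr rfl fun c _ => ?_
      rw [heven, hodd]; ring
    linarith
  have e1' : ∑ a, wt A J2 a * (f a + C) = C * ∑ a, wt A J2 a := by
    rw [Finset.mul_sum, ← add_zero (∑ i, C * wt A J2 i), ← hzero, ← Finset.sum_add_distrib]
    refine Finset.sum_congr rfl fun c _ => ?_
    ring
  have e2' : ∑ a, wt A J2 a * ((f a + C) * wt A J1 a) =
      ∑ c, f c * wt A J c + C * ∑ a, wt A J2 a * wt A J1 a := by
    rw [Finset.mul_sum, ← Finset.sum_add_distrib]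
    refine Finset.sum_congr rfl fun c _ => ?_
    rw [hsplit]; ring
  rw [e1', e2'] at hfkg
  have hpos : 0 < ∑ a, wt A J2 a :=
    Finset.sum_pos (fun c _ => wt_pos A J2 c) ⟨fun _ => true, Finset.mem_univ _⟩
  have h3 : 0 ≤ (∑ a, wt A J2 a) * ∑ c, f c * wt A J c := by nlinarith [hfkg]
  exact nonneg_of_mul_nonneg_right h3 hpos

omit [Fintype V] [DecidableEq V] in
lemma chi_abs (D : Finset V) (c : V → Bool) : |chi D c| = 1 := by
  rcases chi_cases D c with h | h <;> rw [h] <;> norm_num

/-- Odd correlations are bounded by the sum of the one point functions. -/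
theorem odd_bound (A : ι → Finset V) {J : ι → ℝ} (hJ : ∀ i, 0 ≤ J i)
    (hA : ∀ i, J i ≠ 0 → (A i).card ≤ 2) {D : Finset V} (hD : Odd D.card) {s : ℝ} (hs : |s| ≤ 1) :
    ∑ c, (s * chi D c) * wt A J c ≤ ∑ v ∈ D, ∑ c, sp (c v) * wt A J c := by
  have hmono : Monotone (fun c : V → Bool => ∑ v ∈ D, sp (c v) - s * chi D c) := by
    intro c c' hcc
    by_cases h : ∀ v ∈ D, c v = c' v
    · have h1 : chi D c = chi D c' := chi_dep (Finset.Subset.refl D) c c' h
      have h2 : ∑ v ∈ D, sp (c v) = ∑ v ∈ D, sp (c' v) :=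
        Finset.sum_congr rfl fun v hv => by rw [h v hv]
      simp only [h1, h2, le_refl]
    · push Not at h
      obtain ⟨w, hw, hne⟩ := h
      have h1 : ∑ v ∈ D, sp (c v) + 2 ≤ ∑ v ∈ D, sp (c' v) := by
        rw [← Finset.add_sum_erase D _ hw, ← Finset.add_sum_erase D (fun v => sp (c' v)) hw]
        have h2 : sp (c w) + 2 ≤ sp (c' w) := sp_lt (hcc w) hne
        have h3 : ∑ v ∈ D.erase w, sp (c v) ≤ ∑ v ∈ D.erase w, sp (c' v) :=
          Finset.sum_le_sum fun v _ => sp_mono (hcc v)
        linarith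
      have h2 : s * chi D c' - s * chi D c ≤ 2 := by
        have h3 : |s * chi D c' - s * chi D c| ≤ 2 := by
          refine (abs_sub _ _).trans ?_
          rw [abs_mul, abs_mul, chi_abs, chi_abs]
          linarith
        exact (abs_le.1 h3).2
      simp only
      linarith
  have hodd : ∀ c : V → Bool, (fun c : V → Bool => ∑ v ∈ D, sp (c v) - s * chi D c) (neg c) =
      - (fun c : V → Bool => ∑ v ∈ D, sp (c v) - s * chi D c) c := by
    intro c
    simp only
    rw [chi_neg, hD.neg_one_pow]
    have : ∑ v ∈ D, sp (neg c v) = - ∑ v ∈ D, sp (c v) := by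
      rw [← Finset.sum_neg_distrib]
      refine Finset.sum_congr rfl fun v _ => ?_
      simp [neg, sp_not]
    rw [this]; ring
  have h := odd_incr A hJ hA hmono hodd
  have e : ∑ c : V → Bool, (∑ v ∈ D, sp (c v) - s * chi D c) * wt A J c =
      ∑ v ∈ D, ∑ c, sp (c v) * wt A J c - ∑ c, (s * chi D c) * wt A J c := by
    rw [Finset.sum_comm, ← Finset.sum_sub_distrib]
    refine Finset.sum_congr rfl fun c _ => ?_
    rw [sub_mul, Finset.sum_mul]
  linarith

end

end Pool.Agent.Helper49.DL
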