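import Pool.Agent.Helper49.DL.Explore
import Pool.Agent.Helper49.DL.Odd

/-!
Block DL2-G1: Ginibre inequalities for the `true` phase and the system with couplings reversed on a set
of bonds `γ`, and the lower bound for a line of bonds from boundary to boundary.

Paper proof of `gin`. Couplings `K = sJ β κ ∅ ≥ |sJ β κ γ| = K'`, both on `LV Λ` with sets `lA e`. For
`P, Q ⊆ LV Λ` and signs `ε₁, ε₂ = ±1`:
`0 ≤ ∑_s ∑_t (chi P s + ε₁ chi P t) (chi Q s + ε₂ chi Q t) wt lA K s wt lA K' t`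
(`dup_nonneg`, `cone_mul`, `Dom` machinery of Cone.lean: `wt K s * wt K' (s τ)` is in the cone, as in the
proof of `compare`; `chi P s + ε chi P (s τ) = chi P s (1 + ε chi P τ)`, nonnegative multiple of `chi P`).
Expanding and dividing by `QN ∅ ∅ * QN γ ∅`, with `q P = QN ∅ P / QN ∅ ∅`, `q' P = QN γ P / QN γ ∅` and
`chi P * chi Q = chi (P ∆ Q)`: `q (P ∆ Q) + ε₁ ε₂ q' (P ∆ Q) + ε₂ q P q' Q + ε₁ q' P q Q ≥ 0`. Take
`P = sub Λ {lp e}`, `Q = sub Λ {lq e}` (disjoint, `P ∪ Q = lA e`) and the two sign choices with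
`ε₁ ε₂ = -1` if `e ∉ γ`, `ε₁ ε₂ = 1` if `e ∈ γ`.
`abs_M1_le`: the choices `Q = ∅`, `ε₂ = 1` (gives `q P ≥ |q' P|`).
-/

open Finset
open scoped Classical

namespace Pool.Agent.Helper49.DL

section

variable {Λ : Finset Site}

/-- Sign of a bond. -/
noncomputable def sg (γ : Finset (LB Λ)) (e : LB Λ) : ℝ := if e ∈ γ then -1 else 1

/-- Couplings of the `true` phase, reversed on `γ`. -/
noncomputable def sJ (β : ℝ) (κ : Site → ℝ) (γ : Finset (LB Λ)) (e : LB Λ) : ℝ :=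
  sg γ e * (β * lk κ e / 2)

/-- Character sum. -/
noncomputable def QN (β : ℝ) (κ : Site → ℝ) (γ : Finset (LB Λ)) (B : Finset (LV Λ)) : ℝ :=
  NN (lA (Λ := Λ)) (sJ β κ γ) ∅ B

/-- One-point function (equal to `1` off `Λ`). -/
noncomputable def M1 (β : ℝ) (κ : Site → ℝ) (γ : Finset (LB Λ)) (i : Site) : ℝ :=
  QN β κ γ (sub Λ {i}) / QN β κ γ ∅

/-- Bond function. -/
noncomputable def M2 (β : ℝ) (κ : Site → ℝ) (γ : Finset (LB Λ)) (e : LB Λ) : ℝ :=
  QN β κ γ (lA e) / QN β κ γ ∅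

private lemma dup52 {V ι : Type*} [Fintype V] [DecidableEq V] [Fintype ι] (A : ι → Finset V)
    {K K' : ι → ℝ} (h : ∀ i, |K' i| ≤ K i) {P Q C : Finset V} (hd : Disjoint P Q)
    (hC : P ∪ Q = C) {a b : ℝ} (ha : a = 1 ∨ a = -1) (hb : b = 1 ∨ b = -1) :
    0 ≤ NN A K ∅ C * NN A K' ∅ ∅ + b * (NN A K ∅ P * NN A K' ∅ Q) +
      a * (NN A K' ∅ P * NN A K ∅ Q) + a * b * (NN A K ∅ ∅ * NN A K' ∅ C) := by
  have hdom : ∀ (S : Finset V) {x : ℝ}, (x = 1 ∨ x = -1) → ∀ τ,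
      (fun σ => chi S σ + x * chi S (mulc σ τ)) ∈ Cone V := by
    intro S x hx τ
    rcases hx with rfl | rfl
    · convert (dom_chi S τ).2 using 1
      funext σ
      ring
    · convert (dom_chi S τ).1 using 1
      funext σ
      ring
  have key := dup_nonneg (V := V) (fun σ σ' =>
      ((wt A K σ * frc ∅ σ) * (wt A K' σ' * frc ∅ σ')) *
        ((chi P σ + a * chi P σ') * (chi Q σ + b * chi Q σ'))) (by
    intro τ
    exact cone_mul (base_cone A h (Finset.Subset.refl ∅) τ)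
      (cone_mul (hdom P ha τ) (hdom Q hb τ)))
  have hPQ : ∀ σ : V → Bool, chi P σ * chi Q σ = chi C σ := by
    intro σ
    rw [← hC]
    unfold chi
    rw [Finset.prod_union hd]
  have e : ∑ σ : V → Bool, ∑ σ' : V → Bool,
      ((wt A K σ * frc ∅ σ) * (wt A K' σ' * frc ∅ σ')) *
        ((chi P σ + a * chi P σ') * (chi Q σ + b * chi Q σ')) =
      NN A K ∅ C * NN A K' ∅ ∅ + b * (NN A K ∅ P * NN A K' ∅ Q) +
      a * (NN A K' ∅ P * NN A K ∅ Q) + a * b * (NN A K ∅ ∅ * NN A K' ∅ C) := by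
    have h1 : ∀ B B' : Finset V, NN A K ∅ B * NN A K' ∅ B' = ∑ σ : V → Bool, ∑ σ' : V → Bool,
        (chi B σ * (wt A K σ * frc ∅ σ)) * (chi B' σ' * (wt A K' σ' * frc ∅ σ')) := by
      intro B B'
      unfold NN
      rw [Finset.sum_mul_sum]
    rw [mul_comm (NN A K' ∅ P), h1, h1, h1, h1, Finset.mul_sum, Finset.mul_sum, Finset.mul_sum,
      ← Finset.sum_add_distrib, ← Finset.sum_add_distrib, ← Finset.sum_add_distrib]
    refine Finset.sum_congr rfl fun σ _ => ?_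
    rw [Finset.mul_sum, Finset.mul_sum, Finset.mul_sum,
      ← Finset.sum_add_distrib, ← Finset.sum_add_distrib, ← Finset.sum_add_distrib]
    refine Finset.sum_congr rfl fun σ' _ => ?_
    rw [chi_empty, chi_empty, ← hPQ σ, ← hPQ σ']
    ring
  rw [← e]
  exact key

private lemma sg_cases52 (γ : Finset (LB Λ)) (e : LB Λ) : sg γ e = 1 ∨ sg γ e = -1 := by
  unfold sg
  by_cases h : e ∈ γ
  · right
    rw [if_pos h]
  · left
    rw [if_neg h]

private lemma coup52 {β : ℝ} (hβ : 0 ≤ β) {κ : Site → ℝ} (hκ : ∀ i, 0 ≤ κ i) (γ : Finset (LB Λ))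
    (e : LB Λ) : |sJ β κ γ e| ≤ sJ β κ (∅ : Finset (LB Λ)) e := by
  have h0 : 0 ≤ β * lk κ e / 2 := by
    have h1 : 0 ≤ lk κ e := by
      cases e with
      | inl i => exact zero_le_one
      | inr i => exact hκ _
    positivity
  have h2 : sJ β κ (∅ : Finset (LB Λ)) e = β * lk κ e / 2 := by
    unfold sJ sg
    simp
  rw [h2]
  unfold sJ
  rcases sg_cases52 γ e with h | h <;> rw [h]
  · rw [one_mul, abs_of_nonneg h0]
  · rw [neg_one_mul, abs_neg, abs_of_nonneg h0]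

theorem gin {β : ℝ} (hβ : 0 ≤ β) {κ : Site → ℝ} (hκ : ∀ i, 0 ≤ κ i) (γ : Finset (LB Λ))
    (e : LB Λ) :
    |M1 β κ (∅ : Finset (LB Λ)) (lp e) * M1 β κ γ (lq e) -
        sg γ e * (M1 β κ γ (lp e) * M1 β κ (∅ : Finset (LB Λ)) (lq e))| ≤
      M2 β κ (∅ : Finset (LB Λ)) e - sg γ e * M2 β κ γ e := by
  have hd : Disjoint (sub Λ {lp e}) (sub Λ {lq e}) := by
    rw [Finset.disjoint_left]
    intro v hv hv'
    unfold sub at hv hv'
    simp only [Finset.mem_filter, Finset.mem_univ, true_and, Finset.mem_singleton] at hv hv'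
    exact lp_ne_lq e (hv.symm.trans hv')
  have hC : sub Λ {lp e} ∪ sub Λ {lq e} = lA e := by
    ext v
    unfold sub lA
    simp only [Finset.mem_union, Finset.mem_filter, Finset.mem_univ, true_and,
      Finset.mem_singleton]
  have hN : 0 < QN β κ (∅ : Finset (LB Λ)) ∅ := NN_empty_pos _ _ _
  have hN' : 0 < QN β κ γ ∅ := NN_empty_pos _ _ _
  have hpos : 0 < QN β κ (∅ : Finset (LB Λ)) ∅ * QN β κ γ ∅ := mul_pos hN hN'
  have key : ∀ b : ℝ, (b = 1 ∨ b = -1) →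
      0 ≤ M2 β κ (∅ : Finset (LB Λ)) e - sg γ e * M2 β κ γ e +
        b * (M1 β κ (∅ : Finset (LB Λ)) (lp e) * M1 β κ γ (lq e) -
        sg γ e * (M1 β κ γ (lp e) * M1 β κ (∅ : Finset (LB Λ)) (lq e))) := by
    intro b hb
    have ha : -(sg γ e) * b = 1 ∨ -(sg γ e) * b = -1 := by
      rcases sg_cases52 γ e with h | h <;> rcases hb with rfl | rfl <;> rw [h] <;> norm_num
    have hbb : b * b = 1 := by
      rcases hb with rfl | rfl <;> norm_num
    have h1 := dup52 (lA (Λ := Λ)) (K := sJ β κ (∅ : Finset (LB Λ))) (K' := sJ β κ γ)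
      (coup52 hβ hκ γ) hd hC ha hb
    have h2 : M2 β κ (∅ : Finset (LB Λ)) e - sg γ e * M2 β κ γ e +
        b * (M1 β κ (∅ : Finset (LB Λ)) (lp e) * M1 β κ γ (lq e) -
        sg γ e * (M1 β κ γ (lp e) * M1 β κ (∅ : Finset (LB Λ)) (lq e))) =
        (QN β κ (∅ : Finset (LB Λ)) (lA e) * QN β κ γ ∅ +
          b * (QN β κ (∅ : Finset (LB Λ)) (sub Λ {lp e}) * QN β κ γ (sub Λ {lq e})) +
          (-(sg γ e) * b) * (QN β κ γ (sub Λ {lp e}) * QN β κ (∅ : Finset (LB Λ)) (sub Λ {lq e})) +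
          (-(sg γ e) * b) * b * (QN β κ (∅ : Finset (LB Λ)) ∅ * QN β κ γ (lA e))) /
          (QN β κ (∅ : Finset (LB Λ)) ∅ * QN β κ γ ∅) := by
      unfold M1 M2
      rw [mul_assoc (-(sg γ e)) b b, hbb]
      field_simp
      ring
    rw [h2]
    exact div_nonneg h1 hpos.le
  rw [abs_le]
  have h1 := key 1 (Or.inl rfl)
  have h2 := key (-1) (Or.inr rfl)
  constructor <;> linarith

theorem abs_M1_le {β : ℝ} (hβ : 0 ≤ β) {κ : Site → ℝ} (hκ : ∀ i, 0 ≤ κ i) (γ : Finset (LB Λ))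
    (i : Site) : |M1 β κ γ i| ≤ M1 β κ (∅ : Finset (LB Λ)) i := by
  have hN : 0 < QN β κ (∅ : Finset (LB Λ)) ∅ := NN_empty_pos _ _ _
  have hN' : 0 < QN β κ γ ∅ := NN_empty_pos _ _ _
  have hpos : 0 < QN β κ (∅ : Finset (LB Λ)) ∅ * QN β κ γ ∅ := mul_pos hN hN'
  have key : ∀ a : ℝ, (a = 1 ∨ a = -1) →
      0 ≤ M1 β κ (∅ : Finset (LB Λ)) i + a * M1 β κ γ i := by
    intro a ha
    have h1 := dup52 (lA (Λ := Λ)) (K := sJ β κ (∅ : Finset (LB Λ))) (K' := sJ β κ γ)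
      (coup52 hβ hκ γ) (P := sub Λ {i}) (Q := ∅) (C := sub Λ {i})
      (Finset.disjoint_empty_right _) (Finset.union_empty _) (b := 1) ha (Or.inl rfl)
    have h2 : M1 β κ (∅ : Finset (LB Λ)) i + a * M1 β κ γ i =
        (QN β κ (∅ : Finset (LB Λ)) (sub Λ {i}) * QN β κ γ ∅ +
          1 * (QN β κ (∅ : Finset (LB Λ)) (sub Λ {i}) * QN β κ γ ∅) +
          a * (QN β κ γ (sub Λ {i}) * QN β κ (∅ : Finset (LB Λ)) ∅) +
          a * 1 * (QN β κ (∅ : Finset (LB Λ)) ∅ * QN β κ γ (sub Λ {i}))) / 2 /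
          (QN β κ (∅ : Finset (LB Λ)) ∅ * QN β κ γ ∅) := by
      unfold M1
      field_simp
      ring
    rw [h2]
    exact div_nonneg (div_nonneg h1 (by norm_num)) hpos.le
  rw [abs_le]
  have h1 := key 1 (Or.inl rfl)
  have h2 := key (-1) (Or.inr rfl)
  constructor <;> linarith

end

end Pool.Agent.Helper49.DL
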