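import Pool.Agent.Helper49.DL.Dup

/-!
Local comparison (Harnack type inequality) of the mixed two point function `X`.
-/

open Finset

namespace Pool.Agent.Helper49.DL

section

variable {V ι : Type*} [Fintype V] [DecidableEq V] [Fintype ι]

omit [Fintype ι] in
lemma sum_fiber' (W : Finset V) {π : Finset V} (hπ : π ⊆ W) {h : Finset V → ℝ}
    (hh : ∀ S, 0 ≤ h S) :
    ∑ S : Finset V, h ((S \ W) ∪ π) ≤ 2 ^ W.card * ∑ S : Finset V, h S := by
  classical
  set f : Finset V → Finset V × Finset V := fun S => (S ∩ W, (S \ W) ∪ π) with hf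
  have hinj : Function.Injective f := by
    intro S T hST
    simp only [hf, Prod.mk.injEq] at hST
    obtain ⟨h1, h2⟩ := hST
    ext v
    by_cases hv : v ∈ W
    · have := Finset.ext_iff.1 h1 v
      simpa [hv] using this
    · have h3 := Finset.ext_iff.1 h2 v
      have hvπ : v ∉ π := fun h => hv (hπ h)
      simpa [hv, hvπ] using h3
  calc ∑ S : Finset V, h ((S \ W) ∪ π) = ∑ p ∈ (Finset.univ : Finset (Finset V)).image f, h p.2 := by
        rw [Finset.sum_image (fun a _ b _ hab => hinj hab)]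
    _ ≤ ∑ p ∈ W.powerset ×ˢ (Finset.univ : Finset (Finset V)), h p.2 := by
        refine Finset.sum_le_sum_of_subset_of_nonneg ?_ (fun p _ _ => hh _)
        intro p hp
        rw [Finset.mem_image] at hp
        obtain ⟨S, _, rfl⟩ := hp
        simp only [hf, Finset.mem_product, Finset.mem_powerset, Finset.mem_univ, and_true]
        exact Finset.inter_subset_right
    _ = 2 ^ W.card * ∑ S : Finset V, h S := by
        rw [Finset.sum_product]
        simp only [Finset.sum_const, Finset.card_powerset, nsmul_eq_mul]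
        push_cast
        ring

/-- The one point sum vanishes off the layer. -/
lemma N1_zero (A : ι → Finset V) (J : ι → ℝ) {S : Finset V} {x : V} (hx : x ∉ S) :
    N1 A J S x = 0 := by
  have h := na_eq_zero A J (F := ∅) (B := {x}) (S := S) (Finset.empty_subset S)
    (by rwa [Finset.singleton_subset_iff])
  unfold na NN at h
  unfold N1
  rw [← h]
  refine Finset.sum_congr rfl fun σ _ => ?_
  rw [chi_singleton, frc_empty, mul_one]

/-- The Harnack type inequality. -/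
theorem harnack (A : ι → Finset V) {JQ JR : ι → ℝ} (hJQ : ∀ i, 0 ≤ JQ i) (hJR : ∀ i, 0 ≤ JR i)
    (hA : ∀ i, (A i).card ≤ 2) {W E : Finset V} (hWE : Disjoint W E)
    (hWQ : ∀ i, JQ i ≠ 0 → ¬ Disjoint (A i) W → Even (A i).card ∧ A i ⊆ W ∪ E)
    (hWR : ∀ i, JR i ≠ 0 → ¬ Disjoint (A i) W → Even (A i).card ∧ A i ⊆ W ∪ E)
    {G : ℝ} (hGQ : Real.exp (∑ i ∈ Finset.univ.filter (fun i => ¬ Disjoint (A i) W), JQ i) ≤ G)
    (hGR : Real.exp (∑ i ∈ Finset.univ.filter (fun i => ¬ Disjoint (A i) W), JR i) ≤ G)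
    {κ : ℝ} (hκ : 0 ≤ κ) {c0 : ℝ} (hc0 : 0 < c0) (hc1 : c0 ≤ 1) (hcs : c0 ≤ Real.sinh κ) {x y : V}
    (hroute : ∀ u ∈ E, ∀ w ∈ E, u ≠ w → ∃ π1 π2 : Finset V, π1 ⊆ W ∧ π2 ⊆ W ∧ Disjoint π1 π2 ∧
      ((Route A JQ JR κ u π1 x ∧ Route A JQ JR κ w π2 y) ∨
        (Route A JQ JR κ u π1 y ∧ Route A JQ JR κ w π2 x)))
    {b b' : V} (hb : b ∈ W) (hb' : b' ∈ W) :
    X A JQ JR b b' ≤ G ^ 2 * ((E.card : ℝ) ^ 2 * (2 ^ W.card * (c0 ^ (2 * W.card))⁻¹)) *
      (X A JQ JR x y + X A JQ JR y x) := by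
  classical
  have hG : 0 ≤ G := (Real.exp_pos _).le.trans hGQ
  set c := c0 ^ (2 * W.card) with hc
  have hcpos : 0 < c := pow_pos hc0 _
  set h1 : Finset V → ℝ := fun T => N1 A JQ T x * N1 A JR Tᶜ y with hh1
  set h2 : Finset V → ℝ := fun T => N1 A JQ T y * N1 A JR Tᶜ x with hh2
  have h1n : ∀ T, 0 ≤ h1 T := fun T => mul_nonneg (N1_nonneg A hJQ T x) (N1_nonneg A hJR Tᶜ y)
  have h2n : ∀ T, 0 ≤ h2 T := fun T => mul_nonneg (N1_nonneg A hJQ T y) (N1_nonneg A hJR Tᶜ x)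
  set g : V → V → Finset V → ℝ := fun u w S =>
    if u ∈ S ∧ w ∉ S then N1 A JQ (S \ W) u * N1 A JR (Sᶜ \ W) w else 0 with hg
  -- path bound
  have key : ∀ {p q : V} {π1 π2 : Finset V} {u w : V}, u ∈ E → w ∈ E → π1 ⊆ W → π2 ⊆ W →
      Disjoint π1 π2 → Route A JQ JR κ u π1 p → Route A JQ JR κ w π2 q → ∀ S : Finset V,
      c * g u w S ≤ N1 A JQ ((S \ W) ∪ π1) p * N1 A JR ((S \ W) ∪ π1)ᶜ q := by
    intro p q π1 π2 u w hu hw hπ1 hπ2 hdis hr1 hr2 S
    have hRn : 0 ≤ N1 A JQ ((S \ W) ∪ π1) p * N1 A JR ((S \ W) ∪ π1)ᶜ q :=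
      mul_nonneg (N1_nonneg A hJQ _ _) (N1_nonneg A hJR _ _)
    simp only [hg]
    split_ifs with hS
    · have huW : u ∉ W := fun h => (Finset.disjoint_left.1 hWE) h hu
      have hwW : w ∉ W := fun h => (Finset.disjoint_left.1 hWE) h hw
      have hu1 : u ∈ S \ W := Finset.mem_sdiff.2 ⟨hS.1, huW⟩
      have hw1 : w ∈ Sᶜ \ W := Finset.mem_sdiff.2 ⟨by simpa using hS.2, hwW⟩
      have hd1 : Disjoint (S \ W) π1 := by
        rw [Finset.disjoint_left]
        intro v hv hv'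
        exact (Finset.mem_sdiff.1 hv).2 (hπ1 hv')
      have hd2 : Disjoint (Sᶜ \ W) π2 := by
        rw [Finset.disjoint_left]
        intro v hv hv'
        exact (Finset.mem_sdiff.1 hv).2 (hπ2 hv')
      have e1' := (route_ineq A hκ hr1 (S \ W) hu1 hd1).1 hJQ
      have e2' := (route_ineq A hκ hr2 (Sᶜ \ W) hw1 hd2).2 hJR
      have hsub : (Sᶜ \ W) ∪ π2 ⊆ ((S \ W) ∪ π1)ᶜ := by
        intro v hv
        rw [Finset.mem_compl, Finset.mem_union]
        rintro (h3 | h3)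
        · rcases Finset.mem_union.1 hv with h4 | h4
          · exact (Finset.mem_compl.1 (Finset.mem_sdiff.1 h4).1) (Finset.mem_sdiff.1 h3).1
          · exact (Finset.mem_sdiff.1 h3).2 (hπ2 h4)
        · rcases Finset.mem_union.1 hv with h4 | h4
          · exact (Finset.mem_sdiff.1 h4).2 (hπ1 h3)
          · exact (Finset.disjoint_left.1 hdis) h3 h4
      have e3' := N1_mono A hJR hsub q
      have hsn : 0 ≤ Real.sinh κ := hc0.le.trans hcs
      have p1 : c0 ^ W.card ≤ Real.sinh κ ^ π1.card :=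
        (pow_le_pow_of_le_one hc0.le hc1 (Finset.card_le_card hπ1)).trans
          (pow_le_pow_left₀ hc0.le hcs _)
      have p2 : c0 ^ W.card ≤ Real.sinh κ ^ π2.card :=
        (pow_le_pow_of_le_one hc0.le hc1 (Finset.card_le_card hπ2)).trans
          (pow_le_pow_left₀ hc0.le hcs _)
      have q1 : c0 ^ W.card * N1 A JQ (S \ W) u ≤ N1 A JQ ((S \ W) ∪ π1) p :=
        (mul_le_mul_of_nonneg_right p1 (N1_nonneg A hJQ _ _)).trans e1'
      have q2 : c0 ^ W.card * N1 A JR (Sᶜ \ W) w ≤ N1 A JR ((S \ W) ∪ π1)ᶜ q :=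
        ((mul_le_mul_of_nonneg_right p2 (N1_nonneg A hJR _ _)).trans e2').trans e3'
      have hm := mul_le_mul q1 q2 (mul_nonneg (pow_nonneg hc0.le _) (N1_nonneg A hJR _ _))
        (N1_nonneg A hJQ _ _)
      refine le_trans (le_of_eq ?_) hm
      rw [hc, two_mul, pow_add]
      ring
    · rw [mul_zero]; exact hRn
  -- sum over S for one pair
  have pair : ∀ u ∈ E, ∀ w ∈ E, c * ∑ S, g u w S ≤
      2 ^ W.card * (X A JQ JR x y + X A JQ JR y x) := by
    intro u hu w hw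
    have hXx : X A JQ JR x y = ∑ T, h1 T := rfl
    have hXy : X A JQ JR y x = ∑ T, h2 T := rfl
    have hs1 : 0 ≤ ∑ T, h1 T := Finset.sum_nonneg fun T _ => h1n T
    have hs2 : 0 ≤ ∑ T, h2 T := Finset.sum_nonneg fun T _ => h2n T
    have h2W : (0 : ℝ) < 2 ^ W.card := by positivity
    by_cases huw : u = w
    · have : ∑ S, g u w S = 0 := by
        refine Finset.sum_eq_zero fun S _ => ?_
        simp only [hg]
        rw [if_neg]
        rintro ⟨h3, h4⟩
        exact h4 (huw ▸ h3)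
      rw [this, mul_zero, hXx, hXy]
      positivity
    · obtain ⟨π1, π2, hπ1, hπ2, hdis, hr⟩ := hroute u hu w hw huw
      rw [Finset.mul_sum, hXx, hXy]
      rcases hr with ⟨hr1, hr2⟩ | ⟨hr1, hr2⟩
      · calc ∑ S, c * g u w S ≤ ∑ S, h1 ((S \ W) ∪ π1) :=
              Finset.sum_le_sum fun S _ => key hu hw hπ1 hπ2 hdis hr1 hr2 S
          _ ≤ 2 ^ W.card * ∑ T, h1 T := sum_fiber' W hπ1 h1n
          _ ≤ _ := mul_le_mul_of_nonneg_left (by linarith) h2W.le
      · calc ∑ S, c * g u w S ≤ ∑ S, h2 ((S \ W) ∪ π1) :=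
              Finset.sum_le_sum fun S _ => key hu hw hπ1 hπ2 hdis hr1 hr2 S
          _ ≤ 2 ^ W.card * ∑ T, h2 T := sum_fiber' W hπ1 h2n
          _ ≤ _ := mul_le_mul_of_nonneg_left (by linarith) h2W.le
  -- decoupling
  have hdec : ∀ S : Finset V, N1 A JQ S b * N1 A JR Sᶜ b' ≤
      G ^ 2 * ∑ u ∈ E, ∑ w ∈ E, g u w S := by
    intro S
    have d1 := decouple A hJQ (fun i _ => hA i) hWE hWQ hGQ (S := S) hb
    have d2 := decouple A hJR (fun i _ => hA i) hWE hWR hGR (S := Sᶜ) hb'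
    have hm := mul_le_mul d1 d2 (N1_nonneg A hJR _ _)
      (mul_nonneg hG (Finset.sum_nonneg fun u _ => N1_nonneg A hJQ _ _))
    refine hm.trans (le_of_eq ?_)
    have e1' : ∑ u ∈ E ∩ S, N1 A JQ (S \ W) u =
        ∑ u ∈ E, if u ∈ S then N1 A JQ (S \ W) u else 0 := by
      rw [← Finset.sum_filter, Finset.filter_mem_eq_inter]
    have e2' : ∑ w ∈ E ∩ Sᶜ, N1 A JR (Sᶜ \ W) w =
        ∑ w ∈ E, if w ∉ S then N1 A JR (Sᶜ \ W) w else 0 := by
      rw [← Finset.sum_filter]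
      refine Finset.sum_congr ?_ fun _ _ => rfl
      ext v; simp
    rw [e1', e2']
    have e3' : ∑ u ∈ E, ∑ w ∈ E, g u w S =
        (∑ u ∈ E, if u ∈ S then N1 A JQ (S \ W) u else 0) *
          ∑ w ∈ E, if w ∉ S then N1 A JR (Sᶜ \ W) w else 0 := by
      rw [Finset.sum_mul_sum]
      refine Finset.sum_congr rfl fun u _ => Finset.sum_congr rfl fun w _ => ?_
      simp only [hg]
      by_cases h3 : u ∈ S <;> by_cases h4 : w ∉ S <;> simp [h3, h4]
    rw [e3']
    ring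
  calc X A JQ JR b b' = ∑ S, N1 A JQ S b * N1 A JR Sᶜ b' := rfl
    _ ≤ ∑ S, G ^ 2 * ∑ u ∈ E, ∑ w ∈ E, g u w S := Finset.sum_le_sum fun S _ => hdec S
    _ = G ^ 2 * ∑ u ∈ E, ∑ w ∈ E, ∑ S, g u w S := by
        rw [← Finset.mul_sum, Finset.sum_comm]
        congr 1
        exact Finset.sum_congr rfl fun u _ => Finset.sum_comm
    _ ≤ G ^ 2 * ∑ _u ∈ E, ∑ _w ∈ E, (2 ^ W.card * (X A JQ JR x y + X A JQ JR y x)) * c⁻¹ := by
        refine mul_le_mul_of_nonneg_left ?_ (by positivity)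
        refine Finset.sum_le_sum fun u hu => Finset.sum_le_sum fun w hw => ?_
        rw [← div_eq_mul_inv, le_div_iff₀ hcpos, mul_comm]
        exact pair u hu w hw
    _ = _ := by
        simp only [Finset.sum_const, nsmul_eq_mul]
        ring

end

end Pool.Agent.Helper49.DL
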