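import Pool.Agent.Helper49.DL.Lip1

/-!
Block DL2-LI2: Lipschitz continuity of the disagreement probability in the defect strength.

Paper proof of `pn_lip`. `J ↦ pn β J N M` is differentiable, with derivative
`β ∑_{x ∈ [-N,N]} Cov (nu (0,1), agr_x) = - β ∑_x Cov (nu (0,1), nu (x,1))` (`en_fold`: the energy is
affine in `J` with coefficient `∑_x agr (ω (x,0)) (ω (x,1)) = ∑_x (1 - nu (x,1) ω)`). For `|x| ≤ 1`
the covariance is `≤ 1`; for `|x| ≥ 2` use `cov_contact` and
`exp (β J) - exp (-(β J)) ≥ exp β - exp (-β) > 0`. So the derivative is `≥ - C` for `J ≥ 1`, with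
`C = β (3 + 4 (exp β - exp (-β))⁻² / (1 - exp (-c)))`. Mean value theorem.
`exc_none`: `pinf β (max 1 J)` is Lipschitz in `J` (`pinf_anti` and `pn_lip` in the limit).
-/

open Finset
open scoped Classical

namespace Pool.Agent.Helper49.DL

namespace LI2

/-- The number of agreements along the defect line. -/
noncomputable def ag (N : ℤ) (ω : Cfg) : ℝ :=
  ∑ x ∈ Finset.Icc (-N) N, agr (ω (x, 0)) (ω (x, 1))

lemma ag_eq (N : ℤ) (ω : Cfg) : ag N ω = ∑ x ∈ Finset.Icc (-N) N, (1 - nu (x, 1) ω) := by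
  unfold ag
  refine Finset.sum_congr rfl fun x _ => ?_
  have h : bar (x, 1) = (x, 0) := by
    unfold bar
    simp
  unfold agr nu
  rw [h]
  by_cases h1 : ω (x, 0) = ω (x, 1)
  · rw [if_pos h1, if_neg (by simpa using h1.symm)]
    ring
  · rw [if_neg h1, if_pos (fun h' => h1 h'.symm)]
    ring

lemma hasDeriv_wg {N M : ℤ} (hM : 1 ≤ M) (β J : ℝ) (ω : Cfg) :
    HasDerivAt (fun J => wg β (kap J) (box N M) ω)
      (β * (wg β (kap J) (box N M) ω * ag N ω)) J := by
  unfold wg
  have h1 : (fun J : ℝ => Real.exp (β * en (kap J) (box N M) ω)) = fun J : ℝ =>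
      Real.exp (β * (∑ e : BB N M, (agr (ω (bp e)) (ω (bq e)) +
        agr (ω (bar (bp e))) (ω (bar (bq e)))) + J * ag N ω)) := by
    funext J
    rw [en_fold hM]
    rfl
  rw [h1, en_fold hM]
  have h2 : HasDerivAt (fun J : ℝ => β * (∑ e : BB N M, (agr (ω (bp e)) (ω (bq e)) +
        agr (ω (bar (bp e))) (ω (bar (bq e)))) + J * ag N ω)) (β * (1 * ag N ω)) J :=
    (((hasDerivAt_id J).mul_const (ag N ω)).const_add _).const_mul β
  have h3 := h2.exp
  refine h3.congr_deriv ?_
  change _ = β * (Real.exp (β * (∑ e : BB N M, (agr (ω (bp e)) (ω (bq e)) +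
        agr (ω (bar (bp e))) (ω (bar (bq e)))) + J * ag N ω)) * ag N ω)
  ring

lemma hasDeriv_Zg {N M : ℤ} (hM : 1 ≤ M) (β J : ℝ) (F : Cfg → ℝ) :
    HasDerivAt (fun J => Zg β (kap J) (box N M) tt F)
      (β * Zg β (kap J) (box N M) tt (fun ω => ag N ω * F ω)) J := by
  unfold Zg
  have h := HasDerivAt.fun_sum (u := confs (box N M) tt)
    (A := fun ω J => wg β (kap J) (box N M) ω * F ω)
    (A' := fun ω => β * (wg β (kap J) (box N M) ω * ag N ω) * F ω)
    (x := J) (fun ω _ => (hasDeriv_wg hM β J ω).mul_const (F ω))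
  refine h.congr_deriv ?_
  rw [Finset.mul_sum]
  exact Finset.sum_congr rfl fun ω _ => by ring

lemma hasDeriv_avg {N M : ℤ} (hM : 1 ≤ M) (β J : ℝ) (F : Cfg → ℝ) :
    HasDerivAt (fun J => avg β (kap J) (box N M) tt F)
      (β * (avg β (kap J) (box N M) tt (fun ω => ag N ω * F ω) -
        avg β (kap J) (box N M) tt (ag N) * avg β (kap J) (box N M) tt F)) J := by
  have h1 := hasDeriv_Zg (N := N) hM β J F
  have h2 := hasDeriv_Zg (N := N) hM β J (fun _ => 1)
  have h0 := (Zg_one_pos (β := β) (κ := kap J) (Λ := box N M) (η := tt)).ne'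
  have h3 := h1.div h2 h0
  unfold avg
  refine h3.congr_deriv ?_
  simp only [mul_one]
  have e : Zg β (kap J) (box N M) tt (fun ω => ag N ω) = Zg β (kap J) (box N M) tt (ag N) := rfl
  rw [e]
  field_simp

/-- The derivative of the disagreement probability. -/
lemma deriv_pn {N M : ℤ} (hM : 1 ≤ M) (β J : ℝ) :
    HasDerivAt (fun J => pn β J N M)
      (-(β * ∑ x ∈ Finset.Icc (-N) N,
        (avg β (kap J) (box N M) tt (fun ω => nu (x, 1) ω * nu (0, 1) ω) -
          avg β (kap J) (box N M) tt (nu (x, 1)) * avg β (kap J) (box N M) tt (nu (0, 1))))) J := by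
  have h := hasDeriv_avg (N := N) hM β J (nu (0, 1))
  unfold pn
  refine h.congr_deriv ?_
  have e1' : avg β (kap J) (box N M) tt (fun ω => ag N ω * nu (0, 1) ω) =
      ∑ x ∈ Finset.Icc (-N) N, (avg β (kap J) (box N M) tt (nu (0, 1)) -
        avg β (kap J) (box N M) tt (fun ω => nu (x, 1) ω * nu (0, 1) ω)) := by
    have : (fun ω => ag N ω * nu (0, 1) ω) = fun ω => ∑ x ∈ Finset.Icc (-N) N,
        (nu (0, 1) ω - nu (x, 1) ω * nu (0, 1) ω) := by
      funext ω
      rw [ag_eq, Finset.sum_mul]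
      exact Finset.sum_congr rfl fun x _ => by ring
    rw [this, avg_sum]
    exact Finset.sum_congr rfl fun x _ => avg_sub _ _
  have e2' : avg β (kap J) (box N M) tt (ag N) =
      ∑ x ∈ Finset.Icc (-N) N, (1 - avg β (kap J) (box N M) tt (nu (x, 1))) := by
    have : ag N = fun ω => ∑ x ∈ Finset.Icc (-N) N, (1 - nu (x, 1) ω) := by
      funext ω
      exact ag_eq N ω
    rw [this, avg_sum]
    refine Finset.sum_congr rfl fun x _ => ?_
    rw [avg_sub (fun _ => 1) (nu (x, 1)), avg_const]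
  rw [e1', e2', Finset.sum_mul, ← Finset.sum_sub_distrib, ← mul_neg, ← Finset.sum_neg_distrib]
  congr 1
  exact Finset.sum_congr rfl fun x _ => by ring

/-- The geometric series. -/
lemma geo {c : ℝ} (hc : 0 < c) (N : ℤ) :
    ∑ x ∈ Finset.Icc (-N) N, Real.exp (-(c * ((|x| : ℤ) : ℝ))) ≤ 2 / (1 - Real.exp (-c)) := by
  set r := Real.exp (-c) with hr
  have hr0 : 0 ≤ r := (Real.exp_pos _).le
  have hr1 : r < 1 := by
    rw [hr, Real.exp_lt_one_iff]
    linarith
  have hgeo : ∀ n : ℕ, ∑ i ∈ Finset.range n, r ^ i ≤ 1 / (1 - r) := by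
    intro n
    rw [one_div, ← tsum_geometric_of_lt_one hr0 hr1]
    exact (summable_geometric_of_lt_one hr0 hr1).sum_le_tsum _ (fun i _ => pow_nonneg hr0 i)
  have hpow : ∀ n : ℕ, Real.exp (-(c * (n : ℝ))) = r ^ n := by
    intro n
    rw [hr, ← Real.exp_nat_mul]
    congr 1
    ring
  set n := (N + 1).toNat with hn
  have hsub : Finset.Icc (-N) N ⊆ (Finset.range n).image (fun i : ℕ => (i : ℤ)) ∪
      (Finset.range n).image (fun i : ℕ => -(i : ℤ)) := by
    intro x hx
    rw [Finset.mem_Icc] at hx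
    rw [Finset.mem_union, Finset.mem_image, Finset.mem_image]
    rcases le_total 0 x with h | h
    · left
      refine ⟨x.toNat, ?_, Int.toNat_of_nonneg h⟩
      rw [Finset.mem_range, hn]
      omega
    · right
      refine ⟨(-x).toNat, ?_, ?_⟩
      · rw [Finset.mem_range, hn]
        omega
      · rw [Int.toNat_of_nonneg (by omega)]
        ring
  have h1 : ∑ x ∈ (Finset.range n).image (fun i : ℕ => (i : ℤ)),
      Real.exp (-(c * ((|x| : ℤ) : ℝ))) = ∑ i ∈ Finset.range n, r ^ i := by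
    rw [Finset.sum_image (fun a _ b _ h => by exact_mod_cast h)]
    refine Finset.sum_congr rfl fun i _ => ?_
    rw [← hpow, abs_of_nonneg (Int.natCast_nonneg i), Int.cast_natCast]
  have h2 : ∑ x ∈ (Finset.range n).image (fun i : ℕ => -(i : ℤ)),
      Real.exp (-(c * ((|x| : ℤ) : ℝ))) = ∑ i ∈ Finset.range n, r ^ i := by
    rw [Finset.sum_image (fun a _ b _ h => by
      have h' : (a : ℤ) = b := neg_injective h
      exact_mod_cast h')]
    refine Finset.sum_congr rfl fun i _ => ?_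
    rw [← hpow, abs_neg, abs_of_nonneg (Int.natCast_nonneg i), Int.cast_natCast]
  calc ∑ x ∈ Finset.Icc (-N) N, Real.exp (-(c * ((|x| : ℤ) : ℝ)))
      ≤ ∑ x ∈ (Finset.range n).image (fun i : ℕ => (i : ℤ)) ∪
        (Finset.range n).image (fun i : ℕ => -(i : ℤ)), Real.exp (-(c * ((|x| : ℤ) : ℝ))) :=
        Finset.sum_le_sum_of_subset_of_nonneg hsub fun x _ _ => (Real.exp_pos _).le
    _ ≤ ∑ x ∈ (Finset.range n).image (fun i : ℕ => (i : ℤ)), Real.exp (-(c * ((|x| : ℤ) : ℝ))) +
        ∑ x ∈ (Finset.range n).image (fun i : ℕ => -(i : ℤ)),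
          Real.exp (-(c * ((|x| : ℤ) : ℝ))) := by
        rw [← Finset.sum_union_inter]
        exact le_add_of_nonneg_right (Finset.sum_nonneg fun x _ => (Real.exp_pos _).le)
    _ ≤ 1 / (1 - r) + 1 / (1 - r) := by
        rw [h1, h2]
        exact add_le_add (hgeo n) (hgeo n)
    _ = 2 / (1 - r) := by ring

/-- One covariance. -/
lemma cov_le_one (β J : ℝ) (N M x : ℤ) :
    avg β (kap J) (box N M) tt (fun ω => nu (x, 1) ω * nu (0, 1) ω) -
      avg β (kap J) (box N M) tt (nu (x, 1)) * avg β (kap J) (box N M) tt (nu (0, 1)) ≤ 1 := by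
  have h1 : avg β (kap J) (box N M) tt (fun ω => nu (x, 1) ω * nu (0, 1) ω) ≤ 1 := by
    have h : avg β (kap J) (box N M) tt (fun ω => nu (x, 1) ω * nu (0, 1) ω) ≤
        avg β (kap J) (box N M) tt (fun _ => 1) := by
      refine avg_mono fun ω _ => ?_
      exact mul_le_one₀ (nu_le_one _ ω) (nu_nonneg _ ω) (nu_le_one _ ω)
    rwa [avg_const] at h
  have h2 : 0 ≤ avg β (kap J) (box N M) tt (nu (x, 1)) * avg β (kap J) (box N M) tt (nu (0, 1)) :=
    mul_nonneg (avg_nonneg fun ω _ => nu_nonneg _ ω) (avg_nonneg fun ω _ => nu_nonneg _ ω)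
  linarith

end LI2

open LI2

theorem pn_lip {β₁ β : ℝ} (h0 : 0 ≤ β₁) (h : β₁ < β) (hm : 0 < mag β₁) :
    ∃ C : ℝ, 0 ≤ C ∧ ∀ J1 J2 : ℝ, 1 ≤ J1 → J1 ≤ J2 → ∀ N M : ℤ, 0 ≤ N → 1 ≤ M →
      pn β J1 N M ≤ pn β J2 N M + C * (J2 - J1) := by
  have hβ : 0 < β := lt_of_le_of_lt h0 h
  set c := (β - β₁) * mag β₁ ^ 2 with hc
  have hc0 : 0 < c := mul_pos (by linarith) (pow_pos hm 2)
  have hr1 : 0 < 1 - Real.exp (-c) := by
    rw [sub_pos, Real.exp_lt_one_iff]
    linarith
  set w := Real.exp β - Real.exp (-β) with hw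
  have hwpos : 0 < w := by
    rw [hw, sub_pos]
    apply Real.exp_lt_exp.2
    linarith
  set K := 2 * (w ^ 2)⁻¹ with hK
  have hK0 : 0 < K := mul_pos two_pos (inv_pos.2 (pow_pos hwpos 2))
  set C := β * (3 + K * (2 / (1 - Real.exp (-c)))) with hC
  have hC0 : 0 ≤ C := mul_nonneg hβ.le (add_nonneg (by norm_num)
    (mul_nonneg hK0.le (div_nonneg two_pos.le hr1.le)))
  refine ⟨C, hC0, fun J1 J2 hJ1 hJ2 N M hN hM => ?_⟩
  -- the sum of the covariances
  have hsum : ∀ J : ℝ, 1 ≤ J → ∑ x ∈ Finset.Icc (-N) N,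
      (avg β (kap J) (box N M) tt (fun ω => nu (x, 1) ω * nu (0, 1) ω) -
        avg β (kap J) (box N M) tt (nu (x, 1)) * avg β (kap J) (box N M) tt (nu (0, 1))) ≤
      3 + K * (2 / (1 - Real.exp (-c))) := by
    intro J hJ
    have hwJ : ((Real.exp (β * J) - Real.exp (-(β * J))) ^ 2)⁻¹ ≤ (w ^ 2)⁻¹ := by
      apply inv_anti₀ (pow_pos hwpos 2)
      apply pow_le_pow_left₀ hwpos.le
      have h1 : β ≤ β * J := by
        have := mul_le_mul_of_nonneg_left hJ hβ.le
        linarith
      have h2 := Real.exp_le_exp.2 h1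
      have h3 := Real.exp_le_exp.2 (neg_le_neg h1)
      rw [hw]
      linarith
    have hterm : ∀ x ∈ Finset.Icc (-N) N,
        (avg β (kap J) (box N M) tt (fun ω => nu (x, 1) ω * nu (0, 1) ω) -
          avg β (kap J) (box N M) tt (nu (x, 1)) * avg β (kap J) (box N M) tt (nu (0, 1))) ≤
        (if |x| ≤ 1 then 1 else 0) + K * Real.exp (-(c * ((|x| : ℤ) : ℝ))) := by
      intro x hx
      rw [Finset.mem_Icc] at hx
      have hE := Real.exp_pos (-(c * ((|x| : ℤ) : ℝ)))
      by_cases hx1 : |x| ≤ 1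
      · rw [if_pos hx1]
        have h1 := cov_le_one β J N M x
        have h2 := mul_pos hK0 hE
        linarith
      · rw [if_neg hx1, zero_add]
        have h1 := cov_contact h0 h hJ hM hx.1 hx.2 (y := 0) (by omega) hN
          (by rw [sub_zero]; omega)
        rw [sub_zero] at h1
        refine h1.trans ?_
        apply mul_le_mul_of_nonneg_right _ hE.le
        rw [hK]
        exact mul_le_mul_of_nonneg_left hwJ two_pos.le
    refine (Finset.sum_le_sum hterm).trans ?_
    rw [Finset.sum_add_distrib, ← Finset.mul_sum]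
    apply add_le_add
    · rw [Finset.sum_ite, Finset.sum_const_zero, add_zero, Finset.sum_const, nsmul_eq_mul,
        mul_one]
      have hs : (Finset.Icc (-N) N).filter (fun x => |x| ≤ 1) ⊆ Finset.Icc (-1) 1 := by
        intro x hx
        rw [Finset.mem_filter, abs_le] at hx
        rw [Finset.mem_Icc]
        exact hx.2
      have h1 := Finset.card_le_card hs
      have h2 : (Finset.Icc (-1 : ℤ) 1).card = 3 := by decide
      rw [h2] at h1
      exact_mod_cast h1
    · exact mul_le_mul_of_nonneg_left (geo hc0 N) hK0.le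
  -- mean value theorem
  have hconv : Convex ℝ (Set.Ici (1 : ℝ)) := convex_Ici 1
  have hder : ∀ J : ℝ, HasDerivAt (fun J => pn β J N M) _ J := fun J => deriv_pn hM β J
  have hcont : ContinuousOn (fun J => pn β J N M) (Set.Ici (1 : ℝ)) := fun J _ =>
    (hder J).continuousAt.continuousWithinAt
  have hdiff : DifferentiableOn ℝ (fun J => pn β J N M) (interior (Set.Ici (1 : ℝ))) :=
    fun J _ => (hder J).differentiableAt.differentiableWithinAt
  have hge : ∀ J ∈ interior (Set.Ici (1 : ℝ)), -C ≤ deriv (fun J => pn β J N M) J := by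
    intro J hJ
    rw [(hder J).deriv, neg_le_neg_iff, hC]
    exact mul_le_mul_of_nonneg_left (hsum J (interior_subset hJ)) hβ.le
  have := hconv.mul_sub_le_image_sub_of_le_deriv hcont hdiff hge J1 hJ1 J2
    (le_trans hJ1 hJ2 : (1 : ℝ) ≤ J2) hJ2
  linarith

theorem exc_none {β₁ β : ℝ} (h0 : 0 ≤ β₁) (h : β₁ < β) (hm : 0 < mag β₁) (J : ℝ) :
    J ∉ Exc β := by
  have hβ : 0 < β := lt_of_le_of_lt h0 h
  obtain ⟨C, hC, hlip⟩ := pn_lip h0 h hm
  have key : ∀ J1 J2 : ℝ, J1 ≤ J2 →
      dist (pinf β (max 1 J1)) (pinf β (max 1 J2)) ≤ C * dist J1 J2 := by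
    intro J1 J2 h12
    have hm12 : max 1 J1 ≤ max 1 J2 := max_le_max le_rfl h12
    have h1 : (1 : ℝ) ≤ max 1 J1 := le_max_left _ _
    have a1 := pinf_anti hβ.le (le_trans zero_le_one h1) hm12
    have a2 : pinf β (max 1 J1) ≤ pinf β (max 1 J2) + C * (max 1 J2 - max 1 J1) := by
      refine ciSup_le fun n => ?_
      refine (hlip _ _ h1 hm12 n ((n : ℤ) + 1) (by omega) (by omega)).trans ?_
      have := le_ciSup (pn_bdd β (max 1 J2)) n
      unfold pinf
      linarith
    have a3 : max 1 J2 - max 1 J1 ≤ J2 - J1 := by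
      rcases le_total 1 J1 with h3 | h3
      · rw [max_eq_right h3, max_eq_right (h3.trans h12)]
      · rw [max_eq_left h3]
        rcases le_total 1 J2 with h4 | h4
        · rw [max_eq_right h4]
          linarith
        · rw [max_eq_left h4]
          linarith
    rw [Real.dist_eq, Real.dist_eq, abs_of_nonneg (by linarith), abs_sub_comm,
      abs_of_nonneg (by linarith)]
    have := mul_le_mul_of_nonneg_left a3 hC
    linarith
  have hL : LipschitzWith ⟨C, hC⟩ (fun J => pinf β (max 1 J)) := by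
    apply LipschitzWith.of_dist_le_mul
    intro x y
    rcases le_total x y with hxy | hxy
    · exact key x y hxy
    · rw [dist_comm, dist_comm x y]
      exact key y x hxy
  intro hJ
  exact hJ hL.continuous.continuousAt

end Pool.Agent.Helper49.DL
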