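import Pool.Agent.Helper49.DL.Win2
import Pool.Agent.Helper49.DL.Lip2
import Pool.Agent.Helper49.DL.Refl
import Pool.Agent.Helper49.DL.Half

/-!
For `β > β_c` and `J > 1` the interface leaves every window.
-/

open Finset
open scoped Classical

namespace Pool.Agent.Helper49.DL

/-- The interface has an edge in the window of half-width `K`. -/
def Meets (N K : ℤ) (ω : Cfg) : Prop := ∃ b, Wn K b ∧ Interface N ω b

lemma exp_poly_small {c A B t : ℝ} (hc : 0 < c) (ht : 0 < t) :
    ∃ L0 : ℕ, ∀ L : ℕ, L0 ≤ L → A * (2 * (L : ℝ) + 3) ^ 2 * Real.exp (-(c * ((L : ℝ) + B))) ≤ t := by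
  have h1 : Filter.Tendsto (fun L : ℕ => A * (2 * (L : ℝ) + 3) ^ 2 * Real.exp (-(c * ((L : ℝ) + B))))
      Filter.atTop (nhds 0) := by
    have h2 : Filter.Tendsto (fun L : ℕ => (L : ℝ) ^ 2 * Real.exp (-(c * (L : ℝ)))) Filter.atTop
        (nhds 0) := by
      have := (Real.tendsto_pow_mul_exp_neg_atTop_nhds_zero 2).comp
        ((tendsto_natCast_atTop_atTop (R := ℝ)).const_mul_atTop hc)
      have h3 := this.const_mul (c⁻¹ ^ 2)
      rw [mul_zero] at h3
      refine h3.congr fun L => ?_
      simp only [Function.comp]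
      field_simp
    have h3 : Filter.Tendsto (fun L : ℕ => (L : ℝ) ^ 1 * Real.exp (-(c * (L : ℝ)))) Filter.atTop
        (nhds 0) := by
      have := (Real.tendsto_pow_mul_exp_neg_atTop_nhds_zero 1).comp
        ((tendsto_natCast_atTop_atTop (R := ℝ)).const_mul_atTop hc)
      have h3 := this.const_mul (c⁻¹ ^ 1)
      rw [mul_zero] at h3
      refine h3.congr fun L => ?_
      simp only [Function.comp]
      field_simp
    have h4 : Filter.Tendsto (fun L : ℕ => (L : ℝ) ^ 0 * Real.exp (-(c * (L : ℝ)))) Filter.atTop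
        (nhds 0) := by
      have := (Real.tendsto_pow_mul_exp_neg_atTop_nhds_zero 0).comp
        ((tendsto_natCast_atTop_atTop (R := ℝ)).const_mul_atTop hc)
      refine this.congr fun L => ?_
      simp only [Function.comp]
      simp
    have h5 := ((h2.const_mul (A * Real.exp (-(c * B)) * 4)).add
      (h3.const_mul (A * Real.exp (-(c * B)) * 12))).add
      (h4.const_mul (A * Real.exp (-(c * B)) * 9))
    simp only [mul_zero, add_zero] at h5
    refine h5.congr fun L => ?_
    have : Real.exp (-(c * ((L : ℝ) + B))) = Real.exp (-(c * (L : ℝ))) * Real.exp (-(c * B)) := by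
      rw [← Real.exp_add]; congr 1; ring
    rw [this]
    ring
  have h2 := h1.eventually (eventually_le_nhds ht)
  rw [Filter.eventually_atTop] at h2
  exact h2

/-- The interface leaves every window. -/
theorem window_small {β₁ β J : ℝ} (h0 : 0 ≤ β₁) (h : β₁ < β) (hm : 0 < mag β₁) (hJ : 1 < J)
    {K : ℤ} (hK : 0 ≤ K) {t : ℝ} (ht : 0 < t) : ∃ n : ℤ, ∀ N M : ℤ, n ≤ N → n ≤ M →
      avg β (kap J) (box N M) (eta 0) (fun ω => if Meets N K ω then 1 else 0) ≤ t := by
  have hβ : 0 < β := h0.trans_lt h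
  have hc : 0 < (β - β₁) * mag β₁ ^ 2 := mul_pos (by linarith) (by positivity)
  obtain ⟨L0, hL0⟩ := exp_poly_small (A := (2 * (K : ℝ) + 1) ^ 2) (B := 1 - K) hc
    (show 0 < t / 2 by linarith)
  set L : ℕ := max L0 K.toNat with hL
  have hKL : K ≤ (L : ℤ) := by
    have : K.toNat ≤ L := le_max_right _ _
    omega
  obtain ⟨n, hn⟩ := mix_conv hβ hJ (exc_none h0 h hm J) (box ((L : ℤ) + 2) ((L : ℤ) + 3)) _
    (reach_loc K L) (show 0 < t / 2 by linarith)
  refine ⟨max n ((L : ℤ) + 1), fun N M hN hM => ?_⟩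
  have hN1 := (le_max_right _ _).trans hN
  have hM1 := (le_max_right _ _).trans hM
  have h1 := hn N M ((le_max_left _ _).trans hN) ((le_max_left _ _).trans hM)
  have h2 := reach_prob (β₁ := β₁) (β := β) (J := J) h0 h.le hJ.le (L := L) hK hKL
    (show 0 ≤ N by omega) (show 1 ≤ M by omega)
  have h3 := hL0 L (le_max_left _ _)
  have h4 : mix β J N M (fun ω => if Reach K L ω then 1 else 0) =
      avg β (kap J) (box N M) tt (fun ω => if Reach K L ω then 1 else 0) := by
    unfold mix
    simp only [reach_not]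
    ring
  have h5 : avg β (kap J) (box N M) (eta 0) (fun ω => if Meets N K ω then 1 else 0) ≤
      avg β (kap J) (box N M) (eta 0) (fun ω => if Reach K L ω then 1 else 0) := by
    refine avg_mono fun ω _ => ?_
    by_cases hme : Meets N K ω
    · obtain ⟨b, hb, hI⟩ := hme
      have hR := reach_of_interface hKL (show (L : ℤ) ≤ N by omega) hb hI
      rw [if_pos ⟨b, hb, hI⟩, if_pos hR]
    · rw [if_neg hme]; split_ifs <;> norm_num
  rw [h4] at h1
  have h6 := (abs_le.1 h1).2
  have h7 : (2 * (K : ℝ) + 1) ^ 2 * (2 * ((L : ℕ) : ℝ) + 3) ^ 2 *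
      Real.exp (-((β - β₁) * mag β₁ ^ 2 * (((L : ℕ) : ℝ) + 1 - K))) ≤ t / 2 := by
    refine le_trans (le_of_eq ?_) h3
    congr 2
    ring
  push_cast at h2
  linarith

/-- All sites of the window lie below the interface (an odd number of interface edges is vertically
above). -/
def WinBelow (N M K : ℤ) (ω : Cfg) : Prop :=
  ∀ i : Site, |i.1| ≤ K → |i.2| ≤ K → gg N M ω i = 1

/-- All sites of the window lie above the interface. -/
def WinAbove (N M K : ℤ) (ω : Cfg) : Prop :=
  ∀ i : Site, |i.1| ≤ K → |i.2| ≤ K → gg N M ω i = 0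

/-- The parity is constant on a window not met by the interface. -/
lemma gg_const {N M K : ℤ} {ω : Cfg} (h : ω ∈ confs (box N M) (eta 0)) (hM : 0 ≤ M) (hK : 0 ≤ K)
    (hno : ¬ Meets N K ω) {i : Site} (h1 : |i.1| ≤ K) (h2 : |i.2| ≤ K) :
    gg N M ω i = gg N M ω (0, 0) := by
  have hig : ∀ b : Bond, Wn K b → ig N ω b = 0 := by
    intro b hb
    unfold ig
    rw [if_neg]
    intro hI
    exact hno ⟨b, hb, hI⟩
  have hv : ∀ x y : ℤ, |x| ≤ K → |y| ≤ K → gg N M ω (x, y) = gg N M ω (x, y + 1) := by
    intro x y hx hy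
    rw [gg_vert h hM, hig _ ⟨hx, hy⟩, zero_add]
  have hh : ∀ x y : ℤ, |x| ≤ K → |y| ≤ K → gg N M ω (x, y) = gg N M ω (x + 1, y) := by
    intro x y hx hy
    apply zeq
    rw [gg_hor h hM, hig _ ⟨hx, hy⟩]
  -- vertical
  have hcol : ∀ (x : ℤ), |x| ≤ K → ∀ n : ℕ, (n : ℤ) ≤ K →
      gg N M ω (x, (n : ℤ)) = gg N M ω (x, 0) ∧ gg N M ω (x, -(n : ℤ)) = gg N M ω (x, 0) := by
    intro x hx n
    induction n with
    | zero => intro _; simp
    | succ n ih =>
      intro hn
      push_cast at hn ⊢
      obtain ⟨i1, i2⟩ := ih (by omega)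
      constructor
      · rw [← hv x n hx (by rw [abs_of_nonneg (by omega)]; omega)]
        exact i1
      · have := hv x (-((n : ℤ) + 1)) hx (by rw [abs_neg, abs_of_nonneg (by omega)]; omega)
        rw [this, show -((n : ℤ) + 1) + 1 = -(n : ℤ) by ring]
        exact i2
  have hrow : ∀ n : ℕ, (n : ℤ) ≤ K →
      gg N M ω ((n : ℤ), 0) = gg N M ω (0, 0) ∧ gg N M ω (-(n : ℤ), 0) = gg N M ω (0, 0) := by
    intro n
    induction n with
    | zero => intro _; simp
    | succ n ih =>
      intro hn
      push_cast at hn ⊢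
      obtain ⟨i1, i2⟩ := ih (by omega)
      constructor
      · rw [← hh n 0 (by rw [abs_of_nonneg (by omega)]; omega) (by simpa using hK)]
        exact i1
      · have := hh (-((n : ℤ) + 1)) 0 (by rw [abs_neg, abs_of_nonneg (by omega)]; omega)
          (by simpa using hK)
        rw [this, show -((n : ℤ) + 1) + 1 = -(n : ℤ) by ring]
        exact i2
  obtain ⟨x, y⟩ := i
  simp only at h1 h2
  have e1' : gg N M ω (x, y) = gg N M ω (x, 0) := by
    rcases le_total 0 y with hy | hy
    · have := (hcol x h1 y.toNat (by rw [Int.toNat_of_nonneg hy]; rwa [abs_of_nonneg hy] at h2)).1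
      rwa [Int.toNat_of_nonneg hy] at this
    · have := (hcol x h1 (-y).toNat (by
        rw [Int.toNat_of_nonneg (by omega)]; rwa [abs_of_nonpos hy] at h2)).2
      rwa [Int.toNat_of_nonneg (by omega), _root_.neg_neg] at this
  have e2' : gg N M ω (x, 0) = gg N M ω (0, 0) := by
    rcases le_total 0 x with hx | hx
    · have := (hrow x.toNat (by rw [Int.toNat_of_nonneg hx]; rwa [abs_of_nonneg hx] at h1)).1
      rwa [Int.toNat_of_nonneg hx] at this
    · have := (hrow (-x).toNat (by
        rw [Int.toNat_of_nonneg (by omega)]; rwa [abs_of_nonpos hx] at h1)).2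
      rwa [Int.toNat_of_nonneg (by omega), _root_.neg_neg] at this
  rw [e1', e2']

/-- The window is asymptotically equally likely below and above the interface. -/
theorem window_side {β₁ β J : ℝ} (h0 : 0 ≤ β₁) (h : β₁ < β) (hm : 0 < mag β₁) (hJ : 1 < J)
    {K : ℤ} (hK : 1 ≤ K) {t : ℝ} (ht : 0 < t) : ∃ n : ℤ, ∀ N M : ℤ, n ≤ N → n ≤ M →
      1 / 2 - t ≤ avg β (kap J) (box N M) (eta 0) (fun ω => if WinBelow N M K ω then 1 else 0) ∧
      1 / 2 - t ≤ avg β (kap J) (box N M) (eta 0) (fun ω => if WinAbove N M K ω then 1 else 0) := by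
  obtain ⟨n, hn⟩ := window_small h0 h hm hJ (K := K) (by omega) (show 0 < t / 2 by linarith)
  refine ⟨max n 1, fun N M hN hM => ?_⟩
  have hN1 : 1 ≤ N := (le_max_right _ _).trans hN
  have hM1 : 1 ≤ M := (le_max_right _ _).trans hM
  have h1 := hn N M ((le_max_left _ _).trans hN) ((le_max_left _ _).trans hM)
  have h2 := side_half (N := N) (M := M) (by omega) hM1 β J 0
  set E := avg β (kap J) (box N M) (eta 0) with hE
  have h3 : E (fun ω => if Interface N ω ((0, 0), false) then 1 else 0) ≤
      E (fun ω => if Meets N K ω then 1 else 0) := by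
    refine avg_mono fun ω _ => ?_
    by_cases hI : Interface N ω ((0, 0), false)
    · have hme : Meets N K ω := ⟨_, ⟨by simpa using (by omega : (0:ℤ) ≤ K),
        by simpa using (by omega : (0:ℤ) ≤ K)⟩, hI⟩
      rw [if_pos hI, if_pos hme]
    · rw [if_neg hI]; split_ifs <;> norm_num
  have h4 := abs_le.1 h2
  have hgg : ∀ ω ∈ confs (box N M) (eta 0), ¬ Meets N K ω → ∀ i : Site, |i.1| ≤ K → |i.2| ≤ K →
      gg N M ω i = gg N M ω (0, 1) := by
    intro ω hω hno i hi1 hi2
    rw [gg_const hω (by omega) (by omega) hno hi1 hi2,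
      gg_const hω (by omega) (by omega) hno (i := (0, 1)) (by simpa using (by omega : (0:ℤ) ≤ K))
        (by simpa using hK)]
  constructor
  · have h5 : E (fun ω => if gg N M ω (0, 1) = 1 then 1 else 0) -
        E (fun ω => if Meets N K ω then 1 else 0) ≤
        E (fun ω => if WinBelow N M K ω then 1 else 0) := by
      rw [hE, ← avg_sub]
      refine avg_mono fun ω hω => ?_
      by_cases hme : Meets N K ω
      · rw [if_pos hme]
        split_ifs <;> norm_num
      · rw [if_neg hme, sub_zero]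
        by_cases hg : gg N M ω (0, 1) = 1
        · have hW : WinBelow N M K ω := fun i hi1 hi2 => (hgg ω hω hme i hi1 hi2).trans hg
          rw [if_pos hg, if_pos hW]
        · rw [if_neg hg]; split_ifs <;> norm_num
    linarith
  · have h5 : (1 - E (fun ω => if gg N M ω (0, 1) = 1 then 1 else 0)) -
        E (fun ω => if Meets N K ω then 1 else 0) ≤
        E (fun ω => if WinAbove N M K ω then 1 else 0) := by
      have e1' : (1 : ℝ) - E (fun ω => if gg N M ω (0, 1) = 1 then 1 else 0) =
          E (fun ω => 1 - if gg N M ω (0, 1) = 1 then 1 else 0) := by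
        have := avg_sub (β := β) (κ := kap J) (Λ := box N M) (η := eta 0) (fun _ => 1)
          (fun ω => if gg N M ω (0, 1) = 1 then 1 else 0)
        rw [avg_const] at this
        exact this.symm
      rw [e1', hE, ← avg_sub (fun ω => 1 - if gg N M ω (0, 1) = 1 then 1 else 0)]
      refine avg_mono fun ω hω => ?_
      by_cases hme : Meets N K ω
      · rw [if_pos hme]
        split_ifs <;> norm_num
      · rw [if_neg hme, sub_zero]
        have hz : ∀ a : ZMod 2, a ≠ 1 → a = 0 := by decide
        by_cases hg : gg N M ω (0, 1) = 1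
        · rw [if_pos hg]; split_ifs <;> norm_num
        · have hW : WinAbove N M K ω := fun i hi1 hi2 =>
            (hgg ω hω hme i hi1 hi2).trans (hz _ hg)
          rw [if_neg hg, if_pos hW]; norm_num
    linarith

end Pool.Agent.Helper49.DL
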