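import Pool.Agent.Helper49.DL.Freeze
import Pool.Agent.Helper49.DL.Explore

/-!
Monotonicity of the cost in the couplings, and convexity of the logarithm of the partition function.
-/

open Finset
open scoped Classical

namespace Pool.Agent.Helper49.DL

/-- The increments of the interaction constants. -/
private lemma lJ_sub62 {Λ : Finset Site} {β : ℝ} (hβ : 0 ≤ β) {κ κ' : Site → ℝ}
    (hκκ : ∀ i, κ i ≤ κ' i) (η : Cfg) (e : LB Λ) :
    |lJ β κ' η e - lJ β κ η e| ≤ lJ β κ' tt e - lJ β κ tt e := by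
  have h1 := lk_mono hκκ e
  have h2 : lJ β κ' η e - lJ β κ η e =
      β * (lk κ' e - lk κ e) / 2 * (osp Λ η (lp e) * osp Λ η (lq e)) := by
    unfold lJ
    ring
  have h3 : 0 ≤ β * (lk κ' e - lk κ e) / 2 := by
    have := mul_nonneg hβ (sub_nonneg.2 h1)
    linarith
  rw [h2, abs_mul, abs_mul, osp_abs, osp_abs, mul_one, mul_one, abs_of_nonneg h3]
  unfold lJ
  rw [osp_tt, osp_tt]
  apply le_of_eq
  ring

/-- The cost increases with the couplings. -/
theorem TS_mono {β : ℝ} (hβ : 0 ≤ β) {κ κ' : Site → ℝ} (hκ : ∀ i, 0 ≤ κ i)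
    (hκκ : ∀ i, κ i ≤ κ' i) (Λ : Finset Site) (η : Cfg) : TS β κ Λ η ≤ TS β κ' Λ η := by
  have h1 := compare (lA (Λ := Λ)) (J1 := lJ β κ tt) (J2 := lJ β κ η)
    (D := fun e => lJ β κ' tt e - lJ β κ tt e) (D' := fun e => lJ β κ' η e - lJ β κ η e)
    (fun e => lJ_le hβ hκ (fun _ => le_rfl) η e) (fun e => lJ_sub62 hβ hκκ η e)
    (Finset.Subset.refl ∅) ∅
  have e1' : (fun e : LB Λ => lJ β κ η e + (lJ β κ' η e - lJ β κ η e)) = lJ β κ' η := by
    funext e; ring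
  have e2' : (fun e : LB Λ => lJ β κ tt e + (lJ β κ' tt e - lJ β κ tt e)) = lJ β κ' tt := by
    funext e; ring
  rw [e1', e2'] at h1
  change PN Λ β κ tt ∅ * PN Λ β κ' η ∅ ≤ PN Λ β κ η ∅ * PN Λ β κ' tt ∅ at h1
  have p1 := PN_pos (Λ := Λ) β κ tt
  have p2 := PN_pos (Λ := Λ) β κ' η
  have p3 := PN_pos (Λ := Λ) β κ η
  have p4 := PN_pos (Λ := Λ) β κ' tt
  have h2 := Real.log_le_log (mul_pos p1 p2) h1
  rw [Real.log_mul p1.ne' p2.ne', Real.log_mul p3.ne' p4.ne'] at h2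
  unfold TS
  rw [Zg_one_eq, Zg_one_eq, Zg_one_eq, Zg_one_eq, Real.log_mul (lK_pos β κ).ne' p1.ne',
    Real.log_mul (lK_pos β κ).ne' p3.ne', Real.log_mul (lK_pos β κ').ne' p4.ne',
    Real.log_mul (lK_pos β κ').ne' p2.ne']
  linarith

/-- Convexity (Jensen). -/
theorem log_convex (β : ℝ) (κ κ' : Site → ℝ) (Λ : Finset Site) (η : Cfg) :
    avg β κ Λ η (fun ω => β * (en κ' Λ ω - en κ Λ ω)) ≤
      Real.log (Zg β κ' Λ η (fun _ => 1)) - Real.log (Zg β κ Λ η (fun _ => 1)) := by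
  obtain ⟨a, ha⟩ : ∃ a, a = avg β κ Λ η (fun ω => β * (en κ' Λ ω - en κ Λ ω)) := ⟨_, rfl⟩
  rw [← ha]
  have hp := Zg_one_pos (β := β) (κ := κ) (Λ := Λ) (η := η)
  have h1 : Zg β κ' Λ η (fun _ => 1) =
      Zg β κ Λ η (fun ω => Real.exp (β * (en κ' Λ ω - en κ Λ ω))) := by
    unfold Zg
    refine Finset.sum_congr rfl fun ω _ => ?_
    unfold wg
    rw [mul_one, ← Real.exp_add]
    congr 1
    ring
  have h2 : Zg β κ Λ η (fun ω => Real.exp a * (1 + (β * (en κ' Λ ω - en κ Λ ω) - a))) ≤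
      Zg β κ' Λ η (fun _ => 1) := by
    rw [h1]
    refine Zg_mono fun ω _ => ?_
    have h3 := Real.add_one_le_exp (β * (en κ' Λ ω - en κ Λ ω) - a)
    have h4 : Real.exp (β * (en κ' Λ ω - en κ Λ ω)) =
        Real.exp a * Real.exp (β * (en κ' Λ ω - en κ Λ ω) - a) := by
      rw [← Real.exp_add]
      congr 1
      ring
    rw [h4]
    exact mul_le_mul_of_nonneg_left (by linarith) (Real.exp_pos a).le
  have h5 : Zg β κ Λ η (fun ω => Real.exp a * (1 + (β * (en κ' Λ ω - en κ Λ ω) - a))) =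
      Real.exp a * Zg β κ Λ η (fun _ => 1) := by
    rw [Zg_smul, Zg_add, Zg_sub]
    have h6 : Zg β κ Λ η (fun _ => a) = a * Zg β κ Λ η (fun _ => 1) := by
      have := Zg_smul (β := β) (κ := κ) (Λ := Λ) (η := η) a (fun _ => 1)
      simpa using this
    have h7 : Zg β κ Λ η (fun ω => β * (en κ' Λ ω - en κ Λ ω)) = a * Zg β κ Λ η (fun _ => 1) := by
      rw [ha]
      unfold avg
      rw [div_mul_cancel₀ _ hp.ne']
    rw [h6, h7]
    ring
  rw [h5] at h2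
  have h8 := Real.log_le_log (mul_pos (Real.exp_pos a) hp) h2
  rw [Real.log_mul (Real.exp_pos a).ne' hp.ne', Real.log_exp] at h8
  linarith

end Pool.Agent.Helper49.DL
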