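import Pool.Agent.Helper49.DL.Cone

/-!
The two-layer system: a random set `S` (the sites where the two layers agree) with a
ferromagnetic Ising system on `S` (the `a` layer, with fields) and one on the complement of `S`
(the `b` layer). Monotonicity by the four functions theorem.
-/

open Finset

namespace Pool.Agent.Helper49.DL

section

variable {V ι : Type*} [Fintype V] [DecidableEq V] [Fintype ι]

/-- Interactions restricted to subsets of `S`. -/
noncomputable def res (A : ι → Finset V) (J : ι → ℝ) (S : Finset V) : ι → ℝ :=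
  fun i => if A i ⊆ S then J i else 0

omit [Fintype V] [Fintype ι] in
lemma res_nonneg (A : ι → Finset V) {J : ι → ℝ} (hJ : ∀ i, 0 ≤ J i) (S : Finset V) (i : ι) :
    0 ≤ res A J S i := by
  unfold res; split_ifs
  · exact hJ i
  · exact le_rfl

/-- Character sum of the `a` layer on `S`. -/
noncomputable def na (A : ι → Finset V) (J : ι → ℝ) (F B S : Finset V) : ℝ :=
  NN A (res A J S) F B

lemma na_nonneg (A : ι → Finset V) {J : ι → ℝ} (hJ : ∀ i, 0 ≤ J i) (F B S : Finset V) :
    0 ≤ na A J F B S := NN_nonneg A (res_nonneg A hJ S) F B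

lemma na_empty_pos (A : ι → Finset V) (J : ι → ℝ) (F S : Finset V) :
    0 < na A J F ∅ S := NN_empty_pos A _ F

/-- The basic supermodular comparison for one layer. -/
lemma na_compare (A : ι → Finset V) {J J' : ι → ℝ} (hJ : ∀ i, 0 ≤ J i)
    (hJJ : ∀ i, J i ≤ J' i) {F F' : Finset V} (hF : F ⊆ F') (B S T : Finset V) :
    na A J' F' ∅ S * na A J F B T ≤ na A J F ∅ (S ∩ T) * na A J' F' B (S ∪ T) := by
  have h := compare A (J1 := res A J' S) (J2 := res A J (S ∩ T))
    (D := fun i => res A J' (S ∪ T) i - res A J' S i)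
    (D' := fun i => res A J T i - res A J (S ∩ T) i) ?_ ?_ hF B
  · have e1 : (fun i => res A J (S ∩ T) i + (res A J T i - res A J (S ∩ T) i)) = res A J T := by
      funext i; ring
    have e2 : (fun i => res A J' S i + (res A J' (S ∪ T) i - res A J' S i)) =
        res A J' (S ∪ T) := by
      funext i; ring
    rw [e1, e2] at h
    exact h
  · intro i
    unfold res
    by_cases h : A i ⊆ S ∩ T
    · have h2 : A i ⊆ S := h.trans Finset.inter_subset_left
      simp only [h, h2, if_true]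
      rw [abs_of_nonneg (hJ i)]; exact hJJ i
    · simp only [h, if_false, abs_zero]
      split_ifs
      · exact (hJ i).trans (hJJ i)
      · exact le_rfl
  · intro i
    have hJi := hJ i
    have hJJi := hJJ i
    unfold res
    by_cases hS : A i ⊆ S <;> by_cases hT : A i ⊆ T
    · have h1 : A i ⊆ S ∩ T := Finset.subset_inter hS hT
      have h2 : A i ⊆ S ∪ T := hS.trans Finset.subset_union_left
      simp [hS, hT, h1, h2]
    · have h1 : ¬ A i ⊆ S ∩ T := fun h => hT (h.trans Finset.inter_subset_right)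
      have h2 : A i ⊆ S ∪ T := hS.trans Finset.subset_union_left
      simp [hS, hT, h1, h2]
    · have h1 : ¬ A i ⊆ S ∩ T := fun h => hS (h.trans Finset.inter_subset_left)
      have h2 : A i ⊆ S ∪ T := hT.trans Finset.subset_union_right
      simp only [hS, hT, h1, h2, if_true, if_false, sub_zero]
      rw [abs_of_nonneg hJi]; exact hJJi
    · have h1 : ¬ A i ⊆ S ∩ T := fun h => hT (h.trans Finset.inter_subset_right)
      simp only [hS, hT, h1, if_false, sub_zero, abs_zero]
      split_ifs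
      · exact hJi.trans hJJi
      · exact le_rfl

/-- Weighted two-layer sum of the observable `a_B` (with the constraint factor `F`). -/
noncomputable def TL (A : ι → Finset V) (J L : ι → ℝ) (ρ : Finset V → ℝ) (F B : Finset V) : ℝ :=
  ∑ S : Finset V, ρ S * (na A J F B S * na A L ∅ ∅ Sᶜ)

/-- Core monotonicity: larger interactions in the `a` layer, more constraints, and a prior on
`S` that is larger in the Holley sense increase the expectation of `a_B`. -/
theorem core (A : ι → Finset V) {J J' L : ι → ℝ} (hJ : ∀ i, 0 ≤ J i) (hJJ : ∀ i, J i ≤ J' i)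
    (hL : ∀ i, 0 ≤ L i) {ρ ρ' : Finset V → ℝ} (h0 : ∀ S, 0 ≤ ρ S) (h0' : ∀ S, 0 ≤ ρ' S)
    (hρ : ∀ S T, ρ' S * ρ T ≤ ρ (S ∩ T) * ρ' (S ∪ T)) {F F' : Finset V} (hF : F ⊆ F')
    (B : Finset V) :
    TL A J' L ρ' F' ∅ * TL A J L ρ F B ≤ TL A J L ρ F ∅ * TL A J' L ρ' F' B := by
  have hJ' : ∀ i, 0 ≤ J' i := fun i => (hJ i).trans (hJJ i)
  refine four_functions_theorem_univ
    (fun S => ρ' S * (na A J' F' ∅ S * na A L ∅ ∅ Sᶜ))
    (fun S => ρ S * (na A J F B S * na A L ∅ ∅ Sᶜ))
    (fun S => ρ S * (na A J F ∅ S * na A L ∅ ∅ Sᶜ))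
    (fun S => ρ' S * (na A J' F' B S * na A L ∅ ∅ Sᶜ))
    (fun S => mul_nonneg (h0' S) (mul_nonneg (na_nonneg A hJ' _ _ _) (na_nonneg A hL _ _ _)))
    (fun S => mul_nonneg (h0 S) (mul_nonneg (na_nonneg A hJ _ _ _) (na_nonneg A hL _ _ _)))
    (fun S => mul_nonneg (h0 S) (mul_nonneg (na_nonneg A hJ _ _ _) (na_nonneg A hL _ _ _)))
    (fun S => mul_nonneg (h0' S) (mul_nonneg (na_nonneg A hJ' _ _ _) (na_nonneg A hL _ _ _)))
    ?_
  intro S T
  simp only [Finset.inf_eq_inter, Finset.sup_eq_union]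
  have h1 := na_compare A hJ hJJ hF B S T
  have h2 := na_compare A hL (fun i => le_refl (L i)) (Finset.Subset.refl ∅) ∅ Sᶜ Tᶜ
  rw [← Finset.compl_union, ← Finset.compl_inter] at h2
  have h3 := hρ S T
  have p1 : 0 ≤ na A J' F' ∅ S * na A J F B T :=
    mul_nonneg (na_nonneg A hJ' _ _ _) (na_nonneg A hJ _ _ _)
  have p2 : 0 ≤ na A L ∅ ∅ Sᶜ * na A L ∅ ∅ Tᶜ :=
    mul_nonneg (na_nonneg A hL _ _ _) (na_nonneg A hL _ _ _)
  have p3 : 0 ≤ ρ (S ∩ T) * ρ' (S ∪ T) := mul_nonneg (h0 _) (h0' _)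
  have p4 : 0 ≤ na A J F ∅ (S ∩ T) * na A J' F' B (S ∪ T) :=
    mul_nonneg (na_nonneg A hJ _ _ _) (na_nonneg A hJ' _ _ _)
  have hm := mul_le_mul (mul_le_mul h3 h1 p1 p3) h2 p2 (mul_nonneg p3 p4)
  calc ρ' S * (na A J' F' ∅ S * na A L ∅ ∅ Sᶜ) * (ρ T * (na A J F B T * na A L ∅ ∅ Tᶜ))
      = (ρ' S * ρ T) * (na A J' F' ∅ S * na A J F B T) * (na A L ∅ ∅ Sᶜ * na A L ∅ ∅ Tᶜ) := by
        ring
    _ ≤ _ := hm
    _ = _ := by ring

end

end Pool.Agent.Helper49.DL
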