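import Pool.Agent.Helper49.DL.DupId

/-!
Block DL2-L4: the Lebowitz inequality for the four-point function of a ferromagnet with pair
interactions and without field.

Paper proof. Two independent copies `s`, `t` with couplings `J`; `S = {v | s v = t v}`. As in
`dup_pair`/`dup_even` (DupId.lean with `g = 1`; `wt A J s * wt A J t = wt A (res A (2J) S) s *
wt A (res A (2J) Sᶜ) s` because `|A i| = 2`), for sets `P`, `Q`:
`D P Q := ∑_s ∑_t (∏_{v ∈ P} (sp (s v) + sp (t v))) (∏_{v ∈ Q} (sp (s v) - sp (t v))) wt s wt t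
  = 2^(|P| + |Q|) 2^(-|V|) ∑_S na A (2J) ∅ P S * na A (2J) ∅ Q Sᶜ`
(the first product is `2^|P| chi P s` if `P ⊆ S` and `0` otherwise; the second `2^|Q| chi Q s` if
`Q ⊆ Sᶜ`; `sum_mul_sum_dep`, `na_eq_zero` in Joint.lean).
Four functions theorem (`four_functions_theorem_univ`, exactly as in `core`, Layers.lean) with
`na_compare` for `S, T` and for `Sᶜ, Tᶜ`: `D {a,b} {c,d} * D ∅ ∅ ≤ D {a,b} ∅ * D ∅ {c,d}`.
Expand: `D {a,b} {c,d} = 2 (N0 N{abcd} + N{ab} N{cd} - N{ac} N{bd} - N{ad} N{bc})`,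
`D ∅ ∅ = N0 ^ 2`, `D {a,b} ∅ = 2 N0 N{ab} ` (the terms with one spin of each copy vanish: zero field,
`chi_neg` and `neg` in Odd.lean, `N{a} = 0`), `D ∅ {c,d} = 2 N0 N{cd}`, where `N B = NN A J ∅ B`,
`N0 = N ∅ > 0`. Hence `N0 N{abcd} + N{ab} N{cd} - N{ac} N{bd} - N{ad} N{bc} ≤ 2 N{ab} N{cd}`.
-/

open Finset

namespace Pool.Agent.Helper49.DL

section l4

variable {V ι : Type*} [Fintype V] [DecidableEq V] [Fintype ι]

private lemma l4_NN (A : ι → Finset V) (J : ι → ℝ) (B : Finset V) :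
    NN A J ∅ B = ∑ s : V → Bool, chi B s * wt A J s := by
  unfold NN
  exact Finset.sum_congr rfl fun s _ => by rw [frc_empty, mul_one]

private lemma l4_odd (A : ι → Finset V) {J : ι → ℝ} (hA : ∀ i, (A i).card = 2)
    {f : (V → Bool) → ℝ} (hf : ∀ s, f (neg s) = - f s) : ∑ s, f s * wt A J s = 0 := by
  have h1 : ∀ s : V → Bool, wt A J (neg s) = wt A J s := by
    intro s
    unfold wt
    congr 1
    refine Finset.sum_congr rfl fun i _ => ?_
    rw [chi_neg, hA i]
    norm_num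
  have h2 : ∑ s, f (neg s) * wt A J (neg s) = ∑ s, f s * wt A J s :=
    Fintype.sum_equiv ⟨neg, neg, neg_neg, neg_neg⟩ _ _ (fun s => rfl)
  have h3 : ∑ s, f (neg s) * wt A J (neg s) = - ∑ s, f s * wt A J s := by
    rw [← Finset.sum_neg_distrib]
    exact Finset.sum_congr rfl fun s _ => by rw [hf, h1]; ring
  linarith

/-- The duplicated sum. -/
private noncomputable def l4D (A : ι → Finset V) (J : ι → ℝ) (P Q : Finset V) : ℝ :=
  ∑ s : V → Bool, ∑ t : V → Bool, ((∏ v ∈ P, (sp (s v) + sp (t v))) *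
    (∏ v ∈ Q, (sp (s v) - sp (t v)))) * (wt A J s * wt A J t)

private lemma l4D_eq (A : ι → Finset V) {J : ι → ℝ} (hA : ∀ i, (A i).card = 2)
    (P Q : Finset V) : l4D A J P Q = 2 ^ P.card * 2 ^ Q.card / 2 ^ Fintype.card V *
      ∑ S : Finset V, na A (fun i => 2 * J i) ∅ P S * na A (fun i => 2 * J i) ∅ Q Sᶜ := by
  have hne : ∀ i, (A i).Nonempty := fun i => by
    rw [← Finset.card_pos, hA i]
    norm_num
  have hQ : cQ J (fun _ => 1) = fun i => 2 * J i := by
    funext i
    unfold cQ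
    ring
  have hR : cR A J (fun _ => 1) = fun i => 2 * J i := by
    funext i
    unfold cR
    rw [hA i]
    ring
  have hJ1 : (fun i => (fun _ : ι => (1 : ℝ)) i * J i) = J := by
    funext i
    exact one_mul _
  unfold l4D
  rw [sum_flp (fun s t => ((∏ v ∈ P, (sp (s v) + sp (t v))) *
    (∏ v ∈ Q, (sp (s v) - sp (t v)))) * (wt A J s * wt A J t)), Finset.mul_sum]
  refine Finset.sum_congr rfl fun S _ => ?_
  by_cases hP : P ⊆ S
  · by_cases hQs : Q ⊆ Sᶜ
    · have h1 : ∀ s : V → Bool, ((∏ v ∈ P, (sp (s v) + sp (flp S s v))) *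
          (∏ v ∈ Q, (sp (s v) - sp (flp S s v)))) * (wt A J s * wt A J (flp S s)) =
          2 ^ P.card * 2 ^ Q.card * ((chi P s * wt A (res A (fun i => 2 * J i) S) s) *
            (chi Q s * wt A (res A (fun i => 2 * J i) Sᶜ) s)) := by
        intro s
        have e1 : ∏ v ∈ P, (sp (s v) + sp (flp S s v)) = 2 ^ P.card * chi P s := by
          unfold chi
          rw [← Finset.prod_const, ← Finset.prod_mul_distrib]
          refine Finset.prod_congr rfl fun v hv => ?_
          unfold flp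
          rw [if_pos (hP hv)]
          ring
        have e2 : ∏ v ∈ Q, (sp (s v) - sp (flp S s v)) = 2 ^ Q.card * chi Q s := by
          unfold chi
          rw [← Finset.prod_const, ← Finset.prod_mul_distrib]
          refine Finset.prod_congr rfl fun v hv => ?_
          unfold flp
          rw [if_neg (Finset.mem_compl.1 (hQs hv)), sp_not]
          ring
        have e3 := wt_flp A (J := J) (g := fun _ => 1) hne (fun i => (hA i).le)
          (fun _ _ => rfl) S s
        rw [hQ, hR, hJ1] at e3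
        rw [e1, e2, e3]
        ring
      rw [Finset.sum_congr rfl fun s _ => h1 s, ← Finset.mul_sum]
      unfold na
      rw [l4_NN, l4_NN, sum_mul_sum_dep S
        (f := fun s => chi P s * wt A (res A (fun i => 2 * J i) S) s)
        (g := fun s => chi Q s * wt A (res A (fun i => 2 * J i) Sᶜ) s)]
      · have h3 : (2 : ℝ) ^ Fintype.card V ≠ 0 := by positivity
        field_simp
      · intro σ σ' hs
        beta_reduce
        rw [chi_dep hP σ σ' hs, wt_res_dep A _ S σ σ' hs]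
      · intro σ σ' hs
        beta_reduce
        rw [chi_dep hQs σ σ' hs, wt_res_dep A _ Sᶜ σ σ' hs]
    · rw [na_eq_zero A _ (Finset.empty_subset _) hQs, mul_zero, mul_zero]
      obtain ⟨v, hv, hv'⟩ := Finset.not_subset.1 hQs
      have hvS : v ∈ S := by
        by_contra h
        exact hv' (Finset.mem_compl.2 h)
      refine Finset.sum_eq_zero fun s _ => ?_
      have e2 : ∏ v ∈ Q, (sp (s v) - sp (flp S s v)) = 0 := by
        refine Finset.prod_eq_zero hv ?_
        unfold flp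
        rw [if_pos hvS, sub_self]
      rw [e2]
      ring
  · rw [na_eq_zero A _ (Finset.empty_subset _) hP, zero_mul, mul_zero]
    obtain ⟨v, hv, hv'⟩ := Finset.not_subset.1 hP
    refine Finset.sum_eq_zero fun s _ => ?_
    have e1 : ∏ v ∈ P, (sp (s v) + sp (flp S s v)) = 0 := by
      refine Finset.prod_eq_zero hv ?_
      unfold flp
      rw [if_neg hv', sp_not, add_neg_cancel]
    rw [e1]
    ring

private lemma l4_four (A : ι → Finset V) {K : ι → ℝ} (hK : ∀ i, 0 ≤ K i) (P Q : Finset V) :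
    (∑ S : Finset V, na A K ∅ P S * na A K ∅ Q Sᶜ) *
        (∑ S : Finset V, na A K ∅ ∅ S * na A K ∅ ∅ Sᶜ) ≤
      (∑ S : Finset V, na A K ∅ ∅ S * na A K ∅ Q Sᶜ) *
        (∑ S : Finset V, na A K ∅ P S * na A K ∅ ∅ Sᶜ) := by
  have hn : ∀ B S : Finset V, 0 ≤ na A K ∅ B S := fun B S => na_nonneg A hK ∅ B S
  refine four_functions_theorem_univ
    (fun S => na A K ∅ P S * na A K ∅ Q Sᶜ)
    (fun S => na A K ∅ ∅ S * na A K ∅ ∅ Sᶜ)
    (fun S => na A K ∅ ∅ S * na A K ∅ Q Sᶜ)
    (fun S => na A K ∅ P S * na A K ∅ ∅ Sᶜ)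
    (fun S => mul_nonneg (hn _ _) (hn _ _)) (fun S => mul_nonneg (hn _ _) (hn _ _))
    (fun S => mul_nonneg (hn _ _) (hn _ _)) (fun S => mul_nonneg (hn _ _) (hn _ _)) ?_
  intro S T
  simp only [Finset.inf_eq_inter, Finset.sup_eq_union]
  have h1 := na_compare A hK (fun i => le_refl (K i)) (Finset.Subset.refl ∅) P T S
  have h2 := na_compare A hK (fun i => le_refl (K i)) (Finset.Subset.refl ∅) Q Tᶜ Sᶜ
  rw [← Finset.compl_union, ← Finset.compl_inter] at h2
  rw [Finset.inter_comm T S, Finset.union_comm T S] at h1 h2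
  have hm := mul_le_mul h1 h2 (mul_nonneg (hn _ _) (hn _ _)) (mul_nonneg (hn _ _) (hn _ _))
  calc na A K ∅ P S * na A K ∅ Q Sᶜ * (na A K ∅ ∅ T * na A K ∅ ∅ Tᶜ)
      = (na A K ∅ ∅ T * na A K ∅ P S) * (na A K ∅ ∅ Tᶜ * na A K ∅ Q Sᶜ) := by ring
    _ ≤ _ := hm
    _ = _ := by ring

private lemma l4D_ineq (A : ι → Finset V) {J : ι → ℝ} (hJ : ∀ i, 0 ≤ J i)
    (hA : ∀ i, (A i).card = 2) (P Q : Finset V) :
    l4D A J P Q * l4D A J ∅ ∅ ≤ l4D A J ∅ Q * l4D A J P ∅ := by
  rw [l4D_eq A hA, l4D_eq A hA, l4D_eq A hA, l4D_eq A hA]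
  have h := l4_four A (K := fun i => 2 * J i) (fun i => mul_nonneg zero_le_two (hJ i)) P Q
  rw [Finset.card_empty]
  have hc : (0 : ℝ) ≤ 2 ^ P.card * 2 ^ Q.card / 2 ^ Fintype.card V / 2 ^ Fintype.card V := by
    positivity
  have h' := mul_le_mul_of_nonneg_left h hc
  refine le_trans (le_of_eq ?_) (h'.trans (le_of_eq ?_))
  · ring
  · ring

end l4

theorem lebowitz4 {V ι : Type*} [Fintype V] [DecidableEq V] [Fintype ι] (A : ι → Finset V)
    {J : ι → ℝ} (hJ : ∀ i, 0 ≤ J i) (hA : ∀ i, (A i).card = 2) {a b c d : V} (hab : a ≠ b)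
    (hac : a ≠ c) (had : a ≠ d) (hbc : b ≠ c) (hbd : b ≠ d) (hcd : c ≠ d) :
    NN A J ∅ ∅ * NN A J ∅ {a, b, c, d} ≤ NN A J ∅ {a, b} * NN A J ∅ {c, d} +
      NN A J ∅ {a, c} * NN A J ∅ {b, d} + NN A J ∅ {a, d} * NN A J ∅ {b, c} := by
  set w := wt A J with hw
  have hpair : ∀ {x y : V}, x ≠ y →
      NN A J ∅ {x, y} = ∑ s : V → Bool, (sp (s x) * sp (s y)) * w s := by
    intro x y hxy
    rw [l4_NN]
    refine Finset.sum_congr rfl fun s _ => ?_
    unfold chi
    rw [Finset.prod_pair hxy]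
  have h4 : NN A J ∅ {a, b, c, d} =
      ∑ s : V → Bool, (sp (s a) * sp (s b) * sp (s c) * sp (s d)) * w s := by
    rw [l4_NN]
    refine Finset.sum_congr rfl fun s _ => ?_
    unfold chi
    rw [Finset.prod_insert (by simp [hab, hac, had]), Finset.prod_insert (by simp [hbc, hbd]),
      Finset.prod_pair hcd]
    ring
  have h0 : NN A J ∅ ∅ = ∑ s : V → Bool, w s := by
    rw [l4_NN]
    exact Finset.sum_congr rfl fun s _ => by rw [chi_empty, one_mul]
  have hneg : ∀ (s : V → Bool) (v : V), sp (neg s v) = - sp (s v) := fun s v => sp_not _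
  have ho1 : ∀ x : V, ∑ s : V → Bool, sp (s x) * w s = 0 := fun x =>
    l4_odd A hA (f := fun s => sp (s x)) (fun s => hneg s x)
  -- the four duplicated sums
  have e00 : l4D A J ∅ ∅ = NN A J ∅ ∅ * NN A J ∅ ∅ := by
    rw [h0, Finset.sum_mul_sum]
    unfold l4D
    refine Finset.sum_congr rfl fun s _ => Finset.sum_congr rfl fun t _ => ?_
    simp only [Finset.prod_empty, one_mul, hw]
  have e1 : l4D A J {a, b} ∅ = 2 * (NN A J ∅ ∅ * NN A J ∅ {a, b}) := by
    have hz : (∑ s : V → Bool, sp (s a) * w s) * (∑ t : V → Bool, sp (t b) * w t) = 0 := by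
      rw [ho1, zero_mul]
    have hx : l4D A J {a, b} ∅ = 2 * (NN A J ∅ ∅ * NN A J ∅ {a, b}) +
        2 * ((∑ s : V → Bool, sp (s a) * w s) * (∑ t : V → Bool, sp (t b) * w t)) := by
      have hsym : l4D A J {a, b} ∅ = (NN A J ∅ {a, b} * NN A J ∅ ∅ +
          (∑ s : V → Bool, sp (s a) * w s) * (∑ t : V → Bool, sp (t b) * w t)) +
          ((∑ s : V → Bool, sp (s b) * w s) * (∑ t : V → Bool, sp (t a) * w t) +
            NN A J ∅ ∅ * NN A J ∅ {a, b}) := by
        rw [h0, hpair hab]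
        simp only [Finset.sum_mul_sum, ← Finset.sum_add_distrib]
        unfold l4D
        refine Finset.sum_congr rfl fun s _ => Finset.sum_congr rfl fun t _ => ?_
        rw [Finset.prod_pair hab, Finset.prod_empty]
        simp only [hw]
        ring
      rw [hsym]
      ring
    rw [hx, hz]
    ring
  have e2 : l4D A J ∅ {c, d} = 2 * (NN A J ∅ ∅ * NN A J ∅ {c, d}) := by
    have hz : (∑ s : V → Bool, sp (s c) * w s) * (∑ t : V → Bool, sp (t d) * w t) = 0 := by
      rw [ho1, zero_mul]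
    have hx : l4D A J ∅ {c, d} = (NN A J ∅ {c, d} * NN A J ∅ ∅ -
          (∑ s : V → Bool, sp (s c) * w s) * (∑ t : V → Bool, sp (t d) * w t)) -
          ((∑ s : V → Bool, sp (s d) * w s) * (∑ t : V → Bool, sp (t c) * w t) -
            NN A J ∅ ∅ * NN A J ∅ {c, d}) := by
      rw [h0, hpair hcd]
      simp only [Finset.sum_mul_sum, ← Finset.sum_sub_distrib]
      unfold l4D
      refine Finset.sum_congr rfl fun s _ => Finset.sum_congr rfl fun t _ => ?_
      rw [Finset.prod_pair hcd, Finset.prod_empty]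
      simp only [hw]
      ring
    rw [hx, ho1, ho1]
    ring
  have e3 : l4D A J {a, b} {c, d} = 2 * (NN A J ∅ ∅ * NN A J ∅ {a, b, c, d} +
      NN A J ∅ {a, b} * NN A J ∅ {c, d} - NN A J ∅ {a, c} * NN A J ∅ {b, d} -
      NN A J ∅ {a, d} * NN A J ∅ {b, c}) := by
    have hodd3 : ∀ x y z : V, ∑ s : V → Bool, (sp (s x) * sp (s y) * sp (s z)) * w s = 0 := by
      intro x y z
      refine l4_odd A hA (f := fun s => sp (s x) * sp (s y) * sp (s z)) (fun s => ?_)
      simp only [hneg]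
      ring
    -- terms with an odd number of spins in each copy
    have hx : l4D A J {a, b} {c, d} =
        ((NN A J ∅ {a, b, c, d} * NN A J ∅ ∅ + NN A J ∅ {a, b} * NN A J ∅ {c, d} -
          NN A J ∅ {a, c} * NN A J ∅ {b, d} - NN A J ∅ {a, d} * NN A J ∅ {b, c}) +
        (NN A J ∅ {c, d} * NN A J ∅ {a, b} + NN A J ∅ ∅ * NN A J ∅ {a, b, c, d} -
          NN A J ∅ {b, d} * NN A J ∅ {a, c} - NN A J ∅ {b, c} * NN A J ∅ {a, d})) +
        (((∑ s : V → Bool, (sp (s a) * sp (s c) * sp (s d)) * w s) *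
            (∑ t : V → Bool, sp (t b) * w t) +
          (∑ s : V → Bool, (sp (s b) * sp (s c) * sp (s d)) * w s) *
            (∑ t : V → Bool, sp (t a) * w t) -
          (∑ s : V → Bool, (sp (s a) * sp (s b) * sp (s c)) * w s) *
            (∑ t : V → Bool, sp (t d) * w t) -
          (∑ s : V → Bool, (sp (s a) * sp (s b) * sp (s d)) * w s) *
            (∑ t : V → Bool, sp (t c) * w t)) +
        ((∑ s : V → Bool, sp (s a) * w s) *
            (∑ t : V → Bool, (sp (t b) * sp (t c) * sp (t d)) * w t) +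
          (∑ s : V → Bool, sp (s b) * w s) *
            (∑ t : V → Bool, (sp (t a) * sp (t c) * sp (t d)) * w t) -
          (∑ s : V → Bool, sp (s c) * w s) *
            (∑ t : V → Bool, (sp (t a) * sp (t b) * sp (t d)) * w t) -
          (∑ s : V → Bool, sp (s d) * w s) *
            (∑ t : V → Bool, (sp (t a) * sp (t b) * sp (t c)) * w t))) := by
      rw [h0, h4, hpair hab, hpair hcd, hpair hac, hpair hbd, hpair had, hpair hbc]
      simp only [Finset.sum_mul_sum, ← Finset.sum_add_distrib, ← Finset.sum_sub_distrib]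
      unfold l4D
      refine Finset.sum_congr rfl fun s _ => Finset.sum_congr rfl fun t _ => ?_
      rw [Finset.prod_pair hab, Finset.prod_pair hcd]
      simp only [hw]
      ring
    rw [hx, hodd3, hodd3, hodd3, hodd3, ho1, ho1, ho1, ho1]
    ring
  have hmain := l4D_ineq A hJ hA {a, b} {c, d}
  rw [e00, e1, e2, e3] at hmain
  have hpos : 0 < NN A J ∅ ∅ := NN_empty_pos A J ∅
  have hpos2 : 0 < NN A J ∅ ∅ * NN A J ∅ ∅ := mul_pos hpos hpos
  have hfin : (NN A J ∅ ∅ * NN A J ∅ ∅) * (NN A J ∅ ∅ * NN A J ∅ {a, b, c, d}) ≤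
      (NN A J ∅ ∅ * NN A J ∅ ∅) * (NN A J ∅ {a, b} * NN A J ∅ {c, d} +
      NN A J ∅ {a, c} * NN A J ∅ {b, d} + NN A J ∅ {a, d} * NN A J ∅ {b, c}) := by
    nlinarith [hmain]
  exact le_of_mul_le_mul_left hfin hpos2

end Pool.Agent.Helper49.DL
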