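import Pool.Agent.Helper49.DL.Vary

/-!
The antisymmetric field has zero mean in the limit (homogeneous model).
-/

open Finset

namespace Pool.Agent.Helper49.DL

section

variable {β : ℝ}

lemma yv_shift_up (x k : ℤ) (ω : Cfg) :
    yv (x, 1) (shift (0, -k) ω) = (sp (ω (x, k + 1)) - sp (ω (x, k))) / 2 := by
  unfold yv shift bar
  have h1 : ((x, 1) : Site) - (0, -k) = (x, k + 1) := by
    ext
    · simp
    · simp only [Prod.snd_sub]; ring
  have h2 : ((x, 1 - 1) : Site) - (0, -k) = (x, k) := by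
    ext
    · simp
    · simp only [Prod.snd_sub]; ring
  simp only [h1, h2]

lemma AL_shift (L k : ℤ) (ω : Cfg) :
    AL L (shift (0, -k) ω) =
      (2 * (L : ℝ) + 1)⁻¹ * ∑ x ∈ Finset.Icc (-L) L, (sp (ω (x, k + 1)) - sp (ω (x, k))) / 2 := by
  unfold AL
  simp only [yv_shift_up]

/-- All low rows have small variance around `fi`, in a suitable symmetric box, simultaneously. -/
theorem rows_small (hβ : 0 ≤ β) (K : ℕ) {s : ℝ} (hs : 0 < s) :
    ∃ N L M : ℤ, 0 ≤ L ∧ L ≤ N ∧ (K : ℤ) + 1 ≤ M ∧ ∀ k : ℕ, k ≤ K →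
      avg β (kap 1) (box N M) (eta 0) (fun ω => (AL L (shift (0, -(k : ℤ)) ω) - fi β) ^ 2) ≤ s := by
  set D : ℝ := Real.exp (4 * β * K) with hD
  have hDpos : 0 < D := Real.exp_pos _
  set s' : ℝ := s / (3 * D) with hs'
  have hs'pos : 0 < s' := by positivity
  obtain ⟨l, m, hl, hm, hlm⟩ := fi_approx (β := β) (ε := s' / 3) (by positivity)
  -- choose L
  obtain ⟨L, hL⟩ := exists_nat_gt ((2 * (l : ℝ) + 1) / s')
  set N : ℤ := (L : ℤ) + l with hN
  set q : ℝ := 1 - eps β (2 * (2 * N + 1).toNat) with hq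
  have hq0 : 0 ≤ q := by have := eps_le_one hβ (2 * (2 * N + 1).toNat); linarith
  have hq1 : q < 1 := by have := eps_pos β (2 * (2 * N + 1).toNat); linarith
  obtain ⟨T, hT⟩ := exists_pow_lt_of_lt_one (show 0 < s' / 4 by positivity) hq1
  set M : ℤ := (K : ℤ) + 1 + m + T with hM
  refine ⟨N, L, M, by positivity, by omega, by omega, ?_⟩
  intro k hk
  have hk' : (k : ℤ) ≤ K := by exact_mod_cast hk
  set F : Cfg → ℝ := fun ω => (AL L (shift (0, -(k : ℤ)) ω) - fi β) ^ 2 with hF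
  have hlocQ : Loc (box N m) (fun ω => (AL L ω - fi β) ^ 2) := by
    intro ω ω' h
    have : AL L ω = AL L ω' := by
      unfold AL
      congr 1
      refine Finset.sum_congr rfl fun x hx => ?_
      rw [Finset.mem_Icc] at hx
      unfold yv
      rw [h (x, 1) (by rw [mem_box]; simp only; omega),
        h (bar (x, 1)) (by rw [mem_box]; simp only [bar]; omega)]
    simp only [this]
  have hlocF : Loc (box N M) F := by
    intro ω ω' h
    have : AL L (shift (0, -(k : ℤ)) ω) = AL L (shift (0, -(k : ℤ)) ω') := by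
      rw [AL_shift, AL_shift]
      congr 1
      refine Finset.sum_congr rfl fun x hx => ?_
      rw [Finset.mem_Icc] at hx
      rw [h (x, (k : ℤ) + 1) (by rw [mem_box]; simp only; omega),
        h (x, (k : ℤ)) (by rw [mem_box]; simp only; omega)]
    simp only [hF, this]
  have hfi0 := fi_nonneg hβ
  have hfi1 := fi_le_one hβ
  have hdens := avg_density (N := N) (M := M) (k := k) hβ (by positivity) (by omega)
    (F := F) (fun ω => sq_nonneg _) hlocF
  have hrows := rows_main (N := N) (M := M) (k := (k : ℤ)) hβ (by positivity) hm hlocQ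
    (fun ω => sq_nonneg _) (fun ω => by
      have h1 := abs_le.1 (AL_abs (L := (L : ℤ)) (by positivity) ω)
      nlinarith) (δ := (2 * (l : ℝ) + 1) / (2 * (L : ℝ) + 1) + 3 * (fc β l m - fi β))
    (fun m' h1 h2 => by
      have := var_bound (L := (L : ℤ)) hβ (by positivity) hl hm h1
      push_cast at this
      exact this) T (by omega)
  have hsmall : (2 * (l : ℝ) + 1) / (2 * (L : ℝ) + 1) + 3 * (fc β l m - fi β) +
      4 * q ^ T ≤ 3 * s' := by
    have h1 : (2 * (l : ℝ) + 1) / (2 * (L : ℝ) + 1) ≤ s' := by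
      have hL0 : (0 : ℝ) ≤ L := Nat.cast_nonneg _
      rw [div_le_iff₀ (by positivity)]
      rw [div_lt_iff₀ hs'pos] at hL
      nlinarith
    have h2 : 3 * (fc β l m - fi β) ≤ s' := by linarith
    linarith
  have hexp : Real.exp (4 * β * ((k : ℤ) : ℝ)) ≤ D := by
    apply Real.exp_le_exp.2
    have : ((k : ℤ) : ℝ) ≤ (K : ℝ) := by exact_mod_cast hk'
    have := mul_le_mul_of_nonneg_left this hβ
    linarith
  have hnn : 0 ≤ avg β (kap 1) (box N M) (eta k) F := avg_nonneg fun ω _ => sq_nonneg _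
  calc avg β (kap 1) (box N M) (eta 0) F ≤
      Real.exp (4 * β * ((k : ℤ) : ℝ)) * avg β (kap 1) (box N M) (eta k) F := hdens
    _ ≤ D * avg β (kap 1) (box N M) (eta k) F := mul_le_mul_of_nonneg_right hexp hnn
    _ ≤ D * (3 * s') := mul_le_mul_of_nonneg_left (hrows.trans hsmall) hDpos.le
    _ = s := by rw [hs']; field_simp

/-- The abs moment from the second moment. -/
lemma abs_le_of_sq {κ : Site → ℝ} {Λ : Finset Site} {η : Cfg} {X : Cfg → ℝ} {t : ℝ} (ht : 0 < t)
    (h : avg β κ Λ η (fun ω => X ω ^ 2) ≤ t ^ 2) : avg β κ Λ η (fun ω => |X ω|) ≤ t := by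
  have h1 : avg β κ Λ η (fun ω => |X ω|) ≤
      avg β κ Λ η (fun ω => t / 2 + (2 * t)⁻¹ * X ω ^ 2) := by
    refine avg_mono fun ω _ => ?_
    have h2 : 0 ≤ (t - |X ω|) ^ 2 := sq_nonneg _
    have h3 : |X ω| ^ 2 = X ω ^ 2 := sq_abs _
    have h4 : t / 2 + (2 * t)⁻¹ * X ω ^ 2 - |X ω| = (2 * t)⁻¹ * (t - |X ω|) ^ 2 := by
      rw [← h3]; field_simp; ring
    have h5 : 0 ≤ (2 * t)⁻¹ * (t - |X ω|) ^ 2 := by positivity
    linarith
  rw [avg_add, avg_const, avg_smul] at h1
  refine h1.trans ?_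
  have h6 : (2 * t)⁻¹ * avg β κ Λ η (fun ω => X ω ^ 2) ≤ (2 * t)⁻¹ * t ^ 2 :=
    mul_le_mul_of_nonneg_left h (by positivity)
  have h7 : (2 * t)⁻¹ * t ^ 2 = t / 2 := by field_simp
  linarith

lemma AL_telescope {L : ℤ} (hL : 0 ≤ L) (K : ℕ) (ω : Cfg) :
    ∑ k ∈ Finset.range K, AL L (shift (0, -(k : ℤ)) ω) ≤ 1 := by
  have hc : (0 : ℝ) < 2 * (L : ℝ) + 1 := by
    have : (0 : ℝ) ≤ L := by exact_mod_cast hL
    linarith
  simp only [AL_shift]
  rw [← Finset.mul_sum, Finset.sum_comm, inv_mul_le_iff₀ hc, mul_one]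
  calc ∑ x ∈ Finset.Icc (-L) L, ∑ k ∈ Finset.range K,
      (sp (ω (x, (k : ℤ) + 1)) - sp (ω (x, (k : ℤ)))) / 2 ≤ ∑ x ∈ Finset.Icc (-L) L, 1 := by
        refine Finset.sum_le_sum fun x _ => ?_
        have := Finset.sum_range_sub (fun k : ℕ => sp (ω (x, (k : ℤ))) / 2) K
        have h2 : ∑ k ∈ Finset.range K, (sp (ω (x, (k : ℤ) + 1)) - sp (ω (x, (k : ℤ)))) / 2 =
            ∑ k ∈ Finset.range K, (sp (ω (x, ((k + 1 : ℕ) : ℤ))) / 2 - sp (ω (x, (k : ℤ))) / 2) := by
          refine Finset.sum_congr rfl fun k _ => ?_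
          push_cast; ring
        rw [h2, this]
        cases ω (x, ((K : ℕ) : ℤ)) <;> cases ω (x, ((0 : ℕ) : ℤ)) <;> simp <;> norm_num
    _ = 2 * (L : ℝ) + 1 := by rw [Finset.sum_const, nsmul_eq_mul, mul_one, card_row hL]

theorem fi_zero (hβ : 0 ≤ β) : fi β = 0 := by
  have key : ∀ K : ℕ, (K : ℝ) * fi β ≤ 1 := by
    intro K
    refine le_of_forall_pos_le_add fun t' ht' => ?_
    obtain ⟨t, ht, htK⟩ : ∃ t : ℝ, 0 < t ∧ (K : ℝ) * t ≤ t' := by
      refine ⟨t' / (K + 1), by positivity, ?_⟩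
      rw [mul_div_assoc', div_le_iff₀ (by positivity)]
      nlinarith
    obtain ⟨N, L, M, hL, -, -, h⟩ := rows_small hβ K (s := t ^ 2) (by positivity)
    have h1 : ∀ k ∈ Finset.range K, avg β (kap 1) (box N M) (eta 0)
        (fun ω => |AL L (shift (0, -(k : ℤ)) ω) - fi β|) ≤ t := fun k hk =>
      abs_le_of_sq (X := fun ω => AL L (shift (0, -(k : ℤ)) ω) - fi β) ht
        (h k (Finset.mem_range.1 hk).le)
    have h2 : avg β (kap 1) (box N M) (eta 0)
        (fun ω => ∑ k ∈ Finset.range K, |AL L (shift (0, -(k : ℤ)) ω) - fi β|) ≤ K * t := by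
      rw [avg_sum]
      refine (Finset.sum_le_sum h1).trans ?_
      rw [Finset.sum_const, Finset.card_range, nsmul_eq_mul]
    have h3 : avg β (kap 1) (box N M) (eta 0) (fun _ => (K : ℝ) * fi β) ≤
        avg β (kap 1) (box N M) (eta 0) (fun ω =>
          1 + ∑ k ∈ Finset.range K, |AL L (shift (0, -(k : ℤ)) ω) - fi β|) := by
      refine avg_mono fun ω _ => ?_
      have h4 := AL_telescope hL K ω
      have h5 : ∑ k ∈ Finset.range K, (fi β - AL L (shift (0, -(k : ℤ)) ω)) ≤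
          ∑ k ∈ Finset.range K, |AL L (shift (0, -(k : ℤ)) ω) - fi β| := by
        refine Finset.sum_le_sum fun k _ => ?_
        rw [abs_sub_comm]
        exact le_abs_self _
      rw [Finset.sum_sub_distrib, Finset.sum_const, Finset.card_range, nsmul_eq_mul] at h5
      linarith
    rw [avg_const, avg_add, avg_const] at h3
    linarith
  have h0 := fi_nonneg hβ
  by_contra hne
  have hpos : 0 < fi β := lt_of_le_of_ne h0 (Ne.symm hne)
  obtain ⟨K, hK⟩ := exists_nat_gt (1 / fi β)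
  rw [div_lt_iff₀ hpos] at hK
  linarith [key K]

end

end Pool.Agent.Helper49.DL
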