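import Pool.Agent.Helper49.DL.Plim
import Pool.Agent.Helper49.DL.Flip

/-!
The local limit of the Dobrushin state is the mixture of the two pure phases.
-/

open Finset
open scoped Classical

namespace Pool.Agent.Helper49.DL

/-- Exceptional defect strengths: discontinuities of the disagreement probability of the pure
phase. -/
def Exc (β : ℝ) : Set ℝ := {J | ¬ ContinuousAt (fun J => pinf β (max 1 J)) J}

lemma exc_countable {β : ℝ} (hβ : 0 ≤ β) : (Exc β).Countable := by
  have h : Antitone (fun J => pinf β (max 1 J)) := by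
    intro J J' hJJ
    exact pinf_anti hβ (le_trans zero_le_one (le_max_left _ _)) (max_le_max le_rfl hJJ)
  exact h.countable_not_continuousAt

lemma bond_set : ({((0 : ℤ), (0 : ℤ)), (0, 1)} : Finset Site) = {o0, o1} := rfl

/-- The excess at the central bond vanishes. -/
theorem excess_small {β J : ℝ} (hβ : 0 < β) (hJ : 1 < J) (hE : J ∉ Exc β) {ε : ℝ} (hε : 0 < ε) :
    ∃ n : ℤ, 1 ≤ n ∧ ∀ N M : ℤ, n ≤ N → n ≤ M →
      avg β (kap J) (box N M) tt (ch {o0, o1}) - avg β (kap J) (box N M) (eta 0) (ch {o0, o1}) ≤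
        ε := by
  have hc : ContinuousAt (fun J => pinf β (max 1 J)) J := by
    by_contra h; exact hE h
  have hε6 : 0 < ε / 6 := by linarith
  -- a smaller J1 with pinf close
  obtain ⟨J1, hJ1, hJ1J, hp⟩ : ∃ J1, 1 ≤ J1 ∧ J1 < J ∧ pinf β J1 ≤ pinf β J + ε / 6 := by
    rw [Metric.continuousAt_iff] at hc
    obtain ⟨δ, hδ, h⟩ := hc (ε / 6) hε6
    set J1 := max 1 (J - δ / 2) with hJ1
    have h1 : 1 ≤ J1 := le_max_left _ _
    have h2 : J1 < J := max_lt hJ (by linarith)
    refine ⟨J1, h1, h2, ?_⟩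
    have h3 : dist J1 J < δ := by
      rw [Real.dist_eq, abs_lt]
      have : J - δ / 2 ≤ J1 := le_max_right _ _
      constructor <;> linarith
    have h4 := h h3
    rw [Real.dist_eq, max_eq_right h1, max_eq_right hJ.le] at h4
    have := (abs_lt.1 h4).2
    linarith
  obtain ⟨n1, hn1, hd⟩ := contact_le hβ hJ1 hJ1J hε6
  -- pn close to pinf
  obtain ⟨k, hk⟩ : ∃ k : ℕ, pinf β J - ε / 6 < pn β J k ((k : ℤ) + 1) := by
    have : pinf β J - ε / 6 < ⨆ n : ℕ, pn β J n ((n : ℤ) + 1) := by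
      change _ < pinf β J
      linarith
    exact exists_lt_of_lt_ciSup this
  refine ⟨n1 + k + 1, by omega, fun N M hN hM => ?_⟩
  have a1 := hd N M (by omega) (by omega)
  have a2 := pn_mono hβ.le (J := J) (by linarith) (N := k) (M := (k : ℤ) + 1) (N' := N) (M' := M)
    (by omega) (by omega) (by omega) (by omega)
  have a3 : dn β J N M - pn β J N M ≤ ε / 2 := by linarith
  unfold dn pn at a3
  rw [avg_nu, avg_nu, bond_set] at a3
  linarith

lemma ch_not (A : Finset Site) (ω : Cfg) : ch A (fun i => !(ω i)) = (-1) ^ A.card * ch A ω := by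
  unfold ch
  rw [← Finset.prod_const, ← Finset.prod_mul_distrib]
  exact Finset.prod_congr rfl fun i _ => by rw [sp_not]; ring

/-- Mixture of the two pure phases. -/
noncomputable def mix (β J : ℝ) (N M : ℤ) (F : Cfg → ℝ) : ℝ :=
  (avg β (kap J) (box N M) tt F + avg β (kap J) (box N M) tt (fun ω => F (fun i => !(ω i)))) / 2

lemma mix_add (β J : ℝ) (N M : ℤ) (F G : Cfg → ℝ) :
    mix β J N M (fun ω => F ω + G ω) = mix β J N M F + mix β J N M G := by
  unfold mix
  rw [avg_add F G, avg_add (fun ω => F (fun i => !(ω i))) (fun ω => G (fun i => !(ω i)))]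
  ring

lemma mix_ch (β J : ℝ) (N M : ℤ) (A : Finset Site) :
    mix β J N M (ch A) = (1 + (-1) ^ A.card) / 2 * avg β (kap J) (box N M) tt (ch A) := by
  unfold mix
  have : (fun ω : Cfg => ch A (fun i => !(ω i))) = fun ω => (-1) ^ A.card * ch A ω := by
    funext ω; exact ch_not A ω
  rw [this, avg_smul]
  ring

lemma mix_sum {ι : Type*} (s : Finset ι) (β J : ℝ) (N M : ℤ) (a : ι → ℝ) (F : ι → Cfg → ℝ) :
    mix β J N M (fun ω => ∑ i ∈ s, a i * F i ω) = ∑ i ∈ s, a i * mix β J N M (F i) := by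
  unfold mix
  rw [avg_sum s (fun i ω => a i * F i ω), avg_sum s (fun i ω => a i * F i (fun j => !(ω j)))]
  rw [← Finset.sum_add_distrib, Finset.sum_div]
  refine Finset.sum_congr rfl fun i _ => ?_
  rw [avg_smul, avg_smul (a i) (fun ω => F i (fun j => !(ω j)))]
  ring

/-- One character. -/
theorem ch_conv {β J : ℝ} (hβ : 0 < β) (hJ : 1 < J) (hE : J ∉ Exc β) (A : Finset Site) {t : ℝ}
    (ht : 0 < t) : ∃ n : ℤ, 1 ≤ n ∧ ∀ N M : ℤ, n ≤ N → n ≤ M →
      |avg β (kap J) (box N M) (eta 0) (ch A) - mix β J N M (ch A)| ≤ t := by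
  rcases Nat.even_or_odd A.card with hA | hA
  · -- even
    obtain ⟨R, hR, hAR⟩ : ∃ R : ℤ, 1 ≤ R ∧ ∀ i ∈ A, rad i ≤ R := by
      refine ⟨1 + ∑ i ∈ A, |rad i|, ?_, fun i hi => ?_⟩
      · have : 0 ≤ ∑ i ∈ A, |rad i| := Finset.sum_nonneg fun i _ => abs_nonneg _
        linarith
      · have h1 : |rad i| ≤ ∑ i ∈ A, |rad i| :=
          Finset.single_le_sum (f := fun i => |rad i|) (fun j _ => abs_nonneg _) hi
        have h2 := le_abs_self (rad i)
        linarith
    obtain ⟨C, hC0, hC⟩ := even_bound hβ hJ.le hR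
    set D : ℝ := (A.card : ℝ) ^ 2 * C + 1 with hD
    have hDpos : 0 < D := by positivity
    obtain ⟨n, hn, h⟩ := excess_small hβ hJ hE (ε := t / D) (by positivity)
    refine ⟨n + R + 3, by omega, fun N M hN hM => ?_⟩
    have hbox : dia (R + 1) ⊆ box N M := by
      intro i hi
      have h1 := (Finset.mem_filter.1 hi).1
      rw [mem_box] at h1 ⊢
      omega
    have a1 := hC (box N M) hbox (eta 0) A hAR hA
    have a2 := h N M (by omega) (by omega)
    have hAbox : A ⊆ box N M := fun i hi => hbox (mem_dia.2 (by have := hAR i hi; omega))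
    have a3 := (abs_le.1 (abs_avg_le hβ.le (kap_nonneg (by linarith : (0:ℝ) ≤ J))
      (fun i => le_refl (kap J i)) (eta 0) hAbox)).2
    rw [mix_ch, hA.neg_one_pow, abs_sub_comm, abs_of_nonneg (by linarith)]
    have a4 : (A.card : ℝ) ^ 2 * C * (avg β (kap J) (box N M) tt (ch {o0, o1}) -
        avg β (kap J) (box N M) (eta 0) (ch {o0, o1})) ≤ (A.card : ℝ) ^ 2 * C * (t / D) :=
      mul_le_mul_of_nonneg_left a2 (by positivity)
    have a5 : (A.card : ℝ) ^ 2 * C * (t / D) ≤ t := by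
      rw [← mul_div_assoc, div_le_iff₀ hDpos, hD]
      nlinarith
    linarith
  · -- odd
    have hloc : Loc A (ch A) := by
      intro ω ω' h
      unfold ch
      exact Finset.prod_congr rfl fun i hi => by rw [h i hi]
    obtain ⟨n, h⟩ := swap_inv hβ.le hJ.le A (ch A) hloc (t := 2 * t) (by linarith)
    refine ⟨max 1 n, le_max_left _ _, fun N M hN hM => ?_⟩
    have a1 := h N M ((le_max_right _ _).trans hN) ((le_max_right _ _).trans hM)
    have e : (fun ω : Cfg => ch A (fun i => !(ω i))) = fun ω => (-1) ^ A.card * ch A ω := by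
      funext ω; exact ch_not A ω
    rw [e, avg_smul, hA.neg_one_pow] at a1
    rw [mix_ch, hA.neg_one_pow]
    have e2' : avg β (kap J) (box N M) (eta 0) (ch A) - -1 * avg β (kap J) (box N M) (eta 0) (ch A)
        = 2 * avg β (kap J) (box N M) (eta 0) (ch A) := by ring
    rw [e2', abs_mul, abs_two] at a1
    have e3' : avg β (kap J) (box N M) (eta 0) (ch A) -
        (1 + -1) / 2 * avg β (kap J) (box N M) tt (ch A) =
        avg β (kap J) (box N M) (eta 0) (ch A) := by ring
    rw [e3']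
    linarith

/-- Local convergence to the mixture. -/
theorem mix_conv {β J : ℝ} (hβ : 0 < β) (hJ : 1 < J) (hE : J ∉ Exc β) (B : Finset Site)
    (F : Cfg → ℝ) (hF : Loc B F) {t : ℝ} (ht : 0 < t) : ∃ n : ℤ, ∀ N M : ℤ, n ≤ N → n ≤ M →
      |avg β (kap J) (box N M) (eta 0) F - mix β J N M F| ≤ t := by
  obtain ⟨a, ha⟩ := fourier B F hF
  set C : ℝ := ∑ A ∈ B.powerset, |a A| with hC
  have hC0 : 0 ≤ C := Finset.sum_nonneg fun A _ => abs_nonneg _
  have hpos : 0 < t / (C + 1) := by positivity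
  have hex : ∀ A : Finset Site, ∃ n : ℤ, 1 ≤ n ∧ ∀ N M : ℤ, n ≤ N → n ≤ M →
      |avg β (kap J) (box N M) (eta 0) (ch A) - mix β J N M (ch A)| ≤ t / (C + 1) := fun A =>
    ch_conv hβ hJ hE A hpos
  choose n hn1 hn using hex
  refine ⟨∑ A ∈ B.powerset, n A, fun N M hN hM => ?_⟩
  have hnA : ∀ A ∈ B.powerset, n A ≤ ∑ A ∈ B.powerset, n A := fun A hA =>
    Finset.single_le_sum (f := n) (fun A _ => le_trans zero_le_one (hn1 A)) hA
  have hFe : F = fun ω => ∑ A ∈ B.powerset, a A * ch A ω := by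
    funext ω; exact ha ω
  have e1' : avg β (kap J) (box N M) (eta 0) F =
      ∑ A ∈ B.powerset, a A * avg β (kap J) (box N M) (eta 0) (ch A) := by
    conv_lhs => rw [hFe]
    rw [avg_sum]
    exact Finset.sum_congr rfl fun A _ => by rw [avg_smul]
  have e2' : mix β J N M F = ∑ A ∈ B.powerset, a A * mix β J N M (ch A) := by
    conv_lhs => rw [hFe]
    exact mix_sum _ _ _ _ _ a (fun A => ch A)
  rw [e1', e2', ← Finset.sum_sub_distrib]
  refine (Finset.abs_sum_le_sum_abs _ _).trans ?_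
  calc ∑ A ∈ B.powerset, |a A * avg β (kap J) (box N M) (eta 0) (ch A) -
      a A * mix β J N M (ch A)| ≤ ∑ A ∈ B.powerset, |a A| * (t / (C + 1)) := by
        refine Finset.sum_le_sum fun A hA => ?_
        rw [← mul_sub, abs_mul]
        exact mul_le_mul_of_nonneg_left
          (hn A N M ((hnA A hA).trans hN) ((hnA A hA).trans hM)) (abs_nonneg _)
    _ = C * (t / (C + 1)) := by rw [hC, Finset.sum_mul]
    _ ≤ t := by
        rw [← mul_div_assoc, div_le_iff₀ (by positivity)]
        nlinarith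

end Pool.Agent.Helper49.DL
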