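import Pool.Agent.Helper49.DL.Paths
import Pool.Agent.Helper49.DL.Leb4
import Pool.Agent.Helper49.DL.Dual3
import Pool.Agent.Helper49.DL.Mix

/-!
Block DL2-LI1: exponential decay of the covariances of the contacts along the defect line.

Paper proof of `cov_contact`. Let `e`, `f` be the vertical bonds at `(x, 0)`, `(y, 0)` (`lk = J`),
`u = exp (-(β J)) = xe e = xe f`. Then `dis {e} ω = u + (u⁻¹ - u) nu (x, 1) ω`
(`nu (x,1) ω = 1` iff `ω (x,1) ≠ ω (x,0)`), and `dis {e, f} = dis {e} * dis {f}`, so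
`(u⁻¹ - u)² Cov (nu x, nu y) = avg dis {e,f} - avg dis {e} * avg dis {f}`. By `avg_dis`, `ZE_dual`
this is `⟨a a' b b'⟩ - ⟨a a'⟩⟨b b'⟩` in the dual model, `odp {e} = {a, a'}`, `a = (x-1, 0)`,
`a' = (x, 0)`, `b = (y-1, 0)`, `b' = (y, 0)` (four different plaquettes because `|x - y| ≥ 2`;
`odp {e, f} = {a, a', b, b'}`). `lebowitz4` (for `A = dA`, `J = dJ ≥ 0`, `(dA e).card = 2`) and
`two_decay` bound it by `⟨a b⟩⟨a' b'⟩ + ⟨a b'⟩⟨a' b⟩ ≤ 2 exp (- 2 c |x - y|) ≤ 2 exp (- c |x - y|)`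
(for `x < y` the distances are `y-x, y-x, y-x+1, y-x-1`; the sum in each product is `2 (y-x)`).
-/

open Finset
open scoped Classical

namespace Pool.Agent.Helper49.DL

namespace LI1

section

variable {Λ : Finset Site}

lemma dp_mem_PL (e : LB Λ) : dp e ∈ PL Λ := by
  unfold PL
  exact Finset.mem_union_left _ (Finset.mem_image_of_mem _ (Finset.mem_univ _))

lemma dq_mem_PL (e : LB Λ) : dq e ∈ PL Λ := by
  unfold PL
  exact Finset.mem_union_right _ (Finset.mem_image_of_mem _ (Finset.mem_univ _))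

lemma dp_ne_dq (e : LB Λ) : dp e ≠ dq e := by
  cases e with
  | inl i =>
    intro h
    have h2 := congrArg Prod.snd h
    simp only [dp, dq, e2, Prod.snd_sub] at h2
    omega
  | inr i =>
    intro h
    have h2 := congrArg Prod.fst h
    simp only [dp, dq, e1, Prod.fst_sub] at h2
    omega

lemma dA_pair (e : LB Λ) : dA e = {⟨dp e, dp_mem_PL e⟩, ⟨dq e, dq_mem_PL e⟩} := by
  ext p
  unfold dA
  simp only [Finset.mem_filter, Finset.mem_univ, true_and, Finset.mem_insert,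
    Finset.mem_singleton, Subtype.ext_iff]

lemma dA_card (e : LB Λ) : (dA e).card = 2 := by
  rw [dA_pair, Finset.card_pair]
  intro h
  exact dp_ne_dq e (congrArg Subtype.val h)

lemma xe_pos (β : ℝ) (κ : Site → ℝ) (e : LB Λ) : 0 < xe β κ e := Real.exp_pos _

lemma xe_lt_one {β : ℝ} {κ : Site → ℝ} {e : LB Λ} (h : 0 < β * lk κ e) : xe β κ e < 1 := by
  unfold xe
  rw [Real.exp_lt_one_iff]
  linarith

lemma dJ_nonneg {β : ℝ} {κ : Site → ℝ} {e : LB Λ} (h : 0 < β * lk κ e) : 0 ≤ dJ β κ e := by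
  unfold dJ
  have h1 := xe_lt_one h
  have h2 := xe_pos β κ e
  apply div_nonneg _ (by norm_num)
  apply Real.log_nonneg
  rw [le_div_iff₀ (by linarith)]
  linarith

lemma ZE_nonneg (β : ℝ) (κ : Site → ℝ) (A : Finset (PV Λ)) : 0 ≤ ZE β κ A := by
  unfold ZE
  exact Finset.sum_nonneg fun F _ => Finset.prod_nonneg fun e _ => (xe_pos β κ e).le

lemma odp_single (e : LB Λ) : odp {e} = dA e := by
  ext p
  unfold odp
  rw [Finset.mem_filter]
  constructor
  · rintro ⟨-, h⟩
    by_contra hp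
    rw [Finset.filter_singleton, if_neg hp] at h
    simp at h
  · intro h
    refine ⟨Finset.mem_univ _, ?_⟩
    rw [Finset.filter_singleton, if_pos h]
    simp

lemma odp_two {e f : LB Λ} (hef : e ≠ f) (hd : Disjoint (dA e) (dA f)) :
    odp {e, f} = dA e ∪ dA f := by
  ext p
  unfold odp
  rw [Finset.mem_filter, Finset.mem_union]
  by_cases h1 : p ∈ dA e
  · have h2 : p ∉ dA f := fun h2 => (Finset.disjoint_left.1 hd) h1 h2
    have h3 : ({e, f} : Finset (LB Λ)).filter (fun e => p ∈ dA e) = {e} := by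
      ext g
      simp only [Finset.mem_filter, Finset.mem_insert, Finset.mem_singleton]
      constructor
      · rintro ⟨rfl | rfl, h⟩
        · rfl
        · exact absurd h h2
      · rintro rfl
        exact ⟨Or.inl rfl, h1⟩
    rw [h3]
    simp [h1]
  · by_cases h2 : p ∈ dA f
    · have h3 : ({e, f} : Finset (LB Λ)).filter (fun e => p ∈ dA e) = {f} := by
        ext g
        simp only [Finset.mem_filter, Finset.mem_insert, Finset.mem_singleton]
        constructor
        · rintro ⟨rfl | rfl, h⟩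
          · exact absurd h h1
          · rfl
        · rintro rfl
          exact ⟨Or.inr rfl, h2⟩
      rw [h3]
      simp [h2]
    · have h3 : ({e, f} : Finset (LB Λ)).filter (fun e => p ∈ dA e) = ∅ := by
        ext g
        simp only [Finset.mem_filter, Finset.mem_insert, Finset.mem_singleton,
          Finset.notMem_empty, iff_false]
        rintro ⟨rfl | rfl, h⟩
        · exact h1 h
        · exact h2 h
      rw [h3]
      simp [h1, h2]

lemma dis_single (β : ℝ) (κ : Site → ℝ) (e : LB Λ) (ω : Cfg) :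
    dis β κ {e} ω = if ω (lp e) ≠ ω (lq e) then (xe β κ e)⁻¹ else xe β κ e := by
  unfold dis
  rw [Finset.prod_singleton]

lemma dis_two (β : ℝ) (κ : Site → ℝ) {e f : LB Λ} (hef : e ≠ f) (ω : Cfg) :
    dis β κ {e, f} ω = dis β κ {e} ω * dis β κ {f} ω := by
  unfold dis
  rw [Finset.prod_pair hef, Finset.prod_singleton, Finset.prod_singleton]

end

/-- The vertical bond across the defect line. -/
noncomputable def vbd {N M : ℤ} (hM : 1 ≤ M) {x : ℤ} (hx : -N ≤ x) (hx' : x ≤ N) :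
    LB (box N M) :=
  Sum.inr ⟨(x, 0), mem_vb.2 (Or.inl (mem_box.2 ⟨⟨hx, hx'⟩, (by omega : -M + 1 ≤ (0 : ℤ)),
    (by omega : (0 : ℤ) ≤ M)⟩))⟩

lemma dis_vbd {N M : ℤ} (hM : 1 ≤ M) {x : ℤ} (hx : -N ≤ x) (hx' : x ≤ N) (β J : ℝ) (ω : Cfg) :
    dis β (kap J) {vbd hM hx hx'} ω = Real.exp (-(β * J)) +
      (Real.exp (β * J) - Real.exp (-(β * J))) * nu (x, 1) ω := by
  rw [dis_single]
  have e1' : xe β (kap J) (vbd hM hx hx') = Real.exp (-(β * J)) := by
    unfold xe vbd
    simp [lk, kap]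
  have e2' : lp (vbd hM hx hx') = (x, 0) := rfl
  have e3' : lq (vbd hM hx hx') = (x, 1) := by
    unfold vbd
    simp [lq, e2]
  have e4' : bar (x, 1) = (x, 0) := by
    unfold bar
    simp
  rw [e1', e2', e3']
  unfold nu
  rw [e4', ← Real.exp_neg, _root_.neg_neg]
  by_cases h : ω (x, 0) = ω (x, 1)
  · rw [if_neg (by simpa using h), if_neg (by simpa using h.symm)]
    ring
  · rw [if_pos h, if_pos (fun h' => h h'.symm)]
    ring

lemma dA_vbd {N M : ℤ} (hM : 1 ≤ M) {x : ℤ} (hx : -N ≤ x) (hx' : x ≤ N) :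
    ∃ a a' : PV (box N M), a.1 = (x - 1, 0) ∧ a'.1 = (x, 0) ∧
      dA (vbd hM hx hx') = {a, a'} := by
  refine ⟨⟨dq (vbd hM hx hx'), dq_mem_PL _⟩, ⟨dp (vbd hM hx hx'), dp_mem_PL _⟩, ?_, ?_, ?_⟩
  · simp [vbd, dq, e1]
  · simp [vbd, dp]
  · rw [dA_pair, Finset.pair_comm]

end LI1

open LI1 in
theorem cov_contact {β₁ β J : ℝ} (h0 : 0 ≤ β₁) (h : β₁ < β) (hJ : 1 ≤ J) {N M : ℤ} (hM : 1 ≤ M)
    {x y : ℤ} (hx : -N ≤ x) (hx' : x ≤ N) (hy : -N ≤ y) (hy' : y ≤ N) (hxy : 2 ≤ |x - y|) :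
    avg β (kap J) (box N M) tt (fun ω => nu (x, 1) ω * nu (y, 1) ω) -
      avg β (kap J) (box N M) tt (nu (x, 1)) * avg β (kap J) (box N M) tt (nu (y, 1)) ≤
    2 * ((Real.exp (β * J) - Real.exp (-(β * J))) ^ 2)⁻¹ *
      Real.exp (-((β - β₁) * mag β₁ ^ 2 * (|x - y| : ℤ))) := by
  have hβ : 0 < β := lt_of_le_of_lt h0 h
  have hN : 0 ≤ N := by omega
  set u := Real.exp (-(β * J)) with hu
  set w := Real.exp (β * J) - u with hw
  have hwpos : 0 < w := by
    rw [hw, hu, sub_pos]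
    apply Real.exp_lt_exp.2
    have : 0 < β * J := mul_pos hβ (by linarith)
    linarith
  set e := vbd hM hx hx' with he
  set f := vbd hM hy hy' with hf
  obtain ⟨a, a', ha, ha', hde⟩ := dA_vbd hM hx hx'
  obtain ⟨b, b', hb, hb', hdf⟩ := dA_vbd hM hy hy'
  rw [← he] at hde
  rw [← hf] at hdf
  have hx2 : x - y ≤ -2 ∨ 2 ≤ x - y := by
    rcases abs_cases (x - y) with ⟨h1, h2⟩ | ⟨h1, h2⟩ <;> omega
  have hne : ∀ {p q : PV (box N M)} {s t : ℤ}, p.1 = (s, 0) → q.1 = (t, 0) → s ≠ t → p ≠ q := by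
    intro p q s t hp hq hst hpq
    rw [hpq, hq] at hp
    exact hst (congrArg Prod.fst hp).symm
  have naa' : a ≠ a' := hne ha ha' (by omega)
  have nab : a ≠ b := hne ha hb (by omega)
  have nab' : a ≠ b' := hne ha hb' (by omega)
  have na'b : a' ≠ b := hne ha' hb (by omega)
  have na'b' : a' ≠ b' := hne ha' hb' (by omega)
  have nbb' : b ≠ b' := hne hb hb' (by omega)
  have hef : e ≠ f := by
    intro h1
    have h2 : dp e = dp f := by rw [h1]
    have h3 : (x, (0 : ℤ)) = (y, 0) := h2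
    have := congrArg Prod.fst h3
    simp only at this
    omega
  have hdisj : Disjoint (dA e) (dA f) := by
    rw [hde, hdf]
    simp only [Finset.disjoint_insert_left, Finset.disjoint_singleton_left, Finset.mem_insert,
      Finset.mem_singleton]
    tauto
  -- the covariance of the disorder variables
  set κ := kap J with hκ
  set E := avg β κ (box N M) tt with hE
  have hcov : E (dis β κ {e, f}) - E (dis β κ {e}) * E (dis β κ {f}) =
      w ^ 2 * (E (fun ω => nu (x, 1) ω * nu (y, 1) ω) - E (nu (x, 1)) * E (nu (y, 1))) := by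
    have g1 : dis β κ {e} = fun ω => u + w * nu (x, 1) ω := by
      funext ω
      exact dis_vbd hM hx hx' β J ω
    have g2 : dis β κ {f} = fun ω => u + w * nu (y, 1) ω := by
      funext ω
      exact dis_vbd hM hy hy' β J ω
    have g3 : dis β κ {e, f} = fun ω => (u ^ 2 + (u * w) * nu (x, 1) ω) +
        ((u * w) * nu (y, 1) ω + w ^ 2 * (nu (x, 1) ω * nu (y, 1) ω)) := by
      funext ω
      rw [dis_two β κ hef, g1, g2]
      ring
    rw [g1, g2, g3, hE]
    rw [avg_add (fun ω => u ^ 2 + (u * w) * nu (x, 1) ω)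
        (fun ω => (u * w) * nu (y, 1) ω + w ^ 2 * (nu (x, 1) ω * nu (y, 1) ω)),
      avg_add (fun _ => u ^ 2) (fun ω => (u * w) * nu (x, 1) ω),
      avg_add (fun ω => (u * w) * nu (y, 1) ω) (fun ω => w ^ 2 * (nu (x, 1) ω * nu (y, 1) ω)),
      avg_add (fun _ => u) (fun ω => w * nu (x, 1) ω),
      avg_add (fun _ => u) (fun ω => w * nu (y, 1) ω)]
    rw [avg_const, avg_const, avg_smul, avg_smul, avg_smul, avg_smul, avg_smul]
    ring
  -- the dual model
  have hlk : ∀ g : LB (box N M), 0 < β * lk κ g := fun g =>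
    mul_pos hβ (lt_of_lt_of_le one_pos (lk_kap_ge hJ g))
  have hZ0 : 0 < ZE (Λ := box N M) β κ ∅ := ZE_empty_pos β κ
  have hleb := lebowitz4 (dA (Λ := box N M)) (J := dJ β κ) (fun g => dJ_nonneg (hlk g)) dA_card
    naa' nab nab' na'b na'b' nbb'
  rw [ZE_dual hlk, ZE_dual hlk, ZE_dual hlk, ZE_dual hlk, ZE_dual hlk, ZE_dual hlk, ZE_dual hlk,
    ZE_dual hlk] at hleb
  set C : ℝ := 2 ^ Fintype.card (PV (box N M)) * ∏ e : LB (box N M), Real.cosh (dJ β κ e) with hC
  have hCpos : 0 < C := by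
    rw [hC]
    exact mul_pos (pow_pos two_pos _) (Finset.prod_pos fun e _ => Real.cosh_pos _)
  have hleb2 : ZE (Λ := box N M) β κ ∅ * ZE β κ {a, a', b, b'} ≤
      ZE β κ {a, a'} * ZE β κ {b, b'} + ZE β κ {a, b} * ZE β κ {a', b'} +
        ZE β κ {a, b'} * ZE β κ {a', b} := by
    have hC2 : 0 < C ^ 2 := pow_pos hCpos 2
    refine le_of_mul_le_mul_left ?_ hC2
    linarith
  have hD : E (dis β κ {e, f}) - E (dis β κ {e}) * E (dis β κ {f}) ≤
      D2 β J N M a b * D2 β J N M a' b' + D2 β J N M a b' * D2 β J N M a' b := by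
    rw [hE, avg_dis, avg_dis, avg_dis, odp_two hef hdisj, odp_single, odp_single, hde, hdf]
    have hun : ({a, a'} ∪ {b, b'} : Finset (PV (box N M))) = {a, a', b, b'} := by
      ext p
      simp only [Finset.mem_union, Finset.mem_insert, Finset.mem_singleton]
      tauto
    rw [hun]
    unfold D2
    rw [div_mul_div_comm, div_mul_div_comm, div_mul_div_comm, ← add_div, sub_le_iff_le_add,
      ← add_div, le_div_iff₀ (mul_pos hZ0 hZ0)]
    have : ZE β κ {a, a', b, b'} / ZE (Λ := box N M) β κ ∅ *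
        (ZE (Λ := box N M) β κ ∅ * ZE (Λ := box N M) β κ ∅) =
        ZE (Λ := box N M) β κ ∅ * ZE β κ {a, a', b, b'} := by
      field_simp
    rw [this]
    linarith
  -- decay
  set c := (β - β₁) * mag β₁ ^ 2 with hc
  have hc0 : 0 ≤ c := mul_nonneg (by linarith) (sq_nonneg _)
  have hD0 : ∀ p q : PV (box N M), 0 ≤ D2 β J N M p q := fun p q =>
    div_nonneg (ZE_nonneg _ _ _) hZ0.le
  have hdec : ∀ {p q : PV (box N M)} {s t : ℤ}, p.1 = (s, 0) → q.1 = (t, 0) → s ≠ t →
      D2 β J N M p q ≤ Real.exp (-(c * (|s - t| : ℤ))) := by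
    intro p q s t hp hq hst
    have h1 := two_decay h0 h.le hJ hN hM (hne hp hq hst)
    rw [hp, hq] at h1
    have h2 : max |s - t| |(0 : ℤ) - 0| = |s - t| := by
      rw [sub_self, abs_zero]
      exact max_eq_left (abs_nonneg _)
    simp only at h1
    rw [h2] at h1
    exact h1
  have d1 := hdec ha hb (by omega)
  have d2 := hdec ha' hb' (by omega)
  have d3 := hdec ha hb' (by omega)
  have d4 := hdec ha' hb (by omega)
  have hfin : ∀ {m n : ℤ}, |x - y| ≤ m + n →
      Real.exp (-(c * (m : ℝ))) * Real.exp (-(c * (n : ℝ))) ≤ Real.exp (-(c * (|x - y| : ℤ))) := by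
    intro m n hmn
    rw [← Real.exp_add]
    apply Real.exp_le_exp.2
    have h1 : ((|x - y| : ℤ) : ℝ) ≤ (m : ℝ) + n := by exact_mod_cast hmn
    have h2 := mul_le_mul_of_nonneg_left h1 hc0
    linarith
  have p1 : D2 β J N M a b * D2 β J N M a' b' ≤ Real.exp (-(c * (|x - y| : ℤ))) :=
    (mul_le_mul d1 d2 (hD0 _ _) (Real.exp_pos _).le).trans (hfin (by
      rcases hx2 with h1 | h1
      · rw [abs_of_neg (by omega), abs_of_neg (by omega)]; omega
      · rw [abs_of_pos (by omega), abs_of_pos (by omega)]; omega))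
  have p2 : D2 β J N M a b' * D2 β J N M a' b ≤ Real.exp (-(c * (|x - y| : ℤ))) :=
    (mul_le_mul d3 d4 (hD0 _ _) (Real.exp_pos _).le).trans (hfin (by
      rcases hx2 with h1 | h1
      · rw [abs_of_neg (by omega), abs_of_neg (by omega), abs_of_neg (by omega)]; omega
      · rw [abs_of_pos (by omega), abs_of_pos (by omega), abs_of_pos (by omega)]; omega))
  rw [hcov] at hD
  have hw2 : 0 < w ^ 2 := pow_pos hwpos 2
  have hgoal : w ^ 2 * (E (fun ω => nu (x, 1) ω * nu (y, 1) ω) - E (nu (x, 1)) * E (nu (y, 1))) ≤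
      2 * Real.exp (-(c * (|x - y| : ℤ))) := by linarith
  have : E (fun ω => nu (x, 1) ω * nu (y, 1) ω) - E (nu (x, 1)) * E (nu (y, 1)) ≤
      (2 * Real.exp (-(c * (|x - y| : ℤ)))) / w ^ 2 := by
    rw [le_div_iff₀ hw2, mul_comm]
    exact hgoal
  refine this.trans (le_of_eq ?_)
  rw [div_eq_mul_inv]
  ring

end Pool.Agent.Helper49.DL
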