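import Pool.Agent.Helper49.DL.Sub

/-!
Monotonicity in the domain and in the defect strength of the probability that the spins at `i` and
at its mirror image `bar i` disagree, in the Dobrushin state.

Paper proof (block DL-MO). `core2` is proved exactly as `core` (Layers.lean), with four priors
instead of two: the hypothesis `ρ1' S * ρ1 T ≤ ρ2 (S ∩ T) * ρ2' (S ∪ T)` replaces `hρ`.
`nu_mono`: as `star` and `dom_mono` (Fold3.lean, Sub.lean). Use `core2` with `B = ∅`, `F = ∅`,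
`F' = outF N M a l m`, `ρ1 = prior β J 1 ∅`, `ρ2 = prior β J g ∅`, `ρ1' = prior β J' g F'`,
`ρ2' = prior β J' 1 F'` where `g S = if v ∈ S then 0 else 1` (decreasing in `S`); translate with
`Zg_fold_one` (twice with `g`, twice with `1`), `indF_empty`, `Zg_outF`, `Zg_outF_pos`; note that
`g (Sof ω) = 1 - nu v ω`, so `1 - avg J' sbox nu ≤ 1 - avg J box nu` after dividing.
-/

open Finset

namespace Pool.Agent.Helper49.DL

section

variable {V ι : Type*} [Fintype V] [DecidableEq V] [Fintype ι]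

/-- Core monotonicity with four priors. -/
theorem core2 (A : ι → Finset V) {J J' L : ι → ℝ} (hJ : ∀ i, 0 ≤ J i) (hJJ : ∀ i, J i ≤ J' i)
    (hL : ∀ i, 0 ≤ L i) {ρ1 ρ2 ρ1' ρ2' : Finset V → ℝ} (h1 : ∀ S, 0 ≤ ρ1 S) (h2 : ∀ S, 0 ≤ ρ2 S)
    (h1' : ∀ S, 0 ≤ ρ1' S) (h2' : ∀ S, 0 ≤ ρ2' S)
    (hρ : ∀ S T, ρ1' S * ρ1 T ≤ ρ2 (S ∩ T) * ρ2' (S ∪ T)) {F F' : Finset V} (hF : F ⊆ F')
    (B : Finset V) :
    TL A J' L ρ1' F' ∅ * TL A J L ρ1 F B ≤ TL A J L ρ2 F ∅ * TL A J' L ρ2' F' B := by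
  have hJ' : ∀ i, 0 ≤ J' i := fun i => (hJ i).trans (hJJ i)
  refine four_functions_theorem_univ
    (fun S => ρ1' S * (na A J' F' ∅ S * na A L ∅ ∅ Sᶜ))
    (fun S => ρ1 S * (na A J F B S * na A L ∅ ∅ Sᶜ))
    (fun S => ρ2 S * (na A J F ∅ S * na A L ∅ ∅ Sᶜ))
    (fun S => ρ2' S * (na A J' F' B S * na A L ∅ ∅ Sᶜ))
    (fun S => mul_nonneg (h1' S) (mul_nonneg (na_nonneg A hJ' _ _ _) (na_nonneg A hL _ _ _)))
    (fun S => mul_nonneg (h1 S) (mul_nonneg (na_nonneg A hJ _ _ _) (na_nonneg A hL _ _ _)))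
    (fun S => mul_nonneg (h2 S) (mul_nonneg (na_nonneg A hJ _ _ _) (na_nonneg A hL _ _ _)))
    (fun S => mul_nonneg (h2' S) (mul_nonneg (na_nonneg A hJ' _ _ _) (na_nonneg A hL _ _ _)))
    ?_
  intro S T
  simp only [Finset.inf_eq_inter, Finset.sup_eq_union]
  have k1 := na_compare A hJ hJJ hF B S T
  have k2 := na_compare A hL (fun i => le_refl (L i)) (Finset.Subset.refl ∅) ∅ Sᶜ Tᶜ
  rw [← Finset.compl_union, ← Finset.compl_inter] at k2
  have k3 := hρ S T
  have p1 : 0 ≤ na A J' F' ∅ S * na A J F B T :=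
    mul_nonneg (na_nonneg A hJ' _ _ _) (na_nonneg A hJ _ _ _)
  have p2 : 0 ≤ na A L ∅ ∅ Sᶜ * na A L ∅ ∅ Tᶜ :=
    mul_nonneg (na_nonneg A hL _ _ _) (na_nonneg A hL _ _ _)
  have p3 : 0 ≤ ρ2 (S ∩ T) * ρ2' (S ∪ T) := mul_nonneg (h2 _) (h2' _)
  have p4 : 0 ≤ na A J F ∅ (S ∩ T) * na A J' F' B (S ∪ T) :=
    mul_nonneg (na_nonneg A hJ _ _ _) (na_nonneg A hJ' _ _ _)
  have hm := mul_le_mul (mul_le_mul k3 k1 p1 p3) k2 p2 (mul_nonneg p3 p4)
  calc ρ1' S * (na A J' F' ∅ S * na A L ∅ ∅ Sᶜ) * (ρ1 T * (na A J F B T * na A L ∅ ∅ Tᶜ))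
      = (ρ1' S * ρ1 T) * (na A J' F' ∅ S * na A J F B T) *
        (na A L ∅ ∅ Sᶜ * na A L ∅ ∅ Tᶜ) := by
        ring
    _ ≤ _ := hm
    _ = _ := by ring

end

theorem prior_nonneg' {N M : ℤ} {β J : ℝ} {g : Finset (VV N M) → ℝ} (hg : ∀ S, 0 ≤ g S)
    (F S : Finset (VV N M)) : 0 ≤ prior β J g F S := by
  unfold prior
  split_ifs
  · exact mul_nonneg (rho_pos _ _ _).le (hg S)
  · exact le_rfl

/-- The disagreement probability decreases with the domain and with the defect strength. -/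
theorem nu_mono {N M : ℤ} (hM : 1 ≤ M) {β J J' : ℝ} (hβ : 0 ≤ β) (hJ : J' ≤ J) {a l m : ℤ}
    (hs : sbox a l m ⊆ box N M) {i : Site} (hi : i ∈ ubox N M) :
    avg β (kap J) (box N M) (eta 0) (nu i) ≤ avg β (kap J') (sbox a l m) (eta 0) (nu i) := by
  classical
  set v : VV N M := ⟨i, hi⟩ with hv
  set g : Finset (VV N M) → ℝ := fun S => if v ∈ S then 0 else 1 with hg
  have hg0 : ∀ S, 0 ≤ g S := by
    intro S; rw [hg]; dsimp only; split_ifs <;> norm_num
  set F' := outF N M a l m with hF'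
  have hcore := core2 (bA (N := N) (M := M)) (J := fun _ => β) (J' := fun _ => β) (L := bL β)
    (fun _ => hβ) (fun _ => le_rfl) (bL_nonneg hβ)
    (ρ1 := prior β J (fun _ => 1) ∅) (ρ2 := prior β J g ∅) (ρ1' := prior β J' g F')
    (ρ2' := prior β J' (fun _ => 1) F')
    (prior_nonneg' (fun _ => zero_le_one) _) (prior_nonneg' hg0 _) (prior_nonneg' hg0 _)
    (prior_nonneg' (fun _ => zero_le_one) _)
    (by
      intro S T
      by_cases h1 : F' ⊆ S
      · have h3 : (∅ : Finset (VV N M)) ⊆ S ∩ T := Finset.empty_subset _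
        have h4 : F' ⊆ S ∪ T := h1.trans Finset.subset_union_left
        unfold prior
        rw [if_pos h1, if_pos (Finset.empty_subset T), if_pos h3, if_pos h4]
        have hgS : g S ≤ g (S ∩ T) := by
          rw [hg]; dsimp only
          by_cases h : v ∈ S
          · rw [if_pos h]; split_ifs <;> norm_num
          · rw [if_neg h, if_neg (fun h' => h (Finset.mem_inter.1 h').1)]
        calc rho β J' S * g S * (rho β J T * 1) =
            (rho β J' S * rho β J T) * g S := by ring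
          _ ≤ (rho β J (S ∩ T) * rho β J' (S ∪ T)) * g (S ∩ T) :=
            mul_le_mul (rho_holley hβ hJ S T) hgS (hg0 S)
              (mul_nonneg (rho_pos _ _ _).le (rho_pos _ _ _).le)
          _ = _ := by ring
      · have h5 : prior β J' g F' S = 0 := by
          unfold prior; rw [if_neg h1]
        rw [h5, zero_mul]
        exact mul_nonneg (prior_nonneg' hg0 _ _) (prior_nonneg' (fun _ => zero_le_one) _ _))
    (Finset.empty_subset F') ∅
  change TT β J' g F' ∅ * TT β J (fun _ => 1) ∅ ∅ ≤ TT β J g ∅ ∅ * TT β J' (fun _ => 1) F' ∅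
    at hcore
  have z1 := Zg_fold_one hM β J' g F'
  have z2 := Zg_fold_one hM β J (fun _ => 1) (∅ : Finset (VV N M))
  have z3 := Zg_fold_one hM β J g (∅ : Finset (VV N M))
  have z4 := Zg_fold_one hM β J' (fun _ => 1) F'
  have hgnu : ∀ ω, g (Sof ω) = 1 - nu i ω := by
    intro ω; rw [hg]; unfold nu; simp only [hv, mem_Sof]
    split_ifs <;> norm_num
  simp only [one_mul, indF_empty, mul_one, hgnu] at z1 z2 z3 z4
  have hzz : Zg β (kap J') (box N M) (eta 0) (fun ω => (1 - nu i ω) * indF F' ω) *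
      Zg β (kap J) (box N M) (eta 0) (fun _ => 1) ≤
      Zg β (kap J) (box N M) (eta 0) (fun ω => 1 - nu i ω) *
      Zg β (kap J') (box N M) (eta 0) (indF F') := by
    have k1 := KF_pos β (∅ : Finset (VV N M))
    have k2 := KF_pos β F'
    have z4' : Zg β (kap J') (box N M) (eta 0) (indF F') = KF β F' * TT β J' (fun _ => 1) F' ∅ := z4
    rw [z1, z2, z3, z4']
    calc KF β F' * TT β J' g F' ∅ * (KF β ∅ * TT β J (fun _ => 1) ∅ ∅) =
        (KF β ∅ * KF β F') * (TT β J' g F' ∅ * TT β J (fun _ => 1) ∅ ∅) := by ring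
      _ ≤ (KF β ∅ * KF β F') * (TT β J g ∅ ∅ * TT β J' (fun _ => 1) F' ∅) :=
        mul_le_mul_of_nonneg_left hcore (mul_pos k1 k2).le
      _ = _ := by ring
  have hcomm : (fun ω => (1 - nu i ω) * indF F' ω) = fun ω => indF F' ω * (1 - nu i ω) := by
    funext ω; ring
  rw [hcomm, Zg_outF β J' hs] at hzz
  have hp := Zg_outF_pos (N := N) (M := M) β J' a l m
  have hz : 0 < Zg β (kap J) (box N M) (eta 0) (fun _ => 1) := Zg_one_pos
  have hz' : 0 < Zg β (kap J') (sbox a l m) (eta 0) (fun _ => 1) := Zg_one_pos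
  have hsub : ∀ (J : ℝ) (Λ : Finset Site), avg β (kap J) Λ (eta 0) (fun ω => 1 - nu i ω) =
      1 - avg β (kap J) Λ (eta 0) (nu i) := by
    intro J Λ
    have hz0 : 0 < Zg β (kap J) Λ (eta 0) (fun _ => 1) := Zg_one_pos
    unfold avg
    rw [eq_sub_iff_add_eq, ← add_div, div_eq_one_iff_eq hz0.ne']
    have := Zg_sub (β := β) (κ := kap J) (Λ := Λ) (η := eta 0) (fun _ => 1) (nu i)
    linarith
  rw [hsub] at hzz
  have h3 : (1 - avg β (kap J') (sbox a l m) (eta 0) (nu i)) *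
      Zg β (kap J) (box N M) (eta 0) (fun _ => 1) ≤
      Zg β (kap J) (box N M) (eta 0) (fun ω => 1 - nu i ω) := by
    have h4 : Zg β (kap J') (box N M) (eta 0) (indF F') *
        ((1 - avg β (kap J') (sbox a l m) (eta 0) (nu i)) *
      Zg β (kap J) (box N M) (eta 0) (fun _ => 1)) ≤
      Zg β (kap J') (box N M) (eta 0) (indF F') *
      Zg β (kap J) (box N M) (eta 0) (fun ω => 1 - nu i ω) := by
      refine (le_of_eq ?_).trans (hzz.trans (le_of_eq ?_)) <;> ring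
    exact le_of_mul_le_mul_left h4 hp
  have h5 := hsub J (box N M)
  have h6 : avg β (kap J) (box N M) (eta 0) (fun ω => 1 - nu i ω) =
      Zg β (kap J) (box N M) (eta 0) (fun ω => 1 - nu i ω) /
      Zg β (kap J) (box N M) (eta 0) (fun _ => 1) := rfl
  rw [← le_div_iff₀ hz, ← h6, h5] at h3
  linarith

end Pool.Agent.Helper49.DL
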