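import Pool.Agent.Helper49.DL.Decay

/-!
Block DL2-PA: exponential decay of the two-point function of the dual model.

Paper proof of `two_decay`. `PL (box N M) = [-N - 1, N] × [-M, M]` (for `0 ≤ N`, `1 ≤ M`). For `a`, `b` in
it, with first coordinates `a1 ≤ b1` (otherwise exchange), let `γ` consist of the vertical bonds
`((x, a2), vertical)`, `a1 < x ≤ b1`, and the horizontal bonds `((b1, y), horizontal)`,
`min a2 b2 < y ≤ max a2 b2`. Then `odp γ = {a, b}` if `a ≠ b` (the path `a → (b1, a2) → b` of plaquettes),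
`colc γ x = 1` for `x ∈ (a1, b1]`, `rowc γ y = 1` for `y ∈ (min a2 b2, max a2 b2]`. Use `decay_col`,
`decay_row` and `avg_dis`.
(For the induction it is convenient to use the additivity `odp (γ ∆ γ') = odp γ ∆ odp γ'`, or to count
directly the sides of each plaquette in `γ`.)
-/

open Finset
open scoped Classical

namespace Pool.Agent.Helper49.DL

/-- Two-point function of the dual model. -/
noncomputable def D2 (β J : ℝ) (N M : ℤ) (a b : PV (box N M)) : ℝ :=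
  ZE β (kap J) {a, b} / ZE (Λ := box N M) β (kap J) ∅

section paths

variable {N M : ℤ}

/-- A bond as its direction and its first endpoint. -/
noncomputable def bkey (e : LB (box N M)) : Bool × ℤ × ℤ := (e.isRight, lp e)

lemma bkey_inj : Function.Injective (bkey (N := N) (M := M)) := by
  rintro (⟨i, hi⟩ | ⟨i, hi⟩) (⟨j, hj⟩ | ⟨j, hj⟩) h
  · have h2 : i = j := congrArg Prod.snd h
    subst h2
    rfl
  · exact absurd (congrArg Prod.fst h) (by simp [bkey])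
  · exact absurd (congrArg Prod.fst h) (by simp [bkey])
  · have h2 : i = j := congrArg Prod.snd h
    subst h2
    rfl

lemma mem_hb_box {x y : ℤ} (hN : 0 ≤ N) : (x, y) ∈ hb (box N M) ↔
    -N - 1 ≤ x ∧ x ≤ N ∧ -M + 1 ≤ y ∧ y ≤ M := by
  rw [mem_hb, mem_box, mem_box]
  change ((-N ≤ x ∧ x ≤ N) ∧ (-M + 1 ≤ y ∧ y ≤ M)) ∨
    ((-N ≤ x + 1 ∧ x + 1 ≤ N) ∧ (-M + 1 ≤ y + 0 ∧ y + 0 ≤ M)) ↔ _
  omega

lemma mem_vb_box {x y : ℤ} (hM : 1 ≤ M) : (x, y) ∈ vb (box N M) ↔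
    -N ≤ x ∧ x ≤ N ∧ -M ≤ y ∧ y ≤ M := by
  rw [mem_vb, mem_box, mem_box]
  change ((-N ≤ x ∧ x ≤ N) ∧ (-M + 1 ≤ y ∧ y ≤ M)) ∨
    ((-N ≤ x + 0 ∧ x + 0 ≤ N) ∧ (-M + 1 ≤ y + 1 ∧ y + 1 ≤ M)) ↔ _
  omega

/-- The plaquettes of the box. -/
lemma PL_box (hN : 0 ≤ N) (hM : 1 ≤ M) {p : Site} (hp : p ∈ PL (box N M)) :
    -N - 1 ≤ p.1 ∧ p.1 ≤ N ∧ -M ≤ p.2 ∧ p.2 ≤ M := by
  unfold PL at hp
  rw [Finset.mem_union, Finset.mem_image, Finset.mem_image] at hp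
  rcases hp with ⟨⟨⟨x, y⟩, hi⟩ | ⟨⟨x, y⟩, hi⟩, _, rfl⟩ | ⟨⟨⟨x, y⟩, hi⟩ | ⟨⟨x, y⟩, hi⟩, _, rfl⟩
  · have h := (mem_hb_box hN).1 hi
    change -N - 1 ≤ x ∧ x ≤ N ∧ -M ≤ y ∧ y ≤ M
    omega
  · have h := (mem_vb_box hM).1 hi
    change -N - 1 ≤ x ∧ x ≤ N ∧ -M ≤ y ∧ y ≤ M
    omega
  · have h := (mem_hb_box hN).1 hi
    change -N - 1 ≤ x - 0 ∧ x - 0 ≤ N ∧ -M ≤ y - 1 ∧ y - 1 ≤ M
    omega
  · have h := (mem_vb_box hM).1 hi
    change -N - 1 ≤ x - 1 ∧ x - 1 ≤ N ∧ -M ≤ y - 0 ∧ y - 0 ≤ M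
    omega

/-- The bonds of an L-shaped path of plaquettes from `(a1, a2)` over `(b1, a2)` to the row
`m` or `m'`. -/
noncomputable def LG (a1 a2 b1 m m' : ℤ) : Finset (Bool × ℤ × ℤ) :=
  (Finset.Ioc a1 b1).image (fun x => (true, x, a2)) ∪
    (Finset.Ioc m m').image (fun y => (false, b1, y))

lemma mem_LG_true {a1 a2 b1 m m' x y : ℤ} : (true, x, y) ∈ LG a1 a2 b1 m m' ↔
    y = a2 ∧ a1 < x ∧ x ≤ b1 := by
  unfold LG
  simp only [Finset.mem_union, Finset.mem_image, Finset.mem_Ioc, Prod.mk.injEq]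
  constructor
  · rintro (⟨z, hz, _, rfl, rfl⟩ | ⟨z, _, h, _⟩)
    · exact ⟨rfl, hz⟩
    · exact absurd h (by decide)
  · rintro ⟨rfl, h⟩
    exact Or.inl ⟨x, h, trivial, rfl, rfl⟩

lemma mem_LG_false {a1 a2 b1 m m' x y : ℤ} : (false, x, y) ∈ LG a1 a2 b1 m m' ↔
    x = b1 ∧ m < y ∧ y ≤ m' := by
  unfold LG
  simp only [Finset.mem_union, Finset.mem_image, Finset.mem_Ioc, Prod.mk.injEq]
  constructor
  · rintro (⟨z, _, h, _⟩ | ⟨z, hz, _, rfl, rfl⟩)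
    · exact absurd h (by decide)
    · exact ⟨rfl, hz⟩
  · rintro ⟨rfl, h⟩
    exact Or.inr ⟨y, h, trivial, rfl, rfl⟩

/-- Counting bonds by their keys. -/
lemma card_key {G : Finset (Bool × ℤ × ℤ)} (hG : ∀ c ∈ G, ∃ e : LB (box N M), bkey e = c)
    {P : LB (box N M) → Prop} {Q : Bool × ℤ × ℤ → Prop} (h : ∀ e, P e ↔ Q (bkey e))
    (F : Finset (LB (box N M))) (hF : ∀ e, e ∈ F ↔ bkey e ∈ G ∧ P e)
    (G' : Finset (Bool × ℤ × ℤ)) (hG' : ∀ c, c ∈ G' ↔ c ∈ G ∧ Q c) : F.card = G'.card := by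
  rw [← Finset.card_image_of_injective _ bkey_inj]
  congr 1
  ext c
  rw [Finset.mem_image, hG']
  constructor
  · rintro ⟨e, h1, rfl⟩
    rw [hF] at h1
    exact ⟨h1.1, (h e).1 h1.2⟩
  · rintro ⟨h1, h2⟩
    obtain ⟨e, rfl⟩ := hG c h1
    exact ⟨e, (hF e).2 ⟨h1, (h e).2 h2⟩, rfl⟩

lemma mem_dA_iff (p : PV (box N M)) (e : LB (box N M)) : p ∈ dA e ↔
    (bkey e = (false, p.1.1, p.1.2) ∨ bkey e = (false, p.1.1, p.1.2 + 1) ∨
      bkey e = (true, p.1.1, p.1.2) ∨ bkey e = (true, p.1.1 + 1, p.1.2)) := by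
  unfold dA
  rw [Finset.mem_filter]
  rcases e with ⟨⟨x, y⟩, hi⟩ | ⟨⟨x, y⟩, hi⟩
  · have e1' : (p.1 = dp (Sum.inl ⟨(x, y), hi⟩ : LB (box N M))) ↔ (p.1.1 = x ∧ p.1.2 = y) :=
      Prod.ext_iff
    have e2' : (p.1 = dq (Sum.inl ⟨(x, y), hi⟩ : LB (box N M))) ↔
        (p.1.1 = x - 0 ∧ p.1.2 = y - 1) := Prod.ext_iff
    rw [e1', e2']
    simp only [bkey, lp, Sum.isRight_inl, Prod.mk.injEq, Finset.mem_univ, true_and,
      false_and, or_false, Bool.false_eq_true]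
    omega
  · have e1' : (p.1 = dp (Sum.inr ⟨(x, y), hi⟩ : LB (box N M))) ↔ (p.1.1 = x ∧ p.1.2 = y) :=
      Prod.ext_iff
    have e2' : (p.1 = dq (Sum.inr ⟨(x, y), hi⟩ : LB (box N M))) ↔
        (p.1.1 = x - 1 ∧ p.1.2 = y - 0) := Prod.ext_iff
    rw [e1', e2']
    simp only [bkey, lp, Sum.isRight_inr, Prod.mk.injEq, Finset.mem_univ, true_and,
      false_and, false_or, Bool.true_eq_false]
    omega

lemma card_four (G : Finset (Bool × ℤ × ℤ)) (x y : ℤ) :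
    (G.filter (fun c => c = (false, x, y) ∨ c = (false, x, y + 1) ∨ c = (true, x, y) ∨
      c = (true, x + 1, y))).card =
      (if (false, x, y) ∈ G then 1 else 0) + (if (false, x, y + 1) ∈ G then 1 else 0) +
        (if (true, x, y) ∈ G then 1 else 0) + (if (true, x + 1, y) ∈ G then 1 else 0) := by
  have e : G.filter (fun c => c = (false, x, y) ∨ c = (false, x, y + 1) ∨ c = (true, x, y) ∨
      c = (true, x + 1, y)) =
      ({(false, x, y), (false, x, y + 1), (true, x, y), (true, x + 1, y)} :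
        Finset (Bool × ℤ × ℤ)).filter (fun c => c ∈ G) := by
    ext c
    simp only [Finset.mem_filter, Finset.mem_insert, Finset.mem_singleton]
    tauto
  rw [e, Finset.card_filter, Finset.sum_insert (by simp), Finset.sum_insert (by simp),
    Finset.sum_insert (by simp), Finset.sum_singleton]
  ring

lemma path_parity (a1 a2 b1 b2 p1 p2 m m' : ℤ) (h : a1 ≤ b1)
    (hm : (m = a2 ∧ m' = b2 ∧ a2 ≤ b2) ∨ (m = b2 ∧ m' = a2 ∧ b2 ≤ a2))
    (hne : ¬ (a1 = b1 ∧ a2 = b2)) :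
    Odd ((if p1 = b1 ∧ m < p2 ∧ p2 ≤ m' then 1 else 0) +
      (if p1 = b1 ∧ m < p2 + 1 ∧ p2 + 1 ≤ m' then 1 else 0) +
      (if p2 = a2 ∧ a1 < p1 ∧ p1 ≤ b1 then 1 else 0) +
      (if p2 = a2 ∧ a1 < p1 + 1 ∧ p1 + 1 ≤ b1 then 1 else 0) : ℕ) ↔
      (p1 = a1 ∧ p2 = a2) ∨ (p1 = b1 ∧ p2 = b2) := by
  rw [Nat.odd_iff]
  constructor
  · intro hh
    rcases hm with ⟨rfl, rfl, h2⟩ | ⟨rfl, rfl, h2⟩
    · split_ifs at hh <;> omega
    · split_ifs at hh <;> omega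
  · rintro (⟨rfl, rfl⟩ | ⟨rfl, rfl⟩)
    · rcases hm with ⟨rfl, rfl, h2⟩ | ⟨rfl, rfl, h2⟩
      · split_ifs <;> omega
      · split_ifs <;> omega
    · rcases hm with ⟨rfl, rfl, h2⟩ | ⟨rfl, rfl, h2⟩
      · split_ifs <;> omega
      · split_ifs <;> omega

lemma ex_LG (hN : 0 ≤ N) (hM : 1 ≤ M) {a b : PV (box N M)} :
    ∀ c ∈ LG a.1.1 a.1.2 b.1.1 (min a.1.2 b.1.2) (max a.1.2 b.1.2),
      ∃ e : LB (box N M), bkey e = c := by
  have ha := PL_box hN hM a.2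
  have hb := PL_box hN hM b.2
  rintro ⟨_ | _, x, y⟩ hc
  · have h1 := mem_LG_false.1 hc
    exact ⟨Sum.inl ⟨(x, y), (mem_hb_box hN).2 (by omega)⟩, rfl⟩
  · have h1 := mem_LG_true.1 hc
    exact ⟨Sum.inr ⟨(x, y), (mem_vb_box hM).2 (by omega)⟩, rfl⟩

lemma odp_LG (hN : 0 ≤ N) (hM : 1 ≤ M) {a b : PV (box N M)} (h : a.1.1 ≤ b.1.1) (hab : a ≠ b) :
    odp (Finset.univ.filter (fun e : LB (box N M) => bkey e ∈
      LG a.1.1 a.1.2 b.1.1 (min a.1.2 b.1.2) (max a.1.2 b.1.2))) = {a, b} := by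
  have ep : ∀ c d : PV (box N M), c = d ↔ (c.1.1 = d.1.1 ∧ c.1.2 = d.1.2) := by
    intro c d
    rw [Subtype.ext_iff, Prod.ext_iff]
  have hab' : ¬ (a.1.1 = b.1.1 ∧ a.1.2 = b.1.2) := fun hh => hab ((ep a b).2 hh)
  ext p
  unfold odp
  have hc : ((Finset.univ.filter (fun e : LB (box N M) => bkey e ∈
      LG a.1.1 a.1.2 b.1.1 (min a.1.2 b.1.2) (max a.1.2 b.1.2))).filter (fun e => p ∈ dA e)).card =
      ((LG a.1.1 a.1.2 b.1.1 (min a.1.2 b.1.2) (max a.1.2 b.1.2)).filter (fun c =>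
        c = (false, p.1.1, p.1.2) ∨ c = (false, p.1.1, p.1.2 + 1) ∨ c = (true, p.1.1, p.1.2) ∨
          c = (true, p.1.1 + 1, p.1.2))).card :=
    card_key (ex_LG (a := a) (b := b) hN hM) (P := fun e => p ∈ dA e) (Q := fun c =>
        c = (false, p.1.1, p.1.2) ∨ c = (false, p.1.1, p.1.2 + 1) ∨ c = (true, p.1.1, p.1.2) ∨
          c = (true, p.1.1 + 1, p.1.2)) (mem_dA_iff p) _
      (fun e => by rw [Finset.mem_filter, Finset.mem_filter]; simp) _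
      (fun c => by rw [Finset.mem_filter])
  rw [Finset.mem_filter, hc, card_four]
  simp only [mem_LG_false, mem_LG_true, Finset.mem_univ, true_and, Finset.mem_insert,
    Finset.mem_singleton]
  rw [ep p a, ep p b]
  refine path_parity _ _ _ _ _ _ _ _ h ?_ hab'
  rcases le_total a.1.2 b.1.2 with h2 | h2
  · exact Or.inl ⟨min_eq_left h2, max_eq_right h2, h2⟩
  · exact Or.inr ⟨min_eq_right h2, max_eq_left h2, h2⟩

lemma colc_LG (hN : 0 ≤ N) (hM : 1 ≤ M) {a b : PV (box N M)} {x : ℤ}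
    (hx : x ∈ Finset.Ioc a.1.1 b.1.1) :
    colc (Finset.univ.filter (fun e : LB (box N M) => bkey e ∈
      LG a.1.1 a.1.2 b.1.1 (min a.1.2 b.1.2) (max a.1.2 b.1.2))) x = 1 := by
  rw [Finset.mem_Ioc] at hx
  unfold colc
  refine (card_key (ex_LG (a := a) (b := b) hN hM)
    (P := fun e => e.isRight = true ∧ (lp e).1 = x) (Q := fun c => c.1 = true ∧ c.2.1 = x)
    (fun e => Iff.rfl) _ (fun e => by rw [Finset.mem_filter, Finset.mem_filter]; simp)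
    ((LG a.1.1 a.1.2 b.1.1 (min a.1.2 b.1.2) (max a.1.2 b.1.2)).filter
      (fun c => c.1 = true ∧ c.2.1 = x)) (fun c => by rw [Finset.mem_filter])).trans ?_
  rw [Finset.card_eq_one]
  refine ⟨(true, x, a.1.2), ?_⟩
  ext ⟨c1, c2, c3⟩
  simp only [Finset.mem_filter, Finset.mem_singleton, Prod.mk.injEq]
  constructor
  · rintro ⟨h1, rfl, rfl⟩
    exact ⟨rfl, rfl, (mem_LG_true.1 h1).1⟩
  · rintro ⟨rfl, rfl, rfl⟩
    exact ⟨mem_LG_true.2 ⟨rfl, hx⟩, rfl, rfl⟩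

lemma rowc_LG (hN : 0 ≤ N) (hM : 1 ≤ M) {a b : PV (box N M)} {y : ℤ}
    (hy : y ∈ Finset.Ioc (min a.1.2 b.1.2) (max a.1.2 b.1.2)) :
    rowc (Finset.univ.filter (fun e : LB (box N M) => bkey e ∈
      LG a.1.1 a.1.2 b.1.1 (min a.1.2 b.1.2) (max a.1.2 b.1.2))) y = 1 := by
  rw [Finset.mem_Ioc] at hy
  unfold rowc
  refine (card_key (ex_LG (a := a) (b := b) hN hM)
    (P := fun e => e.isLeft = true ∧ (lp e).2 = y) (Q := fun c => c.1 = false ∧ c.2.2 = y)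
    (fun e => by rcases e with e | e <;> simp [bkey]) _
    (fun e => by rw [Finset.mem_filter, Finset.mem_filter]; simp)
    ((LG a.1.1 a.1.2 b.1.1 (min a.1.2 b.1.2) (max a.1.2 b.1.2)).filter
      (fun c => c.1 = false ∧ c.2.2 = y)) (fun c => by rw [Finset.mem_filter])).trans ?_
  rw [Finset.card_eq_one]
  refine ⟨(false, b.1.1, y), ?_⟩
  ext ⟨c1, c2, c3⟩
  simp only [Finset.mem_filter, Finset.mem_singleton, Prod.mk.injEq]
  constructor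
  · rintro ⟨h1, rfl, rfl⟩
    exact ⟨rfl, (mem_LG_false.1 h1).1, rfl⟩
  · rintro ⟨rfl, rfl, rfl⟩
    exact ⟨mem_LG_false.2 ⟨rfl, hy⟩, rfl, rfl⟩

lemma two_decay_le {β₁ β J : ℝ} (h0 : 0 ≤ β₁) (h : β₁ ≤ β) (hJ : 1 ≤ J) (hN : 0 ≤ N)
    (hM : 1 ≤ M) {a b : PV (box N M)} (hab : a ≠ b) (hle : a.1.1 ≤ b.1.1) :
    D2 β J N M a b ≤
      Real.exp (-((β - β₁) * mag β₁ ^ 2 * (max |a.1.1 - b.1.1| |a.1.2 - b.1.2| : ℤ))) := by
  have ha := PL_box hN hM a.2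
  have hb := PL_box hN hM b.2
  have hD : D2 β J N M a b = avg β (kap J) (box N M) tt (dis β (kap J)
      (Finset.univ.filter (fun e : LB (box N M) => bkey e ∈
      LG a.1.1 a.1.2 b.1.1 (min a.1.2 b.1.2) (max a.1.2 b.1.2)))) := by
    rw [avg_dis, odp_LG hN hM hle hab]
    rfl
  rw [hD]
  rcases le_total |a.1.2 - b.1.2| |a.1.1 - b.1.1| with h1 | h1
  · rw [max_eq_left h1]
    have h2 := decay_col h0 h hJ hM (Finset.univ.filter (fun e : LB (box N M) => bkey e ∈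
      LG a.1.1 a.1.2 b.1.1 (min a.1.2 b.1.2) (max a.1.2 b.1.2)))
      (S := Finset.Ioc a.1.1 b.1.1) (fun x hx => by
        rw [Finset.mem_Ioc] at hx
        rw [Finset.mem_Icc]
        omega) (fun x hx => by rw [colc_LG hN hM hx]; exact odd_one)
    have h3 : ((Finset.Ioc a.1.1 b.1.1).card : ℝ) = ((|a.1.1 - b.1.1| : ℤ) : ℝ) := by
      rw [Int.card_Ioc]
      have h4 : ((b.1.1 - a.1.1).toNat : ℤ) = |a.1.1 - b.1.1| := by
        rw [Int.toNat_of_nonneg (by omega), abs_sub_comm, abs_of_nonneg (by omega)]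
      exact_mod_cast h4
    rw [h3] at h2
    exact h2
  · rw [max_eq_right h1]
    have h2 := decay_row h0 h hJ hN (Finset.univ.filter (fun e : LB (box N M) => bkey e ∈
      LG a.1.1 a.1.2 b.1.1 (min a.1.2 b.1.2) (max a.1.2 b.1.2)))
      (S := Finset.Ioc (min a.1.2 b.1.2) (max a.1.2 b.1.2)) (fun x hx => by
        rw [Finset.mem_Ioc] at hx
        rw [Finset.mem_Icc]
        omega) (fun x hx => by rw [rowc_LG hN hM hx]; exact odd_one)
    have h3 : ((Finset.Ioc (min a.1.2 b.1.2) (max a.1.2 b.1.2)).card : ℝ) =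
        ((|a.1.2 - b.1.2| : ℤ) : ℝ) := by
      rw [Int.card_Ioc]
      have h4 : ((max a.1.2 b.1.2 - min a.1.2 b.1.2).toNat : ℤ) = |a.1.2 - b.1.2| := by
        rw [Int.toNat_of_nonneg (by omega), abs_sub_comm]
        exact max_sub_min_eq_abs _ _
      exact_mod_cast h4
    rw [h3] at h2
    exact h2

end paths

theorem two_decay {β₁ β J : ℝ} (h0 : 0 ≤ β₁) (h : β₁ ≤ β) (hJ : 1 ≤ J) {N M : ℤ} (hN : 0 ≤ N)
    (hM : 1 ≤ M) {a b : PV (box N M)} (hab : a ≠ b) :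
    D2 β J N M a b ≤
      Real.exp (-((β - β₁) * mag β₁ ^ 2 * (max |a.1.1 - b.1.1| |a.1.2 - b.1.2| : ℤ))) := by
  rcases le_total a.1.1 b.1.1 with h1 | h1
  · exact two_decay_le h0 h hJ hN hM hab h1
  · have h2 := two_decay_le h0 h hJ hN hM hab.symm h1
    have h3 : D2 β J N M b a = D2 β J N M a b := by
      unfold D2
      rw [Finset.pair_comm]
    rw [h3, abs_sub_comm b.1.1, abs_sub_comm b.1.2] at h2
    exact h2

end Pool.Agent.Helper49.DL
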