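import Pool.Agent.Helper49.DL.Gibbs

/-!
Translations, dependence on the boundary condition, and conditioning.
-/

open Finset
open scoped Classical

namespace Pool.Agent.Helper49.DL

/-- Translate of a finite set. -/
noncomputable def tr (a : Site) (Λ : Finset Site) : Finset Site := Λ.image (fun i => i + a)

/-- Translate of a configuration. -/
def shift (a : Site) (ω : Cfg) : Cfg := fun i => ω (i - a)

lemma mem_tr {a : Site} {Λ : Finset Site} {i : Site} : i ∈ tr a Λ ↔ i - a ∈ Λ := by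
  unfold tr
  rw [Finset.mem_image]
  constructor
  · rintro ⟨j, hj, rfl⟩; simpa using hj
  · intro h; exact ⟨i - a, h, by simp⟩

lemma shift_shift (a : Site) (ω : Cfg) : shift a (shift (-a) ω) = ω := by
  funext i; simp [shift]

lemma shift_shift' (a : Site) (ω : Cfg) : shift (-a) (shift a ω) = ω := by
  funext i; simp [shift]

section

variable {β : ℝ} {κ : Site → ℝ} {Λ Λ' : Finset Site} {η : Cfg}

lemma shift_mem {a : Site} {ω : Cfg} :
    shift a ω ∈ confs (tr a Λ) (shift a η) ↔ ω ∈ confs Λ η := by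
  rw [mem_confs, mem_confs]
  constructor
  · intro h i hi
    have := h (i + a) (by rw [mem_tr]; simpa using hi)
    simpa [shift] using this
  · intro h i hi
    rw [mem_tr] at hi
    exact h _ hi

lemma hb_tr (a : Site) : hb (tr a Λ) = tr a (hb Λ) := by
  ext i
  rw [mem_hb, mem_tr, mem_tr, mem_tr, mem_hb, sub_add_eq_add_sub]

lemma vb_tr (a : Site) : vb (tr a Λ) = tr a (vb Λ) := by
  ext i
  rw [mem_vb, mem_tr, mem_tr, mem_tr, mem_vb, sub_add_eq_add_sub]

lemma sum_tr (a : Site) (Λ : Finset Site) (f : Site → ℝ) :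
    ∑ i ∈ tr a Λ, f i = ∑ i ∈ Λ, f (i + a) := by
  unfold tr
  rw [Finset.sum_image]
  intro i _ j _ h
  simpa using h

lemma en_tr (a : Site) (ω : Cfg) :
    en κ (tr a Λ) (shift a ω) = en (fun i => κ (i + a)) Λ ω := by
  unfold en
  rw [hb_tr, vb_tr, sum_tr, sum_tr]
  simp only [shift]
  congr 1
  · refine Finset.sum_congr rfl fun i _ => ?_
    congr 2
    · simp
    · rw [show i + a + e1 - a = i + e1 by abel]
  · refine Finset.sum_congr rfl fun i _ => ?_
    congr 3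
    · simp
    · rw [show i + a + e2 - a = i + e2 by abel]

lemma Zg_tr (a : Site) (F : Cfg → ℝ) :
    Zg β κ (tr a Λ) (shift a η) F = Zg β (fun i => κ (i + a)) Λ η (fun ω => F (shift a ω)) := by
  unfold Zg
  refine (Finset.sum_bij' (fun ω _ => shift a ω) (fun ω _ => shift (-a) ω) ?_ ?_ ?_ ?_ ?_).symm
  · intro ω hω; exact shift_mem.2 hω
  · intro ω hω
    rw [← shift_shift a ω, shift_mem] at hω
    exact hω
  · intro ω _; exact shift_shift' a ω
  · intro ω _; exact shift_shift a ω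
  · intro ω _
    unfold wg
    rw [en_tr]

lemma avg_tr (a : Site) (F : Cfg → ℝ) :
    avg β κ (tr a Λ) (shift a η) F = avg β (fun i => κ (i + a)) Λ η (fun ω => F (shift a ω)) := by
  unfold avg
  rw [Zg_tr, Zg_tr]

/-- Outer boundary condition: agreement on all sites off `Λ` adjacent to `Λ`. -/
def SameBdry (Λ : Finset Site) (η η' : Cfg) : Prop :=
  ∀ i, i ∉ Λ → (i + e1 ∈ Λ ∨ i - e1 ∈ Λ ∨ i + e2 ∈ Λ ∨ i - e2 ∈ Λ) → η i = η' i

/-- `F` depends only on the spins in `Λ`. -/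
def Loc (Λ : Finset Site) (F : Cfg → ℝ) : Prop :=
  ∀ ω ω' : Cfg, (∀ i ∈ Λ, ω i = ω' i) → F ω = F ω'

/-- Glue the inside of `ω` to `η`. -/
noncomputable def glue (Λ : Finset Site) (ω η : Cfg) : Cfg := fun i => if i ∈ Λ then ω i else η i

lemma glue_mem (Λ : Finset Site) (ω η : Cfg) : glue Λ ω η ∈ confs Λ η := by
  rw [mem_confs]; intro i hi; simp [glue, hi]

lemma glue_in {Λ : Finset Site} (ω η : Cfg) {i : Site} (h : i ∈ Λ) : glue Λ ω η i = ω i := by
  simp [glue, h]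

lemma glue_out {Λ : Finset Site} (ω η : Cfg) {i : Site} (h : i ∉ Λ) : glue Λ ω η i = η i := by
  simp [glue, h]

lemma glue_glue {Λ : Finset Site} {ω η η' : Cfg} (h : ω ∈ confs Λ η) :
    glue Λ (glue Λ ω η') η = ω := by
  rw [mem_confs] at h
  funext i
  by_cases hi : i ∈ Λ
  · rw [glue_in _ _ hi, glue_in _ _ hi]
  · rw [glue_out _ _ hi, h i hi]

lemma sum_glue (η η' : Cfg) (G : Cfg → ℝ) :
    ∑ ω ∈ confs Λ η', G ω = ∑ ω ∈ confs Λ η, G (glue Λ ω η') := by
  refine (Finset.sum_bij' (fun ω _ => glue Λ ω η') (fun ω _ => glue Λ ω η) ?_ ?_ ?_ ?_ ?_).symm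
  · intro ω _; exact glue_mem _ _ _
  · intro ω _; exact glue_mem _ _ _
  · intro ω hω; exact glue_glue hω
  · intro ω hω; exact glue_glue hω
  · intro ω _; rfl

lemma Zg_sameBdry {η' : Cfg} (h : SameBdry Λ η η') {F : Cfg → ℝ} (hF : Loc Λ F) :
    Zg β κ Λ η' F = Zg β κ Λ η F := by
  unfold Zg
  rw [sum_glue η η']
  refine Finset.sum_congr rfl fun ω hω => ?_
  rw [mem_confs] at hω
  have hF' : F (glue Λ ω η') = F ω := hF _ _ fun i hi => glue_in _ _ hi
  rw [hF']
  congr 1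
  unfold wg
  congr 2
  have key : ∀ i, (i ∈ Λ ∨ (i + e1 ∈ Λ ∨ i - e1 ∈ Λ ∨ i + e2 ∈ Λ ∨ i - e2 ∈ Λ)) →
      glue Λ ω η' i = ω i := by
    intro i hi
    by_cases hiΛ : i ∈ Λ
    · exact glue_in _ _ hiΛ
    · rw [glue_out _ _ hiΛ, hω i hiΛ]
      rcases hi with hi | hi
      · exact absurd hi hiΛ
      · exact (h i hiΛ hi).symm
  unfold en
  congr 1
  · refine Finset.sum_congr rfl fun i hi => ?_
    rw [mem_hb] at hi
    have h1 : glue Λ ω η' i = ω i := key i (by tauto)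
    have h2 : glue Λ ω η' (i + e1) = ω (i + e1) := key _ (by
      rcases hi with hi | hi
      · right; right; left; simpa using hi
      · left; exact hi)
    rw [h1, h2]
  · refine Finset.sum_congr rfl fun i hi => ?_
    rw [mem_vb] at hi
    have h1 : glue Λ ω η' i = ω i := key i (by tauto)
    have h2 : glue Λ ω η' (i + e2) = ω (i + e2) := key _ (by
      rcases hi with hi | hi
      · right; right; right; right; simpa using hi
      · left; exact hi)
    rw [h1, h2]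

lemma loc_const (c : ℝ) : Loc Λ (fun _ => c) := fun _ _ _ => rfl

lemma avg_sameBdry {η' : Cfg} (h : SameBdry Λ η η') {F : Cfg → ℝ} (hF : Loc Λ F) :
    avg β κ Λ η' F = avg β κ Λ η F := by
  unfold avg
  rw [Zg_sameBdry h hF, Zg_sameBdry h (loc_const 1)]

/-- Conditioning: if the conditional average of `F` is the constant `a` wherever `G ≠ 0`. -/
lemma Zg_cond (hΛ : Λ' ⊆ Λ) (G F : Cfg → ℝ) (hG : ∀ ω ξ : Cfg, ξ ∈ confs Λ' ω → G ξ = G ω)
    (a : ℝ) (ha : ∀ ω ∈ confs Λ η, G ω ≠ 0 → avg β κ Λ' ω F = a) :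
    Zg β κ Λ η (fun ω => G ω * F ω) = a * Zg β κ Λ η G := by
  rw [dlr hΛ G F hG, ← Zg_smul]
  refine Zg_congr fun ω hω => ?_
  by_cases h : G ω = 0
  · rw [h]; ring
  · rw [ha ω hω h]; ring

lemma Zg_cond_le (hΛ : Λ' ⊆ Λ) (G F : Cfg → ℝ) (hG : ∀ ω ξ : Cfg, ξ ∈ confs Λ' ω → G ξ = G ω)
    (hG0 : ∀ ω, 0 ≤ G ω) (a : ℝ) (ha : ∀ ω ∈ confs Λ η, G ω ≠ 0 → avg β κ Λ' ω F ≤ a) :
    Zg β κ Λ η (fun ω => G ω * F ω) ≤ a * Zg β κ Λ η G := by
  rw [dlr hΛ G F hG, ← Zg_smul]
  refine Zg_mono fun ω hω => ?_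
  by_cases h : G ω = 0
  · rw [h]; simp
  · rw [mul_comm a]
    exact mul_le_mul_of_nonneg_left (ha ω hω h) (hG0 ω)

end

end Pool.Agent.Helper49.DL
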