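import Pool.Agent.Helper49.DL.Fold3
import Pool.Agent.Helper49.DL.Trans

/-!
Monotonicity in the domain and in the defect strength, and a covariance bound.
-/

open Finset

namespace Pool.Agent.Helper49.DL

/-- Box of half-width `l` and half-height `m` centred at column `a`. -/
noncomputable def sbox (a l m : ℤ) : Finset Site := tr (a, 0) (box l m)

lemma mem_sbox {a l m : ℤ} {i : Site} :
    i ∈ sbox a l m ↔ (a - l ≤ i.1 ∧ i.1 ≤ a + l) ∧ (-m + 1 ≤ i.2 ∧ i.2 ≤ m) := by
  unfold sbox
  rw [mem_tr, mem_box]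
  simp only [Prod.fst_sub, Prod.snd_sub]
  omega

lemma shift_eta (a k : ℤ) : shift (a, 0) (eta k) = eta k := by
  funext i; simp [shift, eta]

lemma kap_shift (a : ℤ) (J : ℝ) : (fun i : Site => kap J (i + (a, 0))) = kap J := by
  funext i; simp [kap]

lemma avg_sbox (β J : ℝ) (a l m : ℤ) (F : Cfg → ℝ) :
    avg β (kap J) (sbox a l m) (eta 0) F =
      avg β (kap J) (box l m) (eta 0) (fun ω => F (shift (a, 0) ω)) := by
  have h := avg_tr (β := β) (κ := kap J) (Λ := box l m) (η := eta 0) (a, 0) F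
  rw [shift_eta, kap_shift] at h
  exact h

section

variable {N M : ℤ}

/-- Upper sites outside the sub-box. -/
noncomputable def outF (N M a l m : ℤ) : Finset (VV N M) :=
  Finset.univ.filter (fun v => v.1 ∉ sbox a l m)

lemma outF_mem_confs {a l m : ℤ} {ω : Cfg} (h : ω ∈ confs (box N M) (eta 0))
    (hne : indF (outF N M a l m) ω ≠ 0) : ω ∈ confs (sbox a l m) (eta 0) := by
  have hall : ∀ v ∈ outF N M a l m, ω v.1 = true ∧ ω (bar v.1) = false := by
    unfold indF at hne
    by_contra hc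
    exact hne (if_neg hc)
  rw [mem_confs] at *
  intro i hi
  by_cases hb : i ∈ box N M
  · rw [mem_box] at hb
    by_cases h1 : 1 ≤ i.2
    · have hu : i ∈ ubox N M := by rw [mem_ubox]; omega
      have := (hall ⟨i, hu⟩ (by simp [outF, hi])).1
      simp only at this
      rw [this, eta, eq_comm, decide_eq_true_eq]; omega
    · have hu : bar i ∈ ubox N M := by rw [mem_ubox]; simp only [bar]; omega
      have hi' : bar i ∉ sbox a l m := by
        rw [mem_sbox] at *; simp only [bar]; omega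
      have := (hall ⟨bar i, hu⟩ (by simp [outF, hi'])).2
      simp only [bar_bar] at this
      rw [this, eta, eq_comm, decide_eq_false_iff_not]; omega
  · exact h i hb

lemma indF_outF_congr {a l m : ℤ} {ω ξ : Cfg} (h : ξ ∈ confs (sbox a l m) ω) :
    indF (outF N M a l m) ξ = indF (outF N M a l m) ω := by
  rw [mem_confs] at h
  unfold indF
  have : (∀ v ∈ outF N M a l m, ξ v.1 = true ∧ ξ (bar v.1) = false) ↔
      (∀ v ∈ outF N M a l m, ω v.1 = true ∧ ω (bar v.1) = false) := by
    refine forall_congr' fun v => forall_congr' fun hv => ?_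
    simp only [outF, Finset.mem_filter, Finset.mem_univ, true_and] at hv
    have hv' : bar v.1 ∉ sbox a l m := by
      rw [mem_sbox] at *; simp only [bar]; omega
    rw [h _ hv, h _ hv']
  simp only [this]

lemma Zg_outF (β J : ℝ) {a l m : ℤ} (hs : sbox a l m ⊆ box N M) (F : Cfg → ℝ) :
    Zg β (kap J) (box N M) (eta 0) (fun ω => indF (outF N M a l m) ω * F ω) =
      avg β (kap J) (sbox a l m) (eta 0) F *
        Zg β (kap J) (box N M) (eta 0) (indF (outF N M a l m)) := by
  refine Zg_cond hs _ F (fun ω ξ h => indF_outF_congr h) _ ?_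
  intro ω hω hne
  exact avg_bc (outF_mem_confs hω hne) F

lemma Zg_outF_pos (β J : ℝ) (a l m : ℤ) :
    0 < Zg β (kap J) (box N M) (eta 0) (indF (outF N M a l m)) := by
  unfold Zg
  have h0 : ∀ ω ∈ confs (box N M) (eta 0),
      0 ≤ wg β (kap J) (box N M) ω * indF (outF N M a l m) ω := by
    intro ω _
    refine mul_nonneg (wg_pos _ _ _ _).le ?_
    unfold indF; split_ifs <;> norm_num
  refine lt_of_lt_of_le ?_ (Finset.single_le_sum h0 (self_mem_confs (box N M) (eta 0)))
  have h1 : indF (outF N M a l m) (eta 0) = 1 := by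
    unfold indF
    rw [if_pos]
    intro v _
    have := v.2
    rw [mem_ubox] at this
    simp only [eta, bar, decide_eq_true_eq, decide_eq_false_iff_not]
    omega
  rw [h1, mul_one]
  exact wg_pos _ _ _ _

lemma indF_empty (ω : Cfg) : indF (∅ : Finset (VV N M)) ω = 1 := by
  unfold indF; simp

/-- Monotonicity in the domain and in `J`. -/
theorem dom_mono (hM : 1 ≤ M) {β J J' : ℝ} (hβ : 0 ≤ β) (hJ : J' ≤ J) {a l m : ℤ}
    (hs : sbox a l m ⊆ box N M) {i : Site} (hi : i ∈ ubox N M) :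
    avg β (kap J) (box N M) (eta 0) (yv i) ≤ avg β (kap J') (sbox a l m) (eta 0) (yv i) := by
  have h := star hM hβ hJ (g := fun _ => 1) (g' := fun _ => 1) (fun _ => zero_le_one)
    (fun _ => zero_le_one) (fun _ _ => le_rfl) (Finset.empty_subset (outF N M a l m)) ⟨i, hi⟩
  simp only [one_mul, indF_empty] at h
  rw [Zg_outF β J' hs] at h
  have hp := Zg_outF_pos (N := N) (M := M) β J' a l m
  have hz := Zg_one_pos (β := β) (κ := kap J) (Λ := box N M) (η := eta 0)
  unfold avg at *
  rw [div_le_iff₀ hz]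
  have h2 : Zg β (kap J') (box N M) (eta 0) (indF (outF N M a l m)) *
      Zg β (kap J) (box N M) (eta 0) (yv i) ≤
      Zg β (kap J') (box N M) (eta 0) (indF (outF N M a l m)) *
      (Zg β (kap J') (sbox a l m) (eta 0) (yv i) /
        Zg β (kap J') (sbox a l m) (eta 0) (fun _ => 1) *
        Zg β (kap J) (box N M) (eta 0) (fun _ => 1)) := by
    refine h.trans (le_of_eq ?_)
    ring
  exact le_of_mul_le_mul_left h2 hp

/-- Monotonicity in `J`. -/
theorem J_mono (hM : 1 ≤ M) {β J J' : ℝ} (hβ : 0 ≤ β) (hJ : J' ≤ J) {i : Site}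
    (hi : i ∈ ubox N M) :
    avg β (kap J) (box N M) (eta 0) (yv i) ≤ avg β (kap J') (box N M) (eta 0) (yv i) := by
  have hs : sbox 0 N M ⊆ box N M := by
    intro j hj; rw [mem_sbox] at hj; rw [mem_box]; omega
  have h := dom_mono hM hβ hJ hs hi
  have e : sbox 0 N M = box N M := by
    ext j; rw [mem_sbox, mem_box]; omega
  rwa [e] at h

/-- Nonnegativity. -/
theorem avg_y_nonneg (hM : 1 ≤ M) {β J : ℝ} (hβ : 0 ≤ β) {i : Site} (hi : i ∈ ubox N M) :
    0 ≤ avg β (kap J) (box N M) (eta 0) (yv i) := by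
  have h := Zg_y_nonneg hM (J := J) hβ (g := fun _ => 1) (fun _ => zero_le_one)
    (∅ : Finset (VV N M)) ⟨i, hi⟩
  simp only [one_mul, indF_empty] at h
  exact div_nonneg h Zg_one_pos.le

/-- Indicator of disagreement with the mirror image. -/
noncomputable def nu (u : Site) (ω : Cfg) : ℝ := if ω u ≠ ω (bar u) then 1 else 0

/-- Indicator of the pattern (+, -). -/
noncomputable def pu (u : Site) (ω : Cfg) : ℝ := if ω u = true ∧ ω (bar u) = false then 1 else 0

lemma y_eq (u : Site) (ω : Cfg) : yv u ω = 2 * pu u ω - nu u ω := by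
  unfold yv pu nu
  cases ω u <;> cases ω (bar u) <;> simp <;> norm_num

/-- Covariance bound. -/
theorem cov_bound (hM : 1 ≤ M) {β J : ℝ} (hβ : 0 ≤ β) {a l m : ℤ}
    (hs : sbox a l m ⊆ box N M) {u v : Site} (hu : u ∈ ubox N M) (hv : v ∈ ubox N M)
    (hus : u ∉ sbox a l m) :
    avg β (kap J) (box N M) (eta 0) (fun ω => yv u ω * yv v ω) ≤
      avg β (kap J) (box N M) (eta 0) (yv u) * avg β (kap J) (box N M) (eta 0) (yv v) +
      2 * (avg β (kap J) (sbox a l m) (eta 0) (yv v) -
        avg β (kap J) (box N M) (eta 0) (yv v)) := by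
  classical
  set Z := Zg β (kap J) (box N M) (eta 0) with hZ
  have hz : 0 < Z (fun _ => 1) := Zg_one_pos
  set φ := avg β (kap J) (sbox a l m) (eta 0) (yv v) with hφ
  -- step 1
  have hsub : ({⟨u, hu⟩} : Finset (VV N M)) ⊆ outF N M a l m := by
    rw [Finset.singleton_subset_iff]; simp [outF, hus]
  have h1 := star hM hβ (le_refl J) (g := fun _ => 1) (g' := fun _ => 1) (fun _ => zero_le_one)
    (fun _ => zero_le_one) (fun _ _ => le_rfl) hsub ⟨v, hv⟩
  simp only [one_mul] at h1
  rw [Zg_outF β J hs] at h1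
  have hind : ∀ ω, indF ({⟨u, hu⟩} : Finset (VV N M)) ω = pu u ω := by
    intro ω; unfold indF pu; simp
  simp only [hind] at h1
  have hp := Zg_outF_pos (N := N) (M := M) β J a l m
  have h1' : Z (fun ω => pu u ω * yv v ω) ≤ Z (pu u) * φ := by
    have : Zg β (kap J) (box N M) (eta 0) (indF (outF N M a l m)) *
        Z (fun ω => pu u ω * yv v ω) ≤
        Zg β (kap J) (box N M) (eta 0) (indF (outF N M a l m)) * (Z (pu u) * φ) := by
      refine h1.trans (le_of_eq ?_)
      ring
    exact le_of_mul_le_mul_left this hp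
  -- step 2
  have h2 := star hM hβ (le_refl J) (g := fun _ => 1)
    (g' := fun S : Finset (VV N M) => if ⟨u, hu⟩ ∈ S then 1 else 0) (fun _ => zero_le_one)
    (fun S => by split_ifs <;> norm_num) (fun S T => by
      by_cases h : (⟨u, hu⟩ : VV N M) ∈ S
      · simp [h]
      · simp only [h, if_false, zero_mul, one_mul]; split_ifs <;> norm_num)
    (Finset.Subset.refl (∅ : Finset (VV N M))) ⟨v, hv⟩
  have hnu : ∀ ω, (if (⟨u, hu⟩ : VV N M) ∈ Sof ω then (1 : ℝ) else 0) = nu u ω := by
    intro ω; unfold nu; simp only [mem_Sof]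
  simp only [one_mul, indF_empty, mul_one, hnu] at h2
  -- combination
  have hA : Z (fun ω => yv u ω * yv v ω) = 2 * Z (fun ω => pu u ω * yv v ω) -
      Z (fun ω => nu u ω * yv v ω) := by
    rw [hZ, ← Zg_smul, ← Zg_sub]
    refine Zg_congr fun ω _ => ?_
    rw [y_eq u ω]; ring
  have hB : Z (yv u) = 2 * Z (pu u) - Z (nu u) := by
    rw [hZ, ← Zg_smul, ← Zg_sub]
    refine Zg_congr fun ω _ => ?_
    rw [y_eq u ω]
  have hnu1 : Z (nu u) ≤ Z (fun _ => 1) := by
    rw [hZ]; refine Zg_mono fun ω _ => ?_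
    unfold nu; split_ifs <;> norm_num
  have hyu1 : Z (yv u) ≤ Z (fun _ => 1) := by
    rw [hZ]; refine Zg_mono fun ω _ => ?_
    unfold yv; cases ω u <;> cases ω (bar u) <;> simp <;> norm_num
  have hdom : Z (yv v) / Z (fun _ => 1) ≤ φ := dom_mono hM hβ (le_refl J) hs hv
  have h2' : Z (nu u) * (Z (yv v) / Z (fun _ => 1)) ≤ Z (fun ω => nu u ω * yv v ω) := by
    rw [mul_div_assoc', div_le_iff₀ hz]
    calc Z (nu u) * Z (yv v) ≤ Z (fun _ => 1) * Z (fun ω => nu u ω * yv v ω) := h2
      _ = _ := by ring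
  change Z (fun ω => yv u ω * yv v ω) / Z (fun _ => 1) ≤
    Z (yv u) / Z (fun _ => 1) * (Z (yv v) / Z (fun _ => 1)) +
      2 * (φ - Z (yv v) / Z (fun _ => 1))
  set m' := Z (yv v) / Z (fun _ => 1) with hm'
  rw [div_le_iff₀ hz]
  have e1 : (Z (yv u) / Z (fun _ => 1) * m' + 2 * (φ - m')) * Z (fun _ => 1) =
      Z (yv u) * m' + 2 * (φ - m') * Z (fun _ => 1) := by
    field_simp
  rw [e1, hA]
  have h3 : 2 * Z (fun ω => pu u ω * yv v ω) ≤ (Z (yv u) + Z (nu u)) * φ := by
    have : Z (yv u) + Z (nu u) = 2 * Z (pu u) := by rw [hB]; ring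
    rw [this]; linarith
  have h4 : (Z (yv u) + Z (nu u)) * (φ - m') ≤ 2 * Z (fun _ => 1) * (φ - m') :=
    mul_le_mul_of_nonneg_right (by linarith) (by linarith)
  nlinarith [h2', h3, h4]

end

end Pool.Agent.Helper49.DL
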