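import Pool.Agent.Helper49.DL.Freeze
import Pool.Agent.Helper49.DL.Sub
import Pool.Agent.Helper49.DL.Explore

/-!
Raising the interface above the defect line (block DL-RA): up to a constant, the cost in the large
box with any defect strength is at most the cost in a smaller box without defect.

Paper proof of `TS_upper`. Let `Λ = box N M`, `Λ' = tr (0, m + 1) (box (N - 1) m)` (columns
`-N + 1 … N - 1`, rows `2 … 2 m + 1`), `τ i = eta (m + 1) i` for `i ∈ Λ`, `τ i = eta 0 i` for `i ∉ Λ`.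
Apply `freeze`. A bond that meets `Λ` but not `Λ'` and is broken by `τ` is
 - horizontal, joining column `-N - 1` to `-N` or `N` to `N + 1`, in one of the rows `1 … m + 1`, or
 - vertical, in column `-N` or `N`, with lower endpoint in row `m + 1` (coupling `1`; vertical bonds
   of the columns `-N + 1 … N - 1` with lower endpoint in row `m + 1` meet `Λ'`).
So `enD tt - enD τ ≤ 2 (m + 1) + 2` (`M ≥ 2 m + 1` puts row `m + 2` into `Λ`; the top and bottom
boundary bonds and the defect bonds are not broken). Finally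
`TS β (kap J) Λ' τ = TS β (kap 1) (box (N - 1) m) (eta 0)`: all vertical bonds meeting `Λ'` have lower
endpoint in a row `≥ 1`, so `kap J` may be replaced by `kap 1`; on the outer boundary of `Λ'` the
configurations `τ` and `eta (m + 1)` agree (`Zg_sameBdry`), and `eta (m + 1) = shift (0, m + 1) (eta 0)`
(`Zg_tr`; `eta_shift`, `kap_one_shift` are in Rows2.lean, `shift_tt` in Explore.lean).
-/

open Finset
open scoped Classical

namespace Pool.Agent.Helper49.DL

private lemma count67 {A S : Finset Site} {f : Site → ℝ}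
    (h : ∀ i ∈ A, f i ≤ if i ∈ S then (1 : ℝ) else 0) : ∑ i ∈ A, f i ≤ S.card := by
  refine (Finset.sum_le_sum h).trans ?_
  rw [← Finset.sum_filter, Finset.sum_const, nsmul_eq_mul, mul_one]
  exact_mod_cast Finset.card_le_card (fun i hi => (Finset.mem_filter.mp hi).2)

/-- The configuration with the step raised inside the box. -/
private noncomputable def cfg67 (m N M : ℤ) : Cfg :=
  fun i => if i ∈ box N M then eta (m + 1) i else eta 0 i

private lemma cfg_mem67 (m N M : ℤ) : cfg67 m N M ∈ confs (box N M) (eta 0) := by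
  rw [mem_confs]
  intro i hi
  unfold cfg67
  rw [if_neg hi]

private lemma cfg_hor67 {m N M : ℤ} (hm : 1 ≤ m) (i : Site)
    (hi : i ∉ ({-N - 1, N} : Finset ℤ) ×ˢ Finset.Icc 1 (m + 1)) :
    cfg67 m N M i = cfg67 m N M (i + e1) := by
  rw [Finset.mem_product, Finset.mem_insert, Finset.mem_singleton, Finset.mem_Icc] at hi
  unfold cfg67
  have h1 : i ∈ box N M ↔ (-N ≤ i.1 ∧ i.1 ≤ N) ∧ (-M + 1 ≤ i.2 ∧ i.2 ≤ M) := mem_box
  have h2 : i + e1 ∈ box N M ↔ (-N ≤ i.1 + 1 ∧ i.1 + 1 ≤ N) ∧ (-M + 1 ≤ i.2 ∧ i.2 ≤ M) := by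
    rw [mem_box]
    simp only [e1, Prod.fst_add, Prod.snd_add, add_zero]
  have h3 : ∀ k, eta k (i + e1) = eta k i := by
    intro k
    simp only [eta, e1, Prod.snd_add, add_zero]
  rw [h3, h3]
  by_cases a1 : i ∈ box N M
  · by_cases a2 : i + e1 ∈ box N M
    · rw [if_pos a1, if_pos a2]
    · rw [if_pos a1, if_neg a2]
      rw [h1] at a1
      rw [h2] at a2
      simp only [eta]
      rw [decide_eq_decide]
      omega
  · by_cases a2 : i + e1 ∈ box N M
    · rw [if_neg a1, if_pos a2]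
      rw [h1] at a1
      rw [h2] at a2
      simp only [eta]
      rw [decide_eq_decide]
      omega
    · rw [if_neg a1, if_neg a2]

private lemma cfg_ver67 {m N M : ℤ} (hm : 1 ≤ m) (hM : 2 * m + 1 ≤ M) (i : Site)
    (hi : ¬ (i.2 = m + 1 ∧ -N ≤ i.1 ∧ i.1 ≤ N)) (hv : i ∈ box N M ∨ i + e2 ∈ box N M) :
    cfg67 m N M i = cfg67 m N M (i + e2) := by
  unfold cfg67
  have h1 : i ∈ box N M ↔ (-N ≤ i.1 ∧ i.1 ≤ N) ∧ (-M + 1 ≤ i.2 ∧ i.2 ≤ M) := mem_box
  have h2 : i + e2 ∈ box N M ↔ (-N ≤ i.1 ∧ i.1 ≤ N) ∧ (-M + 1 ≤ i.2 + 1 ∧ i.2 + 1 ≤ M) := by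
    rw [mem_box]
    simp only [e2, Prod.fst_add, Prod.snd_add, add_zero]
  have h3 : ∀ k, eta k (i + e2) = decide (k + 1 ≤ i.2 + 1) := by
    intro k
    rfl
  rw [h3, h3]
  by_cases a1 : i ∈ box N M
  · by_cases a2 : i + e2 ∈ box N M
    · rw [if_pos a1, if_pos a2]
      rw [h1] at a1
      simp only [eta]
      rw [decide_eq_decide]
      omega
    · rw [if_pos a1, if_neg a2]
      rw [h1] at a1
      rw [h2] at a2
      simp only [eta]
      rw [decide_eq_decide]
      omega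
  · by_cases a2 : i + e2 ∈ box N M
    · rw [if_neg a1, if_pos a2]
      rw [h1] at a1
      rw [h2] at a2
      simp only [eta]
      rw [decide_eq_decide]
      omega
    · exact absurd hv (by tauto)

private lemma mem_up67 {m N : ℤ} {i : Site} : i ∈ tr (0, m + 1) (box (N - 1) m) ↔
    (-N + 1 ≤ i.1 ∧ i.1 ≤ N - 1) ∧ (2 ≤ i.2 ∧ i.2 ≤ 2 * m + 1) := by
  rw [mem_tr, mem_box]
  simp only [Prod.fst_sub, Prod.snd_sub]
  omega

/-- The energy lost by the broken bonds. -/
private lemma enD_le67 {J : ℝ} {m N M : ℤ} (hm : 1 ≤ m) (hM : 2 * m + 1 ≤ M) :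
    enD (kap J) (box N M) (tr (0, m + 1) (box (N - 1) m)) tt -
      enD (kap J) (box N M) (tr (0, m + 1) (box (N - 1) m)) (cfg67 m N M) ≤
      (2 * (m + 1).toNat + 2 : ℕ) := by
  have hagr : ∀ {a b : Bool}, a = b → 1 - agr a b = 0 := by
    intro a b h
    unfold agr
    rw [if_pos h, sub_self]
  have htt : ∀ i j : Site, agr (tt i) (tt j) = 1 := by
    intro i j
    unfold agr tt
    rw [if_pos rfl]
  have hh : ∑ i ∈ hb (box N M) \ hb (tr (0, m + 1) (box (N - 1) m)),
      (1 - agr (cfg67 m N M i) (cfg67 m N M (i + e1))) ≤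
      (({-N - 1, N} : Finset ℤ) ×ˢ Finset.Icc 1 (m + 1)).card := by
    refine count67 fun i _ => ?_
    by_cases hi : i ∈ ({-N - 1, N} : Finset ℤ) ×ˢ Finset.Icc 1 (m + 1)
    · rw [if_pos hi]
      have := agr_nonneg (cfg67 m N M i) (cfg67 m N M (i + e1))
      linarith
    · rw [if_neg hi, hagr (cfg_hor67 hm i hi)]
  have hv : ∑ i ∈ vb (box N M) \ vb (tr (0, m + 1) (box (N - 1) m)),
      kap J i * (1 - agr (cfg67 m N M i) (cfg67 m N M (i + e2))) ≤
      (({-N, N} : Finset ℤ) ×ˢ ({m + 1} : Finset ℤ)).card := by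
    refine count67 fun i hi => ?_
    rw [Finset.mem_sdiff, mem_vb, mem_vb, mem_up67, mem_up67] at hi
    obtain ⟨hi1, hi2⟩ := hi
    simp only [e2, Prod.fst_add, Prod.snd_add, add_zero] at hi2
    by_cases hs : i.2 = m + 1 ∧ -N ≤ i.1 ∧ i.1 ≤ N
    · have h1 : i ∈ ({-N, N} : Finset ℤ) ×ˢ ({m + 1} : Finset ℤ) := by
        rw [Finset.mem_product, Finset.mem_insert, Finset.mem_singleton, Finset.mem_singleton]
        omega
      rw [if_pos h1]
      have h2 : kap J i = 1 := by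
        unfold kap
        rw [if_neg (by omega)]
      rw [h2, one_mul]
      have := agr_nonneg (cfg67 m N M i) (cfg67 m N M (i + e2))
      linarith
    · rw [hagr (cfg_ver67 hm hM i hs hi1), mul_zero]
      split_ifs <;> norm_num
  have hc1 : (({-N - 1, N} : Finset ℤ) ×ˢ Finset.Icc 1 (m + 1)).card ≤ 2 * (m + 1).toNat := by
    rw [Finset.card_product, Int.card_Icc]
    have h1 : ({-N - 1, N} : Finset ℤ).card ≤ 2 := Finset.card_le_two
    have h2 : m + 1 + 1 - 1 = m + 1 := by ring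
    rw [h2]
    exact Nat.mul_le_mul_right _ h1
  have hc2 : (({-N, N} : Finset ℤ) ×ˢ ({m + 1} : Finset ℤ)).card ≤ 2 := by
    rw [Finset.card_product, Finset.card_singleton, mul_one]
    exact Finset.card_le_two
  have hc1' : ((({-N - 1, N} : Finset ℤ) ×ˢ Finset.Icc 1 (m + 1)).card : ℝ) ≤
      (2 * (m + 1).toNat : ℕ) := by exact_mod_cast hc1
  have hc2' : ((({-N, N} : Finset ℤ) ×ˢ ({m + 1} : Finset ℤ)).card : ℝ) ≤ 2 := by
    exact_mod_cast hc2
  have e : enD (kap J) (box N M) (tr (0, m + 1) (box (N - 1) m)) tt -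
      enD (kap J) (box N M) (tr (0, m + 1) (box (N - 1) m)) (cfg67 m N M) =
      ∑ i ∈ hb (box N M) \ hb (tr (0, m + 1) (box (N - 1) m)),
        (1 - agr (cfg67 m N M i) (cfg67 m N M (i + e1))) +
      ∑ i ∈ vb (box N M) \ vb (tr (0, m + 1) (box (N - 1) m)),
        kap J i * (1 - agr (cfg67 m N M i) (cfg67 m N M (i + e2))) := by
    unfold enD
    simp only [htt, mul_sub, mul_one, Finset.sum_sub_distrib]
    ring
  rw [e]
  push_cast at hc1' ⊢
  linarith

private lemma Zg_kap67 {β J : ℝ} {m N : ℤ} (η : Cfg) :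
    Zg β (kap J) (tr (0, m + 1) (box (N - 1) m)) η (fun _ => 1) =
      Zg β (kap 1) (tr (0, m + 1) (box (N - 1) m)) η (fun _ => 1) := by
  unfold Zg
  refine Finset.sum_congr rfl fun ω _ => ?_
  have h : en (kap J) (tr (0, m + 1) (box (N - 1) m)) ω =
      en (kap 1) (tr (0, m + 1) (box (N - 1) m)) ω := by
    unfold en
    congr 1
    refine Finset.sum_congr rfl fun i hi => ?_
    rw [mem_vb, mem_up67, mem_up67] at hi
    simp only [e2, Prod.fst_add, Prod.snd_add, add_zero] at hi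
    have h1 : i.2 ≠ 0 := by omega
    unfold kap
    rw [if_neg h1, if_neg h1]
  unfold wg
  rw [h]

private lemma Zg_up67 {β : ℝ} {m N : ℤ} (η : Cfg) :
    Zg β (kap 1) (tr (0, m + 1) (box (N - 1) m)) (shift (0, m + 1) η) (fun _ => 1) =
      Zg β (kap 1) (box (N - 1) m) η (fun _ => 1) := by
  have h := Zg_tr (β := β) (κ := kap 1) (Λ := box (N - 1) m) (η := η) (0, m + 1) (fun _ => 1)
  rw [kap_one_shift] at h
  exact h

private lemma TS_up67 {β J : ℝ} {m N M : ℤ} (hm : 1 ≤ m) (hM : 2 * m + 1 ≤ M) :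
    TS β (kap J) (tr (0, m + 1) (box (N - 1) m)) (cfg67 m N M) =
      TS β (kap 1) (box (N - 1) m) (eta 0) := by
  have hb : SameBdry (tr (0, m + 1) (box (N - 1) m)) (shift (0, m + 1) (eta 0))
      (cfg67 m N M) := by
    rw [← eta_shift]
    intro i hi hadj
    rw [mem_up67] at hi
    simp only [mem_up67, e1, e2, Prod.fst_sub, Prod.snd_sub, Prod.fst_add, Prod.snd_add]
      at hadj
    unfold cfg67
    by_cases h : i ∈ box N M
    · rw [if_pos h]
    · rw [if_neg h]
      rw [mem_box] at h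
      simp only [eta]
      rw [decide_eq_decide]
      omega
  unfold TS
  rw [Zg_kap67 (J := J) tt, Zg_kap67 (J := J) (cfg67 m N M), Zg_sameBdry hb (loc_const 1), Zg_up67]
  have h := Zg_up67 (β := β) (m := m) (N := N) tt
  rw [shift_tt] at h
  rw [h]

theorem TS_upper {β : ℝ} (hβ : 0 ≤ β) {J : ℝ} (hJ : 0 ≤ J) {m : ℤ} (hm : 1 ≤ m) :
    ∃ C : ℝ, ∀ N M : ℤ, 1 ≤ N → 2 * m + 1 ≤ M →
      TS β (kap J) (box N M) (eta 0) ≤ TS β (kap 1) (box (N - 1) m) (eta 0) + C := by
  refine ⟨β * (2 * (m + 1).toNat + 2 : ℕ), fun N M hN hM => ?_⟩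
  have hsub : tr (0, m + 1) (box (N - 1) m) ⊆ box N M := by
    intro i hi
    rw [mem_up67] at hi
    rw [mem_box]
    omega
  have h1 := freeze hβ (kap_nonneg hJ) hsub (cfg_mem67 m N M)
  rw [TS_up67 hm hM] at h1
  have h2 := mul_le_mul_of_nonneg_left (enD_le67 (J := J) (N := N) hm hM) hβ
  linarith

end Pool.Agent.Helper49.DL
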