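import Pool.Agent.Helper49.DL.Strip
import Pool.Agent.Helper49.DL.Raise
import Pool.Agent.Helper49.DL.Jensen
import Pool.Agent.Helper49.DL.Mono2
import Pool.Agent.Helper49.DL.Even

/-!
The contact probability at the defect line in the Dobrushin state is asymptotically at most the
disagreement probability of the pure phase with a slightly smaller defect strength.
-/

open Finset
open scoped Classical

namespace Pool.Agent.Helper49.DL

lemma nu_ch (x : ℤ) (ω : Cfg) : nu (x, 1) ω = (1 - ch {(x, 0), (x, 1)} ω) / 2 := by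
  have hb : bar (x, 1) = (x, 0) := by simp [bar]
  have hne : ((x, 0) : Site) ≠ (x, 1) := by simp
  unfold nu ch
  rw [Finset.prod_pair hne, hb]
  cases ω (x, 0) <;> cases ω (x, 1) <;> simp

lemma avg_nu (β : ℝ) (κ : Site → ℝ) (Λ : Finset Site) (η : Cfg) (x : ℤ) :
    avg β κ Λ η (nu (x, 1)) = (1 - avg β κ Λ η (ch {(x, 0), (x, 1)})) / 2 := by
  have h1 : (nu (x, 1)) = fun ω => (1 / 2 : ℝ) * ((fun _ => 1 : Cfg → ℝ) ω - ch {(x, 0), (x, 1)} ω) := by
    funext ω; rw [nu_ch]; ring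
  rw [h1, avg_smul, avg_sub, avg_const]
  ring

/-- Disagreement probability at the central defect bond in the `true` phase. -/
noncomputable def pn (β J : ℝ) (N M : ℤ) : ℝ := avg β (kap J) (box N M) tt (nu (0, 1))

/-- Disagreement probability at the central defect bond in the Dobrushin state. -/
noncomputable def dn (β J : ℝ) (N M : ℤ) : ℝ := avg β (kap J) (box N M) (eta 0) (nu (0, 1))

lemma nu_nonneg (i : Site) (ω : Cfg) : 0 ≤ nu i ω := by unfold nu; split_ifs <;> norm_num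

lemma nu_le_one (i : Site) (ω : Cfg) : nu i ω ≤ 1 := by unfold nu; split_ifs <;> norm_num

lemma pn_nonneg (β J : ℝ) (N M : ℤ) : 0 ≤ pn β J N M := avg_nonneg fun ω _ => nu_nonneg _ ω

lemma pn_le_one (β J : ℝ) (N M : ℤ) : pn β J N M ≤ 1 := by
  have := avg_mono (β := β) (κ := kap J) (Λ := box N M) (η := tt) (F := nu (0, 1)) (G := fun _ => 1)
    (fun ω _ => nu_le_one _ ω)
  rwa [avg_const] at this

lemma pair_subset {N M x : ℤ} (hM : 1 ≤ M) (hx : -N ≤ x) (hx' : x ≤ N) :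
    ({(x, 0), (x, 1)} : Finset Site) ⊆ box N M := by
  intro i hi
  simp only [Finset.mem_insert, Finset.mem_singleton] at hi
  rw [mem_box]
  rcases hi with rfl | rfl
  · simp only; omega
  · simp only; omega

lemma box_mono {N M N' M' : ℤ} (hN : N ≤ N') (hM : M ≤ M') : box N M ⊆ box N' M' := by
  intro i hi; rw [mem_box] at *; omega

/-- `true` phase: translates. -/
lemma avg_tt_sbox (β J : ℝ) (a l m : ℤ) (F : Cfg → ℝ) :
    avg β (kap J) (sbox a l m) tt F =
      avg β (kap J) (box l m) tt (fun ω => F (shift (a, 0) ω)) := by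
  have h := avg_tr (β := β) (κ := kap J) (Λ := box l m) (η := tt) (a, 0) F
  rw [shift_tt, kap_shift] at h
  exact h

lemma nu_shift (a x : ℤ) (ω : Cfg) : nu (x, 1) (shift (a, 0) ω) = nu (x - a, 1) ω := by
  unfold nu shift bar
  simp

/-- The disagreement probability of the pure phase increases with the domain. -/
lemma p_mono_dom {β J : ℝ} (hβ : 0 ≤ β) (hJ : 0 ≤ J) {Λ Λ' : Finset Site} (h : Λ' ⊆ Λ) {x : ℤ}
    (hx : ({(x, 0), (x, 1)} : Finset Site) ⊆ Λ') :
    avg β (kap J) Λ' tt (nu (x, 1)) ≤ avg β (kap J) Λ tt (nu (x, 1)) := by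
  rw [avg_nu, avg_nu]
  have h1 := avg_dom_mono hβ (kap_nonneg hJ) h tt hx
  have h2 := (abs_le.1 h1).2
  linarith

lemma p_mono_J {β J J' : ℝ} (hβ : 0 ≤ β) (hJ : 0 ≤ J) (hJJ : J ≤ J') {Λ : Finset Site} {x : ℤ}
    (hx : ({(x, 0), (x, 1)} : Finset Site) ⊆ Λ) :
    avg β (kap J') Λ tt (nu (x, 1)) ≤ avg β (kap J) Λ tt (nu (x, 1)) := by
  rw [avg_nu, avg_nu]
  have h1 := abs_avg_le hβ (kap_nonneg hJ) (kap_le hJJ) tt hx
  have h2 := (abs_le.1 h1).2
  linarith

lemma pn_le_dn {β J : ℝ} (hβ : 0 ≤ β) (hJ : 0 ≤ J) {N M : ℤ} (hN : 0 ≤ N) (hM : 1 ≤ M) :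
    pn β J N M ≤ dn β J N M := by
  unfold pn dn
  rw [avg_nu, avg_nu]
  have h1 := abs_avg_le hβ (kap_nonneg hJ) (fun i => le_refl (kap J i)) (eta 0)
    (pair_subset (N := N) (M := M) (x := 0) hM (by omega) hN)
  have h2 := (abs_le.1 h1).2
  linarith

/-- Infinite volume disagreement probability of the pure phase. -/
noncomputable def pinf (β J : ℝ) : ℝ := ⨆ n : ℕ, pn β J n ((n : ℤ) + 1)

lemma pn_bdd (β J : ℝ) : BddAbove (Set.range fun n : ℕ => pn β J n ((n : ℤ) + 1)) :=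
  ⟨1, by rintro _ ⟨n, rfl⟩; exact pn_le_one _ _ _ _⟩

lemma pn_mono {β J : ℝ} (hβ : 0 ≤ β) (hJ : 0 ≤ J) {N M N' M' : ℤ} (hN : 0 ≤ N) (hM : 1 ≤ M)
    (hNN : N ≤ N') (hMM : M ≤ M') : pn β J N M ≤ pn β J N' M' :=
  p_mono_dom hβ hJ (box_mono hNN hMM) (pair_subset hM (by omega) hN)

lemma pn_le_pinf {β J : ℝ} (hβ : 0 ≤ β) (hJ : 0 ≤ J) {N M : ℤ} (hN : 0 ≤ N) (hM : 1 ≤ M) :
    pn β J N M ≤ pinf β J := by
  set n : ℕ := (N + M).toNat with hn
  have hn' : (n : ℤ) = N + M := by rw [hn, Int.toNat_of_nonneg (by omega)]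
  refine (pn_mono hβ hJ hN hM (N' := n) (M' := (n : ℤ) + 1) (by omega) (by omega)).trans ?_
  exact le_ciSup (pn_bdd β J) n

lemma pinf_anti {β J J' : ℝ} (hβ : 0 ≤ β) (hJ : 0 ≤ J) (hJJ : J ≤ J') :
    pinf β J' ≤ pinf β J := by
  refine ciSup_le fun n => ?_
  refine (p_mono_J hβ hJ hJJ (pair_subset (by omega) (by omega) (by omega))).trans ?_
  exact le_ciSup (pn_bdd β J) n

/-- Difference of the costs and the contact probabilities. -/
lemma TS_diff {β J1 J2 : ℝ} {N M : ℤ} (hM : 1 ≤ M) :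
    β * (J2 - J1) * ∑ x ∈ Finset.Icc (-N) N, (avg β (kap J2) (box N M) (eta 0) (nu (x, 1)) -
      avg β (kap J1) (box N M) tt (nu (x, 1))) ≤
      TS β (kap J2) (box N M) (eta 0) - TS β (kap J1) (box N M) (eta 0) := by
  have h1 := log_convex β (kap J1) (kap J2) (box N M) tt
  have h2 := log_convex β (kap J2) (kap J1) (box N M) (eta 0)
  have hen : ∀ J ω, en (kap J) (box N M) ω =
      ∑ e : BB N M, (agr (ω (bp e)) (ω (bq e)) + agr (ω (bar (bp e))) (ω (bar (bq e)))) +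
      J * ∑ x ∈ Finset.Icc (-N) N, agr (ω (x, 0)) (ω (x, 1)) := fun J ω => en_fold hM J ω
  have hagr : ∀ (x : ℤ) (ω : Cfg), agr (ω (x, 0)) (ω (x, 1)) = 1 - nu (x, 1) ω := by
    intro x ω
    have hb : bar (x, 1) = (x, 0) := by simp [bar]
    unfold nu agr
    rw [hb]
    cases ω (x, 0) <;> cases ω (x, 1) <;> simp
  have g1 : (fun ω => β * (en (kap J2) (box N M) ω - en (kap J1) (box N M) ω)) =
      fun ω => (β * (J2 - J1)) * ∑ x ∈ Finset.Icc (-N) N, (1 - nu (x, 1) ω) := by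
    funext ω
    rw [hen, hen]
    simp_rw [hagr]
    ring
  have g2 : (fun ω => β * (en (kap J1) (box N M) ω - en (kap J2) (box N M) ω)) =
      fun ω => (-(β * (J2 - J1))) * ∑ x ∈ Finset.Icc (-N) N, (1 - nu (x, 1) ω) := by
    funext ω
    rw [hen, hen]
    simp_rw [hagr]
    ring
  have hs : ∀ κ η, avg β κ (box N M) η (fun ω => ∑ x ∈ Finset.Icc (-N) N, (1 - nu (x, 1) ω)) =
      ∑ x ∈ Finset.Icc (-N) N, (1 - avg β κ (box N M) η (nu (x, 1))) := by
    intro κ η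
    rw [avg_sum]
    refine Finset.sum_congr rfl fun x _ => ?_
    have := avg_sub (β := β) (κ := κ) (Λ := box N M) (η := η) (fun _ => 1) (nu (x, 1))
    rw [avg_const] at this
    exact this
  rw [g1, avg_smul, hs] at h1
  rw [g2, avg_smul, hs] at h2
  have e1' : ∑ x ∈ Finset.Icc (-N) N, (avg β (kap J2) (box N M) (eta 0) (nu (x, 1)) -
      avg β (kap J1) (box N M) tt (nu (x, 1))) =
      ∑ x ∈ Finset.Icc (-N) N, (1 - avg β (kap J1) (box N M) tt (nu (x, 1))) -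
      ∑ x ∈ Finset.Icc (-N) N, (1 - avg β (kap J2) (box N M) (eta 0) (nu (x, 1))) := by
    rw [← Finset.sum_sub_distrib]
    exact Finset.sum_congr rfl fun x _ => by ring
  rw [e1', mul_sub]
  unfold TS
  linarith

/-- The contact probability in the Dobrushin state decreases with the domain. -/
lemma d_ge {β J : ℝ} (hβ : 0 ≤ β) {N M n x : ℤ} (hM : 1 ≤ M) (hx : -N ≤ x) (hx' : x ≤ N)
    (hn : 2 * N ≤ n) (hn' : M ≤ n) :
    dn β J n n ≤ avg β (kap J) (box N M) (eta 0) (nu (x, 1)) := by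
  have hs : sbox (-x) N M ⊆ box n n := by
    intro i hi; rw [mem_sbox] at hi; rw [mem_box]; omega
  have hi : ((0, 1) : Site) ∈ ubox n n := by rw [mem_ubox]; simp only; omega
  have h := nu_mono (by omega) hβ (le_refl J) hs hi
  rw [avg_sbox] at h
  unfold dn
  refine h.trans (le_of_eq ?_)
  refine avg_congr fun ω _ => ?_
  rw [nu_shift]
  simp

lemma p_le {β J : ℝ} (hβ : 0 ≤ β) (hJ : 0 ≤ J) {N M n x : ℤ} (hM : 1 ≤ M) (hx : -N ≤ x)
    (hx' : x ≤ N) (hn : 2 * N ≤ n) (hn' : M ≤ n) :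
    avg β (kap J) (box N M) tt (nu (x, 1)) ≤ pn β J n n := by
  have hs : sbox (-x) N M ⊆ box n n := by
    intro i hi; rw [mem_sbox] at hi; rw [mem_box]; omega
  have hp : ({(0, 0), (0, 1)} : Finset Site) ⊆ sbox (-x) N M := by
    intro i hi
    simp only [Finset.mem_insert, Finset.mem_singleton] at hi
    rw [mem_sbox]
    rcases hi with rfl | rfl
    · simp only; omega
    · simp only; omega
  have h := p_mono_dom hβ hJ hs hp
  rw [avg_tt_sbox] at h
  unfold pn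
  refine le_trans (le_of_eq ?_) h
  refine avg_congr fun ω _ => ?_
  rw [nu_shift]
  simp

/-- Key step. -/
theorem contact_key {β : ℝ} (hβ : 0 < β) {J1 J2 : ℝ} (h1 : 1 ≤ J1) (h12 : J1 < J2) {ε : ℝ}
    (hε : 0 < ε) : ∃ n : ℤ, 1 ≤ n ∧ dn β J2 n n ≤ pinf β J1 + ε := by
  by_contra hcon
  push Not at hcon
  set ε' : ℝ := β * (J2 - J1) * ε / 2 with hε'
  have hJd : 0 < J2 - J1 := by linarith
  have hε'pos : 0 < ε' := by positivity
  obtain ⟨m, hm, C, hC⟩ := tension_gap hβ.le hε'pos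
  obtain ⟨C', hC'⟩ := TS_upper hβ.le (J := J2) (by linarith) hm
  -- for every N
  have hall : ∀ N : ℤ, 1 ≤ N → 2 * ε' * (2 * N + 1) ≤ ε' * (2 * N + 1) + (C + C') := by
    intro N hN
    have hM : (1 : ℤ) ≤ 2 * m + 1 := by omega
    have a1 := hC N (2 * m + 1) hN hM
    have a2 := hC' N (2 * m + 1) hN le_rfl
    have a3 := TS_mono hβ.le (kap_nonneg zero_le_one) (kap_le h1) (box N (2 * m + 1)) (eta 0)
    have a4 := TS_diff (β := β) (J1 := J1) (J2 := J2) (N := N) (M := 2 * m + 1) hM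
    have a5 : ∀ x ∈ Finset.Icc (-N) N, ε ≤
        avg β (kap J2) (box N (2 * m + 1)) (eta 0) (nu (x, 1)) -
        avg β (kap J1) (box N (2 * m + 1)) tt (nu (x, 1)) := by
      intro x hx
      rw [Finset.mem_Icc] at hx
      set n : ℤ := 2 * N + 2 * m + 1 with hn
      have b1 := d_ge (J := J2) hβ.le hM hx.1 hx.2 (n := n) (by omega) (by omega)
      have b2 := p_le (J := J1) hβ.le (by linarith) hM hx.1 hx.2 (n := n) (by omega) (by omega)
      have b3 := hcon n (by omega)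
      have b4 := pn_le_pinf (J := J1) hβ.le (by linarith) (N := n) (M := n) (by omega) (by omega)
      linarith
    have a6 : (2 * (N : ℝ) + 1) * ε ≤ ∑ x ∈ Finset.Icc (-N) N,
        (avg β (kap J2) (box N (2 * m + 1)) (eta 0) (nu (x, 1)) -
        avg β (kap J1) (box N (2 * m + 1)) tt (nu (x, 1))) := by
      refine le_trans (le_of_eq ?_) (Finset.sum_le_sum a5)
      rw [Finset.sum_const, nsmul_eq_mul, card_row (by omega : 0 ≤ N)]
    have a7 : β * (J2 - J1) * ((2 * (N : ℝ) + 1) * ε) ≤ β * (J2 - J1) *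
        ∑ x ∈ Finset.Icc (-N) N,
        (avg β (kap J2) (box N (2 * m + 1)) (eta 0) (nu (x, 1)) -
        avg β (kap J1) (box N (2 * m + 1)) tt (nu (x, 1))) :=
      mul_le_mul_of_nonneg_left a6 (by positivity)
    have a8 : β * (J2 - J1) * ((2 * (N : ℝ) + 1) * ε) = 2 * ε' * (2 * N + 1) := by
      rw [hε']; ring
    linarith
  obtain ⟨k, hk⟩ := exists_nat_gt ((C + C') / ε')
  have h2 := hall ((k : ℤ) + 1) (by omega)
  rw [div_lt_iff₀ hε'pos] at hk
  push_cast at h2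
  have hk0 : (0 : ℝ) ≤ k := Nat.cast_nonneg k
  nlinarith

/-- Contact probabilities. -/
theorem contact_le {β : ℝ} (hβ : 0 < β) {J1 J2 : ℝ} (h1 : 1 ≤ J1) (h12 : J1 < J2) {ε : ℝ}
    (hε : 0 < ε) : ∃ n : ℤ, 1 ≤ n ∧ ∀ N M : ℤ, n ≤ N → n ≤ M → dn β J2 N M ≤ pinf β J1 + ε := by
  obtain ⟨n, hn, h⟩ := contact_key hβ h1 h12 hε
  refine ⟨n, hn, fun N M hN hM => ?_⟩
  have hs : sbox 0 n n ⊆ box N M := by
    intro i hi; rw [mem_sbox] at hi; rw [mem_box]; omega
  have hi : ((0, 1) : Site) ∈ ubox N M := by rw [mem_ubox]; simp only; omega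
  have h2 := nu_mono (by omega) hβ.le (le_refl J2) hs hi
  have e : sbox 0 n n = box n n := by
    ext j; rw [mem_sbox, mem_box]; omega
  rw [e] at h2
  exact h2.trans h

end Pool.Agent.Helper49.DL
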