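import Pool.Agent.Helper49.DL.Sub

/-!
Finite energy, bounded density of shifted steps, and good pairs of rows.
-/

open Finset

namespace Pool.Agent.Helper49.DL

lemma kap_one : kap 1 = fun _ => 1 := by
  funext i; simp [kap]

lemma avg_le_of_Zg {β : ℝ} {κ : Site → ℝ} {Λ : Finset Site} {η : Cfg} {F : Cfg → ℝ} {c : ℝ}
    (h : Zg β κ Λ η F ≤ c * Zg β κ Λ η (fun _ => 1)) : avg β κ Λ η F ≤ c := by
  unfold avg
  rw [div_le_iff₀ Zg_one_pos]
  exact h

section density

variable {β : ℝ} {N M k : ℤ}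

lemma agr_diff (a b c d : Bool) : |agr a b - agr c d| ≤ 1 := by
  unfold agr; split_ifs <;> norm_num

lemma en_density (hk : 0 ≤ k) (hkM : k ≤ M) {ω : Cfg} (hω : ω ∈ confs (box N M) (eta k)) :
    |en (kap 1) (box N M) (glue (box N M) ω (eta 0)) - en (kap 1) (box N M) ω| ≤ 2 * k := by
  rw [mem_confs] at hω
  set ω' := glue (box N M) ω (eta 0) with hω'
  have hin : ∀ i ∈ box N M, ω' i = ω i := fun i hi => glue_in _ _ hi
  have hout : ∀ i, i ∉ box N M → ¬ (1 ≤ i.2 ∧ i.2 ≤ k) → ω' i = ω i := by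
    intro i hi hy
    rw [hω', glue_out _ _ hi, hω i hi]
    simp only [eta]
    by_cases h1 : 1 ≤ i.2
    · have h2 : k + 1 ≤ i.2 := by omega
      simp [h1, h2]
    · have h2 : ¬ k + 1 ≤ i.2 := by omega
      simp [h1, h2]
  have hall : ∀ i, (i ∈ box N M ∨ ¬ (1 ≤ i.2 ∧ i.2 ≤ k)) → ω' i = ω i := by
    intro i hi
    by_cases h : i ∈ box N M
    · exact hin i h
    · exact hout i h (by tauto)
  -- vertical bonds do not change
  have hv : ∑ i ∈ vb (box N M), kap 1 i * agr (ω' i) (ω' (i + e2)) =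
      ∑ i ∈ vb (box N M), kap 1 i * agr (ω i) (ω (i + e2)) := by
    refine Finset.sum_congr rfl fun i hi => ?_
    rw [mem_vb] at hi
    have h1 : ω' i = ω i := by
      apply hall
      by_cases h : i ∈ box N M
      · exact Or.inl h
      · right
        have h2 : i + e2 ∈ box N M := by tauto
        rw [mem_box] at h h2
        simp only [e2, Prod.fst_add, Prod.snd_add] at h2
        omega
    have h2 : ω' (i + e2) = ω (i + e2) := by
      apply hall
      by_cases h : i + e2 ∈ box N M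
      · exact Or.inl h
      · right
        have h2 : i ∈ box N M := by tauto
        rw [mem_box] at h h2
        simp only [e2, Prod.fst_add, Prod.snd_add] at *
        omega
    rw [h1, h2]
  -- horizontal bonds
  have hh : ∀ i ∈ hb (box N M), |agr (ω' i) (ω' (i + e1)) - agr (ω i) (ω (i + e1))| ≤
      (if i.1 = -N - 1 then (if 1 ≤ i.2 ∧ i.2 ≤ k then (1 : ℝ) else 0) else 0) +
      (if i.1 = N then (if 1 ≤ i.2 ∧ i.2 ≤ k then (1 : ℝ) else 0) else 0) := by
    intro i hi
    rw [hb_box] at hi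
    simp only [Finset.mem_product, Finset.mem_Icc] at hi
    by_cases hy : 1 ≤ i.2 ∧ i.2 ≤ k
    · by_cases hx : i.1 = -N - 1 ∨ i.1 = N
      · refine (agr_diff _ _ _ _).trans ?_
        rcases hx with hx | hx
        · simp only [hx, hy, and_self, if_true]
          split_ifs <;> norm_num
        · simp only [hx, hy, and_self, if_true]
          split_ifs <;> norm_num
      · push Not at hx
        have h1 : ω' i = ω i := hall i (Or.inl (by rw [mem_box]; omega))
        have h2 : ω' (i + e1) = ω (i + e1) := hall _ (Or.inl (by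
          rw [mem_box]; simp only [e1, Prod.fst_add, Prod.snd_add]; omega))
        rw [h1, h2, sub_self, abs_zero, if_neg hx.1, if_neg hx.2, add_zero]
    · have h1 : ω' i = ω i := hall i (Or.inr hy)
      have h2 : ω' (i + e1) = ω (i + e1) := hall _ (Or.inr (by
          simp only [e1, Prod.snd_add, add_zero]; exact hy))
      rw [h1, h2, sub_self, abs_zero]
      split_ifs <;> norm_num
  have hcount : ∑ y ∈ Finset.Icc (-M + 1) M, (if 1 ≤ y ∧ y ≤ k then (1 : ℝ) else 0) ≤ k := by
    rw [Finset.sum_ite, Finset.sum_const_zero, add_zero, Finset.sum_const, nsmul_eq_mul, mul_one]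
    have hsub : (Finset.Icc (-M + 1) M).filter (fun y => 1 ≤ y ∧ y ≤ k) ⊆ Finset.Icc 1 k := by
      intro y hy
      rw [Finset.mem_filter] at hy
      rw [Finset.mem_Icc]; exact hy.2
    have hc := Finset.card_le_card hsub
    rw [Int.card_Icc] at hc
    have h2 : (((Finset.Icc (-M + 1) M).filter (fun y => 1 ≤ y ∧ y ≤ k)).card : ℝ) ≤
        ((k + 1 - 1).toNat : ℝ) := by exact_mod_cast hc
    have h3 : (((k + 1 - 1).toNat : ℤ) : ℝ) = (k : ℝ) := by
      rw [Int.toNat_of_nonneg (by omega)]; push_cast; ring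
    rw [Int.cast_natCast] at h3
    linarith
  have hone : ∀ a : ℤ, ∑ i ∈ hb (box N M),
      (if i.1 = a then (if 1 ≤ i.2 ∧ i.2 ≤ k then (1 : ℝ) else 0) else 0) ≤ k := by
    intro a
    rw [hb_box, Finset.sum_product]
    have : ∀ x ∈ Finset.Icc (-N - 1) N, ∑ y ∈ Finset.Icc (-M + 1) M,
        (if (x, y).1 = a then (if 1 ≤ (x, y).2 ∧ (x, y).2 ≤ k then (1 : ℝ) else 0) else 0) =
        if x = a then ∑ y ∈ Finset.Icc (-M + 1) M, (if 1 ≤ y ∧ y ≤ k then (1 : ℝ) else 0) else 0 := by
      intro x _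
      by_cases hx : x = a
      · simp [hx]
      · simp [hx]
    rw [Finset.sum_congr rfl this, Finset.sum_ite_eq']
    split_ifs
    · exact hcount
    · exact_mod_cast hk
  unfold en
  rw [hv, add_sub_add_right_eq_sub, ← Finset.sum_sub_distrib]
  refine (Finset.abs_sum_le_sum_abs _ _).trans ?_
  refine (Finset.sum_le_sum hh).trans ?_
  rw [Finset.sum_add_distrib]
  have := hone (-N - 1)
  have := hone N
  linarith

/-- Bounded density of the states with shifted steps. -/
theorem avg_density (hβ : 0 ≤ β) (hk : 0 ≤ k) (hkM : k ≤ M) {F : Cfg → ℝ}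
    (hF : ∀ ω, 0 ≤ F ω) (hloc : Loc (box N M) F) :
    avg β (kap 1) (box N M) (eta 0) F ≤
      Real.exp (4 * β * k) * avg β (kap 1) (box N M) (eta k) F := by
  have hw : ∀ ω ∈ confs (box N M) (eta k),
      wg β (kap 1) (box N M) (glue (box N M) ω (eta 0)) ≤
        Real.exp (2 * β * k) * wg β (kap 1) (box N M) ω ∧
      wg β (kap 1) (box N M) ω ≤
        Real.exp (2 * β * k) * wg β (kap 1) (box N M) (glue (box N M) ω (eta 0)) := by
    intro ω hω
    have h := abs_le.1 (en_density hk hkM hω)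
    unfold wg
    rw [← Real.exp_add, ← Real.exp_add]
    constructor
    · apply Real.exp_le_exp.2
      have := mul_le_mul_of_nonneg_left h.2 hβ
      linarith
    · apply Real.exp_le_exp.2
      have := mul_le_mul_of_nonneg_left h.1 hβ
      linarith
  have h1 : Zg β (kap 1) (box N M) (eta 0) F ≤
      Real.exp (2 * β * k) * Zg β (kap 1) (box N M) (eta k) F := by
    unfold Zg
    rw [sum_glue (eta k) (eta 0), Finset.mul_sum]
    refine Finset.sum_le_sum fun ω hω => ?_
    have hF' : F (glue (box N M) ω (eta 0)) = F ω := hloc _ _ fun i hi => glue_in _ _ hi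
    rw [hF', ← mul_assoc]
    exact mul_le_mul_of_nonneg_right (hw ω hω).1 (hF ω)
  have h2 : Zg β (kap 1) (box N M) (eta k) (fun _ => 1) ≤
      Real.exp (2 * β * k) * Zg β (kap 1) (box N M) (eta 0) (fun _ => 1) := by
    unfold Zg
    rw [sum_glue (eta k) (eta 0), Finset.mul_sum]
    refine Finset.sum_le_sum fun ω hω => ?_
    rw [mul_one, mul_one]
    exact (hw ω hω).2
  unfold avg
  have hz0 := Zg_one_pos (β := β) (κ := kap 1) (Λ := box N M) (η := eta 0)
  have hzk := Zg_one_pos (β := β) (κ := kap 1) (Λ := box N M) (η := eta k)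
  have hZF : 0 ≤ Zg β (kap 1) (box N M) (eta k) F := Zg_nonneg fun ω _ => hF ω
  rw [div_le_iff₀ hz0]
  have he : Real.exp (4 * β * k) = Real.exp (2 * β * k) * Real.exp (2 * β * k) := by
    rw [← Real.exp_add]; congr 1; ring
  have hep := Real.exp_pos (2 * β * k)
  calc Zg β (kap 1) (box N M) (eta 0) F
      ≤ Real.exp (2 * β * k) * Zg β (kap 1) (box N M) (eta k) F := h1
    _ = Real.exp (2 * β * k) * (Zg β (kap 1) (box N M) (eta k) F /
          Zg β (kap 1) (box N M) (eta k) (fun _ => 1)) *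
          Zg β (kap 1) (box N M) (eta k) (fun _ => 1) := by field_simp
    _ ≤ Real.exp (2 * β * k) * (Zg β (kap 1) (box N M) (eta k) F /
          Zg β (kap 1) (box N M) (eta k) (fun _ => 1)) *
          (Real.exp (2 * β * k) * Zg β (kap 1) (box N M) (eta 0) (fun _ => 1)) := by
        refine mul_le_mul_of_nonneg_left h2 ?_
        exact mul_nonneg hep.le (div_nonneg hZF hzk.le)
    _ = _ := by rw [he]; ring

end density

section finite_energy

variable {β : ℝ} {Λ : Finset Site} {η : Cfg}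

lemma en_bounds (Λ : Finset Site) (ω : Cfg) :
    0 ≤ en (kap 1) Λ ω ∧ en (kap 1) Λ ω ≤ 4 * (Λ.card : ℝ) := by
  unfold en
  rw [kap_one]
  simp only [one_mul]
  constructor
  · exact add_nonneg (Finset.sum_nonneg fun _ _ => agr_nonneg _ _)
      (Finset.sum_nonneg fun _ _ => agr_nonneg _ _)
  · have h1 : ∑ i ∈ hb Λ, agr (ω i) (ω (i + e1)) ≤ ((hb Λ).card : ℝ) := by
      refine (Finset.sum_le_sum fun i _ => agr_le_one (ω i) (ω (i + e1))).trans ?_
      simp
    have h2 : ∑ i ∈ vb Λ, agr (ω i) (ω (i + e2)) ≤ ((vb Λ).card : ℝ) := by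
      refine (Finset.sum_le_sum fun i _ => agr_le_one (ω i) (ω (i + e2))).trans ?_
      simp
    have h3 : ((hb Λ).card : ℝ) ≤ 2 * (Λ.card : ℝ) := by
      have : (hb Λ).card ≤ Λ.card + Λ.card := by
        unfold hb
        exact (Finset.card_union_le _ _).trans (Nat.add_le_add_left Finset.card_image_le _)
      have : ((hb Λ).card : ℝ) ≤ (Λ.card : ℝ) + (Λ.card : ℝ) := by exact_mod_cast this
      linarith
    have h4 : ((vb Λ).card : ℝ) ≤ 2 * (Λ.card : ℝ) := by
      have : (vb Λ).card ≤ Λ.card + Λ.card := by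
        unfold vb
        exact (Finset.card_union_le _ _).trans (Nat.add_le_add_left Finset.card_image_le _)
      have : ((vb Λ).card : ℝ) ≤ (Λ.card : ℝ) + (Λ.card : ℝ) := by exact_mod_cast this
      linarith
    linarith

/-- Lower bound for the probability of a given pattern in a set of at most `c` sites. -/
noncomputable def eps (β : ℝ) (c : ℕ) : ℝ := (2 : ℝ)⁻¹ ^ c * Real.exp (-(4 * β * c))

lemma eps_pos (β : ℝ) (c : ℕ) : 0 < eps β c := by unfold eps; positivity

lemma eps_le_one {β : ℝ} (hβ : 0 ≤ β) (c : ℕ) : eps β c ≤ 1 := by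
  unfold eps
  refine mul_le_one₀ (pow_le_one₀ (by norm_num) (by norm_num)) (Real.exp_pos _).le ?_
  rw [Real.exp_le_one_iff]
  have : (0 : ℝ) ≤ c := Nat.cast_nonneg _
  nlinarith [mul_nonneg hβ this]

lemma eps_anti {β : ℝ} (hβ : 0 ≤ β) {c d : ℕ} (h : c ≤ d) : eps β d ≤ eps β c := by
  unfold eps
  refine mul_le_mul ?_ ?_ (Real.exp_pos _).le (by positivity)
  · exact pow_le_pow_of_le_one (by norm_num) (by norm_num) h
  · apply Real.exp_le_exp.2
    have : (c : ℝ) ≤ d := by exact_mod_cast h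
    have := mul_le_mul_of_nonneg_left this hβ
    linarith

lemma finite_energy (hβ : 0 ≤ β) (ζ : Cfg) {c : ℕ} (hc : Λ.card ≤ c) {E : Cfg → ℝ}
    (hE0 : ∀ ω, 0 ≤ E ω) (hE : ∀ ω, (∀ i ∈ Λ, ω i = ζ i) → E ω = 1) :
    eps β c ≤ avg β (kap 1) Λ η E := by
  refine (eps_anti hβ hc).trans ?_
  unfold avg
  rw [le_div_iff₀ Zg_one_pos]
  have h1 : Zg β (kap 1) Λ η (fun _ => 1) ≤ (2 : ℝ) ^ Λ.card * Real.exp (4 * β * Λ.card) := by
    unfold Zg
    have hcard : ((confs Λ η).card : ℝ) ≤ (2 : ℝ) ^ Λ.card := by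
      have : (confs Λ η).card ≤ 2 ^ Λ.card := by
        classical
        unfold confs
        refine Finset.card_image_le.trans ?_
        rw [Finset.card_powerset]
      exact_mod_cast this
    calc ∑ ω ∈ confs Λ η, wg β (kap 1) Λ ω * 1 ≤
        ∑ ω ∈ confs Λ η, Real.exp (4 * β * Λ.card) := by
          refine Finset.sum_le_sum fun ω _ => ?_
          rw [mul_one]
          unfold wg
          apply Real.exp_le_exp.2
          have := mul_le_mul_of_nonneg_left (en_bounds Λ ω).2 hβ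
          linarith
      _ = ((confs Λ η).card : ℝ) * Real.exp (4 * β * Λ.card) := by
          rw [Finset.sum_const, nsmul_eq_mul]
      _ ≤ _ := mul_le_mul_of_nonneg_right hcard (Real.exp_pos _).le
  have h2 : 1 ≤ Zg β (kap 1) Λ η E := by
    unfold Zg
    have hg : glue Λ ζ η ∈ confs Λ η := glue_mem _ _ _
    refine le_trans ?_ (Finset.single_le_sum (fun ω _ => mul_nonneg (wg_pos _ _ _ _).le (hE0 ω)) hg)
    rw [hE _ (fun i hi => glue_in _ _ hi), mul_one]
    unfold wg
    exact Real.one_le_exp (mul_nonneg hβ (en_bounds Λ _).1)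
  refine le_trans (mul_le_mul_of_nonneg_left h1 (eps_pos _ _).le) (le_trans (le_of_eq ?_) h2)
  unfold eps
  have e1 : (2 : ℝ)⁻¹ ^ Λ.card * (2 : ℝ) ^ Λ.card = 1 := by
    rw [← mul_pow]; norm_num
  have e2 : Real.exp (-(4 * β * Λ.card)) * Real.exp (4 * β * Λ.card) = 1 := by
    rw [← Real.exp_add]; simp
  calc (2 : ℝ)⁻¹ ^ Λ.card * Real.exp (-(4 * β * Λ.card)) *
      ((2 : ℝ) ^ Λ.card * Real.exp (4 * β * Λ.card)) =
      ((2 : ℝ)⁻¹ ^ Λ.card * (2 : ℝ) ^ Λ.card) *
      (Real.exp (-(4 * β * Λ.card)) * Real.exp (4 * β * Λ.card)) := by ring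
    _ = 1 := by rw [e1, e2, one_mul]

end finite_energy

end Pool.Agent.Helper49.DL
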