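import Pool.Agent.Helper49.DL.Rows

/-!
Good pairs of rows decouple the middle of the box from the boundary.
-/

open Finset

namespace Pool.Agent.Helper49.DL

/-- The rows `k + j` and `k + 1 - j` are entirely of colour 1 and 2 respectively. -/
def GoodRow (N k j : ℤ) (ω : Cfg) : Prop :=
  ∀ x, -N ≤ x → x ≤ N → ω (x, k + j) = true ∧ ω (x, k + 1 - j) = false

open scoped Classical in
/-- Indicator that the pair of rows is bad. -/
noncomputable def bd (N k j : ℤ) (ω : Cfg) : ℝ := if GoodRow N k j ω then 0 else 1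

/-- Indicator that the first `T` pairs of rows are bad. -/
noncomputable def Pb (N M k : ℤ) (T : ℕ) (ω : Cfg) : ℝ :=
  ∏ s ∈ Finset.range T, bd N k (M - k - s) ω

lemma bd_nonneg (N k j : ℤ) (ω : Cfg) : 0 ≤ bd N k j ω := by
  unfold bd; split_ifs <;> norm_num

lemma bd_le_one (N k j : ℤ) (ω : Cfg) : bd N k j ω ≤ 1 := by
  unfold bd; split_ifs <;> norm_num

lemma Pb_nonneg (N M k : ℤ) (T : ℕ) (ω : Cfg) : 0 ≤ Pb N M k T ω :=
  Finset.prod_nonneg fun _ _ => bd_nonneg _ _ _ _

lemma Pb_succ (N M k : ℤ) (T : ℕ) (ω : Cfg) :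
    Pb N M k (T + 1) ω = Pb N M k T ω * bd N k (M - k - T) ω := by
  unfold Pb; rw [Finset.prod_range_succ]

lemma bd_congr {N k j : ℤ} {ω ξ : Cfg}
    (h : ∀ x, -N ≤ x → x ≤ N → ω (x, k + j) = ξ (x, k + j) ∧ ω (x, k + 1 - j) = ξ (x, k + 1 - j)) :
    bd N k j ω = bd N k j ξ := by
  have : GoodRow N k j ω ↔ GoodRow N k j ξ := by
    unfold GoodRow
    refine forall_congr' fun x => forall_congr' fun h1 => forall_congr' fun h2 => ?_
    rw [(h x h1 h2).1, (h x h1 h2).2]
  unfold bd
  by_cases hg : GoodRow N k j ω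
  · rw [if_pos hg, if_pos (this.1 hg)]
  · rw [if_neg hg, if_neg (fun h' => hg (this.2 h'))]

/-- The two rows. -/
noncomputable def two (N k j : ℤ) : Finset Site := Finset.Icc (-N) N ×ˢ {k + j, k + 1 - j}

lemma mem_two {N k j : ℤ} {i : Site} :
    i ∈ two N k j ↔ (-N ≤ i.1 ∧ i.1 ≤ N) ∧ (i.2 = k + j ∨ i.2 = k + 1 - j) := by
  unfold two
  simp [Finset.mem_product]

lemma card_two (N k j : ℤ) : (two N k j).card ≤ 2 * (2 * N + 1).toNat := by
  unfold two
  rw [Finset.card_product, Int.card_Icc]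
  have h : ({k + j, k + 1 - j} : Finset ℤ).card ≤ 2 := Finset.card_le_two
  have h2 : (N + 1 - -N) = 2 * N + 1 := by ring
  rw [h2, mul_comm]
  exact Nat.mul_le_mul_right _ h

section

variable {β : ℝ} {N M k : ℤ}

lemma Pb_congr_two {T : ℕ} (hT : (T : ℤ) ≤ M - k - 1) {ω ξ : Cfg}
    (h : ξ ∈ confs (two N k (M - k - T)) ω) : Pb N M k T ξ = Pb N M k T ω := by
  rw [mem_confs] at h
  unfold Pb
  refine Finset.prod_congr rfl fun s hs => bd_congr fun x _ _ => ?_
  have hs' : (s : ℤ) < T := by exact_mod_cast Finset.mem_range.1 hs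
  constructor
  · apply h; rw [mem_two]; push Not; intro _; constructor <;> omega
  · apply h; rw [mem_two]; push Not; intro _; constructor <;> omega

lemma bad_step (hβ : 0 ≤ β) {T : ℕ} (hk : 0 ≤ k) (hT : (T : ℤ) ≤ M - k - 1) :
    Zg β (kap 1) (box N M) (eta k) (Pb N M k (T + 1)) ≤
      (1 - eps β (2 * (2 * N + 1).toNat)) * Zg β (kap 1) (box N M) (eta k) (Pb N M k T) := by
  have e : Pb N M k (T + 1) = fun ω => Pb N M k T ω * bd N k (M - k - T) ω := by
    funext ω; exact Pb_succ N M k T ω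
  rw [e]
  refine Zg_cond_le (Λ' := two N k (M - k - T)) ?_ _ _ (fun ω ξ h => Pb_congr_two hT h)
    (fun ω => Pb_nonneg _ _ _ _ _) _ ?_
  · intro i hi
    rw [mem_two] at hi
    rw [mem_box]
    omega
  · intro ω _ _
    have hfe := finite_energy (β := β) (Λ := two N k (M - k - T)) (η := ω) hβ (eta k)
      (card_two N k (M - k - T)) (E := fun ω => 1 - bd N k (M - k - T) ω)
      (fun ω => by have := bd_le_one N k (M - k - T) ω; linarith) (fun ξ hξ => by
        have hg : GoodRow N k (M - k - T) ξ := by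
          intro x h1 h2
          constructor
          · rw [hξ _ (by rw [mem_two]; exact ⟨⟨h1, h2⟩, Or.inl rfl⟩)]
            simp only [eta, decide_eq_true_eq]; omega
          · rw [hξ _ (by rw [mem_two]; exact ⟨⟨h1, h2⟩, Or.inr rfl⟩)]
            simp only [eta, decide_eq_false_iff_not]; omega
        unfold bd; rw [if_pos hg]; ring)
    rw [avg_sub, avg_const] at hfe
    linarith

lemma bad_bound (hβ : 0 ≤ β) (hk : 0 ≤ k) (T : ℕ) (hT : (T : ℤ) ≤ M - k) :
    Zg β (kap 1) (box N M) (eta k) (Pb N M k T) ≤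
      (1 - eps β (2 * (2 * N + 1).toNat)) ^ T * Zg β (kap 1) (box N M) (eta k) (fun _ => 1) := by
  induction T with
  | zero =>
    have : Pb N M k 0 = fun _ => 1 := by funext ω; simp [Pb]
    rw [this, pow_zero, one_mul]
  | succ T ih =>
    push_cast at hT
    have h1 := bad_step (N := N) (M := M) hβ (T := T) hk (by omega)
    have h2 := ih (by omega)
    have h3 : 0 ≤ 1 - eps β (2 * (2 * N + 1).toNat) := by
      have := eps_le_one hβ (2 * (2 * N + 1).toNat); linarith
    calc _ ≤ _ := h1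
      _ ≤ (1 - eps β (2 * (2 * N + 1).toNat)) *
          ((1 - eps β (2 * (2 * N + 1).toNat)) ^ T *
            Zg β (kap 1) (box N M) (eta k) (fun _ => 1)) := mul_le_mul_of_nonneg_left h2 h3
      _ = _ := by rw [pow_succ]; ring

lemma eta_shift (k : ℤ) : eta k = shift (0, k) (eta 0) := by
  funext i
  simp only [eta, shift, Prod.snd_sub]
  congr 1
  rw [eq_iff_iff]
  omega

lemma kap_one_shift (a : Site) : (fun i : Site => kap 1 (i + a)) = kap 1 := by
  rw [kap_one]

lemma good_avg (β : ℝ) {j : ℤ} {ω : Cfg} (hω : ω ∈ confs (box N M) (eta k))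
    (hk : 0 ≤ k) (hj : j ≤ M - k) (hg : GoodRow N k j ω) {Q : Cfg → ℝ} (hQ : Loc (box N (j - 1)) Q) :
    avg β (kap 1) (tr (0, k) (box N (j - 1))) ω (fun ω => Q (shift (0, -k) ω)) =
      avg β (kap 1) (box N (j - 1)) (eta 0) Q := by
  rw [mem_confs] at hω
  have hbd : SameBdry (tr (0, k) (box N (j - 1))) (shift (0, k) (eta 0)) ω := by
    rw [← eta_shift]
    intro i hi hadj
    rw [mem_tr, mem_box] at hi
    simp only [mem_tr, mem_box, e1, e2, Prod.fst_sub, Prod.snd_sub, Prod.fst_add, Prod.snd_add]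
      at hadj hi
    by_cases hx : -N ≤ i.1 ∧ i.1 ≤ N
    · have hy : i.2 = k + j ∨ i.2 = k + 1 - j := by omega
      rcases hy with hy | hy
      · have h1 := (hg i.1 hx.1 hx.2).1
        rw [← hy] at h1
        rw [h1]
        simp only [eta, decide_eq_true_eq]
        omega
      · have h1 := (hg i.1 hx.1 hx.2).2
        rw [← hy] at h1
        rw [h1]
        simp only [eta, decide_eq_false_iff_not]
        omega
    · rw [hω i (by rw [mem_box]; omega)]
  have hloc : Loc (tr (0, k) (box N (j - 1))) (fun ω => Q (shift (0, -k) ω)) := by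
    intro ω ω' h
    apply hQ
    intro i hi
    simp only [shift]
    apply h
    rw [mem_tr]
    have : i - ((0, -k) : Site) - ((0, k) : Site) = i := by ext <;> simp
    rw [this]; exact hi
  rw [avg_sameBdry hbd hloc, avg_tr, kap_one_shift]
  congr 1
  funext ω
  have : ((0, -k) : Site) = -((0, k) : Site) := by ext <;> simp
  rw [this, shift_shift']

lemma rows_induct (hβ : 0 ≤ β) (hk : 0 ≤ k) {m0 : ℤ} (hm0 : 1 ≤ m0) {Q : Cfg → ℝ}
    (hQ : Loc (box N m0) Q) {δ : ℝ}
    (hδ : ∀ m, m0 ≤ m → m ≤ M → avg β (kap 1) (box N m) (eta 0) Q ≤ δ)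
    (T : ℕ) (hT : (T : ℤ) ≤ M - k - m0) :
    Zg β (kap 1) (box N M) (eta k) (fun ω => Q (shift (0, -k) ω)) ≤
      δ * (Zg β (kap 1) (box N M) (eta k) (fun _ => 1) -
        Zg β (kap 1) (box N M) (eta k) (Pb N M k T)) +
      Zg β (kap 1) (box N M) (eta k) (fun ω => Pb N M k T ω * Q (shift (0, -k) ω)) := by
  induction T with
  | zero =>
    have h0 : Pb N M k 0 = fun _ => 1 := by funext ω; simp [Pb]
    rw [h0]
    simp only [one_mul, sub_self, mul_zero, zero_add, le_refl]
  | succ T ih =>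
    push_cast at hT
    have h1 := ih (by omega)
    set Z := Zg β (kap 1) (box N M) (eta k) with hZ
    set j : ℤ := M - k - T with hj
    have e1' : Z (fun ω => Pb N M k T ω * Q (shift (0, -k) ω)) =
        Z (fun ω => (Pb N M k T ω * (1 - bd N k j ω)) * Q (shift (0, -k) ω)) +
        Z (fun ω => Pb N M k (T + 1) ω * Q (shift (0, -k) ω)) := by
      rw [hZ, ← Zg_add]
      refine Zg_congr fun ω _ => ?_
      rw [Pb_succ]; ring
    have e2' : Z (fun ω => Pb N M k T ω * (1 - bd N k j ω)) =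
        Z (Pb N M k T) - Z (Pb N M k (T + 1)) := by
      rw [hZ, ← Zg_sub]
      refine Zg_congr fun ω _ => ?_
      rw [Pb_succ]; ring
    have h2 : Z (fun ω => (Pb N M k T ω * (1 - bd N k j ω)) * Q (shift (0, -k) ω)) ≤
        δ * Z (fun ω => Pb N M k T ω * (1 - bd N k j ω)) := by
      refine Zg_cond_le (Λ' := tr (0, k) (box N (j - 1))) ?_ _ _ ?_ ?_ _ ?_
      · intro i hi
        rw [mem_tr, mem_box] at hi
        simp only [Prod.fst_sub, Prod.snd_sub] at hi
        rw [mem_box]
        omega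
      · intro ω ξ h
        rw [mem_confs] at h
        have hrow : ∀ s : ℕ, s ≤ T → bd N k (M - k - s) ξ = bd N k (M - k - s) ω := by
          intro s hs
          have hs' : (s : ℤ) ≤ T := by exact_mod_cast hs
          refine bd_congr fun x _ _ => ?_
          constructor
          · apply h; rw [mem_tr, mem_box]; simp only [Prod.fst_sub, Prod.snd_sub]; omega
          · apply h; rw [mem_tr, mem_box]; simp only [Prod.fst_sub, Prod.snd_sub]; omega
        have hp : Pb N M k T ξ = Pb N M k T ω := by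
          unfold Pb
          exact Finset.prod_congr rfl fun s hs => hrow s (Finset.mem_range.1 hs).le
        rw [hp, hj, hrow T le_rfl]
      · intro ω
        exact mul_nonneg (Pb_nonneg _ _ _ _ _) (by have := bd_le_one N k j ω; linarith)
      · intro ω hω hne
        have hg : GoodRow N k j ω := by
          by_contra hc
          apply hne
          have : bd N k j ω = 1 := by unfold bd; rw [if_neg hc]
          rw [this]; ring
        have hloc : Loc (box N (j - 1)) Q := by
          intro ω ω' h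
          apply hQ
          intro i hi
          apply h
          rw [mem_box] at *
          omega
        rw [good_avg β hω hk (by omega) hg hloc]
        exact hδ _ (by omega) (by omega)
    rw [e2'] at h2
    rw [e1'] at h1
    linarith

/-- Conclusion of the section. -/
theorem rows_main (hβ : 0 ≤ β) (hk : 0 ≤ k) {m0 : ℤ} (hm0 : 1 ≤ m0) {Q : Cfg → ℝ}
    (hQ : Loc (box N m0) Q) (hQ0 : ∀ ω, 0 ≤ Q ω) (hQ4 : ∀ ω, Q ω ≤ 4) {δ : ℝ}
    (hδ : ∀ m, m0 ≤ m → m ≤ M → avg β (kap 1) (box N m) (eta 0) Q ≤ δ)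
    (T : ℕ) (hT : (T : ℤ) ≤ M - k - m0) :
    avg β (kap 1) (box N M) (eta k) (fun ω => Q (shift (0, -k) ω)) ≤
      δ + 4 * (1 - eps β (2 * (2 * N + 1).toNat)) ^ T := by
  have h1 := rows_induct hβ hk hm0 hQ hδ T hT
  have h2 := bad_bound (N := N) (M := M) hβ hk T (by omega)
  set Z := Zg β (kap 1) (box N M) (eta k) with hZ
  have h3 : Z (fun ω => Pb N M k T ω * Q (shift (0, -k) ω)) ≤ 4 * Z (Pb N M k T) := by
    rw [hZ, ← Zg_smul]
    refine Zg_mono fun ω _ => ?_
    have := hQ4 (shift (0, -k) ω)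
    have := Pb_nonneg N M k T ω
    nlinarith
  have h4 : 0 ≤ Z (Pb N M k T) := Zg_nonneg fun ω _ => Pb_nonneg _ _ _ _ _
  have h5 : 0 ≤ δ := by
    refine le_trans ?_ (hδ m0 le_rfl (by omega))
    exact avg_nonneg fun ω _ => hQ0 ω
  apply avg_le_of_Zg
  nlinarith [mul_nonneg h5 h4]

end

end Pool.Agent.Helper49.DL
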