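import Mathlib

/-!
The subadditive argument of `tension_gap` (block DL-ST2), in abstract form: `T w M` is the cost of a
strip of width `w` and height `M`.
-/

namespace Pool.Agent.Helper49.DL

theorem gap_abstract {β : ℝ} (T : ℤ → ℤ → ℝ) (hβ : 0 ≤ β) (h0 : ∀ w M, 0 ≤ T w M)
    (hsub : ∀ w1 w2 M : ℤ, 0 ≤ w1 → 0 ≤ w2 → 1 ≤ M → T (w1 + w2 + 1) M ≤ T w1 M + T w2 M + β)
    {ε : ℝ} (hε : 0 < ε) :
    ∃ m : ℤ, 1 ≤ m ∧ ∃ C : ℝ, ∀ N M : ℤ, 1 ≤ N → 1 ≤ M →
      T (2 * N - 1) m ≤ T (2 * N + 1) M + ε * (2 * N + 1) + C := by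
  set S : Set ℝ := {x | ∃ M n : ℤ, 1 ≤ M ∧ 1 ≤ n ∧ x = (T (n - 1) M + β) / n} with hS
  have hne : S.Nonempty := ⟨_, 1, 1, le_refl _, le_refl _, rfl⟩
  have hpos : ∀ x ∈ S, 0 ≤ x := by
    rintro x ⟨M, n, _, hn, rfl⟩
    have hn' : (0 : ℝ) < n := by exact_mod_cast (by linarith : (0 : ℤ) < n)
    have := h0 (n - 1) M
    positivity
  have hbdd : BddBelow S := ⟨0, fun x hx => hpos x hx⟩
  have hL0 : 0 ≤ sInf S := le_csInf hne hpos
  obtain ⟨x, ⟨m, n0, hm, hn0, rfl⟩, hx⟩ := exists_lt_of_csInf_lt hne (lt_add_of_pos_right (sInf S) hε)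
  have hn0' : (0 : ℝ) < n0 := by exact_mod_cast (by linarith : (0 : ℤ) < n0)
  have key : ∀ (q : ℕ) (r : ℤ), 0 ≤ r → T (q * n0 + r) m ≤ q * (T (n0 - 1) m + β) + T r m := by
    intro q
    induction q with
    | zero =>
      intro r _
      simp
    | succ q ih =>
      intro r hr
      have h1 := hsub (n0 - 1) (q * n0 + r) m (by linarith) (by positivity) hm
      have e : (n0 - 1) + ((q : ℤ) * n0 + r) + 1 = ((q + 1 : ℕ) : ℤ) * n0 + r := by
        push_cast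
        ring
      rw [e] at h1
      have h2 := ih r hr
      push_cast
      push_cast at h1
      linarith
  refine ⟨m, hm, (∑ r ∈ Finset.range n0.toNat, T r m) + β, ?_⟩
  intro N M hN hM
  have hNr : (1 : ℝ) ≤ N := by exact_mod_cast hN
  have hw : 0 ≤ 2 * N - 1 := by linarith
  have hr0 : 0 ≤ (2 * N - 1) % n0 := Int.emod_nonneg _ (by linarith)
  have hr1 : (2 * N - 1) % n0 < n0 := Int.emod_lt_of_pos _ (by linarith)
  have hq0 : 0 ≤ (2 * N - 1) / n0 := Int.ediv_nonneg hw (by linarith)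
  have h1 := key ((2 * N - 1) / n0).toNat ((2 * N - 1) % n0) hr0
  have e1 : ((((2 * N - 1) / n0).toNat : ℕ) : ℤ) = (2 * N - 1) / n0 := Int.toNat_of_nonneg hq0
  have e2 : ((((2 * N - 1) / n0).toNat : ℕ) : ℝ) = (((2 * N - 1) / n0 : ℤ) : ℝ) := by
    exact_mod_cast congrArg (fun z : ℤ => (z : ℝ)) e1
  rw [e1, e2] at h1
  have e3 : (2 * N - 1) / n0 * n0 + (2 * N - 1) % n0 = 2 * N - 1 := by
    rw [mul_comm]
    exact Int.mul_ediv_add_emod _ _
  rw [e3] at h1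
  -- the first term
  have hu0 : 0 ≤ T (n0 - 1) m + β := add_nonneg (h0 _ _) hβ
  have h2 : (((2 * N - 1) / n0 : ℤ) : ℝ) * (T (n0 - 1) m + β) ≤
      (2 * N - 1) * (sInf S + ε) := by
    have h3 : (((2 * N - 1) / n0 : ℤ) : ℝ) * n0 ≤ 2 * N - 1 := by
      have : (2 * N - 1) / n0 * n0 ≤ 2 * N - 1 := by linarith
      exact_mod_cast this
    have h4 : (((2 * N - 1) / n0 : ℤ) : ℝ) ≤ (2 * N - 1) / n0 := by
      rw [le_div_iff₀ hn0']
      exact h3
    calc (((2 * N - 1) / n0 : ℤ) : ℝ) * (T (n0 - 1) m + β)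
        ≤ ((2 * N - 1) / n0) * (T (n0 - 1) m + β) := mul_le_mul_of_nonneg_right h4 hu0
      _ = (2 * N - 1) * ((T (n0 - 1) m + β) / n0) := by ring
      _ ≤ (2 * N - 1) * (sInf S + ε) :=
        mul_le_mul_of_nonneg_left hx.le (by linarith)
  -- the second term
  have h5 : T ((2 * N - 1) % n0) m ≤ ∑ r ∈ Finset.range n0.toNat, T r m := by
    have e4 : ((((2 * N - 1) % n0).toNat : ℕ) : ℤ) = (2 * N - 1) % n0 := Int.toNat_of_nonneg hr0
    have h6 : ((2 * N - 1) % n0).toNat ∈ Finset.range n0.toNat := by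
      rw [Finset.mem_range]
      omega
    have h7 := Finset.single_le_sum (f := fun r : ℕ => T r m) (fun r _ => h0 r m) h6
    rw [e4] at h7
    exact h7
  -- the lower bound
  have h8 : sInf S * (2 * N + 2) ≤ T (2 * N + 1) M + β := by
    have h9 : sInf S ≤ (T (2 * N + 2 - 1) M + β) / ((2 * N + 2 : ℤ) : ℝ) :=
      csInf_le hbdd ⟨M, 2 * N + 2, hM, by linarith, rfl⟩
    have h10 : (0 : ℝ) < ((2 * N + 2 : ℤ) : ℝ) := by
      push_cast
      linarith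
    rw [le_div_iff₀ h10] at h9
    have e5 : 2 * N + 2 - 1 = 2 * N + 1 := by ring
    rw [e5] at h9
    push_cast at h9
    exact h9
  nlinarith
end Pool.Agent.Helper49.DL
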