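import Pool.Agent.Helper49.DL.Factor
import Pool.Agent.Helper49.DL.Sub
import Pool.Agent.Helper49.DL.Explore
import Pool.Agent.Helper49.DL.StripGap

/-!
Surface tension of strips (block DL-ST): `TS` of a box with the Dobrushin boundary condition is, for
couplings 1, nearly proportional to the width, uniformly in the height.

`rc a w M` has the `w` columns `a, …, a + w - 1` and the rows `-M + 1, …, M`.

* `strip_shift`: translation (`Zg_tr` with `a = (·, 0)`, `shift_eta`, `kap_shift`, `shift_tt`).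
* `strip_sub`: let `Λ = rc a (w1 + w2 + 1) M`, `Λ' = rc a w1 M ∪ rc (a + w1 + 1) w2 M` (column
  `a + w1` removed). Use `freeze` with `τ = eta 0`: horizontal bonds are never broken by `eta 0`, and
  the only vertical bond of `vb Λ \ vb Λ'` (column `a + w1`) broken by `eta 0` is the one with lower
  endpoint in row `0`, so `enD tt - enD (eta 0) ≤ 1`. Then `TS_union` (`Apart`: the two parts are
  separated by the column `a + w1`). (`w1 = 0` or `w2 = 0` are allowed; `rc _ 0 _ = ∅`.)
* `strip_height`: `freeze` with `τ = eta 0`, `Λ = rc a w M'`, `Λ' = rc a w M`: no bond of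
  `vb Λ \ vb Λ'` is broken by `eta 0` because `M ≥ 1`.
* `tension_gap`: for fixed `M`, `u M n = TS (rc 1 (n - 1) M) + β` for `n ≥ 1`, `u M 0 = 0`, is
  `Subadditive`; it is nonnegative (`TS_nonneg`), so `u M n / n` tends to `ℓ M = Subadditive.lim`, and
  `ℓ M * n ≤ u M n` (`Subadditive.lim_le_div`). `ℓ` is antitone in `M` (`strip_height`) and
  nonnegative; let `L` be its infimum over `M ≥ 1`. Choose `m` with `ℓ m ≤ L + ε / 4` and then `C`
  with `u m n ≤ n (L + ε / 2) + C` for all `n`. `box (N - 1) m` is a translate of `rc 1 (2 N - 1) m`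
  and `box N M` of `rc 1 (2 N + 1) M`, so `TS (box (N - 1) m) ≤ 2 N (L + ε / 2) + C` and
  `TS (box N M) ≥ (2 N + 2) L - β`.
-/

open Finset
open scoped Classical

namespace Pool.Agent.Helper49.DL

/-- The `w` columns starting at column `a`, rows `-M + 1, …, M`. -/
noncomputable def rc (a w M : ℤ) : Finset Site :=
  Finset.Icc a (a + w - 1) ×ˢ Finset.Icc (-M + 1) M

lemma mem_rc {a w M : ℤ} {i : Site} :
    i ∈ rc a w M ↔ (a ≤ i.1 ∧ i.1 ≤ a + w - 1) ∧ (-M + 1 ≤ i.2 ∧ i.2 ≤ M) := by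
  simp [rc, Finset.mem_product]

/-- The energy difference counts the frozen vertical bonds across the line. -/
lemma enD_diff (Λ Λ' : Finset Site) :
    enD (kap 1) Λ Λ' tt - enD (kap 1) Λ Λ' (eta 0) =
      (((vb Λ \ vb Λ').filter (fun i => i.2 = 0)).card : ℝ) := by
  unfold enD
  have h1 : ∑ i ∈ hb Λ \ hb Λ', agr (eta 0 i) (eta 0 (i + e1)) =
      ∑ i ∈ hb Λ \ hb Λ', agr (tt i) (tt (i + e1)) := by
    refine Finset.sum_congr rfl fun i _ => ?_
    have : eta 0 (i + e1) = eta 0 i := by simp [eta, e1]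
    rw [this]
    simp [agr, tt]
  have h2 : ∑ i ∈ vb Λ \ vb Λ', kap 1 i * agr (tt i) (tt (i + e2)) -
      ∑ i ∈ vb Λ \ vb Λ', kap 1 i * agr (eta 0 i) (eta 0 (i + e2)) =
      ∑ i ∈ vb Λ \ vb Λ', (if i.2 = 0 then (1 : ℝ) else 0) := by
    rw [← Finset.sum_sub_distrib]
    refine Finset.sum_congr rfl fun i _ => ?_
    have hk : kap 1 i = 1 := by unfold kap; split_ifs <;> rfl
    have ht : agr (tt i) (tt (i + e2)) = 1 := by simp [agr, tt]
    rw [hk, ht]
    by_cases h0 : i.2 = 0
    · have e : agr (eta 0 i) (eta 0 (i + e2)) = 0 := by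
        have h3 : eta 0 i = false := by
          simp [eta, h0]
        have h4 : eta 0 (i + e2) = true := by
          simp [eta, e2, h0]
        rw [h3, h4]
        simp [agr]
      rw [e, if_pos h0]
      ring
    · have e : agr (eta 0 i) (eta 0 (i + e2)) = 1 := by
        have h3 : eta 0 (i + e2) = eta 0 i := by
          unfold eta e2
          simp only [Prod.snd_add]
          rw [decide_eq_decide]
          omega
        rw [h3]
        simp [agr]
      rw [e, if_neg h0]
      ring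
  rw [h1]
  rw [Finset.sum_ite, Finset.sum_const_zero, add_zero, Finset.sum_const, nsmul_eq_mul, mul_one] at h2
  rw [← h2]
  ring

theorem strip_shift (β : ℝ) (a w M : ℤ) :
    TS β (kap 1) (rc a w M) (eta 0) = TS β (kap 1) (rc 1 w M) (eta 0) := by
  have h : rc a w M = tr (a - 1, 0) (rc 1 w M) := by
    ext i
    rw [mem_tr, mem_rc, mem_rc]
    simp only [Prod.fst_sub, Prod.snd_sub]
    omega
  have h1 := Zg_tr (β := β) (κ := kap 1) (Λ := rc 1 w M) (η := tt) (a - 1, 0) (fun _ => 1)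
  have h2 := Zg_tr (β := β) (κ := kap 1) (Λ := rc 1 w M) (η := eta 0) (a - 1, 0) (fun _ => 1)
  rw [shift_tt, kap_shift] at h1
  rw [shift_eta, kap_shift] at h2
  unfold TS
  rw [h, h1, h2]

theorem strip_sub {β : ℝ} (hβ : 0 ≤ β) (a : ℤ) {w1 w2 M : ℤ} (hw1 : 0 ≤ w1) (hw2 : 0 ≤ w2)
    (hM : 1 ≤ M) :
    TS β (kap 1) (rc a (w1 + w2 + 1) M) (eta 0) ≤
      TS β (kap 1) (rc a w1 M) (eta 0) + TS β (kap 1) (rc (a + w1 + 1) w2 M) (eta 0) + β := by
  have hap : Apart (rc a w1 M) (rc (a + w1 + 1) w2 M) := by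
    constructor
    · rw [Finset.disjoint_left]
      intro i h1 h2
      rw [mem_hb, mem_rc, mem_rc] at h1 h2
      simp only [e1, Prod.fst_add, Prod.snd_add] at h1 h2
      omega
    · rw [Finset.disjoint_left]
      intro i h1 h2
      rw [mem_vb, mem_rc, mem_rc] at h1 h2
      simp only [e2, Prod.fst_add, Prod.snd_add] at h1 h2
      omega
  have hsub : rc a w1 M ∪ rc (a + w1 + 1) w2 M ⊆ rc a (w1 + w2 + 1) M := by
    intro i hi
    rw [Finset.mem_union, mem_rc, mem_rc] at hi
    rw [mem_rc]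
    omega
  have hmem : eta 0 ∈ confs (rc a (w1 + w2 + 1) M) (eta 0) := by
    rw [mem_confs]
    intro i _
    rfl
  have h1 := freeze hβ (kap_nonneg zero_le_one) hsub hmem
  rw [TS_union β (kap 1) hap, enD_diff] at h1
  have h2 : (((vb (rc a (w1 + w2 + 1) M) \ vb (rc a w1 M ∪ rc (a + w1 + 1) w2 M)).filter
      (fun i => i.2 = 0)).card : ℝ) ≤ 1 := by
    have h3 : ((vb (rc a (w1 + w2 + 1) M) \ vb (rc a w1 M ∪ rc (a + w1 + 1) w2 M)).filter
        (fun i => i.2 = 0)) ⊆ {((a + w1, 0) : Site)} := by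
      intro i hi
      rw [Finset.mem_filter, Finset.mem_sdiff, mem_vb, mem_vb, Finset.mem_union, Finset.mem_union,
        mem_rc, mem_rc, mem_rc, mem_rc, mem_rc, mem_rc] at hi
      simp only [e2, Prod.fst_add, Prod.snd_add] at hi
      rw [Finset.mem_singleton]
      refine Prod.ext ?_ hi.2
      show i.1 = a + w1
      omega
    have h4 := Finset.card_le_card h3
    rw [Finset.card_singleton] at h4
    exact_mod_cast h4
  nlinarith [mul_le_mul_of_nonneg_left h2 hβ]

theorem strip_height {β : ℝ} (hβ : 0 ≤ β) (a w : ℤ) {M M' : ℤ} (hM : 1 ≤ M) (hMM : M ≤ M') :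
    TS β (kap 1) (rc a w M') (eta 0) ≤ TS β (kap 1) (rc a w M) (eta 0) := by
  have hsub : rc a w M ⊆ rc a w M' := by
    intro i hi
    rw [mem_rc] at hi ⊢
    omega
  have hmem : eta 0 ∈ confs (rc a w M') (eta 0) := by
    rw [mem_confs]
    intro i _
    rfl
  have h1 := freeze hβ (kap_nonneg zero_le_one) hsub hmem
  rw [enD_diff] at h1
  have h2 : ((vb (rc a w M') \ vb (rc a w M)).filter (fun i => i.2 = 0)) = ∅ := by
    rw [Finset.filter_eq_empty_iff]
    intro i hi h0
    rw [Finset.mem_sdiff, mem_vb, mem_vb, mem_rc, mem_rc, mem_rc, mem_rc] at hi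
    simp only [e2, Prod.fst_add, Prod.snd_add] at hi
    omega
  rw [h2] at h1
  simp only [Finset.card_empty, Nat.cast_zero, mul_zero, add_zero] at h1
  exact h1

theorem tension_gap {β : ℝ} (hβ : 0 ≤ β) {ε : ℝ} (hε : 0 < ε) :
    ∃ m : ℤ, 1 ≤ m ∧ ∃ C : ℝ, ∀ N M : ℤ, 1 ≤ N → 1 ≤ M →
      TS β (kap 1) (box (N - 1) m) (eta 0) ≤
        TS β (kap 1) (box N M) (eta 0) + ε * (2 * N + 1) + C := by
  obtain ⟨m, hm, C, h⟩ := gap_abstract (β := β) (fun w M => TS β (kap 1) (rc 1 w M) (eta 0)) hβ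
    (fun w M => TS_nonneg hβ (kap_nonneg zero_le_one) _ _)
    (fun w1 w2 M h1 h2 hM => by
      have h3 := strip_sub hβ 1 h1 h2 hM
      rw [strip_shift β (1 + w1 + 1) w2 M] at h3
      exact h3) hε
  refine ⟨m, hm, C, fun N M hN hM => ?_⟩
  have h1 := h N M hN hM
  have e1 : box (N - 1) m = rc (-(N - 1)) (2 * N - 1) m := by
    ext i
    rw [mem_box, mem_rc]
    omega
  have e2 : box N M = rc (-N) (2 * N + 1) M := by
    ext i
    rw [mem_box, mem_rc]
    omega
  rw [e1, e2, strip_shift β (-(N - 1)), strip_shift β (-N)]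
  exact h1

end Pool.Agent.Helper49.DL
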