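import Pool.Agent.Helper49.DL.Rows2

/-!
Variance bound for the row average of the antisymmetric field in a symmetric box.
-/

open Finset

namespace Pool.Agent.Helper49.DL

/-- Mean of the field at the centre column (homogeneous model). -/
noncomputable def fc (β : ℝ) (N M : ℤ) : ℝ := avg β (kap 1) (box N M) (eta 0) (yv (0, 1))

/-- Its infimum over all boxes. -/
noncomputable def fi (β : ℝ) : ℝ := ⨅ p : ℕ × ℕ, fc β (p.1 : ℤ) ((p.2 : ℤ) + 1)

lemma yv_abs (i : Site) (ω : Cfg) : |yv i ω| ≤ 1 := by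
  unfold yv; cases ω i <;> cases ω (bar i) <;> simp <;> norm_num

lemma yv_le (i : Site) (ω : Cfg) : yv i ω ≤ 1 := (abs_le.1 (yv_abs i ω)).2

lemma yv_ge (i : Site) (ω : Cfg) : -1 ≤ yv i ω := (abs_le.1 (yv_abs i ω)).1

section

variable {β : ℝ}

lemma fc_nonneg (hβ : 0 ≤ β) {N M : ℤ} (hN : 0 ≤ N) (hM : 1 ≤ M) : 0 ≤ fc β N M :=
  avg_y_nonneg hM hβ (by rw [mem_ubox]; simp only; omega)

lemma fc_le_one {N M : ℤ} : fc β N M ≤ 1 := by
  unfold fc
  refine (avg_mono fun ω _ => yv_le (0, 1) ω).trans ?_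
  rw [avg_const]

lemma fc_bdd (hβ : 0 ≤ β) : BddBelow (Set.range fun p : ℕ × ℕ => fc β (p.1 : ℤ) ((p.2 : ℤ) + 1)) := by
  refine ⟨0, ?_⟩
  rintro _ ⟨p, rfl⟩
  exact fc_nonneg hβ (by positivity) (by omega)

lemma fi_nonneg (hβ : 0 ≤ β) : 0 ≤ fi β :=
  le_ciInf fun p => fc_nonneg hβ (by positivity) (by omega)

lemma fi_le (hβ : 0 ≤ β) {N M : ℤ} (hN : 0 ≤ N) (hM : 1 ≤ M) : fi β ≤ fc β N M := by
  have h := ciInf_le (fc_bdd hβ) (N.toNat, (M - 1).toNat)
  simp only [Int.toNat_of_nonneg hN, Int.toNat_of_nonneg (sub_nonneg.2 hM), sub_add_cancel] at h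
  exact h

lemma fi_le_one (hβ : 0 ≤ β) : fi β ≤ 1 := (fi_le hβ le_rfl le_rfl).trans (fc_le_one (N := 0))

lemma fi_approx {ε : ℝ} (hε : 0 < ε) : ∃ N M : ℤ, 0 ≤ N ∧ 1 ≤ M ∧ fc β N M < fi β + ε := by
  have h := exists_lt_of_ciInf_lt (f := fun p : ℕ × ℕ => fc β (p.1 : ℤ) ((p.2 : ℤ) + 1))
    (show (⨅ p : ℕ × ℕ, fc β (p.1 : ℤ) ((p.2 : ℤ) + 1)) < fi β + ε by
      change fi β < fi β + ε; linarith)
  obtain ⟨p, hp⟩ := h
  exact ⟨p.1, p.2 + 1, by positivity, by omega, hp⟩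

lemma yv_shift (a : ℤ) (x y : ℤ) (ω : Cfg) : yv (x, y) (shift (a, 0) ω) = yv (x - a, y) ω := by
  simp [yv, shift, bar]

/-- Upper bound at every column. -/
lemma col_le (hβ : 0 ≤ β) {N M l m x : ℤ} (hM : 1 ≤ M) (hx : -N ≤ x - l) (hx' : x + l ≤ N)
    (hl : 0 ≤ l) (hm : 1 ≤ m) (hmM : m ≤ M) :
    avg β (kap 1) (box N M) (eta 0) (yv (x, 1)) ≤ fc β l m := by
  have hs : sbox x l m ⊆ box N M := by
    intro i hi; rw [mem_sbox] at hi; rw [mem_box]; omega
  have h := dom_mono hM hβ (le_refl 1) hs (i := (x, 1)) (by rw [mem_ubox]; simp only; omega)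
  rw [avg_sbox] at h
  simp only [yv_shift, sub_self] at h
  exact h

/-- Lower bound at every column. -/
lemma fi_le_col (hβ : 0 ≤ β) {N M x : ℤ} (hM : 1 ≤ M) (hx : -N ≤ x) (hx' : x ≤ N) :
    fi β ≤ avg β (kap 1) (box N M) (eta 0) (yv (x, 1)) := by
  have hs : sbox (-x) N M ⊆ box (2 * N) M := by
    intro i hi; rw [mem_sbox] at hi; rw [mem_box]; omega
  have h := dom_mono hM hβ (le_refl 1) hs (i := (0, 1)) (by rw [mem_ubox]; simp only; omega)
  rw [avg_sbox] at h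
  simp only [yv_shift, sub_neg_eq_add, zero_add] at h
  exact (fi_le hβ (by omega) hM).trans h

/-- Row average of the field. -/
noncomputable def AL (L : ℤ) (ω : Cfg) : ℝ :=
  (2 * (L : ℝ) + 1)⁻¹ * ∑ x ∈ Finset.Icc (-L) L, yv (x, 1) ω

lemma card_row {L : ℤ} (hL : 0 ≤ L) : ((Finset.Icc (-L) L).card : ℝ) = 2 * (L : ℝ) + 1 := by
  rw [Int.card_Icc]
  have h : ((L + 1 - -L).toNat : ℤ) = 2 * L + 1 := by
    rw [Int.toNat_of_nonneg (by omega)]; ring
  exact_mod_cast h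

lemma AL_abs {L : ℤ} (hL : 0 ≤ L) (ω : Cfg) : |AL L ω| ≤ 1 := by
  have hc : (0 : ℝ) < 2 * (L : ℝ) + 1 := by
    have : (0 : ℝ) ≤ L := by exact_mod_cast hL
    linarith
  unfold AL
  rw [abs_mul, abs_of_pos (inv_pos.2 hc), inv_mul_le_iff₀ hc, mul_one]
  refine (Finset.abs_sum_le_sum_abs _ _).trans ?_
  refine (Finset.sum_le_sum fun x _ => yv_abs (x, 1) ω).trans ?_
  rw [Finset.sum_const, nsmul_eq_mul, mul_one, card_row hL]

lemma sum_near {L l : ℤ} (hl : 0 ≤ l) (x' : ℤ) :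
    ∑ x ∈ Finset.Icc (-L) L, (if |x - x'| ≤ l then (1 : ℝ) else 0) ≤ 2 * (l : ℝ) + 1 := by
  rw [Finset.sum_ite, Finset.sum_const_zero, add_zero, Finset.sum_const, nsmul_eq_mul, mul_one]
  have hsub : (Finset.Icc (-L) L).filter (fun x => |x - x'| ≤ l) ⊆ Finset.Icc (x' - l) (x' + l) := by
    intro x hx
    rw [Finset.mem_filter] at hx
    have := abs_le.1 hx.2
    rw [Finset.mem_Icc]; omega
  have h := Finset.card_le_card hsub
  rw [Int.card_Icc] at h
  have h2 : ((x' + l + 1 - (x' - l)).toNat : ℤ) = 2 * l + 1 := by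
    rw [Int.toNat_of_nonneg (by omega)]; ring
  have h3 : (((Finset.Icc (-L) L).filter (fun x => |x - x'| ≤ l)).card : ℤ) ≤ 2 * l + 1 := by
    rw [← h2]; exact_mod_cast h
  exact_mod_cast h3

/-- Variance bound. -/
theorem var_bound (hβ : 0 ≤ β) {L l m M : ℤ} (hL : 0 ≤ L) (hl : 0 ≤ l) (hm : 1 ≤ m) (hmM : m ≤ M) :
    avg β (kap 1) (box (L + l) M) (eta 0) (fun ω => (AL L ω - fi β) ^ 2) ≤
      (2 * (l : ℝ) + 1) / (2 * (L : ℝ) + 1) + 3 * (fc β l m - fi β) := by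
  have hM : 1 ≤ M := hm.trans hmM
  have hc : (0 : ℝ) < 2 * (L : ℝ) + 1 := by
    have : (0 : ℝ) ≤ L := by exact_mod_cast hL
    linarith
  set c : ℝ := 2 * (L : ℝ) + 1 with hcdef
  set E := avg β (kap 1) (box (L + l) M) (eta 0) with hE
  set S := Finset.Icc (-L) L with hS
  set φ := fc β l m with hφ
  have hmem : ∀ x ∈ S, -L ≤ x ∧ x ≤ L := fun x hx => by rwa [hS, Finset.mem_Icc] at hx
  have hup : ∀ x ∈ S, E (yv (x, 1)) ≤ φ := fun x hx => by
    have := hmem x hx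
    exact col_le hβ hM (by omega) (by omega) hl hm hmM
  have hlo : ∀ x ∈ S, fi β ≤ E (yv (x, 1)) := fun x hx => by
    have := hmem x hx
    exact fi_le_col hβ hM (by omega) (by omega)
  have hfi := fi_nonneg hβ
  have hφ1 : φ ≤ 1 := fc_le_one
  have hpair : ∀ x ∈ S, ∀ x' ∈ S, E (fun ω => yv (x, 1) ω * yv (x', 1) ω) ≤
      (if |x - x'| ≤ l then (1 : ℝ) else 0) + E (yv (x, 1)) * E (yv (x', 1)) + 2 * (φ - fi β) := by
    intro x hx x' hx'
    have h1 := hup x' hx'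
    have h2 := hlo x' hx'
    have h3 := hlo x hx
    by_cases hn : |x - x'| ≤ l
    · rw [if_pos hn]
      have h4 : E (fun ω => yv (x, 1) ω * yv (x', 1) ω) ≤ 1 := by
        refine (avg_mono (G := fun _ => 1) fun ω _ => ?_).trans (le_of_eq (avg_const 1))
        have a1 := yv_abs (x, 1) ω
        have a2 := yv_abs (x', 1) ω
        calc yv (x, 1) ω * yv (x', 1) ω ≤ |yv (x, 1) ω * yv (x', 1) ω| := le_abs_self _
          _ = |yv (x, 1) ω| * |yv (x', 1) ω| := abs_mul _ _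
          _ ≤ 1 * 1 := mul_le_mul a1 a2 (abs_nonneg _) zero_le_one
          _ = 1 := one_mul 1
      have h5 : 0 ≤ E (yv (x, 1)) * E (yv (x', 1)) := mul_nonneg (by linarith) (by linarith)
      linarith
    · rw [if_neg hn, zero_add]
      have b1 := hmem x hx
      have b2 := hmem x' hx'
      have hs : sbox x' l m ⊆ box (L + l) M := by
        intro i hi; rw [mem_sbox] at hi; rw [mem_box]; omega
      have hns : ((x, 1) : Site) ∉ sbox x' l m := by
        rw [mem_sbox]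
        intro hcon
        apply hn
        rw [abs_le]
        simp only at hcon
        omega
      have h := cov_bound hM (J := 1) hβ hs (u := (x, 1)) (v := (x', 1))
        (by rw [mem_ubox]; simp only; omega) (by rw [mem_ubox]; simp only; omega) hns
      rw [avg_sbox] at h
      simp only [yv_shift, sub_self] at h
      change E (fun ω => yv (x, 1) ω * yv (x', 1) ω) ≤ E (yv (x, 1)) * E (yv (x', 1)) +
        2 * (φ - E (yv (x', 1))) at h
      linarith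
  -- expectation of the square
  have hsq : E (fun ω => AL L ω ^ 2) = c⁻¹ ^ 2 * ∑ x ∈ S, ∑ x' ∈ S,
      E (fun ω => yv (x, 1) ω * yv (x', 1) ω) := by
    have : (fun ω => AL L ω ^ 2) = fun ω => c⁻¹ ^ 2 * ∑ x ∈ S, ∑ x' ∈ S, yv (x, 1) ω * yv (x', 1) ω := by
      funext ω
      unfold AL
      rw [mul_pow, sq (∑ x ∈ S, yv (x, 1) ω), Finset.sum_mul_sum]
    rw [this, hE, avg_smul, avg_sum]
    congr 1
    exact Finset.sum_congr rfl fun x _ => by rw [avg_sum]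
  have hmean : E (AL L) = c⁻¹ * ∑ x ∈ S, E (yv (x, 1)) := by
    have : AL L = fun ω => c⁻¹ * ∑ x ∈ S, yv (x, 1) ω := by funext ω; rfl
    rw [this, hE, avg_smul, avg_sum]
  set a := E (AL L) with ha
  have hcard : (S.card : ℝ) = c := card_row hL
  have hsum : ∑ x ∈ S, ∑ x' ∈ S, E (fun ω => yv (x, 1) ω * yv (x', 1) ω) ≤
      c * (2 * (l : ℝ) + 1) + (∑ x ∈ S, E (yv (x, 1))) ^ 2 + 2 * (φ - fi β) * c ^ 2 := by
    calc ∑ x ∈ S, ∑ x' ∈ S, E (fun ω => yv (x, 1) ω * yv (x', 1) ω) ≤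
        ∑ x ∈ S, ∑ x' ∈ S, ((if |x - x'| ≤ l then (1 : ℝ) else 0) +
          E (yv (x, 1)) * E (yv (x', 1)) + 2 * (φ - fi β)) :=
          Finset.sum_le_sum fun x hx => Finset.sum_le_sum fun x' hx' => hpair x hx x' hx'
      _ = ∑ x ∈ S, ∑ x' ∈ S, (if |x - x'| ≤ l then (1 : ℝ) else 0) +
          (∑ x ∈ S, E (yv (x, 1))) ^ 2 + 2 * (φ - fi β) * c ^ 2 := by
          simp only [Finset.sum_add_distrib, Finset.sum_const, nsmul_eq_mul, hcard]
          rw [sq (∑ x ∈ S, E (yv (x, 1))), Finset.sum_mul_sum]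
          ring
      _ ≤ _ := by
          have h1 : ∑ x ∈ S, ∑ x' ∈ S, (if |x - x'| ≤ l then (1 : ℝ) else 0) ≤
              c * (2 * (l : ℝ) + 1) := by
            rw [Finset.sum_comm]
            refine (Finset.sum_le_sum fun x' _ => sum_near (L := L) hl x').trans ?_
            rw [Finset.sum_const, nsmul_eq_mul, hcard]
          linarith
  have ha2 : E (fun ω => AL L ω ^ 2) ≤ (2 * (l : ℝ) + 1) / c + a ^ 2 + 2 * (φ - fi β) := by
    rw [hsq]
    refine (mul_le_mul_of_nonneg_left hsum (by positivity)).trans (le_of_eq ?_)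
    rw [hmean]
    field_simp
  have halo : fi β ≤ a := by
    rw [hmean, inv_mul_eq_div, le_div_iff₀ hc]
    calc fi β * c = ∑ _x ∈ S, fi β := by rw [Finset.sum_const, nsmul_eq_mul, hcard]; ring
      _ ≤ _ := Finset.sum_le_sum hlo
  have haup : a ≤ φ := by
    rw [hmean, inv_mul_eq_div, div_le_iff₀ hc]
    calc ∑ x ∈ S, E (yv (x, 1)) ≤ ∑ _x ∈ S, φ := Finset.sum_le_sum hup
      _ = φ * c := by rw [Finset.sum_const, nsmul_eq_mul, hcard]; ring
  have hexp : E (fun ω => (AL L ω - fi β) ^ 2) =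
      E (fun ω => AL L ω ^ 2) - 2 * fi β * a + fi β ^ 2 := by
    have : (fun ω => (AL L ω - fi β) ^ 2) =
        fun ω => (AL L ω ^ 2 + (-(2 * fi β)) * AL L ω) + fi β ^ 2 := by
      funext ω; ring
    rw [this, hE, avg_add, avg_add, avg_smul, avg_const, ha, hE]
    ring
  rw [hexp]
  have h9 : (a - fi β) ^ 2 ≤ φ - fi β := by
    have h91 : 0 ≤ a - fi β := by linarith
    have h92 : a - fi β ≤ 1 := by linarith
    nlinarith
  nlinarith [ha2, h9]

end

end Pool.Agent.Helper49.DL
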