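import Pool.Agent.Helper49.DL.Explore

/-!
Block DL2-WI1: contours joining a window to a large distance.

Paper proofs.
`reach_of_interface`: follow the chain of touching broken bonds from `b` to the bond
`((N + 1, 0), false)`, which is not in the window `L`, up to the first bond outside the window `L`;
touching bonds have first endpoints at distance at most `1` in both coordinates, so this part of the
chain stays in the window `L + 1`.
`reach_loc`: `Broken ω a` for `Wn (L + 1) a` depends only on spins with coordinates of absolute value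
at most `L + 2`. `reach_not`: flipping all spins does not change `Broken`.
-/

open Finset
open scoped Classical

namespace Pool.Agent.Helper49.DL

/-- Bonds with first endpoint in the square of half-width `K` centred at the origin. -/
def Wn (K : ℤ) (b : Bond) : Prop := |b.1.1| ≤ K ∧ |b.1.2| ≤ K

/-- A contour joins the window `K` to the outside of the window `L`. -/
def Reach (K L : ℤ) (ω : Cfg) : Prop :=
  ∃ b b' : Bond, Wn K b ∧ ¬ Wn L b' ∧
    Relation.ReflTransGen (fun a c => Broken ω a ∧ Broken ω c ∧ Touch a c ∧ Wn (L + 1) a ∧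
      Wn (L + 1) c) b b'

lemma side_near {p : Site} {a : Bond} (h : Side p a) :
    (p.1 ≤ a.1.1 ∧ a.1.1 ≤ p.1 + 1) ∧ (p.2 ≤ a.1.2 ∧ a.1.2 ≤ p.2 + 1) := by
  rcases h with h | h | h | h <;> subst h <;> simp [e1, e2]

lemma wn_touch {L : ℤ} {a c : Bond} (h : Touch a c) (ha : Wn L a) : Wn (L + 1) c := by
  obtain ⟨p, hp, hq⟩ := h
  have h1 := side_near hp
  have h2 := side_near hq
  unfold Wn at ha ⊢
  rw [abs_le, abs_le] at ha ⊢
  omega

lemma wn_mono {K L : ℤ} (h : K ≤ L) {a : Bond} (ha : Wn K a) : Wn L a :=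
  ⟨ha.1.trans h, ha.2.trans h⟩

theorem reach_of_interface {N K L : ℤ} {ω : Cfg} (hKL : K ≤ L) (hLN : L ≤ N) {b : Bond}
    (hb : Wn K b) (h : Interface N ω b) : Reach K L ω := by
  have key : ∀ c : Bond, SameContour ω b c →
      (∃ b' : Bond, ¬ Wn L b' ∧
        Relation.ReflTransGen (fun a c => Broken ω a ∧ Broken ω c ∧ Touch a c ∧ Wn (L + 1) a ∧
          Wn (L + 1) c) b b') ∨
      (Wn L c ∧ Relation.ReflTransGen (fun a c => Broken ω a ∧ Broken ω c ∧ Touch a c ∧
        Wn (L + 1) a ∧ Wn (L + 1) c) b c) := by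
    intro c hc
    induction hc with
    | refl => exact Or.inr ⟨wn_mono hKL hb, Relation.ReflTransGen.refl⟩
    | @tail c d _ hcd ih =>
      rcases ih with ih | ⟨h1, h2⟩
      · exact Or.inl ih
      · have h3 : Wn (L + 1) d := wn_touch hcd.2.2 h1
        have h4 := h2.tail (c := d) ⟨hcd.1, hcd.2.1, hcd.2.2, wn_mono (by omega) h1, h3⟩
        by_cases h5 : Wn L d
        · exact Or.inr ⟨h5, h4⟩
        · exact Or.inl ⟨d, h5, h4⟩
  rcases key _ h.2 with ⟨b', h1, h2⟩ | ⟨h1, _⟩
  · exact ⟨b, b', hb, h1, h2⟩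
  · exfalso
    have h3 := h1.1
    rw [abs_le] at h3
    simp only at h3
    omega

theorem reach_loc (K L : ℤ) :
    Loc (box (L + 2) (L + 3)) (fun ω => if Reach K L ω then 1 else 0) := by
  intro ω ω' h
  have hB : ∀ a : Bond, Wn (L + 1) a → (Broken ω a ↔ Broken ω' a) := by
    intro a ha
    unfold Wn at ha
    rw [abs_le, abs_le] at ha
    unfold Broken
    rw [h a.1 (by rw [mem_box]; omega), h (bend a) (by
      rw [mem_box]
      unfold bend
      split_ifs
      · simp only [e1, Prod.fst_add, Prod.snd_add]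
        omega
      · simp only [e2, Prod.fst_add, Prod.snd_add]
        omega)]
  have hR : (fun a c : Bond => Broken ω a ∧ Broken ω c ∧ Touch a c ∧ Wn (L + 1) a ∧
      Wn (L + 1) c) = fun a c : Bond => Broken ω' a ∧ Broken ω' c ∧ Touch a c ∧ Wn (L + 1) a ∧
      Wn (L + 1) c := by
    funext a c
    apply propext
    constructor
    · rintro ⟨h1, h2, h3, h4, h5⟩
      exact ⟨(hB a h4).1 h1, (hB c h5).1 h2, h3, h4, h5⟩
    · rintro ⟨h1, h2, h3, h4, h5⟩
      exact ⟨(hB a h4).2 h1, (hB c h5).2 h2, h3, h4, h5⟩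
  have hE : Reach K L ω ↔ Reach K L ω' := by
    unfold Reach
    rw [hR]
  simp only [hE]

theorem reach_not (K L : ℤ) (ω : Cfg) : Reach K L (fun i => !(ω i)) ↔ Reach K L ω := by
  have hB : ∀ a : Bond, Broken (fun i => !(ω i)) a ↔ Broken ω a := by
    intro a
    have hb : ∀ u v : Bool, (!u) ≠ (!v) ↔ u ≠ v := by decide
    exact hb _ _
  unfold Reach
  simp only [hB]

end Pool.Agent.Helper49.DL
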