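import Pool.Agent.Helper49.DL.Win
import Pool.Agent.Helper49.DL.Paths
import Pool.Agent.Helper49.DL.Conn

/-!
Block DL2-WI2: contours joining a window to a large distance are unlikely in the pure phase.

Paper proof of `reach_prob`: if `Reach K L ω`, `ω ∈ confs (box N M) tt`, via `b`, `b'` (both broken: if the chain is
trivial `b = b'` is impossible since `K ≤ L`), both meet the box; the plaquettes `p = b.1` and
`p' = b'.1` are adjacent to `b`, `b'`, and along the chain consecutive bonds have a common plaquette,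
so `Cn dA (bk ω) p p'`. Hence, by `avg_bk` and `conn_le` (`x = xe ≤ 1`, `gbd dA F = odp F`,
`(dA e).card = 2`), `P (Reach) ≤ ∑_{p, p'} D2 p p'` over `|p| ≤ K`, `|p'| = L + 1` (sup norm), at most
`(2 K + 1)² (2 L + 3)²` pairs with distance at least `L + 1 - K`; use `two_decay`.
-/

open Finset
open scoped Classical

namespace Pool.Agent.Helper49.DL

namespace WI2

section

variable {Λ : Finset Site}

lemma dp_mem_PL (e : LB Λ) : dp e ∈ PL Λ := by
  unfold PL
  exact Finset.mem_union_left _ (Finset.mem_image_of_mem _ (Finset.mem_univ _))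

lemma dq_mem_PL (e : LB Λ) : dq e ∈ PL Λ := by
  unfold PL
  exact Finset.mem_union_right _ (Finset.mem_image_of_mem _ (Finset.mem_univ _))

lemma dp_ne_dq (e : LB Λ) : dp e ≠ dq e := by
  cases e with
  | inl i =>
    intro h
    have h2 := congrArg Prod.snd h
    simp only [dp, dq, e2, Prod.snd_sub] at h2
    omega
  | inr i =>
    intro h
    have h2 := congrArg Prod.fst h
    simp only [dp, dq, e1, Prod.fst_sub] at h2
    omega

lemma dA_pair (e : LB Λ) : dA e = {⟨dp e, dp_mem_PL e⟩, ⟨dq e, dq_mem_PL e⟩} := by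
  ext p
  unfold dA
  simp only [Finset.mem_filter, Finset.mem_univ, true_and, Finset.mem_insert,
    Finset.mem_singleton, Subtype.ext_iff]

lemma dA_card (e : LB Λ) : (dA e).card = 2 := by
  rw [dA_pair, Finset.card_pair]
  intro h
  exact dp_ne_dq e (congrArg Subtype.val h)

lemma gbd_dA (F : Finset (LB Λ)) : gbd (dA (Λ := Λ)) F = odp F := rfl

/-- The bond of the box given by a broken bond. -/
lemma exists_lb {ω : Cfg} (hω : ω ∈ confs Λ tt) {c : Bond} (hc : Broken ω c) :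
    ∃ e : LB Λ, e ∈ bk Λ ω ∧ dp e = c.1 ∧ dq e = c.1 - (if c.2 then e2 else e1) := by
  rw [mem_confs] at hω
  unfold Broken at hc
  obtain ⟨i, d⟩ := c
  simp only at hc ⊢
  cases d with
  | true =>
    have h2 : bend (i, true) = i + e1 := by simp [bend]
    rw [h2] at hc
    have hi : i ∈ hb Λ := by
      rw [mem_hb]
      by_contra h
      push Not at h
      rw [hω _ h.1, hω _ h.2] at hc
      exact hc rfl
    refine ⟨Sum.inl ⟨i, hi⟩, ?_, rfl, ?_⟩
    · unfold bk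
      rw [Finset.mem_filter]
      exact ⟨Finset.mem_univ _, hc⟩
    · simp [dq]
  | false =>
    have h2 : bend (i, false) = i + e2 := by simp [bend]
    rw [h2] at hc
    have hi : i ∈ vb Λ := by
      rw [mem_vb]
      by_contra h
      push Not at h
      rw [hω _ h.1, hω _ h.2] at hc
      exact hc rfl
    refine ⟨Sum.inr ⟨i, hi⟩, ?_, rfl, ?_⟩
    · unfold bk
      rw [Finset.mem_filter]
      exact ⟨Finset.mem_univ _, hc⟩
    · simp [dq]

lemma side_cases {q : Site} {c : Bond} (h : Side q c) :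
    q = c.1 ∨ q = c.1 - (if c.2 then e2 else e1) := by
  rcases h with h | h | h | h <;> subst h <;> simp

/-- From a broken bond to a plaquette of which it is a side. -/
lemma cn_side {ω : Cfg} (hω : ω ∈ confs Λ tt) {c : Bond} (hc : Broken ω c) {q : Site}
    (hq : Side q c) : ∃ (h1 : c.1 ∈ PL Λ) (h2 : q ∈ PL Λ),
      Cn dA (bk Λ ω) ⟨c.1, h1⟩ ⟨q, h2⟩ ∧ Cn dA (bk Λ ω) ⟨q, h2⟩ ⟨c.1, h1⟩ := by
  obtain ⟨e, he, hp, hq'⟩ := exists_lb hω hc
  have h1 : c.1 ∈ PL Λ := hp ▸ dp_mem_PL e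
  rcases side_cases hq with h | h
  · subst h
    exact ⟨h1, h1, Relation.ReflTransGen.refl, Relation.ReflTransGen.refl⟩
  · rw [← hq'] at h
    subst h
    have hdA : dA e = {(⟨c.1, h1⟩ : PV Λ), ⟨dq e, dq_mem_PL e⟩} := by
      rw [dA_pair]
      have : (⟨dp e, dp_mem_PL e⟩ : PV Λ) = ⟨c.1, h1⟩ := Subtype.ext hp
      rw [this]
    refine ⟨h1, dq_mem_PL e, Relation.ReflTransGen.single ⟨e, he, hdA⟩,
      Relation.ReflTransGen.single ⟨e, he, ?_⟩⟩
    rw [hdA, Finset.pair_comm]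

/-- The plaquettes of touching broken bonds are connected. -/
lemma cn_touch {ω : Cfg} (hω : ω ∈ confs Λ tt) {a c : Bond} (ha : Broken ω a) (hc : Broken ω c)
    (h : Touch a c) : ∃ (h1 : a.1 ∈ PL Λ) (h2 : c.1 ∈ PL Λ),
      Cn dA (bk Λ ω) ⟨a.1, h1⟩ ⟨c.1, h2⟩ := by
  obtain ⟨q, h1, h2⟩ := h
  obtain ⟨a1, a2, a3, -⟩ := cn_side hω ha h1
  obtain ⟨b1, b2, -, b4⟩ := cn_side hω hc h2
  exact ⟨a1, b1, a3.trans b4⟩

end

/-- Two plaquettes joined by a contour which joins a window to a large distance. -/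
lemma reach_cn {N M K L : ℤ} (hKL : K ≤ L) {ω : Cfg} (hω : ω ∈ confs (box N M) tt)
    (h : Reach K L ω) : ∃ p p' : PV (box N M), (|p.1.1| ≤ K ∧ |p.1.2| ≤ K) ∧
      ((|p'.1.1| ≤ L + 1 ∧ |p'.1.2| ≤ L + 1) ∧ ¬ (|p'.1.1| ≤ L ∧ |p'.1.2| ≤ L)) ∧
      Cn dA (bk (box N M) ω) p p' := by
  obtain ⟨b, b', hb, hb', hc⟩ := h
  have key : ∀ c : Bond, Relation.ReflTransGen (fun a c => Broken ω a ∧ Broken ω c ∧ Touch a c ∧
      Wn (L + 1) a ∧ Wn (L + 1) c) b c → c = b ∨ (Wn (L + 1) c ∧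
        ∃ (h1 : b.1 ∈ PL (box N M)) (h2 : c.1 ∈ PL (box N M)),
          Cn dA (bk (box N M) ω) ⟨b.1, h1⟩ ⟨c.1, h2⟩) := by
    intro c hc
    induction hc with
    | refl => exact Or.inl rfl
    | @tail c d _ hcd ih =>
      right
      obtain ⟨u1, u2, u3⟩ := cn_touch hω hcd.1 hcd.2.1 hcd.2.2.1
      refine ⟨hcd.2.2.2.2, ?_⟩
      rcases ih with rfl | ⟨_, v1, v2, v3⟩
      · exact ⟨u1, u2, u3⟩
      · exact ⟨v1, u2, v3.trans u3⟩
  rcases key b' hc with h1 | ⟨h1, h2, h3, h4⟩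
  · exact absurd (h1 ▸ wn_mono hKL hb) hb'
  · exact ⟨⟨b.1, h2⟩, ⟨b'.1, h3⟩, hb, ⟨h1, hb'⟩, h4⟩

/-- Connection probability. -/
lemma cn_prob {N M : ℤ} {β J : ℝ} (hβ : 0 ≤ β) (hJ : 1 ≤ J) {p p' : PV (box N M)}
    (hp : p ≠ p') : avg β (kap J) (box N M) tt
      (fun ω => if Cn dA (bk (box N M) ω) p p' then 1 else 0) ≤ D2 β J N M p p' := by
  have h1 := avg_bk (N := N) (M := M) β (kap J) (fun F => if Cn dA F p p' then 1 else 0)
  rw [h1]
  unfold D2
  refine div_le_div_of_nonneg_right ?_ (ZE_empty_pos β (kap J)).le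
  have hx0 : ∀ e : LB (box N M), 0 ≤ xe β (kap J) e := fun e => (Real.exp_pos _).le
  have hx1 : ∀ e : LB (box N M), xe β (kap J) e ≤ 1 := by
    intro e
    unfold xe
    rw [Real.exp_le_one_iff, neg_nonpos]
    refine mul_nonneg hβ (lk_nonneg (fun i => ?_) e)
    exact kap_nonneg (by linarith) i
  have h2 := conn_le (dA (Λ := box N M)) dA_card hx0 hx1 hp
  refine le_trans (le_of_eq ?_) h2
  have h3 : ∀ F : Finset (LB (box N M)), (∏ e ∈ F, xe β (kap J) e) *
      (if Cn dA F p p' then (1 : ℝ) else 0) =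
      if Cn dA F p p' then ∏ e ∈ F, xe β (kap J) e else 0 := by
    intro F
    split_ifs
    · rw [mul_one]
    · rw [mul_zero]
  rw [Finset.sum_congr rfl fun F _ => h3 F, ← Finset.sum_filter, Finset.filter_filter]
  rfl

/-- The number of plaquettes in a square. -/
lemma card_sq {Λ : Finset Site} {R : ℤ} (hR : 0 ≤ R) :
    ((Finset.univ.filter (fun p : PV Λ => |p.1.1| ≤ R ∧ |p.1.2| ≤ R)).card : ℝ) ≤
      (2 * (R : ℝ) + 1) ^ 2 := by
  have h1 : (Finset.univ.filter (fun p : PV Λ => |p.1.1| ≤ R ∧ |p.1.2| ≤ R)).image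
      Subtype.val ⊆ Finset.Icc (-R) R ×ˢ Finset.Icc (-R) R := by
    intro i hi
    rw [Finset.mem_image] at hi
    obtain ⟨p, hp, rfl⟩ := hi
    rw [Finset.mem_filter] at hp
    rw [Finset.mem_product, Finset.mem_Icc, Finset.mem_Icc]
    exact ⟨abs_le.1 hp.2.1, abs_le.1 hp.2.2⟩
  have h2 := Finset.card_le_card h1
  rw [Finset.card_image_of_injective _ Subtype.val_injective, Finset.card_product,
    Int.card_Icc] at h2
  have h3 : (((R + 1 - -R).toNat : ℕ) : ℝ) = 2 * (R : ℝ) + 1 := by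
    have h4 : (((R + 1 - -R).toNat : ℕ) : ℤ) = 2 * R + 1 := by
      rw [Int.toNat_of_nonneg (by omega)]
      ring
    exact_mod_cast h4
  have h5 : ((Finset.univ.filter (fun p : PV Λ => |p.1.1| ≤ R ∧ |p.1.2| ≤ R)).card : ℝ) ≤
      (((R + 1 - -R).toNat * (R + 1 - -R).toNat : ℕ) : ℝ) := by exact_mod_cast h2
  rw [Nat.cast_mul, h3] at h5
  rw [sq]
  exact h5

end WI2

open WI2 in
theorem reach_prob {β₁ β J : ℝ} (h0 : 0 ≤ β₁) (h : β₁ ≤ β) (hJ : 1 ≤ J) {K L N M : ℤ}
    (hK : 0 ≤ K) (hKL : K ≤ L) (hN : 0 ≤ N) (hM : 1 ≤ M) :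
    avg β (kap J) (box N M) tt (fun ω => if Reach K L ω then 1 else 0) ≤
      (2 * (K : ℝ) + 1) ^ 2 * (2 * L + 3) ^ 2 *
        Real.exp (-((β - β₁) * mag β₁ ^ 2 * (L + 1 - K))) := by
  set P1 := Finset.univ.filter (fun p : PV (box N M) => |p.1.1| ≤ K ∧ |p.1.2| ≤ K) with hP1
  set P2 := Finset.univ.filter (fun p : PV (box N M) => |p.1.1| ≤ L + 1 ∧ |p.1.2| ≤ L + 1) with hP2
  set P3 := P2.filter (fun p : PV (box N M) => ¬ (|p.1.1| ≤ L ∧ |p.1.2| ≤ L)) with hP3
  set c := (β - β₁) * mag β₁ ^ 2 with hc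
  have hc0 : 0 ≤ c := mul_nonneg (by linarith) (sq_nonneg _)
  have step1 : avg β (kap J) (box N M) tt (fun ω => if Reach K L ω then 1 else 0) ≤
      avg β (kap J) (box N M) tt (fun ω => ∑ p ∈ P1, ∑ p' ∈ P3,
        if Cn dA (bk (box N M) ω) p p' then (1 : ℝ) else 0) := by
    refine avg_mono fun ω hω => ?_
    have hn : ∀ p p' : PV (box N M), (0 : ℝ) ≤ if Cn dA (bk (box N M) ω) p p' then 1 else 0 := by
      intro p p'
      split_ifs <;> norm_num
    split_ifs with hR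
    · obtain ⟨p, p', hp, hp', hcn⟩ := reach_cn hKL hω hR
      have m1 : p ∈ P1 := by
        rw [hP1, Finset.mem_filter]
        exact ⟨Finset.mem_univ _, hp⟩
      have m2 : p' ∈ P3 := by
        rw [hP3, hP2, Finset.mem_filter, Finset.mem_filter]
        exact ⟨⟨Finset.mem_univ _, hp'.1⟩, hp'.2⟩
      have s1 : (1 : ℝ) ≤ ∑ p' ∈ P3, if Cn dA (bk (box N M) ω) p p' then (1 : ℝ) else 0 := by
        have := Finset.single_le_sum (f := fun p' : PV (box N M) =>
          if Cn dA (bk (box N M) ω) p p' then (1 : ℝ) else 0) (fun q _ => hn p q) m2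
        simp only [if_pos hcn] at this
        exact this
      refine s1.trans ?_
      exact Finset.single_le_sum (f := fun p : PV (box N M) => ∑ p' ∈ P3,
        if Cn dA (bk (box N M) ω) p p' then (1 : ℝ) else 0)
        (fun q _ => Finset.sum_nonneg fun q' _ => hn q q') m1
    · exact Finset.sum_nonneg fun q _ => Finset.sum_nonneg fun q' _ => hn q q'
  refine step1.trans ?_
  rw [avg_sum P1 (fun p ω => ∑ p' ∈ P3, if Cn dA (bk (box N M) ω) p p' then (1 : ℝ) else 0)]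
  have step2 : ∀ p ∈ P1, ∀ p' ∈ P3, avg β (kap J) (box N M) tt
      (fun ω => if Cn dA (bk (box N M) ω) p p' then (1 : ℝ) else 0) ≤
        Real.exp (-(c * (L + 1 - K))) := by
    intro p hp p' hp'
    rw [hP1, Finset.mem_filter] at hp
    rw [hP3, hP2, Finset.mem_filter, Finset.mem_filter] at hp'
    obtain ⟨-, a1, a2⟩ := hp
    obtain ⟨-, hn⟩ := hp'
    have hdist : L + 1 - K ≤ max |p.1.1 - p'.1.1| |p.1.2 - p'.1.2| := by
      rw [le_max_iff]
      rw [abs_le] at a1 a2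
      by_cases h5 : |p'.1.1| ≤ L
      · right
        have h6 : ¬ |p'.1.2| ≤ L := fun h6 => hn ⟨h5, h6⟩
        rw [not_le, lt_abs] at h6
        rw [le_abs]
        omega
      · left
        rw [not_le, lt_abs] at h5
        rw [le_abs]
        omega
    have hne : p ≠ p' := by
      intro h7
      rw [h7, sub_self, sub_self, abs_zero, max_self] at hdist
      omega
    refine (cn_prob (h0.trans h) hJ hne).trans ((two_decay h0 h hJ hN hM hne).trans ?_)
    apply Real.exp_le_exp.2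
    rw [neg_le_neg_iff]
    apply mul_le_mul_of_nonneg_left _ hc0
    exact_mod_cast hdist
  have hE : (0 : ℝ) < Real.exp (-(c * (L + 1 - K))) := Real.exp_pos _
  have step3 : ∑ p ∈ P1, avg β (kap J) (box N M) tt
      (fun ω => ∑ p' ∈ P3, if Cn dA (bk (box N M) ω) p p' then (1 : ℝ) else 0) ≤
      ∑ p ∈ P1, ∑ p' ∈ P3, Real.exp (-(c * (L + 1 - K))) := by
    refine Finset.sum_le_sum fun p hp => ?_
    rw [avg_sum P3 (fun p' ω => if Cn dA (bk (box N M) ω) p p' then (1 : ℝ) else 0)]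
    exact Finset.sum_le_sum fun p' hp' => step2 p hp p' hp'
  refine step3.trans ?_
  rw [Finset.sum_const, Finset.sum_const, nsmul_eq_mul, nsmul_eq_mul, ← mul_assoc]
  apply mul_le_mul_of_nonneg_right _ hE.le
  have c1 : (P1.card : ℝ) ≤ (2 * (K : ℝ) + 1) ^ 2 := card_sq hK
  have c2 : (P3.card : ℝ) ≤ (2 * (L : ℝ) + 3) ^ 2 := by
    have d1 : (P3.card : ℝ) ≤ P2.card := by exact_mod_cast Finset.card_filter_le _ _
    have d2 := card_sq (Λ := box N M) (R := L + 1) (by omega)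
    refine d1.trans (d2.trans (le_of_eq ?_))
    push_cast
    ring
  exact mul_le_mul c1 c2 (Nat.cast_nonneg _) (sq_nonneg _)

end Pool.Agent.Helper49.DL
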